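import Pool.Agent.H17R.Null
import Pool.Agent.H92.GT.ProjPoint
import Pool.Agent.H92.GT.Index

/-!
# The generic point and the centre of a prime divisor

The generic point of the variety given by `P` in the affine coordinates `x i / x i₀` is
`fun i => ratio P i i₀`.

PROOFS.  `ratio_point`: as `Pool.Agent.H92.GT.Proj.proj_point` (the point constructed there is
`fun i => ratio P i i₀`).
`ratio_change`: `ratio P i i₀ = ratio P i₁ i₀ * ratio P i i₁`, then `aeval_scale`.
`exists_center`: among the `i` with `ratio P i i₀ ≠ 0` choose `i₁` with `E.ord (ratio P i i₀)`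
minimal.
`ord_forms`: `X i₁ ^ n ≡ ∑ j, c j * A j` modulo `P` (`exists_degree_bound`), evaluate at
`ratio P · i₁` (`ratio P i₁ i₁ = 1`): `1 = ∑ j, c j (..) * A j (..)`; if all `A j (..)` had positive
order then `0 = ord 1 > 0`.
-/

open MvPolynomial
open Pool.Agent.H17 (PN VanishesAt vanishesAt_mk_iff)
open Pool.Agent.H17GT (coordFun functionField)
open Pool.Agent.H17LG.Variety (FunField ratio OnBoundary)
open Pool.Agent.H23.Fano (PrimeDivisorOver)
open Pool.Agent.H62.FC (Homog)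

noncomputable section

namespace Pool.Agent.H17R

variable {N : ℕ} {P : Ideal (MvPolynomial (Fin (N + 1)) ℂ)}

/-- The value of `Q` at the generic point, in the affine coordinates `x i / x i₀`. -/
def gen (P : Ideal (MvPolynomial (Fin (N + 1)) ℂ)) [P.IsPrime] (i₀ : Fin (N + 1))
    (Q : MvPolynomial (Fin (N + 1)) ℂ) : FunField P :=
  aeval (fun i => ratio P i i₀) Q

theorem ratio_self [P.IsPrime] {i₀ : Fin (N + 1)} (h : coordFun P i₀ ≠ 0) : ratio P i₀ i₀ = 1 := by
  apply Subtype.ext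
  exact div_self h

theorem adjoin_ratio [P.IsPrime] {i₀ : Fin (N + 1)} (h : coordFun P i₀ ≠ 0) :
    IntermediateField.adjoin ℂ (Set.range fun i => ratio P i i₀) = ⊤ := by
  classical
  set x : Fin (N + 1) → functionField P := fun i => ratio P i i₀ with hx
  have hratio : ∀ i j, ((x i / x j : functionField P) :
      FractionRing (MvPolynomial (Fin (N + 1)) ℂ ⧸ P)) = coordFun P i / coordFun P j := by
    intro i j
    have h1 : ((x i / x j : functionField P) :
      FractionRing (MvPolynomial (Fin (N + 1)) ℂ ⧸ P)) =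
        (coordFun P i / coordFun P i₀) / (coordFun P j / coordFun P i₀) := by
      rw [hx]
      rfl
    rw [h1, div_div_div_cancel_right₀ h]
  have hgen : IntermediateField.adjoin ℂ {y | ∃ i j, y = x i / x j} = ⊤ := by
    rw [← IntermediateField.lift_inj, IntermediateField.lift_adjoin, IntermediateField.lift_top]
    conv_rhs => rw [functionField]
    congr 1
    ext y
    constructor
    · rintro ⟨y', ⟨i, j, rfl⟩, rfl⟩
      exact ⟨i, j, hratio i j⟩
    · rintro ⟨i, j, rfl⟩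
      exact ⟨x i / x j, ⟨i, j, rfl⟩, hratio i j⟩
  change IntermediateField.adjoin ℂ (Set.range x) = ⊤
  rw [eq_top_iff, ← hgen, IntermediateField.adjoin_le_iff]
  rintro y ⟨i, j, rfl⟩
  exact div_mem (IntermediateField.subset_adjoin _ _ ⟨i, rfl⟩)
    (IntermediateField.subset_adjoin _ _ ⟨j, rfl⟩)

theorem gen_eq_zero_iff [P.IsPrime] {i₀ : Fin (N + 1)} (h : coordFun P i₀ ≠ 0) {n : ℕ}
    {Q : MvPolynomial (Fin (N + 1)) ℂ} (hQ : Q.IsHomogeneous n) : gen P i₀ Q = 0 ↔ Q ∈ P := by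
  set x : Fin (N + 1) → functionField P := fun i => ratio P i i₀ with hx
  have h0 : gen P i₀ Q = (aeval x Q : functionField P) := rfl
  have h1 : ((aeval x Q : functionField P) : FractionRing (MvPolynomial (Fin (N + 1)) ℂ ⧸ P)) =
      aeval (fun i => (coordFun P i₀)⁻¹ * coordFun P i) Q := by
    have h3 : ((functionField P).val (aeval x Q)) =
        aeval (fun i => (functionField P).val (x i)) Q := by
      rw [← MvPolynomial.comp_aeval]
      rfl
    change (functionField P).val (aeval x Q) = _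
    rw [h3]
    congr 2
    funext i
    change coordFun P i / coordFun P i₀ = _
    rw [div_eq_inv_mul]
  rw [Pool.Agent.H92.GT.Proj.aeval_scale hQ] at h1
  rw [← Pool.Agent.H92.GT.Proj.aeval_coordFun_eq_zero_iff, h0]
  constructor
  · intro h2
    have h3 : ((aeval x Q : functionField P) :
        FractionRing (MvPolynomial (Fin (N + 1)) ℂ ⧸ P)) = 0 := by
      rw [show (aeval x Q : functionField P) = 0 from h2]
      rfl
    rw [h3] at h1
    exact (mul_eq_zero.1 h1.symm).resolve_left (pow_ne_zero _ (inv_ne_zero h))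
  · intro h2
    apply Subtype.ext
    rw [h1, h2, mul_zero]
    rfl

theorem ratio_ne_zero_iff [P.IsPrime] {i i₀ : Fin (N + 1)} (h : coordFun P i₀ ≠ 0) :
    ratio P i i₀ ≠ 0 ↔ coordFun P i ≠ 0 := by
  have h1 : ratio P i i₀ = 0 ↔ coordFun P i / coordFun P i₀ = 0 :=
    ⟨fun h2 => congrArg Subtype.val h2, fun h2 => Subtype.ext h2⟩
  rw [Ne, h1, div_eq_zero_iff, not_or]
  exact ⟨fun h2 => h2.1, fun h2 => ⟨h2, h⟩⟩

private theorem ratio_change [P.IsPrime] {i i₀ i₁ : Fin (N + 1)} (h₁ : coordFun P i₁ ≠ 0) :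
    ratio P i i₀ = ratio P i₁ i₀ * ratio P i i₁ := by
  apply Subtype.ext
  change coordFun P i / coordFun P i₀ =
    coordFun P i₁ / coordFun P i₀ * (coordFun P i / coordFun P i₁)
  rw [div_mul_div_comm, mul_comm (coordFun P i₁) (coordFun P i), mul_div_mul_right _ _ h₁]

theorem gen_change [P.IsPrime] {i₀ i₁ : Fin (N + 1)} (h₁ : coordFun P i₁ ≠ 0) {n : ℕ}
    {Q : MvPolynomial (Fin (N + 1)) ℂ} (hQ : Q.IsHomogeneous n) :
    gen P i₀ Q = ratio P i₁ i₀ ^ n * gen P i₁ Q := by
  unfold gen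
  rw [← Pool.Agent.H92.GT.Proj.aeval_scale hQ]
  congr 2
  funext i
  exact ratio_change h₁

theorem coordFun_ne_zero_iff [P.IsPrime] {i : Fin (N + 1)} : coordFun P i ≠ 0 ↔ X i ∉ P := by
  rw [Ne, not_iff_not, ← Pool.Agent.H92.GT.Proj.aeval_coordFun_eq_zero_iff, aeval_X]

theorem exists_center [P.IsPrime] {w : ℕ} (E : PrimeDivisorOver (FunField P) w)
    {i₀ : Fin (N + 1)} (h : coordFun P i₀ ≠ 0) :
    ∃ i₁, coordFun P i₁ ≠ 0 ∧ ∀ i, 0 ≤ E.ord (ratio P i i₁) := by
  obtain ⟨i₁, -, h1⟩ := Finset.exists_min_image Finset.univ (fun i => E.ord (ratio P i i₀))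
    Finset.univ_nonempty
  have h2 : E.ord (ratio P i₁ i₀) ≤ 0 := by
    have h3 := h1 i₀ (Finset.mem_univ _)
    rwa [ratio_self h, E.ord.map_one] at h3
  have h3 : E.ord (ratio P i₁ i₀) ≠ ⊤ := ne_top_of_le_ne_top WithTop.zero_ne_top h2
  have h4 : coordFun P i₁ ≠ 0 := by
    rw [← ratio_ne_zero_iff h]
    intro h5
    rw [h5, E.ord.map_zero] at h3
    exact h3 rfl
  refine ⟨i₁, h4, fun i => ?_⟩
  have h5 := h1 i (Finset.mem_univ _)
  rw [ratio_change (i := i) h4, E.ord.map_mul] at h5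
  exact (WithTop.add_le_add_iff_left h3).1 (by rwa [add_zero])

/-- The forms have non-negative orders at the centre. -/
theorem ord_gen_nonneg [P.IsPrime] {w : ℕ} (E : PrimeDivisorOver (FunField P) w)
    {i₁ : Fin (N + 1)} (h : ∀ i, 0 ≤ E.ord (ratio P i i₁)) (Q : MvPolynomial (Fin (N + 1)) ℂ) :
    0 ≤ E.ord (gen P i₁ Q) := by
  unfold gen
  induction Q using MvPolynomial.induction_on with
  | C a =>
    rw [aeval_C]
    exact E.ord_const a
  | add p q hp hq =>
    rw [map_add]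
    exact (le_min hp hq).trans (E.ord.map_add _ _)
  | mul_X p i hp =>
    rw [map_mul, aeval_X, E.ord.map_mul]
    exact add_nonneg hp (h i)

/-- Forms without common zero: some of them is a unit at the centre. -/
theorem exists_ord_gen_eq_zero [P.IsPrime] (hP : Homog P) {q a : ℕ}
    {A : Fin q → MvPolynomial (Fin (N + 1)) ℂ} (hA : ∀ j, (A j).IsHomogeneous a)
    (h0 : ∀ x : PN N, (∀ Q ∈ P, ∀ n, Q.IsHomogeneous n → VanishesAt Q x) →
      ∃ j, ¬ VanishesAt (A j) x)
    {w : ℕ} (E : PrimeDivisorOver (FunField P) w) {i₁ : Fin (N + 1)} (h1 : coordFun P i₁ ≠ 0)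
    (h : ∀ i, 0 ≤ E.ord (ratio P i i₁)) : ∃ j, E.ord (gen P i₁ (A j)) = 0 := by
  obtain ⟨m₀, ham, hm⟩ := exists_degree_bound hP hA h0
  have hX : ((X i₁ : MvPolynomial (Fin (N + 1)) ℂ) ^ m₀).IsHomogeneous m₀ := by
    simpa using (isHomogeneous_X ℂ i₁).pow m₀
  obtain ⟨c, hc, hcP⟩ := hm m₀ le_rfl _ hX
  have hhom : ((X i₁ : MvPolynomial (Fin (N + 1)) ℂ) ^ m₀ - ∑ j, c j * A j).IsHomogeneous m₀ := by
    refine hX.sub (IsHomogeneous.sum _ _ _ fun j _ => ?_)
    have h2 := (hc j).mul (hA j)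
    rwa [Nat.sub_add_cancel ham] at h2
  have h2 := (gen_eq_zero_iff h1 hhom).2 hcP
  have h3 : (1 : FunField P) = ∑ j, gen P i₁ (c j) * gen P i₁ (A j) := by
    unfold gen at h2 ⊢
    rw [map_sub, map_pow, aeval_X, ratio_self h1, one_pow, map_sum, sub_eq_zero] at h2
    rw [h2]
    exact Finset.sum_congr rfl fun j _ => map_mul _ _ _
  by_contra hcon
  push Not at hcon
  have h4 : 0 < E.ord (∑ j, gen P i₁ (c j) * gen P i₁ (A j)) := by
    refine E.ord.map_lt_sum WithTop.zero_ne_top fun j _ => ?_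
    rw [E.ord.map_mul]
    have h5 : 0 < E.ord (gen P i₁ (A j)) :=
      lt_of_le_of_ne (ord_gen_nonneg E h (A j)) (Ne.symm (hcon j))
    exact lt_of_lt_of_le h5 (le_add_of_nonneg_left (ord_gen_nonneg E h (c j)))
  rw [← h3, E.ord.map_one] at h4
  exact lt_irrefl _ h4

/-- Outside the boundary the forms `H m` are units at the centre. -/
theorem ord_gen_H [P.IsPrime] {b : ℕ} {H : Fin b → MvPolynomial (Fin (N + 1)) ℂ} {w : ℕ}
    {E : PrimeDivisorOver (FunField P) w} (hE : ¬ OnBoundary P H E) {i₁ : Fin (N + 1)}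
    (h1 : coordFun P i₁ ≠ 0) (h : ∀ i, 0 ≤ E.ord (ratio P i i₁)) (m : Fin b) :
    E.ord (gen P i₁ (H m)) = 0 := by
  refine le_antisymm ?_ (ord_gen_nonneg E h (H m))
  by_contra hcon
  exact hE ⟨i₁, h1, h, m, not_le.1 hcon⟩

end Pool.Agent.H17R
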