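import Pool.Agent.H62.FC.Defs
import Pool.Agent.H62.FC.NevDefs

/-!
# Varieties with a relation between forms: definitions

Locally closed subvarieties of `ℙ^N`, relations between forms on them, and the four properties of
the Green–Griffiths–Lang conjecture with a given exceptional set.
-/

open MvPolynomial Topology Filter
open Pool.Agent.H17 (PN VanishesAt ZariskiClosedIn HolomorphicInto puncturedDisc)
open Pool.Agent.H17LG.Variety (FunField OnBoundary IsLogGeneralType)
open Pool.Agent.H62.FC (Homog)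

noncomputable section

namespace Pool.Agent.H17R

variable {N : ℕ}

/-- The points of the zero locus of the homogeneous ideal `P` at which none of the forms `H m`
vanishes. -/
def openVar (P : Ideal (MvPolynomial (Fin (N + 1)) ℂ)) {b : ℕ}
    (H : Fin b → MvPolynomial (Fin (N + 1)) ℂ) : Set (PN N) :=
  {x | (∀ Q ∈ P, ∀ n, Q.IsHomogeneous n → VanishesAt Q x) ∧ ∀ m, ¬ VanishesAt (H m) x}

/-- The points of `X` at which some proper non-empty partial sum of the forms `T i` vanishes. -/
def subsumLocus (X : Set (PN N)) {ι : Type} [Fintype ι] (T : ι → MvPolynomial (Fin (N + 1)) ℂ) :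
    Set (PN N) :=
  {x | x ∈ X ∧ ∃ S : Finset ι, S.Nonempty ∧ S ≠ Finset.univ ∧ VanishesAt (∑ i ∈ S, T i) x}

/-- The four properties of the Green–Griffiths–Lang conjecture hold for the variety
`X = openVar P H`, with the exceptional set `Ξ`: the set `Ξ` is a proper Zariski closed subset of
`X`; the variety `X` is of log general type; every holomorphic map from the punctured disc to `X`,
not into `Ξ`, extends to the disc; every non-constant holomorphic map from `ℂ` to `X` is a map into
`Ξ`; and every closed subvariety of `X` of positive dimension, not contained in `Ξ`, is of log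
general type.  (The variety and its closed subvarieties are given by homogeneous prime ideals which
do not contain the forms `H m`, and the dimension is the transcendence degree `w` of the function
field.) -/
structure GGLWith (P : Ideal (MvPolynomial (Fin (N + 1)) ℂ)) [P.IsPrime] {b : ℕ}
    (H : Fin b → MvPolynomial (Fin (N + 1)) ℂ) (Ξ : Set (PN N)) : Prop where
  closed : ZariskiClosedIn (openVar P H) Ξ
  ne : Ξ ≠ openVar P H
  logGeneralType : ∀ w, 1 ≤ w → (∃ z : Fin w → FunField P, IsTranscendenceBasis ℂ z) →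
    IsLogGeneralType (OnBoundary P H (k := w))
  picard : ∀ f : ℂ → PN N, HolomorphicInto f puncturedDisc →
    (∀ z ∈ puncturedDisc, f z ∈ openVar P H) → (∃ z ∈ puncturedDisc, f z ∉ Ξ) →
    ∃ g : ℂ → PN N, HolomorphicInto g (Metric.ball 0 1) ∧ ∀ z ∈ puncturedDisc, g z = f z
  brody : ∀ f : ℂ → PN N, HolomorphicInto f Set.univ → (∀ z, f z ∈ openVar P H) →
    (∃ z w, f z ≠ f w) → ∀ z, f z ∈ Ξ
  strongly : ∀ (Q : Ideal (MvPolynomial (Fin (N + 1)) ℂ)) [Q.IsPrime], Homog Q → P ≤ Q →
    (∀ m, H m ∉ Q) → ¬ openVar Q H ⊆ Ξ → ∀ w, 1 ≤ w →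
    (∃ z : Fin w → FunField Q, IsTranscendenceBasis ℂ z) →
    IsLogGeneralType (OnBoundary Q H (k := w))

/-- The forms `T i` of degree `d` satisfy `∑ i, T i = 0` on the variety given by `P`, no proper
partial sum of them is zero on it, and `T i = (∏ j, A j ^ e j) * (∏ m, H m ^ f m) * G i`, where the
forms `A j` of degree `a` have no common zero on the variety, the forms `G i` of degree `δ i` are
arbitrary, and for every `j` some `T i` is equal to `A j ^ e * G i`.  The forms `A j`, `j ∈ O`, are
among the forms `H m`. -/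
structure IsRelation (P : Ideal (MvPolynomial (Fin (N + 1)) ℂ)) {b q k : ℕ}
    (H : Fin b → MvPolynomial (Fin (N + 1)) ℂ) (A : Fin q → MvPolynomial (Fin (N + 1)) ℂ)
    (O : Finset (Fin q)) (T G : Fin k → MvPolynomial (Fin (N + 1)) ℂ) (a d : ℕ)
    (δ : Fin k → ℕ) : Prop where
  two_le : 2 ≤ k
  one_le : 1 ≤ a
  homA : ∀ j, (A j).IsHomogeneous a
  homG : ∀ i, (G i).IsHomogeneous (δ i)
  homT : ∀ i, (T i).IsHomogeneous d
  noZero : ∀ x : PN N, (∀ Q ∈ P, ∀ n, Q.IsHomogeneous n → VanishesAt Q x) →
    ∃ j, ¬ VanishesAt (A j) x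
  unit : ∀ j ∈ O, ∃ m, A j = H m
  factor : ∀ i, ∃ (e : Fin q → ℕ) (f : Fin b → ℕ),
    T i = (∏ j, A j ^ e j) * (∏ m, H m ^ f m) * G i
  power : ∀ j, ∃ i e, T i = A j ^ e * G i
  sum : ∑ i, T i ∈ P
  subsum : ∀ S : Finset (Fin k), S.Nonempty → S ≠ Finset.univ → ∑ i ∈ S, T i ∉ P

/-- The points of `Y` at which a proper non-empty partial sum of the monomials of `F` vanishes. -/
def monomialLocus (Y : Set (PN N)) (F : MvPolynomial (Fin (N + 1)) ℂ) : Set (PN N) :=
  {x | x ∈ Y ∧ ∃ S ⊂ F.support, S.Nonempty ∧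
    VanishesAt (∑ m ∈ S, monomial m (F.coeff m)) x}

/-- The hypersurface `F = 0` in `ℙ^N` is smooth: the form `F` and its partial derivatives have no
common zero. -/
def IsSmooth (F : MvPolynomial (Fin (N + 1)) ℂ) : Prop :=
  ∀ v : Fin (N + 1) → ℂ, v ≠ 0 → eval v F = 0 → ∃ i, eval v (pderiv i F) ≠ 0

/-- The number `M` bounds the loss of a relation with `k` terms: `M = 1, 3, 6, 12, 20, 30` for
`k = 3, 4, 5, 6, 7, 8`. -/
def LossBound (k M : ℕ) : Prop := 1 ≤ M ∧ ∀ c ≤ k, (k + 1 - c) * (c - 1) * (c - 2) ≤ 2 * M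

/-- The degree `d` of the relation is large. -/
def LargeDegree (M a d q : ℕ) (O : Finset (Fin q)) {k : ℕ} (δ : Fin k → ℕ) : Prop :=
  M * (a * (q - O.card) + ∑ i, δ i) + ∑ i, δ i < d

end Pool.Agent.H17R
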