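import Pool.Agent.H17R.Defs
import Pool.Agent.H62.FC.PicardBrody

/-!
# The Brody property from the Picard property

PROOF: see the proof of `brody` in `Pool.Agent.H62.FC.PicardBrody` (`z ↦ f (exp (1 / z))`); a point
outside `Ξ` near `0` exists since `Ξ` is Zariski closed in `Y`.
-/

open MvPolynomial Topology Filter MeasureTheory
open Pool.Agent.H92.GGL (ordZ)
open Pool.Agent.H17 (PN VanishesAt ZariskiClosedIn HolomorphicInto puncturedDisc vanishesAt_mk_iff)
open Pool.Agent.H62.FC (Homog MeroPunct LocFin cnt mean nevT punctMero_of_nevT exists_extension)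

noncomputable section

namespace Pool.Agent.H17R

variable {N : ℕ}

private theorem vanish_local {f : ℂ → PN N} {s : ℂ} {φ : ℂ → Fin (N + 1) → ℂ}
    (hφ : AnalyticAt ℂ φ s)
    (he : ∀ᶠ z in 𝓝 s, ∃ h : φ z ≠ 0, f z = Projectivization.mk ℂ (φ z) h)
    {Q : MvPolynomial (Fin (N + 1)) ℂ} {m : ℕ} (hQ : Q.IsHomogeneous m) :
    (∀ᶠ z in 𝓝 s, VanishesAt Q (f z)) ∨ (∀ᶠ z in 𝓝[≠] s, ¬ VanishesAt Q (f z)) := by
  have h1 : AnalyticAt ℂ (fun z => aeval (φ z) Q) s :=
    AnalyticAt.aeval_mvPolynomial (fun i => analyticAt_pi_iff.mp hφ i) Q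
  rcases h1.eventually_eq_zero_or_eventually_ne_zero with h | h
  · left
    filter_upwards [h, he] with z hz hfz
    obtain ⟨h2, h3⟩ := hfz
    rw [h3, Pool.Agent.H17.vanishesAt_mk_iff hQ]
    exact hz
  · right
    filter_upwards [h, he.filter_mono nhdsWithin_le_nhds] with z hz hfz
    obtain ⟨h2, h3⟩ := hfz
    rw [h3, Pool.Agent.H17.vanishesAt_mk_iff hQ]
    exact hz

private theorem eq_of_sep {p q : PN N} (h : Pool.Agent.H17.sep p q = 0) : p = q := by
  have h1 := Pool.Agent.H17.eq_of_sepv_eq_zero p.rep_nonzero q.rep_nonzero h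
  rwa [p.mk_rep, q.mk_rep] at h1

theorem brody_of_picard {Y Ξ : Set (PN N)} (hΞ : ZariskiClosedIn Y Ξ)
    (hpic : ∀ f : ℂ → PN N, HolomorphicInto f puncturedDisc → (∀ z ∈ puncturedDisc, f z ∈ Y) →
      (∃ z ∈ puncturedDisc, f z ∉ Ξ) →
      ∃ g : ℂ → PN N, HolomorphicInto g (Metric.ball 0 1) ∧ ∀ z ∈ puncturedDisc, g z = f z)
    {f : ℂ → PN N} (hf : HolomorphicInto f Set.univ) (hfX : ∀ z, f z ∈ Y)
    (hne : ∃ z w, f z ≠ f w) (z : ℂ) : f z ∈ Ξ := by
  by_contra hz1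
  -- a point different from `0` outside the exceptional set
  obtain ⟨w₀, hw₀, hw₀'⟩ : ∃ w, w ≠ 0 ∧ f w ∉ Ξ := by
    by_cases hz0 : z = 0
    · subst hz0
      obtain ⟨S, hS, hS'⟩ := hΞ
      have h1 : ∃ Q ∈ S, ¬ VanishesAt Q (f 0) := by
        by_contra hcon
        push Not at hcon
        apply hz1
        rw [hS']
        exact ⟨hfX 0, hcon⟩
      obtain ⟨Q, hQS, hQ0⟩ := h1
      obtain ⟨m, hQ⟩ := hS Q hQS
      obtain ⟨φ, hφ, he⟩ := hf 0 (Set.mem_univ 0)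
      rcases vanish_local hφ he hQ with h | h
      · exact absurd h.self_of_nhds hQ0
      · obtain ⟨w, hw1, hw2⟩ := (h.and self_mem_nhdsWithin).exists
        refine ⟨w, hw2, fun hw3 => hw1 ?_⟩
        rw [hS'] at hw3
        exact hw3.2 Q hQS
    · exact ⟨z, hz0, hz1⟩
  have hseq : ∀ w : ℂ, w ≠ 0 → ∃ zs : ℕ → ℂ, Tendsto zs atTop (𝓝 0) ∧
      ∀ᶠ n in atTop, zs n ∈ puncturedDisc ∧ Complex.exp (zs n)⁻¹ = w := by
    intro w hw
    obtain ⟨zs, h1, h2⟩ := Pool.Agent.H99.Cover.exists_seq_exp_inv w hw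
    refine ⟨zs, h1, ?_⟩
    filter_upwards [h2, h1.eventually (Metric.ball_mem_nhds (0 : ℂ) one_pos)] with n h3 h4
    exact ⟨⟨h4, h3.1⟩, h3.2⟩
  have hgh : HolomorphicInto (fun z => f (Complex.exp z⁻¹)) puncturedDisc := by
    refine Pool.Agent.H17.HolomorphicInto.comp hf (u := fun z => Complex.exp z⁻¹) ?_
      (fun _ _ => Set.mem_univ _)
    intro z hz
    have h1 : z ≠ 0 := hz.2
    exact (analyticAt_inv h1).cexp
  obtain ⟨g, hg, hge⟩ := hpic _ hgh (fun z _ => hfX _) (by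
    obtain ⟨zs, -, h2⟩ := hseq w₀ hw₀
    obtain ⟨n, h3, h4⟩ := h2.exists
    refine ⟨zs n, h3, ?_⟩
    rw [h4]
    exact hw₀')
  -- the map is constant off `0`
  have hconst : ∀ w : ℂ, w ≠ 0 → f w = g 0 := by
    intro w hw
    apply eq_of_sep
    obtain ⟨zs, h1, h2⟩ := hseq w hw
    have h3 := Pool.Agent.H17.tendsto_sep hg (Metric.mem_ball_self one_pos)
    have h4 : Tendsto (fun n => (zs n, (0 : ℂ))) atTop (𝓝 ((0 : ℂ), (0 : ℂ))) :=
      h1.prodMk_nhds tendsto_const_nhds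
    have h5 := h3.comp h4
    refine tendsto_nhds_unique (tendsto_const_nhds.congr' ?_) h5
    filter_upwards [h2] with n hn
    change Pool.Agent.H17.sep (f w) (g 0) = Pool.Agent.H17.sep (g (zs n)) (g 0)
    rw [hge (zs n) hn.1, hn.2]
  have hconst0 : f 0 = g 0 := by
    symm
    apply eq_of_sep
    have h3 := Pool.Agent.H17.tendsto_sep hf (Set.mem_univ (0 : ℂ))
    have h4 : Tendsto (fun w : ℂ => (w, (0 : ℂ))) (𝓝[≠] 0) (𝓝 ((0 : ℂ), (0 : ℂ))) :=
      (tendsto_id.mono_left nhdsWithin_le_nhds).prodMk_nhds tendsto_const_nhds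
    have h5 := h3.comp h4
    refine tendsto_nhds_unique (tendsto_const_nhds.congr' ?_) h5
    filter_upwards [self_mem_nhdsWithin] with w hw
    change Pool.Agent.H17.sep (g 0) (f 0) = Pool.Agent.H17.sep (f w) (f 0)
    rw [hconst w hw]
  have hall : ∀ w, f w = g 0 := by
    intro w
    by_cases hw : w = 0
    · rw [hw]
      exact hconst0
    · exact hconst w hw
  obtain ⟨a, b, hab⟩ := hne
  exact hab ((hall a).trans (hall b).symm)

end Pool.Agent.H17R
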