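import Pool.Agent.H17R.Defs
import Pool.Agent.H62.FC.PicardBrody

/-!
# Forms along a holomorphic map from the punctured disc

Almost everything is in the private lemmas of `Pool.Agent.H62.FC.PicardBrody`
(`preconnected_puncturedDisc`, `vanish_local`, `vanish_dich`, `exists_lift`, `ord_eq_zero_of_ne`,
`quot_mero`, `quot_meroPunct`, `ord_quot`, `eval_quot`), for coordinates; copy and adapt them.

`locFin_vord`: if `vord f Q s ≠ 0` then `Q` vanishes at `f s` (`vord_eq_zero`), and by `NonVan` every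
`s` in the punctured disc has a punctured neighbourhood without such points; the annulus
`r ≤ ‖s‖ ≤ b` is compact.
-/

open MvPolynomial Topology Filter
open Pool.Agent.H92.GGL (ordZ)
open Pool.Agent.H17 (PN VanishesAt HolomorphicInto puncturedDisc vanishesAt_mk_iff)
open Pool.Agent.H62.FC (MeroPunct LocFin)

noncomputable section

namespace Pool.Agent.H17R

variable {N : ℕ}

/-- The form `Q` does not vanish identically along `f`. -/
def NonVan (f : ℂ → PN N) (Q : MvPolynomial (Fin (N + 1)) ℂ) : Prop :=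
  ∀ s ∈ puncturedDisc, ∀ᶠ z in 𝓝[≠] s, ¬ VanishesAt Q (f z)

open Classical in
/-- A local lift of `f` near `s`. -/
def lift (f : ℂ → PN N) (s : ℂ) : ℂ → Fin (N + 1) → ℂ :=
  if h : ∃ φ : ℂ → Fin (N + 1) → ℂ, AnalyticAt ℂ φ s ∧
    ∀ᶠ z in 𝓝 s, ∃ h : φ z ≠ 0, f z = Projectivization.mk ℂ (φ z) h then h.choose else 0

/-- The order of vanishing of the form `Q` along `f` at `s`. -/
def vord (f : ℂ → PN N) (Q : MvPolynomial (Fin (N + 1)) ℂ) (s : ℂ) : ℤ :=
  ordZ (fun z => eval (lift f s z) Q) s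

/-- The form `Q` in the affine coordinates `x l / x i`, along `f`. -/
def val (f : ℂ → PN N) (i : Fin (N + 1)) (Q : MvPolynomial (Fin (N + 1)) ℂ) (z : ℂ) : ℂ :=
  eval (fun l => (f z).rep l / (f z).rep i) Q

private theorem preconnected_puncturedDisc : IsPreconnected puncturedDisc := by
  have h : puncturedDisc = Complex.exp '' {z : ℂ | z.re < 0} := by
    ext z
    constructor
    · rintro ⟨h1, h2⟩
      have h3 : z ≠ 0 := h2
      refine ⟨Complex.log z, ?_, Complex.exp_log h3⟩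
      rw [mem_ball_zero_iff] at h1
      change (Complex.log z).re < 0
      rw [Complex.log_re]
      exact Real.log_neg (norm_pos_iff.mpr h3) h1
    · rintro ⟨w, hw, rfl⟩
      refine ⟨?_, Complex.exp_ne_zero w⟩
      rw [mem_ball_zero_iff, Complex.norm_exp]
      have h1 := Real.exp_lt_exp.mpr hw
      rwa [Real.exp_zero] at h1
  rw [h]
  exact (convex_halfSpace_re_lt 0).isPreconnected.image _ Complex.continuous_exp.continuousOn

private theorem isOpen_puncturedDisc : IsOpen puncturedDisc :=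
  Metric.isOpen_ball.sdiff isClosed_singleton

private theorem mem_puncturedDisc {z : ℂ} : z ∈ puncturedDisc ↔ 0 < ‖z‖ ∧ ‖z‖ < 1 := by
  unfold puncturedDisc
  rw [Set.mem_sdiff, mem_ball_zero_iff, Set.mem_singleton_iff, norm_pos_iff]
  exact and_comm

private theorem vanish_local {f : ℂ → PN N} {s : ℂ} {φ : ℂ → Fin (N + 1) → ℂ}
    (hφ : AnalyticAt ℂ φ s)
    (he : ∀ᶠ z in 𝓝 s, ∃ h : φ z ≠ 0, f z = Projectivization.mk ℂ (φ z) h)
    {Q : MvPolynomial (Fin (N + 1)) ℂ} {m : ℕ} (hQ : Q.IsHomogeneous m) :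
    (∀ᶠ z in 𝓝 s, VanishesAt Q (f z)) ∨ (∀ᶠ z in 𝓝[≠] s, ¬ VanishesAt Q (f z)) := by
  have h1 : AnalyticAt ℂ (fun z => aeval (φ z) Q) s :=
    AnalyticAt.aeval_mvPolynomial (fun i => analyticAt_pi_iff.mp hφ i) Q
  rcases h1.eventually_eq_zero_or_eventually_ne_zero with h | h
  · left
    filter_upwards [h, he] with z hz hfz
    obtain ⟨h2, h3⟩ := hfz
    rw [h3, Pool.Agent.H17.vanishesAt_mk_iff hQ]
    exact hz
  · right
    filter_upwards [h, he.filter_mono nhdsWithin_le_nhds] with z hz hfz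
    obtain ⟨h2, h3⟩ := hfz
    rw [h3, Pool.Agent.H17.vanishesAt_mk_iff hQ]
    exact hz

/-- the identity principle -/
private theorem vanish_dich {f : ℂ → PN N} (hf : HolomorphicInto f puncturedDisc)
    {Q : MvPolynomial (Fin (N + 1)) ℂ} {m : ℕ} (hQ : Q.IsHomogeneous m) :
    (∀ s ∈ puncturedDisc, ∀ᶠ z in 𝓝 s, VanishesAt Q (f z)) ∨
      (∀ s ∈ puncturedDisc, ∀ᶠ z in 𝓝[≠] s, ¬ VanishesAt Q (f z)) := by
  have hou : IsOpen {s | ∀ᶠ z in 𝓝 s, VanishesAt Q (f z)} := isOpen_setOfPred_eventually_nhds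
  have hov : IsOpen {s | ∀ᶠ z in 𝓝[≠] s, ¬ VanishesAt Q (f z)} :=
    isOpen_setOfPred_eventually_nhdsWithin
  have hd : Disjoint {s | ∀ᶠ z in 𝓝 s, VanishesAt Q (f z)}
      {s | ∀ᶠ z in 𝓝[≠] s, ¬ VanishesAt Q (f z)} := by
    rw [Set.disjoint_left]
    intro s hs hs'
    have h1 : ∀ᶠ z in 𝓝 s, VanishesAt Q (f z) := hs
    have h2 : ∀ᶠ z in 𝓝[≠] s, ¬ VanishesAt Q (f z) := hs'
    obtain ⟨z, h3, h4⟩ := ((h1.filter_mono nhdsWithin_le_nhds).and h2).exists
    exact h4 h3
  have hsub : puncturedDisc ⊆ {s | ∀ᶠ z in 𝓝 s, VanishesAt Q (f z)} ∪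
      {s | ∀ᶠ z in 𝓝[≠] s, ¬ VanishesAt Q (f z)} := by
    intro s hs
    obtain ⟨φ, hφ, he⟩ := hf s hs
    exact vanish_local hφ he hQ
  by_cases hne : (puncturedDisc ∩ {s | ∀ᶠ z in 𝓝 s, VanishesAt Q (f z)}).Nonempty
  · left
    intro s hs
    exact (preconnected_puncturedDisc.subset_left_of_subset_union hou hov hd hsub hne) hs
  · right
    intro s hs
    rcases hsub hs with h | h
    · exact absurd ⟨s, hs, h⟩ hne
    · exact h

private theorem eventually_mem_puncturedDisc {s : ℂ} (hs : s ∈ puncturedDisc) :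
    ∀ᶠ z in 𝓝[≠] s, z ∈ puncturedDisc := by
  have h : ∀ᶠ z in 𝓝 s, z ∈ puncturedDisc := isOpen_puncturedDisc.mem_nhds hs
  exact h.filter_mono nhdsWithin_le_nhds

/-! ### The local lift -/

private theorem lift_spec {f : ℂ → PN N} (hf : HolomorphicInto f puncturedDisc) {s : ℂ}
    (hs : s ∈ puncturedDisc) : AnalyticAt ℂ (lift f s) s ∧
      ∀ᶠ z in 𝓝 s, ∃ h : lift f s z ≠ 0, f z = Projectivization.mk ℂ (lift f s z) h := by
  have h := hf s hs
  have e : lift f s = h.choose := by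
    unfold lift
    exact dif_pos h
  rw [e]
  exact h.choose_spec

private theorem lift_analytic (f : ℂ → PN N) (s : ℂ) : AnalyticAt ℂ (lift f s) s := by
  by_cases h : ∃ φ : ℂ → Fin (N + 1) → ℂ, AnalyticAt ℂ φ s ∧
      ∀ᶠ z in 𝓝 s, ∃ h : φ z ≠ 0, f z = Projectivization.mk ℂ (φ z) h
  · have e : lift f s = h.choose := by
      unfold lift
      exact dif_pos h
    rw [e]
    exact h.choose_spec.1
  · have e : lift f s = 0 := by
      unfold lift
      exact dif_neg h
    rw [e]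
    exact analyticAt_const

private theorem eval_analytic (f : ℂ → PN N) (Q : MvPolynomial (Fin (N + 1)) ℂ) (s : ℂ) :
    AnalyticAt ℂ (fun z => eval (lift f s z) Q) s := by
  have h := AnalyticAt.aeval_mvPolynomial
    (fun i => analyticAt_pi_iff.mp (lift_analytic f s) i) Q
  simpa only [MvPolynomial.aeval_def, MvPolynomial.eval₂_eq_eval_map, Algebra.algebraMap_self,
    MvPolynomial.map_id] using h

private theorem lift_ne {f : ℂ → PN N} (hf : HolomorphicInto f puncturedDisc)
    {Q : MvPolynomial (Fin (N + 1)) ℂ} {n : ℕ} (hQ : Q.IsHomogeneous n) (h : NonVan f Q) {s : ℂ}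
    (hs : s ∈ puncturedDisc) : ∀ᶠ z in 𝓝[≠] s, eval (lift f s z) Q ≠ 0 := by
  filter_upwards [h s hs, (lift_spec hf hs).2.filter_mono nhdsWithin_le_nhds] with z h1 h2
  obtain ⟨h3, h4⟩ := h2
  rw [h4, vanishesAt_mk_iff hQ] at h1
  exact h1

private theorem lift_top {f : ℂ → PN N} (hf : HolomorphicInto f puncturedDisc)
    {Q : MvPolynomial (Fin (N + 1)) ℂ} {n : ℕ} (hQ : Q.IsHomogeneous n) (h : NonVan f Q) {s : ℂ}
    (hs : s ∈ puncturedDisc) : meromorphicOrderAt (fun z => eval (lift f s z) Q) s ≠ ⊤ :=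
  (meromorphicOrderAt_ne_top_iff_eventually_ne_zero (eval_analytic f Q s).meromorphicAt).mpr
    (lift_ne hf hQ h hs)

/-- `val` in terms of the lift. -/
private theorem val_lift {f : ℂ → PN N} (hf : HolomorphicInto f puncturedDisc)
    {Q : MvPolynomial (Fin (N + 1)) ℂ} {n : ℕ} (hQ : Q.IsHomogeneous n) {i : Fin (N + 1)}
    (hi : NonVan f (X i)) {s : ℂ} (hs : s ∈ puncturedDisc) :
    (fun z => eval (lift f s z) Q) =ᶠ[𝓝[≠] s]
      fun z => val f i Q z * eval (lift f s z) (X i) ^ n := by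
  filter_upwards [lift_ne hf (isHomogeneous_X ℂ i) hi hs,
    (lift_spec hf hs).2.filter_mono nhdsWithin_le_nhds] with z h1 h2
  obtain ⟨h3, h4⟩ := h2
  obtain ⟨a, ha, h5⟩ := Pool.Agent.H17.exists_smul_rep (lift f s z) h3
  rw [eval_X] at h1 ⊢
  have e1 : (fun l => (f z).rep l / (f z).rep i) =
      fun l => (lift f s z i)⁻¹ * lift f s z l := by
    funext l
    rw [h4, h5, Pi.smul_apply, Pi.smul_apply, smul_eq_mul, smul_eq_mul,
      mul_div_mul_left _ _ ha]
    field_simp
  unfold val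
  rw [e1, Pool.Agent.H17.eval_smul_of_isHomogeneous hQ, mul_right_comm, ← mul_pow,
    inv_mul_cancel₀ h1, one_pow, one_mul]

private theorem val_mero {f : ℂ → PN N} (hf : HolomorphicInto f puncturedDisc)
    {Q : MvPolynomial (Fin (N + 1)) ℂ} {n : ℕ} (hQ : Q.IsHomogeneous n) {i : Fin (N + 1)}
    (hi : NonVan f (X i)) {s : ℂ} (hs : s ∈ puncturedDisc) : MeromorphicAt (val f i Q) s := by
  have h1 : MeromorphicAt (fun z => eval (lift f s z) Q / eval (lift f s z) (X i) ^ n) s :=
    (eval_analytic f Q s).meromorphicAt.fun_div ((eval_analytic f (X i) s).meromorphicAt.fun_pow n)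
  refine h1.congr ?_
  filter_upwards [val_lift hf hQ hi hs, lift_ne hf (isHomogeneous_X ℂ i) hi hs] with z h2 h3
  rw [h2, mul_div_cancel_right₀ _ (pow_ne_zero _ h3)]

variable {f : ℂ → PN N} {Q Q' : MvPolynomial (Fin (N + 1)) ℂ} {n n' : ℕ} {i : Fin (N + 1)} {s : ℂ}

/-- The identity principle. -/
theorem nonVan_or (hf : HolomorphicInto f puncturedDisc) (hQ : Q.IsHomogeneous n) :
    (∀ s ∈ puncturedDisc, VanishesAt Q (f s)) ∨ NonVan f Q := by
  rcases vanish_dich hf hQ with h | h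
  · left
    intro s hs
    exact (h s hs).self_of_nhds
  · exact Or.inr h

theorem NonVan.mul (h : NonVan f Q) (h' : NonVan f Q') : NonVan f (Q * Q') := by
  intro s hs
  filter_upwards [h s hs, h' s hs] with z h1 h2 h3
  unfold VanishesAt at h1 h2 h3
  rw [map_mul] at h3
  rcases mul_eq_zero.mp h3 with h4 | h4
  · exact h1 h4
  · exact h2 h4

theorem NonVan.of_mul_left (h : NonVan f (Q * Q')) : NonVan f Q := by
  intro s hs
  filter_upwards [h s hs] with z h1 h2
  unfold VanishesAt at h1 h2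
  exact h1 (by rw [map_mul, h2, zero_mul])

theorem NonVan.of_mul_right (h : NonVan f (Q * Q')) : NonVan f Q' := by
  intro s hs
  filter_upwards [h s hs] with z h1 h2
  unfold VanishesAt at h1 h2
  exact h1 (by rw [map_mul, h2, mul_zero])

/-- `val` in terms of the value at the representative. -/
theorem val_eq (hQ : Q.IsHomogeneous n) {z : ℂ} (h : (f z).rep i ≠ 0) :
    val f i Q z = eval (f z).rep Q / (f z).rep i ^ n := by
  have e1 : (fun l => (f z).rep l / (f z).rep i) = fun l => ((f z).rep i)⁻¹ * (f z).rep l := by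
    funext l
    rw [div_eq_inv_mul]
  unfold val
  rw [e1, Pool.Agent.H17.eval_smul_of_isHomogeneous hQ, inv_pow, div_eq_inv_mul]

theorem val_meroPunct (hf : HolomorphicInto f puncturedDisc) (hQ : Q.IsHomogeneous n)
    (h : NonVan f Q) (hi : NonVan f (X i)) : MeroPunct 1 (val f i Q) := by
  constructor
  · intro z h1 h2
    exact val_mero hf hQ hi (mem_puncturedDisc.mpr ⟨h1, h2⟩)
  · intro z h1 h2
    have hs := mem_puncturedDisc.mpr ⟨h1, h2⟩
    rw [meromorphicOrderAt_ne_top_iff_eventually_ne_zero (val_mero hf hQ hi hs)]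
    filter_upwards [val_lift hf hQ hi hs, lift_ne hf hQ h hs] with w h3 h4 h5
    rw [h3, h5, zero_mul] at h4
    exact h4 rfl

theorem ordZ_val (hf : HolomorphicInto f puncturedDisc) (hQ : Q.IsHomogeneous n)
    (h : NonVan f Q) (hi : NonVan f (X i)) (hs : s ∈ puncturedDisc) :
    ordZ (val f i Q) s = vord f Q s - n * vord f (X i) s := by
  have h1 := meromorphicOrderAt_congr (val_lift hf hQ hi hs)
  have hX := eval_analytic f (X i) s
  have hXt := lift_top hf (isHomogeneous_X ℂ i) hi hs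
  have h5 := mem_puncturedDisc.mp hs
  have h2 : meromorphicOrderAt (fun z => val f i Q z * eval (lift f s z) (X i) ^ n) s =
      meromorphicOrderAt (val f i Q) s +
        meromorphicOrderAt (fun z => eval (lift f s z) (X i) ^ n) s :=
    fun_meromorphicOrderAt_mul (val_mero hf hQ hi hs) (hX.meromorphicAt.fun_pow n)
  have h3 : meromorphicOrderAt (fun z => eval (lift f s z) (X i) ^ n) s =
      n * meromorphicOrderAt (fun z => eval (lift f s z) (X i)) s :=
    meromorphicOrderAt_pow hX.meromorphicAt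
  rw [h2, h3, ← Pool.Agent.H92.GGL.ordZ_cast (lift_top hf hQ h hs),
    ← Pool.Agent.H92.GGL.ordZ_cast hXt,
    ← Pool.Agent.H92.GGL.ordZ_cast ((val_meroPunct hf hQ h hi).ord s h5.1 h5.2)] at h1
  have h4 : vord f Q s = ordZ (val f i Q) s + n * vord f (X i) s := by
    unfold vord
    exact_mod_cast h1
  linarith

/-- (For all `s`: the lift is analytic at `s` or `0`, and `ordZ` of a function with order `⊤` is
`0`.) -/
theorem vord_nonneg (f : ℂ → PN N) (Q : MvPolynomial (Fin (N + 1)) ℂ) (s : ℂ) :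
    0 ≤ vord f Q s := by
  have h1 := (eval_analytic f Q s).meromorphicOrderAt_nonneg
  unfold vord ordZ
  rcases eq_or_ne (meromorphicOrderAt (fun z => eval (lift f s z) Q) s) ⊤ with h | h
  · rw [h]
    exact le_rfl
  · rw [← WithTop.coe_untop₀_of_ne_top h] at h1
    exact_mod_cast h1

theorem vord_eq_zero (hf : HolomorphicInto f puncturedDisc) (hQ : Q.IsHomogeneous n)
    (hs : s ∈ puncturedDisc) (h : ¬ VanishesAt Q (f s)) : vord f Q s = 0 := by
  obtain ⟨h1, h2⟩ := (lift_spec hf hs).2.self_of_nhds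
  rw [h2, vanishesAt_mk_iff hQ] at h
  unfold vord ordZ
  rw [(eval_analytic f Q s).meromorphicOrderAt_eq,
    (eval_analytic f Q s).analyticOrderAt_eq_zero.mpr h]
  rfl

theorem one_le_vord (hf : HolomorphicInto f puncturedDisc) (hQ : Q.IsHomogeneous n)
    (hN : NonVan f Q) (hs : s ∈ puncturedDisc) (h : VanishesAt Q (f s)) : 1 ≤ vord f Q s := by
  obtain ⟨h1, h2⟩ := (lift_spec hf hs).2.self_of_nhds
  rw [h2, vanishesAt_mk_iff hQ] at h
  have h3 := vord_nonneg f Q s
  have h4 : vord f Q s ≠ 0 := by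
    intro h5
    have h6 := lift_top hf hQ hN hs
    have h7 : meromorphicOrderAt (fun z => eval (lift f s z) Q) s = 0 := by
      rw [← Pool.Agent.H92.GGL.ordZ_cast h6]
      unfold vord at h5
      rw [h5]
      rfl
    rw [(eval_analytic f Q s).meromorphicOrderAt_eq] at h7
    have h8 : analyticOrderAt (fun z => eval (lift f s z) Q) s = 0 := by
      cases h9 : analyticOrderAt (fun z => eval (lift f s z) Q) s with
      | top => rw [h9] at h7; exact absurd h7 (by simp)
      | coe m =>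
        rw [h9] at h7
        have h10 : ((m : ℤ) : WithTop ℤ) = 0 := h7
        have h11 : (m : ℤ) = 0 := by exact_mod_cast h10
        have h12 : m = 0 := by exact_mod_cast h11
        rw [h12]
        rfl
    exact ((eval_analytic f Q s).analyticOrderAt_eq_zero.mp h8) h
  omega

theorem vord_mul (hf : HolomorphicInto f puncturedDisc) (h : NonVan f Q)
    (h' : NonVan f Q') (hQ : Q.IsHomogeneous n) (hQ' : Q'.IsHomogeneous n')
    (hs : s ∈ puncturedDisc) : vord f (Q * Q') s = vord f Q s + vord f Q' s := by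
  have h1 : (fun z => eval (lift f s z) (Q * Q')) =
      fun z => eval (lift f s z) Q * eval (lift f s z) Q' := by
    funext z
    rw [map_mul]
  have h2 : meromorphicOrderAt (fun z => eval (lift f s z) Q * eval (lift f s z) Q') s =
      meromorphicOrderAt (fun z => eval (lift f s z) Q) s +
        meromorphicOrderAt (fun z => eval (lift f s z) Q') s :=
    fun_meromorphicOrderAt_mul (eval_analytic f Q s).meromorphicAt
      (eval_analytic f Q' s).meromorphicAt
  rw [← h1, ← Pool.Agent.H92.GGL.ordZ_cast (lift_top hf (hQ.mul hQ') (h.mul h') hs),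
    ← Pool.Agent.H92.GGL.ordZ_cast (lift_top hf hQ h hs),
    ← Pool.Agent.H92.GGL.ordZ_cast (lift_top hf hQ' h' hs)] at h2
  unfold vord
  exact_mod_cast h2

theorem locFin_vord (hf : HolomorphicInto f puncturedDisc) (hQ : Q.IsHomogeneous n)
    (h : NonVan f Q) : LocFin 1 fun s => (vord f Q s : ℝ) := by
  classical
  intro r b hr hb
  have hK : IsCompact {s : ℂ | r ≤ ‖s‖ ∧ ‖s‖ ≤ b} := by
    have h1 : {s : ℂ | r ≤ ‖s‖ ∧ ‖s‖ ≤ b} = Metric.closedBall (0 : ℂ) b ∩ {s : ℂ | r ≤ ‖s‖} := by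
      ext s
      rw [Set.mem_inter_iff, mem_closedBall_zero_iff]
      exact and_comm
    rw [h1]
    exact (isCompact_closedBall (0 : ℂ) b).inter_right (isClosed_le continuous_const continuous_norm)
  have hU : ∀ s ∈ {s : ℂ | r ≤ ‖s‖ ∧ ‖s‖ ≤ b}, {z : ℂ | z = s ∨ vord f Q z = 0} ∈ 𝓝 s := by
    intro s hs
    have hsD : s ∈ puncturedDisc := mem_puncturedDisc.mpr ⟨hr.trans_le hs.1, hs.2.trans_lt hb⟩
    have h1 : ∀ᶠ z in 𝓝[≠] s, vord f Q z = 0 := by
      filter_upwards [h s hsD, eventually_mem_puncturedDisc hsD] with z h2 h3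
      exact vord_eq_zero hf hQ h3 h2
    have h2 : ∀ᶠ z in 𝓝 s, z ≠ s → vord f Q z = 0 := eventually_nhdsWithin_iff.mp h1
    filter_upwards [h2] with z hz
    by_cases hzs : z = s
    · exact Or.inl hzs
    · exact Or.inr (hz hzs)
  obtain ⟨t, ht, hcov⟩ := hK.elim_nhds_subcover _ hU
  refine t.finite_toSet.subset ?_
  rintro s ⟨h1, h2, h3⟩
  have h4 := hcov (show s ∈ {s : ℂ | r ≤ ‖s‖ ∧ ‖s‖ ≤ b} from ⟨h1, h2⟩)
  rw [Set.mem_iUnion₂] at h4
  obtain ⟨a, ha, h5⟩ := h4
  rcases h5 with h6 | h6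
  · rw [h6]
    exact ha
  · exact absurd (by simp only [h6, Int.cast_zero]) h3

end Pool.Agent.H17R
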