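import Pool.Agent.H17R.Point
import Pool.Agent.H17GT.Main

/-!
# A transcendence basis among the quotients `A j / A j₀`

PROOF of `isAlgebraic_ratios`.  Let `L = ℂ(A j / A j₀)` (inside `K = FunField P`), `α = gen P i₀ (A j₀)
≠ 0`, `x i = ratio P i i₀`, `x i₀ = 1`.  For a natural number `s` let `V s` be the `L`-span in `K` of the
elements `gen P i₀ F / α ^ s`, `F` a form (or only a monomial: then finitely many) of degree `a * s`.
If `a * (s + 1) ≥ m₀` (`exists_degree_bound`) then `V (s + 1) ⊆ V s`: `F ≡ ∑ j, c j * A j` modulo `P`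
with `c j` forms of degree `a * s`, so `F / α ^ (s + 1) = ∑ j, (A j / α) * (c j / α ^ s)`.  Fix such an
`s` (for instance `s = m₀`, `a ≥ 1`).  Then `V s` is a finitely generated `L`-module (spanned by the
monomials of degree `a * s`), it contains `1 = gen (A j₀ ^ s) / α ^ s`, and `z * V s ⊆ V (s + 1) ⊆ V s`
for `z = gen P i₀ F / α`, `F` a form of degree `a`.  So such `z` are integral over `L`
(`isIntegral_of_smul_mem_submodule` or `Module.Finite` of the subalgebra generated).  In particular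
`1 / α` (`F = X i₀ ^ a`) and `x i ^ a / α` are algebraic over `L`, hence `x i ^ a` and `x i`, and
`K = ℂ(x i)` (`adjoin_ratio`).

PROOF of `exists_basis_ratios`: `isAlgebraic_ratios` and `Pool.Agent.H92.GT.exists_index`.
-/

open MvPolynomial
open Pool.Agent.H17 (PN VanishesAt vanishesAt_mk_iff)
open Pool.Agent.H17GT (coordFun functionField)
open Pool.Agent.H17LG.Variety (FunField ratio OnBoundary)
open Pool.Agent.H62.FC (Homog)

noncomputable section

namespace Pool.Agent.H17R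

variable {N : ℕ} {P : Ideal (MvPolynomial (Fin (N + 1)) ℂ)}

private lemma TrBasis_gen_form {K : Type} [Field K] [Algebra ℂ K] (x : Fin (N + 1) → K)
    (L : IntermediateField ℂ K) (n : ℕ) (β : K) {F : MvPolynomial (Fin (N + 1)) ℂ}
    (hF : F.IsHomogeneous n) :
    aeval x F * β ∈ Submodule.span L ((fun d : Fin (N + 1) →₀ ℕ => aeval x (monomial d (1 : ℂ)) * β) ''
      ((Finset.finsuppAntidiag (Finset.univ : Finset (Fin (N + 1))) n : Finset _) :
        Set (Fin (N + 1) →₀ ℕ))) := by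
  have h1 : aeval x F = ∑ d ∈ F.support, coeff d F • aeval x (monomial d (1 : ℂ)) := by
    conv_lhs => rw [← F.support_sum_monomial_coeff]
    rw [map_sum]
    refine Finset.sum_congr rfl fun d _ => ?_
    rw [← map_smul, smul_monomial, smul_eq_mul, mul_one]
  rw [h1, Finset.sum_mul]
  refine Submodule.sum_mem _ fun d hd => ?_
  have h2 : (coeff d F • aeval x (monomial d (1 : ℂ))) * β =
      (algebraMap ℂ L (coeff d F)) • (aeval x (monomial d (1 : ℂ)) * β) := by
    rw [smul_mul_assoc, algebraMap_smul]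
  rw [h2]
  refine Submodule.smul_mem _ _ (Submodule.subset_span ⟨d, ?_, rfl⟩)
  rw [Finset.mem_coe, Finset.mem_finsuppAntidiag]
  refine ⟨?_, Finset.subset_univ _⟩
  have h3 := hF (mem_support_iff.1 hd)
  rw [← h3, Finsupp.weight_apply, Finsupp.sum_fintype _ _ (by simp)]
  simp

private lemma TrBasis_integral {K : Type} [Field K] [Algebra ℂ K] {x : Fin (N + 1) → K} {q a : ℕ}
    (ha : 1 ≤ a) {A : Fin q → MvPolynomial (Fin (N + 1)) ℂ} (hA : ∀ j, (A j).IsHomogeneous a)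
    {m₀ : ℕ} (hbound : ∀ n, m₀ ≤ n → ∀ F : MvPolynomial (Fin (N + 1)) ℂ, F.IsHomogeneous n →
      ∃ c : Fin q → MvPolynomial (Fin (N + 1)) ℂ, (∀ j, (c j).IsHomogeneous (n - a)) ∧
        aeval x F = ∑ j, aeval x (c j) * aeval x (A j)) {j₀ : Fin q}
    (hα0 : aeval x (A j₀) ≠ 0) {F : MvPolynomial (Fin (N + 1)) ℂ} (hF : F.IsHomogeneous a) :
    IsIntegral (IntermediateField.adjoin ℂ
      (Set.range fun j => aeval x (A j) / aeval x (A j₀))) (aeval x F / aeval x (A j₀)) := by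
  obtain ⟨α, hα⟩ : ∃ α, α = aeval x (A j₀) := ⟨_, rfl⟩
  obtain ⟨L, hL⟩ : ∃ L, L = IntermediateField.adjoin ℂ
      (Set.range fun j => aeval x (A j) / aeval x (A j₀)) := ⟨_, rfl⟩
  rw [← hL]
  rw [← hα] at hα0 hL ⊢
  have hLj : ∀ j, aeval x (A j) / α ∈ L := by
    intro j
    rw [hL]
    exact IntermediateField.subset_adjoin _ _ ⟨j, rfl⟩
  obtain ⟨V, hV⟩ : ∃ V : Submodule L K, V = Submodule.span L
      ((fun d : Fin (N + 1) →₀ ℕ => aeval x (monomial d (1 : ℂ)) * (α ^ m₀)⁻¹) ''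
      ((Finset.finsuppAntidiag (Finset.univ : Finset (Fin (N + 1))) (a * m₀) : Finset _) :
        Set (Fin (N + 1) →₀ ℕ))) := ⟨_, rfl⟩
  have hVF : ∀ G : MvPolynomial (Fin (N + 1)) ℂ, G.IsHomogeneous (a * m₀) →
      aeval x G * (α ^ m₀)⁻¹ ∈ V := by
    intro G hG
    rw [hV]
    exact TrBasis_gen_form x L (a * m₀) _ hG
  refine isIntegral_of_smul_mem_submodule V ?_ ?_ _ ?_
  · intro hbot
    have h1 := hVF (A j₀ ^ m₀) ((hA j₀).pow m₀)
    have h2 : aeval x (A j₀ ^ m₀) = α ^ m₀ := by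
      rw [hα, map_pow]
    rw [h2, mul_inv_cancel₀ (pow_ne_zero _ hα0), hbot, Submodule.mem_bot] at h1
    exact one_ne_zero h1
  · rw [hV]
    exact Submodule.fg_span (Set.Finite.image _ (Finset.finite_toSet _))
  · intro y hy
    rw [hV] at hy
    refine Submodule.span_induction ?_ ?_ ?_ ?_ hy
    · rintro _ ⟨d, hd, rfl⟩
      rw [Finset.mem_coe, Finset.mem_finsuppAntidiag] at hd
      have hmon : (monomial d (1 : ℂ)).IsHomogeneous (a * m₀) := by
        refine isHomogeneous_monomial _ ?_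
        rw [← hd.1, Finsupp.degree_eq_sum]
      have hFm : (F * monomial d (1 : ℂ)).IsHomogeneous (a + a * m₀) := hF.mul hmon
      have hdeg : m₀ ≤ a + a * m₀ := by nlinarith
      obtain ⟨c, hc, hcP⟩ := hbound _ hdeg _ hFm
      have hsub : a + a * m₀ - a = a * m₀ := by omega
      rw [hsub] at hc
      rw [map_mul] at hcP
      have h3 : (aeval x F / α) • (aeval x (monomial d (1 : ℂ)) * (α ^ m₀)⁻¹) =
          ∑ j, (⟨aeval x (A j) / α, hLj j⟩ : L) • (aeval x (c j) * (α ^ m₀)⁻¹) := by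
        have h4 : ∀ j, (⟨aeval x (A j) / α, hLj j⟩ : L) • (aeval x (c j) * (α ^ m₀)⁻¹) =
            aeval x (A j) / α * (aeval x (c j) * (α ^ m₀)⁻¹) := fun j => rfl
        rw [Finset.sum_congr rfl fun j _ => h4 j, smul_eq_mul]
        have h5 : aeval x F / α * (aeval x (monomial d (1 : ℂ)) * (α ^ m₀)⁻¹) =
            (aeval x F * aeval x (monomial d (1 : ℂ))) * (α⁻¹ * (α ^ m₀)⁻¹) := by
          rw [div_eq_mul_inv]
          ring
        rw [h5, hcP, Finset.sum_mul]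
        refine Finset.sum_congr rfl fun j _ => ?_
        rw [div_eq_mul_inv]
        ring
      rw [h3]
      exact Submodule.sum_mem _ fun j _ => Submodule.smul_mem _ _ (hVF _ (hc j))
    · rw [smul_zero]
      exact V.zero_mem
    · intro y z _ _ hy hz
      rw [smul_add]
      exact V.add_mem hy hz
    · intro c y _ hy
      rw [smul_comm]
      exact V.smul_mem _ hy

private lemma TrBasis_alg {K : Type} [Field K] [Algebra ℂ K] {x : Fin (N + 1) → K} {q a : ℕ}
    (ha : 1 ≤ a) {A : Fin q → MvPolynomial (Fin (N + 1)) ℂ} (hA : ∀ j, (A j).IsHomogeneous a)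
    {m₀ : ℕ} (hbound : ∀ n, m₀ ≤ n → ∀ F : MvPolynomial (Fin (N + 1)) ℂ, F.IsHomogeneous n →
      ∃ c : Fin q → MvPolynomial (Fin (N + 1)) ℂ, (∀ j, (c j).IsHomogeneous (n - a)) ∧
        aeval x F = ∑ j, aeval x (c j) * aeval x (A j)) {j₀ : Fin q}
    (hα0 : aeval x (A j₀) ≠ 0) {i₀ : Fin (N + 1)} (hx : x i₀ = 1)
    (htop : IntermediateField.adjoin ℂ (Set.range x) = ⊤) :
    Algebra.IsAlgebraic (IntermediateField.adjoin ℂ
      (Set.range fun j => aeval x (A j) / aeval x (A j₀))) K := by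
  obtain ⟨L, hL⟩ : ∃ L, L = IntermediateField.adjoin ℂ
      (Set.range fun j => aeval x (A j) / aeval x (A j₀)) := ⟨_, rfl⟩
  have hint : ∀ i, IsIntegral L (x i ^ a / aeval x (A j₀)) := by
    intro i
    have h1 := TrBasis_integral ha hA hbound hα0 (F := X i ^ a) (by
      simpa using (isHomogeneous_X ℂ i).pow a)
    rw [map_pow, aeval_X, ← hL] at h1
    exact h1
  rw [← hL]
  have halgx : ∀ i, IsAlgebraic L (x i) := by
    intro i
    have h1 := (hint i).isAlgebraic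
    have h2 := (hint i₀).isAlgebraic
    rw [hx, one_pow] at h2
    have h3 := h1.mul h2.inv
    have h4 : x i ^ a / aeval x (A j₀) * (1 / aeval x (A j₀))⁻¹ = x i ^ a := by
      field_simp
    rw [h4] at h3
    exact h3.of_pow ha
  refine ⟨fun y => ?_⟩
  have hle : IntermediateField.adjoin ℂ (Set.range x) ≤
      (algebraicClosure L K).restrictScalars ℂ := by
    rw [IntermediateField.adjoin_le_iff]
    rintro _ ⟨i, rfl⟩
    exact mem_algebraicClosure_iff.2 (halgx i)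
  rw [htop] at hle
  exact mem_algebraicClosure_iff.1 (hle (IntermediateField.mem_top : y ∈ ⊤))

theorem isAlgebraic_ratios [P.IsPrime] (hP : Homog P) {q a : ℕ} (ha : 1 ≤ a)
    {A : Fin q → MvPolynomial (Fin (N + 1)) ℂ} (hA : ∀ j, (A j).IsHomogeneous a)
    (h0 : ∀ x : PN N, (∀ Q ∈ P, ∀ n, Q.IsHomogeneous n → VanishesAt Q x) →
      ∃ j, ¬ VanishesAt (A j) x) {i₀ : Fin (N + 1)} (hi₀ : coordFun P i₀ ≠ 0) {j₀ : Fin q}
    (hj₀ : A j₀ ∉ P) :
    Algebra.IsAlgebraic (IntermediateField.adjoin ℂ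
      (Set.range fun j => gen P i₀ (A j) / gen P i₀ (A j₀))) (FunField P) := by
  obtain ⟨m₀, hm₀, hbound⟩ := exists_degree_bound hP hA h0
  have hα0 : gen P i₀ (A j₀) ≠ 0 := by
    rw [Ne, gen_eq_zero_iff hi₀ (hA j₀)]
    exact hj₀
  refine TrBasis_alg (x := fun i => ratio P i i₀) ha hA (m₀ := m₀) ?_ hα0 (i₀ := i₀)
    (ratio_self hi₀) (adjoin_ratio hi₀)
  intro n hn F hF
  obtain ⟨c, hc, hcP⟩ := hbound n hn F hF
  refine ⟨c, hc, ?_⟩
  have hhom : (F - ∑ j, c j * A j).IsHomogeneous n := by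
    refine hF.sub (IsHomogeneous.sum _ _ _ fun j _ => ?_)
    have h1 := (hc j).mul (hA j)
    rwa [Nat.sub_add_cancel (hm₀.trans hn)] at h1
  have hz := (gen_eq_zero_iff hi₀ hhom).2 hcP
  unfold gen at hz
  rw [map_sub, map_sum, sub_eq_zero] at hz
  rw [hz]
  exact Finset.sum_congr rfl fun j _ => map_mul _ _ _


theorem exists_basis_ratios [P.IsPrime] (hP : Homog P) {q a : ℕ} (ha : 1 ≤ a)
    {A : Fin q → MvPolynomial (Fin (N + 1)) ℂ} (hA : ∀ j, (A j).IsHomogeneous a)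
    (h0 : ∀ x : PN N, (∀ Q ∈ P, ∀ n, Q.IsHomogeneous n → VanishesAt Q x) →
      ∃ j, ¬ VanishesAt (A j) x) {i₀ : Fin (N + 1)} (hi₀ : coordFun P i₀ ≠ 0) {j₀ : Fin q}
    (hj₀ : A j₀ ∉ P) {w : ℕ} (hz : ∃ z : Fin w → FunField P, IsTranscendenceBasis ℂ z) :
    ∃ J : Fin w → Fin q,
      IsTranscendenceBasis ℂ fun i => gen P i₀ (A (J i)) / gen P i₀ (A j₀) := by
  obtain ⟨z, hz⟩ := hz
  have h1 := isAlgebraic_ratios hP ha hA h0 hi₀ hj₀
  obtain ⟨J, hJ⟩ := Pool.Agent.H92.GT.exists_index (K := FunField P)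
    (x := fun j => gen P i₀ (A j) / gen P i₀ (A j₀)) h1 hz
  exact ⟨J, hJ⟩

end Pool.Agent.H17R
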