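import Pool.Agent.H62.FC.Circuit

/-!
# Connected sequences of circuits

Let `y i`, `i ∈ ι`, be vectors with `∑ i, y i = 0`, no proper non-empty partial sum being `0`.

PROOF of `exists_chain`.  For a set `U ≠ ∅, univ` there is a circuit which meets `U` and is not
contained in `U`: otherwise the indicator function of `U` is constant on all circuits, and
`Pool.Agent.H62.FC.sum_level_eq_zero` (with `S = univ`, `c = 1`) gives `∑ i ∈ U, y i = 0`.
All `y i` are `≠ 0` (singletons are proper subsets since `2 ≤ card ι`), so circuits have at least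
two elements.  There is a circuit (take `U = {i}`).  Let `C₀` be a circuit of maximal cardinality
`c`; root `r 0 ∈ C₀` arbitrary.  As long as `U = C₀ ∪ … ∪ C_(s-1)` is not everything choose a circuit
`C_s` meeting `U` in a point `r s`, not contained in `U`.  Each step adds a new element, so the number
`p + 1` of circuits is at most `k + 1 - c`, `k = card ι`, and the sum of
`n s * (n s - 1) = (|C_s| - 1) * (|C_s| - 2) ≤ (c - 1) * (c - 2)` is `≤ (k + 1 - c) (c - 1) (c - 2) ≤
2 M`.  The data `e s, c s` enumerate `C_s ∖ {r s}` and the relation normalised by the coefficient `1`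
at `r s` (see the private lemma `Circuit_rel` in `Pool.Agent.H62.FC.Circuit`: all coefficients of a
circuit relation are non-zero; proper subsets are independent).

Suggestion: prove by induction on `j` the existence of a partial chain (a structure with `cover`
replaced by: `U` is the set of all `r s`, `e s j`) with `c + j ≤ U.card`, `j + 1` circuits, until
`U = univ`.

PROOF of `ChainData.sum_le`.  Strong induction on `s`: for all `i` in the `s`-th circuit
`∑ s' ≤ s, m s' ≤ v i - v (r 0)`.  For `s = 0` this is the hypothesis (note `m 0 ≤ 0` for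
`i = r 0`).  For `s > 0` the root `r s` is in the `s'`-th circuit with `s' < s`, so
`v i - v (r 0) = (v i - v (r s)) + (v (r s) - v (r 0)) ≥ m s + ∑ s'' ≤ s', m s''`, and the other `m` are
`≤ 0`.
-/

noncomputable section

namespace Pool.Agent.H17R

open Pool.Agent.H62.FC (IsCircuit sum_level_eq_zero)

/-- A connected sequence of `p + 1` circuits of the family `y`, the `s`-th of them with the elements
`r s` and `e s j` and with the relation `y (r s) + ∑ j, c s j • y (e s j) = 0`. -/
structure ChainData {V ι : Type*} [AddCommGroup V] [Module ℂ V] (y : ι → V) where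
  p : ℕ
  n : Fin (p + 1) → ℕ
  e : (s : Fin (p + 1)) → Fin (n s) → ι
  c : (s : Fin (p + 1)) → Fin (n s) → ℂ
  r : Fin (p + 1) → ι
  pos : ∀ s, 1 ≤ n s
  c_ne : ∀ s j, c s j ≠ 0
  rel : ∀ s, ∑ j, c s j • y (e s j) = - y (r s)
  indep : ∀ s, LinearIndependent ℂ fun j => y (e s j)
  link : ∀ s, s ≠ 0 → ∃ s' < s, r s = r s' ∨ ∃ j, e s' j = r s
  cover : ∀ i, ∃ s, i = r s ∨ ∃ j, e s j = i

private theorem Chain_rel {V ι : Type*} [AddCommGroup V] [Module ℂ V] {y : ι → V}
    {ρ : Finset ι} (hρ : IsCircuit ℂ y ρ) :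
    ∃ b : ι → ℂ, (∀ i ∈ ρ, b i ≠ 0) ∧ ∑ i ∈ ρ, b i • y i = 0 := by
  classical
  have h := hρ.1
  rw [linearIndepOn_finset_iff] at h
  push Not at h
  obtain ⟨b, hb, i, hi, hbi⟩ := h
  refine ⟨b, fun j hj hbj => ?_, hb⟩
  have h2 := hρ.2 (ρ.erase j) (Finset.erase_ssubset hj)
  rw [linearIndepOn_finset_iff] at h2
  have h3 : ∑ i ∈ ρ.erase j, b i • y i = 0 := by
    have := Finset.add_sum_erase ρ (fun i => b i • y i) hj
    simp only [hbj, zero_smul, zero_add] at this
    rw [this, hb]
  have hij : i ≠ j := fun e => hbi (e ▸ hbj)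
  exact hbi (h2 b h3 i (Finset.mem_erase.2 ⟨hij, hi⟩))

private theorem Chain_normal {V ι : Type*} [AddCommGroup V] [Module ℂ V] {y : ι → V}
    (hy : ∀ i, y i ≠ 0) {ρ : Finset ι} (hρ : IsCircuit ℂ y ρ) {i₀ : ι} (hi₀ : i₀ ∈ ρ) :
    ∃ (n : ℕ) (e : Fin n → ι) (c : Fin n → ℂ), n + 1 = ρ.card ∧ 1 ≤ n ∧
      (∀ i, i ∈ ρ ↔ i = i₀ ∨ ∃ j, e j = i) ∧ (∀ j, c j ≠ 0) ∧
      ∑ j, c j • y (e j) = - y i₀ ∧ LinearIndependent ℂ fun j => y (e j) := by
  classical
  obtain ⟨b, hb, hb0⟩ := Chain_rel hρ
  set τ := ρ.erase i₀ with hτ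
  have hbi := hb i₀ hi₀
  have hcard : τ.card + 1 = ρ.card := Finset.card_erase_add_one hi₀
  set E := τ.equivFin with hE
  have hmem : ∀ j, ((E.symm j : τ) : ι) ∈ τ := fun j => (E.symm j).2
  have hmemρ : ∀ j, ((E.symm j : τ) : ι) ∈ ρ := fun j => Finset.mem_of_mem_erase (hmem j)
  have hinj : Function.Injective fun j => ((E.symm j : τ) : ι) :=
    Subtype.val_injective.comp E.symm.injective
  have hτne : τ.Nonempty := by
    rw [Finset.nonempty_iff_ne_empty]
    intro h0
    have h1 := Finset.add_sum_erase ρ (fun i => b i • y i) hi₀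
    rw [← hτ, h0, Finset.sum_empty, add_zero, hb0] at h1
    exact smul_ne_zero hbi (hy i₀) h1
  refine ⟨τ.card, fun j => ((E.symm j : τ) : ι), fun j => b ((E.symm j : τ) : ι) / b i₀, hcard,
    hτne.card_pos, fun i => ⟨fun hi => ?_, ?_⟩, fun j => div_ne_zero (hb _ (hmemρ j)) hbi, ?_, ?_⟩
  · by_cases h : i = i₀
    · exact Or.inl h
    · refine Or.inr ⟨E ⟨i, Finset.mem_erase.2 ⟨h, hi⟩⟩, ?_⟩
      simp
  · rintro (rfl | ⟨j, rfl⟩)
    · exact hi₀
    · exact hmemρ j
  · have e1 : ∑ j : Fin τ.card, (b ((E.symm j : τ) : ι) / b i₀) • y ((E.symm j : τ) : ι) =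
        ∑ x : τ, (b (x : ι) / b i₀) • y (x : ι) :=
      Equiv.sum_comp E.symm (fun x : τ => (b (x : ι) / b i₀) • y (x : ι))
    rw [e1, Finset.sum_coe_sort τ (fun x : ι => (b x / b i₀) • y x)]
    have e2 : ∀ x : ι, (b x / b i₀) • y x = (b i₀)⁻¹ • (b x • y x) := by
      intro x
      rw [smul_smul, div_eq_mul_inv, mul_comm]
    simp only [e2]
    rw [← Finset.smul_sum]
    have e3 : ∑ x ∈ τ, b x • y x = -(b i₀ • y i₀) := by
      have := Finset.add_sum_erase ρ (fun i => b i • y i) hi₀
      rw [hb0] at this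
      exact (neg_eq_of_add_eq_zero_right this).symm
    rw [e3, smul_neg, smul_smul, inv_mul_cancel₀ hbi, one_smul]
  · have hli : LinearIndependent ℂ fun x : (τ : Set ι) => y x := hρ.2 τ (Finset.erase_ssubset hi₀)
    exact hli.comp (fun j => (⟨((E.symm j : τ) : ι), hmem j⟩ : (τ : Set ι)))
      (fun a a' haa => hinj (congrArg Subtype.val haa))

private theorem Chain_step {V ι : Type*} [AddCommGroup V] [Module ℂ V] [Fintype ι]
    [DecidableEq ι] {y : ι → V} (hsum : ∑ i, y i = 0)
    (hsub : ∀ S : Finset ι, S.Nonempty → S ≠ Finset.univ → ∑ i ∈ S, y i ≠ 0) {U : Finset ι}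
    (hU : U.Nonempty) (hU' : U ≠ Finset.univ) :
    ∃ C, IsCircuit ℂ y C ∧ (∃ i ∈ C, i ∈ U) ∧ ∃ i ∈ C, i ∉ U := by
  by_contra hcon
  push Not at hcon
  have h := sum_level_eq_zero (F := ℂ) (y := y) (ν := fun i => decide (i ∈ U))
    (S := Finset.univ) (c := fun _ => 1) (fun ρ _ hρ i hi j hj => by
      by_cases h1 : ∃ i ∈ ρ, i ∈ U
      · obtain ⟨i', hi', hiU⟩ := h1
        have h2 := hcon ρ hρ ⟨i', hi', hiU⟩
        simp [h2 i hi, h2 j hj]
      · push Not at h1
        simp [h1 i hi, h1 j hj]) (by simpa using hsum) true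
  refine hsub U hU hU' ?_
  rw [← h]
  simp

private theorem Chain_ne {V ι : Type*} [AddCommGroup V] [Module ℂ V] [Fintype ι]
    [DecidableEq ι] {y : ι → V} (hι : 2 ≤ Fintype.card ι)
    (hsub : ∀ S : Finset ι, S.Nonempty → S ≠ Finset.univ → ∑ i ∈ S, y i ≠ 0) (i : ι) :
    y i ≠ 0 := by
  have h := hsub {i} (Finset.singleton_nonempty i) (by
    intro h
    have h1 := congrArg Finset.card h
    rw [Finset.card_singleton, Finset.card_univ] at h1
    omega)
  rwa [Finset.sum_singleton] at h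

theorem exists_chain {V ι : Type*} [AddCommGroup V] [Module ℂ V] [Fintype ι] [DecidableEq ι]
    {y : ι → V} (hι : 2 ≤ Fintype.card ι) (hsum : ∑ i, y i = 0)
    (hsub : ∀ S : Finset ι, S.Nonempty → S ≠ Finset.univ → ∑ i ∈ S, y i ≠ 0) {M : ℕ}
    (hM : ∀ c ≤ Fintype.card ι, (Fintype.card ι + 1 - c) * (c - 1) * (c - 2) ≤ 2 * M) :
    ∃ D : ChainData y, ∑ s, D.n s * (D.n s - 1) ≤ 2 * M := by
  classical
  have hy := Chain_ne hι hsub
  have hne : (Finset.univ.filter fun C : Finset ι => IsCircuit ℂ y C).Nonempty := by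
    obtain ⟨i⟩ : Nonempty ι := Fintype.card_pos_iff.1 (by omega)
    obtain ⟨C, hC, -⟩ := Chain_step hsum hsub (Finset.singleton_nonempty i) (by
      intro h
      have h1 := congrArg Finset.card h
      rw [Finset.card_singleton, Finset.card_univ] at h1
      omega)
    exact ⟨C, Finset.mem_filter.2 ⟨Finset.mem_univ _, hC⟩⟩
  obtain ⟨C₀, hC₀, hmax⟩ := Finset.exists_max_image _ Finset.card hne
  have hC₀' := (Finset.mem_filter.1 hC₀).2
  have hmax' : ∀ C, IsCircuit ℂ y C → C.card ≤ C₀.card := fun C hC =>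
    hmax C (Finset.mem_filter.2 ⟨Finset.mem_univ _, hC⟩)
  have hC₀ne : C₀.Nonempty := by
    rw [Finset.nonempty_iff_ne_empty]
    rintro h
    refine hC₀'.1 ?_
    rw [h, Finset.coe_empty]
    exact linearIndepOn_empty ℂ y
  obtain ⟨r₀, hr₀⟩ := hC₀ne
  -- extension of partial chains
  have key : ∀ m p : ℕ, Fintype.card ι < C₀.card + p + m →
      (∃ (ρ : ℕ → Finset ι) (r : ℕ → ι), (∀ s ≤ p, IsCircuit ℂ y (ρ s) ∧ r s ∈ ρ s) ∧
        (∀ s ≤ p, s ≠ 0 → ∃ s' < s, r s ∈ ρ s') ∧
        C₀.card + p ≤ ((Finset.range (p + 1)).biUnion ρ).card) →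
      ∃ (p : ℕ) (ρ : ℕ → Finset ι) (r : ℕ → ι), (∀ s ≤ p, IsCircuit ℂ y (ρ s) ∧ r s ∈ ρ s) ∧
        (∀ s ≤ p, s ≠ 0 → ∃ s' < s, r s ∈ ρ s') ∧
        C₀.card + p ≤ Fintype.card ι ∧ (Finset.range (p + 1)).biUnion ρ = Finset.univ := by
    intro m
    induction m with
    | zero =>
      rintro p hp ⟨ρ, r, -, -, h⟩
      have := h.trans (Finset.card_le_univ _)
      omega
    | succ m ih =>
      rintro p hp ⟨ρ, r, h1, h2, h3⟩
      by_cases hU : (Finset.range (p + 1)).biUnion ρ = Finset.univ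
      · exact ⟨p, ρ, r, h1, h2, h3.trans (Finset.card_le_univ _), hU⟩
      · have hUne : ((Finset.range (p + 1)).biUnion ρ).Nonempty :=
          ⟨r p, Finset.mem_biUnion.2 ⟨p, Finset.mem_range.2 (by omega), (h1 p le_rfl).2⟩⟩
        obtain ⟨C, hC, ⟨i, hi, hiU⟩, ⟨j, hj, hjU⟩⟩ := Chain_step hsum hsub hUne hU
        refine ih (p + 1) (by omega) ⟨Function.update ρ (p + 1) C, Function.update r (p + 1) i,
          ?_, ?_, ?_⟩
        · intro s hs
          rcases Nat.lt_or_ge p s with h4 | h4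
          · have : s = p + 1 := by omega
            subst this
            rw [Function.update_self, Function.update_self]
            exact ⟨hC, hi⟩
          · rw [Function.update_of_ne (by omega), Function.update_of_ne (by omega)]
            exact h1 s h4
        · intro s hs hs0
          rcases Nat.lt_or_ge p s with h4 | h4
          · have : s = p + 1 := by omega
            subst this
            obtain ⟨s', hs', his'⟩ := Finset.mem_biUnion.1 hiU
            have hs'' := Finset.mem_range.1 hs'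
            refine ⟨s', hs'', ?_⟩
            rw [Function.update_self, Function.update_of_ne (by omega)]
            exact his'
          · obtain ⟨s', hs', h5⟩ := h2 s h4 hs0
            refine ⟨s', hs', ?_⟩
            rw [Function.update_of_ne (by omega), Function.update_of_ne (by omega)]
            exact h5
        · have h4 : insert j ((Finset.range (p + 1)).biUnion ρ) ⊆
              (Finset.range (p + 1 + 1)).biUnion (Function.update ρ (p + 1) C) := by
            intro x hx
            rcases Finset.mem_insert.1 hx with rfl | hx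
            · refine Finset.mem_biUnion.2 ⟨p + 1, Finset.mem_range.2 (by omega), ?_⟩
              rw [Function.update_self]
              exact hj
            · obtain ⟨s, hs, hxs⟩ := Finset.mem_biUnion.1 hx
              have hs' := Finset.mem_range.1 hs
              refine Finset.mem_biUnion.2 ⟨s, Finset.mem_range.2 (by omega), ?_⟩
              rw [Function.update_of_ne (by omega)]
              exact hxs
          have h5 := Finset.card_le_card h4
          rw [Finset.card_insert_of_notMem hjU] at h5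
          omega
  obtain ⟨p, ρ, r, h1, h2, h3, h4⟩ := key (Fintype.card ι + 1) 0 (by omega)
    ⟨fun _ => C₀, fun _ => r₀, fun s _ => ⟨hC₀', hr₀⟩, fun s hs hs0 => absurd (by omega) hs0, by
      simp⟩
  have hnf : ∀ s : Fin (p + 1), ∃ (n : ℕ) (e : Fin n → ι) (c : Fin n → ℂ),
      n + 1 = (ρ s).card ∧ 1 ≤ n ∧ (∀ i, i ∈ ρ s ↔ i = r s ∨ ∃ j, e j = i) ∧ (∀ j, c j ≠ 0) ∧
      ∑ j, c j • y (e j) = - y (r s) ∧ LinearIndependent ℂ fun j => y (e j) := fun s =>
    Chain_normal hy (h1 s (by omega)).1 (h1 s (by omega)).2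
  choose n e c g1 g2 g3 g4 g5 g6 using hnf
  refine ⟨⟨p, n, e, c, fun s => r s, g2, g4, g5, g6, ?_, ?_⟩, ?_⟩
  · intro s hs
    have hs0 : (s : ℕ) ≠ 0 := fun h => hs (Fin.ext h)
    obtain ⟨s', hs', h5⟩ := h2 s (by omega) hs0
    have h6 : s' < p + 1 := lt_trans hs' s.2
    exact ⟨⟨s', h6⟩, hs', (g3 ⟨s', h6⟩ (r s)).1 h5⟩
  · intro i
    have hi : i ∈ (Finset.range (p + 1)).biUnion ρ := by rw [h4]; exact Finset.mem_univ i
    obtain ⟨s, hs, his⟩ := Finset.mem_biUnion.1 hi
    exact ⟨⟨s, Finset.mem_range.1 hs⟩, (g3 ⟨s, Finset.mem_range.1 hs⟩ i).1 his⟩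
  · show ∑ s : Fin (p + 1), n s * (n s - 1) ≤ 2 * M
    have h5 : ∀ s : Fin (p + 1), n s * (n s - 1) ≤ (C₀.card - 1) * (C₀.card - 2) := by
      intro s
      have h6 := hmax' (ρ s) (h1 s (by omega)).1
      have h7 := g1 s
      exact Nat.mul_le_mul (by omega) (by omega)
    calc ∑ s : Fin (p + 1), n s * (n s - 1)
        ≤ ∑ s : Fin (p + 1), (C₀.card - 1) * (C₀.card - 2) := Finset.sum_le_sum fun s _ => h5 s
      _ = (p + 1) * ((C₀.card - 1) * (C₀.card - 2)) := by
          rw [Finset.sum_const, Finset.card_univ, Fintype.card_fin, smul_eq_mul]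
      _ ≤ (Fintype.card ι + 1 - C₀.card) * ((C₀.card - 1) * (C₀.card - 2)) :=
          Nat.mul_le_mul_right _ (by omega)
      _ = (Fintype.card ι + 1 - C₀.card) * (C₀.card - 1) * (C₀.card - 2) := by ring
      _ ≤ 2 * M := hM _ (Finset.card_le_univ _)

theorem ChainData.sum_le {V ι : Type*} [AddCommGroup V] [Module ℂ V] {y : ι → V} (D : ChainData y)
    {α : Type*} [AddCommGroup α] [LinearOrder α] [IsOrderedAddMonoid α] {v : ι → α}
    {m : Fin (D.p + 1) → α} (hm0 : ∀ s, m s ≤ 0)
    (hm : ∀ s j, m s ≤ v (D.e s j) - v (D.r s)) (i : ι) : ∑ s, m s ≤ v i - v (D.r 0) := by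
  classical
  have mono : ∀ A B : Finset (Fin (D.p + 1)), A ⊆ B → ∑ s ∈ B, m s ≤ ∑ s ∈ A, m s := by
    intro A B hAB
    have h := Finset.sum_le_sum_of_subset_of_nonneg (f := fun s => - m s) hAB
      (fun s _ _ => neg_nonneg.2 (hm0 s))
    rw [Finset.sum_neg_distrib, Finset.sum_neg_distrib] at h
    exact neg_le_neg_iff.1 h
  have key : ∀ k : ℕ, ∀ s : Fin (D.p + 1), (s : ℕ) = k → ∀ i, (i = D.r s ∨ ∃ j, D.e s j = i) →
      ∑ s' ∈ Finset.Iic s, m s' ≤ v i - v (D.r 0) := by
    intro k
    induction k using Nat.strong_induction_on with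
    | _ k ih =>
      intro s hs i hi
      by_cases hs0 : s = 0
      · subst hs0
        have h1 : ∑ s' ∈ Finset.Iic (0 : Fin (D.p + 1)), m s' ≤ m 0 := by
          have := mono {0} (Finset.Iic 0) (by simp)
          rwa [Finset.sum_singleton] at this
        refine h1.trans ?_
        rcases hi with rfl | ⟨j, rfl⟩
        · rw [sub_self]
          exact hm0 0
        · exact hm 0 j
      · obtain ⟨s', hs', hr⟩ := D.link s hs0
        have hr' : D.r s = D.r s' ∨ ∃ j, D.e s' j = D.r s := hr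
        have h1 := ih s' (by rw [← hs]; exact hs') s' rfl (D.r s) hr'
        have hsub : insert s (Finset.Iic s') ⊆ Finset.Iic s := by
          intro x hx
          rcases Finset.mem_insert.1 hx with rfl | hx
          · exact Finset.mem_Iic.2 le_rfl
          · exact Finset.mem_Iic.2 ((Finset.mem_Iic.1 hx).trans hs'.le)
        have h2 := mono _ _ hsub
        rw [Finset.sum_insert (by
          intro h
          exact absurd (Finset.mem_Iic.1 h) (not_le.2 hs'))] at h2
        refine h2.trans ?_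
        rcases hi with rfl | ⟨j, rfl⟩
        · calc m s + ∑ s' ∈ Finset.Iic s', m s' ≤ 0 + (v (D.r s) - v (D.r 0)) :=
              add_le_add (hm0 s) h1
            _ = v (D.r s) - v (D.r 0) := zero_add _
        · calc m s + ∑ s' ∈ Finset.Iic s', m s' ≤
              (v (D.e s j) - v (D.r s)) + (v (D.r s) - v (D.r 0)) := add_le_add (hm s j) h1
            _ = v (D.e s j) - v (D.r 0) := by abel
  obtain ⟨s, hs⟩ := D.cover i
  have hs' : i = D.r s ∨ ∃ j, D.e s j = i := hs
  exact (mono _ _ (Finset.subset_univ (Finset.Iic s))).trans (key s s rfl i hs')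

end Pool.Agent.H17R
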