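import Pool.Agent.H62.FC.WordsChange
import Pool.Agent.H62.FC.WordsExist
import Pool.Agent.H62.FC.WordsOrd
import Pool.Agent.H17LG.ModLREG
import Pool.Agent.H23.Forms
import Pool.Agent.H23.Bridge

/-!
# Generalised Wronskians along a prime divisor

Everything is contained in the proof of `logGeneralType_of_circuits` in
`Pool.Agent.H62.FC.LGTMain` (copy its private lemmas `LGTMain_const`, `LGTMain_expand`,
`LGTMain_words`, `LGTMain_mat`, `LGTMain_frame`, `LGTMain_adj`, `LGTMain_adj_mem`, `LGTMain_det`,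
`LGTMain_quot`, `LGTMain_bound`).
-/

noncomputable section

namespace Pool.Agent.H17R

open Pool.Agent.H23.Fano (PrimeDivisorOver Form)
open Pool.Agent.H23 (dualDer dualDer_apply dualDer_coord exists_basis_kaehler ιMulti_eq fc fc_ιMulti
  exists_int det_mem valRing ofFano)
open Pool.Agent.H17LG (exists_logDivisorCoords)
open Pool.Agent.H62.FC (wr LowVanish exists_words ord_wr_change ord_wr_log ord_wr_regular)

variable {K : Type} [Field K] [Algebra ℂ K] {w : ℕ}

/-- A function with vanishing differential is constant. -/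
private lemma Frame_const {f : K} (hf : KaehlerDifferential.D ℂ K f = 0) :
    ∃ c : ℂ, f = algebraMap ℂ K c := by
  by_cases hfa : IsAlgebraic ℂ f
  · have hint : IsIntegral ℂ f := hfa.isIntegral
    have h1 : (minpoly ℂ f).degree = 1 :=
      IsAlgClosed.degree_eq_one_of_irreducible _ (minpoly.irreducible hint)
    obtain ⟨c, hc⟩ := minpoly.mem_range_of_degree_eq_one ℂ f h1
    exact ⟨c, hc.symm⟩
  · exfalso
    have htr : Transcendental ℂ f := hfa
    have hind : AlgebraicIndepOn ℂ id ({f} : Set K) := algebraicIndependent_unique_type_iff.mpr htr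
    obtain ⟨s, hs, hsb⟩ := exists_isTranscendenceBasis_superset hind
    obtain ⟨b, hb⟩ := exists_basis_kaehler hsb
    have h2 := hb ⟨f, hs rfl⟩
    have h3 := b.ne_zero ⟨f, hs rfl⟩
    rw [h2] at h3
    exact h3 hf

private lemma Frame_expand {t : Fin w → K} (b : Module.Basis (Fin w) K Ω[K⁄ℂ])
    (hb : ∀ i, b i = KaehlerDifferential.D ℂ K (t i)) (X : Derivation ℂ K K) (f : K) :
    X f = ∑ i, X (t i) * dualDer b i f := by
  have h1 : ∀ g, X g = X.liftKaehlerDifferential (KaehlerDifferential.D ℂ K g) := fun g => by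
    rw [Derivation.liftKaehlerDifferential_comp_D]
  rw [h1 f, ← b.sum_repr (KaehlerDifferential.D ℂ K f), map_sum]
  refine Finset.sum_congr rfl fun i _ => ?_
  rw [map_smul, hb, ← h1, smul_eq_mul, dualDer_apply, mul_comm]

/-- the matrix of a frame -/
private def Frame_mat (b' : Module.Basis (Fin w) K Ω[K⁄ℂ]) (c t : Fin w → K) :
    Matrix (Fin w) (Fin w) K :=
  Matrix.of fun j i => c j * dualDer b' j (t i) * (t i)⁻¹

private lemma Frame_frame {t : Fin w → K} (ht : ∀ i, t i ≠ 0) (b : Module.Basis (Fin w) K Ω[K⁄ℂ])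
    (hb : ∀ i, b i = KaehlerDifferential.D ℂ K (t i)) (b' : Module.Basis (Fin w) K Ω[K⁄ℂ])
    (c : Fin w → K) (j : Fin w) (f : K) :
    (c j • dualDer b' j) f = ∑ i, Frame_mat b' c t j i * (t i • dualDer b i) f := by
  change c j * dualDer b' j f = _
  rw [Frame_expand b hb (dualDer b' j) f, Finset.mul_sum]
  refine Finset.sum_congr rfl fun i _ => ?_
  change _ = c j * dualDer b' j (t i) * (t i)⁻¹ * (t i * dualDer b i f)
  have := ht i
  field_simp

private lemma Frame_adj {D L : Fin w → Derivation ℂ K K} {A : Matrix (Fin w) (Fin w) K}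
    (h : ∀ j f, L j f = ∑ i, A j i * D i f) (i : Fin w) (f : K) :
    A.det * D i f = ∑ j, A.adjugate i j * L j f := by
  have h1 : A.adjugate * A = A.det • (1 : Matrix (Fin w) (Fin w) K) := A.adjugate_mul
  have h2 : ∀ l, ∑ j, A.adjugate i j * A j l = if i = l then A.det else 0 := by
    intro l
    have := congrFun (congrFun h1 i) l
    rw [Matrix.mul_apply, Matrix.smul_apply, Matrix.one_apply] at this
    rw [this]
    simp
  calc A.det * D i f = ∑ l, (if i = l then A.det else 0) * D l f := by simp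
    _ = ∑ l, (∑ j, A.adjugate i j * A j l) * D l f := by simp only [h2]
    _ = ∑ j, A.adjugate i j * L j f := by
      simp only [h, Finset.mul_sum, Finset.sum_mul]
      rw [Finset.sum_comm]
      simp only [mul_assoc]

private lemma Frame_adj_mem (O : Subalgebra ℂ K) {A : Matrix (Fin w) (Fin w) K}
    (hA : ∀ i j, A i j ∈ O) (i j : Fin w) : A.adjugate i j ∈ O := by
  rw [Matrix.adjugate_apply]
  apply det_mem
  intro i' j'
  rw [Matrix.updateRow_apply]
  split_ifs
  · rw [Pi.single_apply]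
    split_ifs
    · exact O.one_mem
    · exact O.zero_mem
  · exact hA i' j'

private lemma Frame_det (b' : Module.Basis (Fin w) K Ω[K⁄ℂ]) (c t : Fin w → K) :
    (Frame_mat b' c t).det = (∏ j, c j) * ((∏ i, (t i)⁻¹) *
      b'.det fun i => KaehlerDifferential.D ℂ K (t i)) := by
  have h1 : Frame_mat b' c t =
      Matrix.of fun j i => c j * (Matrix.of fun j i => (t i)⁻¹ *
        (b'.toMatrix fun i => KaehlerDifferential.D ℂ K (t i)) j i) j i := by
    ext j i
    simp only [Frame_mat, Matrix.of_apply, Module.Basis.toMatrix_apply, dualDer_apply]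
    ring
  rw [h1, Matrix.det_mul_column, Matrix.det_mul_row, Module.Basis.det_apply]

omit [Algebra ℂ K] in
private lemma Frame_quot (v : AddValuation K (WithTop ℤ)) {x t : K} (ht : t ≠ 0)
    (h : v t ≤ v x) : 0 ≤ v (x * t⁻¹) := by
  by_cases hx : x = 0
  · rw [hx, zero_mul, v.map_zero]
    exact le_top
  obtain ⟨q, hq⟩ := exists_int v (mul_ne_zero hx (inv_ne_zero ht))
  obtain ⟨p, hp⟩ := exists_int v ht
  have h1 : v (x * t⁻¹) + v t = v x := by rw [← v.map_mul, mul_assoc, inv_mul_cancel₀ ht, mul_one]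
  rw [← h1, hq, hp, ← WithTop.coe_add, WithTop.coe_le_coe] at h
  rw [hq]
  exact_mod_cast (by omega : (0 : ℤ) ≤ q)

private lemma Frame_bound (v : AddValuation K (WithTop ℤ))
    (hv : ∀ c : ℂ, 0 ≤ v (algebraMap ℂ K c)) {t : Fin w → K} (ht : ∀ i, t i ≠ 0)
    (b : Module.Basis (Fin w) K Ω[K⁄ℂ]) (hb : ∀ i, b i = KaehlerDifferential.D ℂ K (t i))
    (b' : Module.Basis (Fin w) K Ω[K⁄ℂ]) (c : Fin w → K)
    (hA : ∀ j i, 0 ≤ v (Frame_mat b' c t j i)) (hδ : (Frame_mat b' c t).det ≠ 0) {n s : ℕ}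
    {u : Fin n → K} {W : Fin n → List (Fin w)} (hW : ∑ i, (W i).length = s)
    (hu : LowVanish (fun i => t i • dualDer b i) s u) {μ : WithTop ℤ}
    (hμ : ∀ W' : Fin n → List (Fin w), ∑ i, (W' i).length = s →
      μ ≤ v (wr (fun j => c j • dualDer b' j) W' u)) :
    μ ≤ v ((Frame_mat b' c t).det ^ s * wr (fun i => t i • dualDer b i) W u) := by
  have h1 := Frame_frame ht b hb b' c
  refine ord_wr_change v (D' := fun j => c j • dualDer b' j)
    (C := fun i j => (Frame_mat b' c t).adjugate i j) (fun i j => ?_) hδ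
    (fun i f => Frame_adj (D := fun i => t i • dualDer b i) h1 i f) (Pool.Agent.H62.FC.LowVanish.change h1 hu)
    hW hμ
  exact Frame_adj_mem (valRing v hv) hA i j

/-- The derivations dual to the `dlog (τ i)`. -/
def logDer {τ : Fin w → K} (b : Module.Basis (Fin w) K Ω[K⁄ℂ]) (i : Fin w) : Derivation ℂ K K :=
  τ i • dualDer b i

/-- Words of minimal total order. -/
theorem exists_words_min {τ : Fin w → K} (hτ : IsTranscendenceBasis ℂ τ)
    (b : Module.Basis (Fin w) K Ω[K⁄ℂ]) (hb : ∀ i, b i = KaehlerDifferential.D ℂ K (τ i)) {n : ℕ}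
    (u : Fin n → K) (hu : LinearIndependent ℂ u) :
    ∃ (s : ℕ) (W : Fin n → List (Fin w)), ∑ i, (W i).length = s ∧
      wr (logDer (τ := τ) b) W u ≠ 0 ∧ LowVanish (logDer (τ := τ) b) s u ∧ 2 * s ≤ n * (n - 1) := by
  classical
  have ht0 : ∀ i, τ i ≠ 0 := fun i => hτ.1.ne_zero i
  have hD : ∀ f : K, (∀ i, logDer (τ := τ) b i f = 0) → ∃ c : ℂ, f = algebraMap ℂ K c := by
    intro f hf
    apply Frame_const
    apply b.repr.injective
    ext i
    have h1 : τ i * dualDer b i f = 0 := hf i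
    have := (mul_eq_zero.1 h1).resolve_left (ht0 i)
    rw [dualDer_apply] at this
    simpa using this
  obtain ⟨W₀, hW₀, hW₀'⟩ := exists_words (logDer (τ := τ) b) hD u hu
  have hex : ∃ s, ∃ W : Fin n → List (Fin w), ∑ i, (W i).length = s ∧
      wr (logDer (τ := τ) b) W u ≠ 0 := ⟨_, W₀, rfl, hW₀'⟩
  obtain ⟨W, hW1, hW2⟩ := Nat.find_spec hex
  refine ⟨Nat.find hex, W, hW1, hW2, ?_, ?_⟩
  · intro W' hW'
    by_contra h
    exact Nat.find_min hex hW' ⟨W', rfl, h⟩
  · have h1 : Nat.find hex ≤ ∑ i, (W₀ i).length := Nat.find_min' hex ⟨W₀, rfl, hW₀'⟩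
    have h2 : ∑ i, (W₀ i).length ≤ ∑ i : Fin n, (i : ℕ) := Finset.sum_le_sum fun i _ => hW₀ i
    have h3 : (∑ i : Fin n, (i : ℕ)) * 2 = n * (n - 1) := by
      rw [Fin.sum_univ_eq_sum_range (fun i => i) n]
      exact Finset.sum_range_id_mul_two n
    omega

/-- A logarithmic and a regular frame along a prime divisor, and the orders of the generalised
Wronskians in them. -/
theorem exists_frame [Algebra.EssFiniteType ℂ K] {τ : Fin (w + 1) → K}
    (hτ : IsTranscendenceBasis ℂ τ) (b : Module.Basis (Fin (w + 1)) K Ω[K⁄ℂ])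
    (hb : ∀ i, b i = KaehlerDifferential.D ℂ K (τ i)) (E : PrimeDivisorOver K (w + 1)) :
    ∃ (g π : K) (η : Form K (w + 1)), g ≠ 0 ∧
      η ∈ Pool.Agent.H23.Fano.regularForms (w + 1) E.localRing ∧
      Form.mk (∏ i, (τ i)⁻¹) τ = g • η ∧ E.ord π = 1 ∧ 0 ≤ E.ord (π * g) ∧
      ((∀ i, E.ord (τ i) = 0) → 0 ≤ E.ord g) ∧
      ∀ (n s : ℕ) (u : Fin n → K) (W : Fin n → List (Fin (w + 1))), ∑ i, (W i).length = s →
        LowVanish (logDer (τ := τ) b) s u → ∑ j, u j = -1 →
        (∀ (a : Fin n → ℤ) (μ : ℤ), (∀ j, E.ord (u j) = (a j : WithTop ℤ)) →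
          (μ = 0 ∨ ∃ j, a j = μ) → ((∑ j, a j - μ : ℤ) : WithTop ℤ) ≤
            E.ord ((π * g) ^ s * wr (logDer (τ := τ) b) W u)) ∧
        ((∀ j, E.ord (u j) = 0) → (∀ i, E.ord (τ i) = 0) →
          0 ≤ E.ord (g ^ s * wr (logDer (τ := τ) b) W u)) := by
  classical
  have ht0 : ∀ i, τ i ≠ 0 := fun i => hτ.1.ne_zero i
  have hω0 : Form.mk (∏ i, (τ i)⁻¹) τ ≠ 0 := by
    intro h0
    have h1 : fc b ((∏ i, (τ i)⁻¹) • exteriorPower.ιMulti K (w + 1)
        fun i => KaehlerDifferential.D ℂ K (τ i)) = 0 := by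
      rw [show ((∏ i, (τ i)⁻¹) • exteriorPower.ιMulti K (w + 1)
        fun i => KaehlerDifferential.D ℂ K (τ i)) = 0 from h0, map_zero]
    rw [map_smul, fc_ιMulti, smul_eq_mul] at h1
    simp only [← hb, b.det_self, mul_one] at h1
    exact Finset.prod_ne_zero_iff.2 (fun i _ => inv_ne_zero (ht0 i)) h1
  obtain ⟨g, b', hb', hg0, hg, hreg, hlog1, hlog0⟩ := exists_logDivisorCoords hτ (ofFano E)
  change E.ord (g 0) = 1 at hg0
  change ∀ i, 0 ≤ E.ord (g i) at hg
  change ∀ i f, 0 ≤ E.ord f → 0 ≤ E.ord (dualDer b' i f) at hreg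
  change ∀ i, i ≠ 0 → ∀ f, E.ord f ≤ E.ord (dualDer b' i f) at hlog1
  change ∀ f, E.ord f ≤ E.ord (g 0 * dualDer b' 0 f) at hlog0
  obtain ⟨G, hG⟩ : ∃ G : K, G = (∏ i, (τ i)⁻¹) *
    b'.det fun i => KaehlerDifferential.D ℂ K (τ i) := ⟨_, rfl⟩
  have hη : Form.mk 1 g ∈ Pool.Agent.H23.Fano.regularForms (w + 1) E.localRing := by
    refine AddSubgroup.subset_closure ⟨1, g, ?_, hg, rfl⟩
    change 0 ≤ E.ord 1
    rw [E.ord.map_one]
  have hω : Form.mk (∏ i, (τ i)⁻¹) τ = G • Form.mk 1 g := by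
    change ((∏ i, (τ i)⁻¹) • exteriorPower.ιMulti K (w + 1)
      fun i => KaehlerDifferential.D ℂ K (τ i)) = G • ((1 : K) •
        exteriorPower.ιMulti K (w + 1) fun i => KaehlerDifferential.D ℂ K (g i))
    rw [ιMulti_eq b', smul_smul, ← hG, one_smul]
    simp only [hb']
  have hG0 : G ≠ 0 := by
    intro h0
    apply hω0
    rw [hω, h0, zero_smul]
  have hg00 : g 0 ≠ 0 := by
    intro h0
    rw [h0, E.ord.map_zero] at hg0
    exact absurd hg0 (by simp)
  -- the logarithmic frame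
  obtain ⟨c, hc⟩ : ∃ c : Fin (w + 1) → K, c = Fin.cons (g 0) 1 := ⟨_, rfl⟩
  have hc0 : c 0 = g 0 := by rw [hc]; rfl
  have hcs : ∀ i : Fin w, c (Fin.succ i) = 1 := fun i => by rw [hc]; rfl
  have hlog : ∀ j f, E.ord f ≤ E.ord (c j * dualDer b' j f) := by
    intro j f
    refine Fin.cases ?_ (fun i => ?_) j
    · rw [hc0]; exact hlog0 f
    · rw [hcs, one_mul]; exact hlog1 _ (Fin.succ_ne_zero i) f
  have hdet : (Frame_mat b' c τ).det = g 0 * G := by
    rw [Frame_det, ← hG, Fin.prod_univ_succ, hc0]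
    simp only [hcs, Finset.prod_const_one, mul_one]
  have hδ0 : g 0 * G ≠ 0 := mul_ne_zero hg00 hG0
  have hdet' : (Frame_mat b' 1 τ).det = G := by
    rw [Frame_det, ← hG]
    simp
  have hent : ∀ j i, 0 ≤ E.ord (Frame_mat b' c τ j i) :=
    fun j i => Frame_quot E.ord (ht0 i) (hlog j (τ i))
  have hent' : (∀ i, E.ord (τ i) = 0) → ∀ j i, 0 ≤ E.ord (Frame_mat b' 1 τ j i) := by
    intro hv0 j i
    refine Frame_quot E.ord (ht0 i) ?_
    rw [hv0, Pi.one_apply, one_mul]
    exact hreg j _ (by rw [hv0])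
  refine ⟨G, g 0, Form.mk 1 g, hG0, hη, hω, hg0, ?_, ?_, ?_⟩
  · rw [← hdet]
    exact det_mem (valRing E.ord E.ord_const) _ hent
  · intro hv0
    rw [← hdet']
    exact det_mem (valRing E.ord E.ord_const) _ (hent' hv0)
  · intro n s u W hW hlow hrel
    refine ⟨fun a μ ha hμ => ?_, fun hu0 hv0 => ?_⟩
    · have h1 := Frame_bound E.ord E.ord_const ht0 b hb b' c hent (by rw [hdet]; exact hδ0) hW
        hlow (μ := ((∑ j, a j - μ : ℤ) : WithTop ℤ))
        (fun W' _ => ord_wr_log E.ord (fun j f => hlog j f) hrel ha hμ W')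
      rw [hdet] at h1
      exact h1
    · have h1 := Frame_bound E.ord E.ord_const ht0 b hb b' 1 (hent' hv0)
        (by rw [hdet']; exact hG0) hW hlow (μ := 0)
        (fun W' _ => ord_wr_regular E.ord (fun j f hf => by
          change 0 ≤ E.ord (1 * dualDer b' j f)
          rw [one_mul]
          exact hreg j f hf) (fun j => by rw [hu0]) W')
      rw [hdet'] at h1
      exact h1

end Pool.Agent.H17R
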