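import Pool.Agent.H17R.Defs
import Pool.Agent.H17R.Chain
import Pool.Agent.H17R.Frame
import Pool.Agent.H62.FC.LGTMain

/-!
# Log general type from a relation

PROOF.  Let `D` be the chain of circuits of the family `t` (`exists_chain`, with `V = K`).  For every
`s` put `u s j = c s j • t (e s j) / t (r s)`, so `∑ j, u s j = -1`, `u s j ≠ 0` and the `u s j` are
linearly independent over `ℂ`.  Let `b` be the basis `dτ i` (`exists_basis_kaehler`), and `W s`, `o s`
the words and their total order from `exists_words_min`, `F s ≠ 0` the generalised Wronskian,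
`∑ s, o s ≤ M` (since `2 o s ≤ n s (n s - 1)`).  Put `Θ = ∏ s, F s / ∏ j, u s j` and
`f l = Θ * g l / t (r 0)`, `ω = Form.mk (∏ i, (τ i)⁻¹) τ` (`≠ 0`, see `hω0` in
`logGeneralType_of_circuits`), weight `m = M`.  Clearly `f l / f 0 = g l / g 0`.

Let `E` be a prime divisor and `γ, π, η` (`g, π, η` there) the data of `exists_frame`.  Put
`v i = ord (t i)`, `a s j = ord (u s j) = v (e s j) - v (r s)`, `μ s = min (0, min_j a s j)`.  Then
`ord ((π γ) ^ (o s) F s) ≥ ∑ j, a s j - μ s`, hence (product over `s`, and `ord (π γ) ≥ 0` for the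
remaining exponent `M - ∑ o s`) `ord ((π γ) ^ M Θ) ≥ - ∑ s, μ s ≥ v (r 0) - v i` for all `i`, by
`ChainData.sum_le` with `m = μ`.  So `ord ((π γ) ^ M f l) ≥ ord (g l) - v i` for all `i`, which is
`≥ 0` for a suitable `i` by `h1`; since `ord π = 1` this is the statement for `E` in `B`, and also
for the first alternative of `h2` if `E` is not in `B` (then it is `≥ M`).  In the second alternative
all `a s j = 0` and all `ord (τ i) = 0`, so `ord (γ ^ (o s) F s) ≥ 0`, `ord γ ≥ 0`, so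
`ord (γ ^ M Θ) ≥ 0` and `ord (g l / t (r 0)) ≥ 0` by `h1` (all `v i` are equal).
If `g l = 0` then `f l = 0` and everything is trivial (`ord 0 = ⊤`).
-/

noncomputable section

namespace Pool.Agent.H17R

open Pool.Agent.H23.Fano (PrimeDivisorOver Form)
open Pool.Agent.H17LG.Variety (IsLogGeneralType PoleAtMost)
open Pool.Agent.H23 (exists_basis_kaehler fc fc_ιMulti exists_int)
open Pool.Agent.H62.FC (wr LowVanish)

variable {K : Type} [Field K] [Algebra ℂ K]

omit [Algebra ℂ K] in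
private lemma AlgMain_prod (v : AddValuation K (WithTop ℤ)) {α : Type} (T : Finset α) (y : α → K)
    (z : α → ℤ) (h : ∀ i ∈ T, v (y i) = (z i : WithTop ℤ)) :
    v (∏ i ∈ T, y i) = ((∑ i ∈ T, z i : ℤ) : WithTop ℤ) := by
  classical
  induction T using Finset.induction_on with
  | empty => simp
  | insert i T hi ih =>
    rw [Finset.prod_insert hi, Finset.sum_insert hi, v.map_mul, h i (Finset.mem_insert_self _ _),
      ih fun j hj => h j (Finset.mem_insert_of_mem hj)]
    push_cast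
    rfl

omit [Algebra ℂ K] in
private lemma AlgMain_pow (v : AddValuation K (WithTop ℤ)) {y : K} {z : ℤ}
    (h : v y = (z : WithTop ℤ)) (e : ℕ) : v (y ^ e) = ((e * z : ℤ) : WithTop ℤ) := by
  induction e with
  | zero => simp
  | succ e ih =>
    rw [pow_succ, v.map_mul, ih, h, ← WithTop.coe_add]
    congr 1
    push_cast
    ring

omit [Algebra ℂ K] in
private lemma AlgMain_div (v : AddValuation K (WithTop ℤ)) {X P : K} {x σ : ℤ} (hP0 : P ≠ 0)
    (hX : v X = (x : WithTop ℤ)) (hP : v P = (σ : WithTop ℤ)) :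
    v (X / P) = ((x - σ : ℤ) : WithTop ℤ) := by
  have hX0 : X ≠ 0 := by
    rintro rfl
    rw [v.map_zero] at hX
    exact absurd hX (by simp)
  obtain ⟨q, hq⟩ := exists_int v (div_ne_zero hX0 hP0)
  have h1 : v (X / P) + v P = v X := by rw [← v.map_mul, div_mul_cancel₀ _ hP0]
  rw [hq, hP, hX, ← WithTop.coe_add, WithTop.coe_inj] at h1
  rw [hq]
  congr 1
  omega

omit [Algebra ℂ K] in
private lemma AlgMain_theta (v : AddValuation K (WithTop ℤ)) {p : ℕ} {F P : Fin p → K}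
    {o : Fin p → ℕ} {δ : K} {z : ℤ} (hδ : v δ = (z : WithTop ℤ)) (hz : 0 ≤ z)
    (hP0 : ∀ s, P s ≠ 0) {x σ β : Fin p → ℤ} (hx : ∀ s, v (δ ^ o s * F s) = (x s : WithTop ℤ))
    (hσ : ∀ s, v (P s) = (σ s : WithTop ℤ)) (hβ : ∀ s, σ s + β s ≤ x s) {M : ℕ}
    (hM : ∑ s, o s ≤ M) :
    ∃ y : ℤ, v (δ ^ M * ∏ s, F s / P s) = (y : WithTop ℤ) ∧ ∑ s, β s ≤ y := by
  have h1 : δ ^ M * ∏ s, F s / P s = δ ^ (M - ∑ s, o s) * ∏ s, (δ ^ o s * F s / P s) := by
    have h2 : ∀ s, δ ^ o s * F s / P s = δ ^ o s * (F s / P s) := fun s => mul_div_assoc _ _ _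
    rw [Finset.prod_congr rfl fun s _ => h2 s, Finset.prod_mul_distrib,
      Finset.prod_pow_eq_pow_sum, ← mul_assoc, ← pow_add, Nat.sub_add_cancel hM]
  rw [h1, v.map_mul, AlgMain_pow v hδ,
    AlgMain_prod v Finset.univ _ (fun s => x s - σ s) (fun s _ => AlgMain_div v (hP0 s) (hx s) (hσ s)),
    ← WithTop.coe_add]
  refine ⟨_, rfl, ?_⟩
  have h3 : ∑ s, β s ≤ ∑ s, (x s - σ s) := Finset.sum_le_sum fun s _ => by
    have := hβ s
    omega
  have h4 : 0 ≤ ((M - ∑ s, o s : ℕ) : ℤ) * z := mul_nonneg (Int.natCast_nonneg _) hz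
  linarith

private lemma AlgMain_mu {n : ℕ} (a : Fin n → ℤ) :
    ∃ μ : ℤ, μ ≤ 0 ∧ (∀ j, μ ≤ a j) ∧ (μ = 0 ∨ ∃ j, a j = μ) := by
  have hne : (insert 0 (Finset.univ.image a)).Nonempty := Finset.insert_nonempty _ _
  refine ⟨(insert 0 (Finset.univ.image a)).min' hne, ?_, ?_, ?_⟩
  · exact Finset.min'_le _ _ (Finset.mem_insert_self _ _)
  · intro j
    exact Finset.min'_le _ _ (Finset.mem_insert_of_mem (Finset.mem_image_of_mem _ (Finset.mem_univ j)))
  · have h := Finset.min'_mem _ hne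
    rw [Finset.mem_insert, Finset.mem_image] at h
    obtain h | ⟨j, _, hj⟩ := h
    · exact Or.inl h
    · exact Or.inr ⟨j, hj⟩

private lemma AlgMain_const (v : AddValuation K (WithTop ℤ))
    (hv : ∀ c : ℂ, 0 ≤ v (algebraMap ℂ K c)) {c : ℂ} (hc : c ≠ 0) :
    v (algebraMap ℂ K c) = ((0 : ℤ) : WithTop ℤ) := by
  have h0 : algebraMap ℂ K c ≠ 0 := by
    rw [Ne, map_eq_zero]
    exact hc
  have h0' : algebraMap ℂ K c⁻¹ ≠ 0 := by
    rw [Ne, map_eq_zero]
    exact inv_ne_zero hc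
  obtain ⟨q, hq⟩ := exists_int v h0
  obtain ⟨q', hq'⟩ := exists_int v h0'
  have h1 := hv c
  have h2 := hv c⁻¹
  have h3 : v (algebraMap ℂ K c) + v (algebraMap ℂ K c⁻¹) = 0 := by
    rw [← v.map_mul, ← map_mul, mul_inv_cancel₀ hc, map_one, v.map_one]
  rw [hq] at h1 h3 ⊢
  rw [hq'] at h2 h3
  have h1' : 0 ≤ q := by exact_mod_cast h1
  have h2' : 0 ≤ q' := by exact_mod_cast h2
  have h3' : q + q' = 0 := by exact_mod_cast h3
  congr 1
  omega

theorem isLogGeneralType_of_relation [Algebra.EssFiniteType ℂ K] {w : ℕ} (hw : 1 ≤ w) {ι : Type}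
    [Fintype ι] [DecidableEq ι] (hι : 2 ≤ Fintype.card ι) {t : ι → K} (hsum : ∑ i, t i = 0)
    (hsub : ∀ S : Finset ι, S.Nonempty → S ≠ Finset.univ → ∑ i ∈ S, t i ≠ 0) {M : ℕ} (hM1 : 1 ≤ M)
    (hM : ∀ c ≤ Fintype.card ι, (Fintype.card ι + 1 - c) * (c - 1) * (c - 2) ≤ 2 * M)
    {τ : Fin w → K} (hτ : IsTranscendenceBasis ℂ τ) {r : ℕ} {g : Fin (r + 1) → K} (hg0 : g 0 ≠ 0)
    (halg : Algebra.IsAlgebraic (IntermediateField.adjoin ℂ (Set.range fun l => g l / g 0)) K)
    {B : PrimeDivisorOver K w → Prop} (h1 : ∀ (E : PrimeDivisorOver K w) (l : Fin (r + 1)), ∃ i, E.ord (t i) ≤ E.ord (g l))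
    (h2 : ∀ E : PrimeDivisorOver K w, ¬ B E → (∀ l, ∃ i, E.ord (t i) + (M : WithTop ℤ) ≤ E.ord (g l)) ∨
      ((∀ i i', E.ord (t i) = E.ord (t i')) ∧ ∀ i, E.ord (τ i) = 0)) :
    IsLogGeneralType B := by
  classical
  obtain ⟨w, rfl⟩ : ∃ w', w = w' + 1 := ⟨w - 1, by omega⟩
  obtain ⟨D, hDM⟩ := exists_chain hι hsum hsub hM
  have ht0 : ∀ i, t i ≠ 0 := by
    intro i hi
    refine hsub {i} (Finset.singleton_nonempty i) ?_ (by rw [Finset.sum_singleton]; exact hi)
    intro h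
    have := congrArg Finset.card h
    rw [Finset.card_singleton, Finset.card_univ] at this
    omega
  have hτ0 : ∀ i, τ i ≠ 0 := by
    intro i hi
    apply hτ.1.transcendental i
    rw [hi]
    exact isAlgebraic_zero
  obtain ⟨u, hu⟩ : ∃ u : (s : Fin (D.p + 1)) → Fin (D.n s) → K,
      u = fun s j => (D.c s j • t (D.e s j)) / t (D.r s) := ⟨_, rfl⟩
  have hu0 : ∀ s j, u s j ≠ 0 := by
    intro s j
    rw [hu]
    exact div_ne_zero (smul_ne_zero (D.c_ne s j) (ht0 _)) (ht0 _)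
  have hrel : ∀ s, ∑ j, u s j = -1 := by
    intro s
    simp only [hu]
    rw [← Finset.sum_div, D.rel s, neg_div, div_self (ht0 _)]
  have hind : ∀ s, LinearIndependent ℂ (u s) := by
    intro s
    have h1 := (D.indep s).units_smul (fun j => Units.mk0 (D.c s j) (D.c_ne s j))
    have h2 := h1.map' (LinearMap.mulRight ℂ (t (D.r s))⁻¹) (by
      rw [LinearMap.ker_eq_bot]
      intro x y hxy
      have hxy' : x * (t (D.r s))⁻¹ = y * (t (D.r s))⁻¹ := hxy
      exact mul_right_cancel₀ (inv_ne_zero (ht0 _)) hxy')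
    have h3 : u s = (LinearMap.mulRight ℂ (t (D.r s))⁻¹) ∘
        ((fun j => Units.mk0 (D.c s j) (D.c_ne s j)) • fun j => t (D.e s j)) := by
      funext j
      rw [hu]
      change (D.c s j • t (D.e s j)) / t (D.r s) = (D.c s j • t (D.e s j)) * (t (D.r s))⁻¹
      exact div_eq_mul_inv _ _
    rw [h3]
    exact h2
  obtain ⟨b, hb⟩ := exists_basis_kaehler hτ
  choose o W hW1 hW2 hW3 hW4 using fun s => exists_words_min hτ b hb (u s) (hind s)
  have hoM : ∑ s, o s ≤ M := by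
    have h1 : ∑ s, 2 * o s ≤ ∑ s, D.n s * (D.n s - 1) := Finset.sum_le_sum fun s _ => hW4 s
    rw [← Finset.mul_sum] at h1
    omega
  obtain ⟨F, hF⟩ : ∃ F : Fin (D.p + 1) → K, F = fun s => wr (logDer (τ := τ) b) (W s) (u s) :=
    ⟨_, rfl⟩
  have hF0 : ∀ s, F s ≠ 0 := fun s => by rw [hF]; exact hW2 s
  obtain ⟨P, hP⟩ : ∃ P : Fin (D.p + 1) → K, P = fun s => ∏ j, u s j := ⟨_, rfl⟩
  have hP0 : ∀ s, P s ≠ 0 := fun s => by
    rw [hP]; exact Finset.prod_ne_zero_iff.2 fun j _ => hu0 s j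
  obtain ⟨Θ, hΘ⟩ : ∃ Θ : K, Θ = ∏ s, F s / P s := ⟨_, rfl⟩
  have hΘ0 : Θ ≠ 0 := by
    rw [hΘ]
    exact Finset.prod_ne_zero_iff.2 fun s _ => div_ne_zero (hF0 s) (hP0 s)
  have hω0 : Form.mk (∏ i, (τ i)⁻¹) τ ≠ 0 := by
    intro h0
    have h1 : fc b ((∏ i, (τ i)⁻¹) • exteriorPower.ιMulti K (w + 1)
        fun i => KaehlerDifferential.D ℂ K (τ i)) = 0 := by
      rw [show ((∏ i, (τ i)⁻¹) • exteriorPower.ιMulti K (w + 1)
        fun i => KaehlerDifferential.D ℂ K (τ i)) = 0 from h0, map_zero]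
    rw [map_smul, fc_ιMulti, smul_eq_mul] at h1
    simp only [← hb, b.det_self, mul_one] at h1
    exact Finset.prod_ne_zero_iff.2 (fun i _ => inv_ne_zero (hτ0 i)) h1
  refine ⟨M, hM1, Form.mk (∏ i, (τ i)⁻¹) τ, hω0, r, fun l => Θ * g l / t (D.r 0),
    div_ne_zero (mul_ne_zero hΘ0 hg0) (ht0 _), ?_, ?_⟩
  · intro l E
    obtain ⟨γ, π, η, hγ0, hη, hω, hπ, hπγ, hγ, hfr⟩ := exists_frame hτ b hb E
    by_cases hgl : g l = 0
    · have h0 : ∀ p : ℕ, PoleAtMost p E M (Θ * g l / t (D.r 0)) (Form.mk (∏ i, (τ i)⁻¹) τ) := by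
        intro p
        refine ⟨γ, η, hη, hω, ?_⟩
        rw [hgl, mul_zero, zero_div, zero_mul, E.ord.map_zero, top_add]
        exact le_top
      exact ⟨fun _ => h0 0, fun _ => h0 M⟩
    choose v hv using fun i => exists_int E.ord (ht0 i)
    obtain ⟨G, hG⟩ := exists_int E.ord hgl
    have ha : ∀ s j, E.ord (u s j) = ((v (D.e s j) - v (D.r s) : ℤ) : WithTop ℤ) := by
      intro s j
      rw [hu]
      refine AlgMain_div E.ord (ht0 _) ?_ (hv _)
      rw [Algebra.smul_def, E.ord.map_mul, hv, AlgMain_const E.ord E.ord_const (D.c_ne s j),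
        ← WithTop.coe_add, zero_add]
    obtain ⟨zγ, hzγ⟩ := exists_int E.ord hγ0
    have hπ0 : π ≠ 0 := by
      rintro rfl
      rw [E.ord.map_zero] at hπ
      exact absurd hπ (by simp)
    have hπ1 : E.ord π = ((1 : ℤ) : WithTop ℤ) := hπ
    have hz : E.ord (π * γ) = ((1 + zγ : ℤ) : WithTop ℤ) := by
      rw [E.ord.map_mul, hπ1, hzγ, ← WithTop.coe_add]
    have hz0 : 0 ≤ 1 + zγ := by
      rw [hz] at hπγ
      exact_mod_cast hπγ
    have hσ : ∀ s, E.ord (P s) = ((∑ j, (v (D.e s j) - v (D.r s)) : ℤ) : WithTop ℤ) := fun s => by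
      rw [hP]
      exact AlgMain_prod E.ord Finset.univ _ _ fun j _ => ha s j
    have hfl0 : Θ * g l / t (D.r 0) ≠ 0 := div_ne_zero (mul_ne_zero hΘ0 hgl) (ht0 _)
    obtain ⟨y, hy⟩ := exists_int E.ord (mul_ne_zero hfl0 (pow_ne_zero M hγ0))
    obtain ⟨θ, hθ⟩ := exists_int E.ord hΘ0
    have hyθ : y = θ + G - v (D.r 0) + M * zγ := by
      have h1 : E.ord (Θ * g l / t (D.r 0) * γ ^ M) =
          ((θ + G - v (D.r 0) + M * zγ : ℤ) : WithTop ℤ) := by
        rw [E.ord.map_mul, AlgMain_pow E.ord hzγ,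
          AlgMain_div E.ord (ht0 _) (x := θ + G) (σ := v (D.r 0)) ?_ (hv _), ← WithTop.coe_add]
        rw [E.ord.map_mul, hθ, hG, ← WithTop.coe_add]
      rw [hy, WithTop.coe_inj] at h1
      exact h1
    -- the logarithmic frame
    choose μ hμ0 hμ hμ' using fun s => AlgMain_mu fun j => v (D.e s j) - v (D.r s)
    have hkey : ∀ i, G - v i ≤ y + M := by
      intro i
      choose x hx using fun s => exists_int E.ord
        (mul_ne_zero (pow_ne_zero (o s) (mul_ne_zero hπ0 hγ0)) (hF0 s))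
      have hxge : ∀ s, ∑ j, (v (D.e s j) - v (D.r s)) + (-μ s) ≤ x s := by
        intro s
        have h1 := (hfr (D.n s) (o s) (u s) (W s) (hW1 s) (hW3 s) (hrel s)).1
          (fun j => v (D.e s j) - v (D.r s)) (μ s) (ha s) (hμ' s)
        have h2 : ((∑ j, (v (D.e s j) - v (D.r s)) - μ s : ℤ) : WithTop ℤ) ≤ (x s : WithTop ℤ) := by
          rw [← hx s, hF]
          exact h1
        rw [WithTop.coe_le_coe] at h2
        linarith
      obtain ⟨z, hz1, hz2⟩ := AlgMain_theta E.ord hz hz0 hP0 hx hσ hxge hoM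
      rw [← hΘ] at hz1
      have h3 : z = M * (1 + zγ) + θ := by
        rw [E.ord.map_mul, AlgMain_pow E.ord hz, hθ, ← WithTop.coe_add, WithTop.coe_inj] at hz1
        exact hz1.symm
      have h4 := D.sum_le (v := v) hμ0 hμ i
      rw [Finset.sum_neg_distrib] at hz2
      have h5 : (M : ℤ) * (1 + zγ) = M + M * zγ := by ring
      rw [h5] at h3
      linarith
    refine ⟨fun hBE => ⟨γ, η, hη, hω, ?_⟩, fun hBE => ⟨γ, η, hη, hω, ?_⟩⟩
    · change 0 ≤ E.ord (Θ * g l / t (D.r 0) * γ ^ M) + ((0 : ℕ) : WithTop ℤ)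
      rw [Nat.cast_zero, add_zero, hy]
      have h0 : (0 : ℤ) ≤ y := by
        rcases h2 E hBE with h | ⟨h, hτE⟩
        · obtain ⟨i, hi⟩ := h l
          rw [hv, hG] at hi
          have hi' : v i + (M : ℤ) ≤ G := by
            have h3 : ((M : ℕ) : WithTop ℤ) = (((M : ℕ) : ℤ) : WithTop ℤ) := rfl
            rw [h3, ← WithTop.coe_add, WithTop.coe_le_coe] at hi
            exact hi
          have := hkey i
          linarith
        · have hvv : ∀ i i', v i = v i' := by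
            intro i i'
            have := h i i'
            rw [hv, hv, WithTop.coe_inj] at this
            exact this
          have hzγ0 : 0 ≤ zγ := by
            have := hγ hτE
            rw [hzγ] at this
            exact_mod_cast this
          choose x hx using fun s => exists_int E.ord
            (mul_ne_zero (pow_ne_zero (o s) hγ0) (hF0 s))
          have hxge : ∀ s, ∑ j, (v (D.e s j) - v (D.r s)) + 0 ≤ x s := by
            intro s
            have h1 := (hfr (D.n s) (o s) (u s) (W s) (hW1 s) (hW3 s) (hrel s)).2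
              (fun j => by
                rw [ha, hvv (D.e s j) (D.r s), sub_self]
                rfl) hτE
            have h2 : 0 ≤ (x s : WithTop ℤ) := by
              rw [← hx s, hF]
              exact h1
            have h3 : 0 ≤ x s := by exact_mod_cast h2
            have h4 : ∑ j, (v (D.e s j) - v (D.r s)) = 0 :=
              Finset.sum_eq_zero fun j _ => by rw [hvv (D.e s j) (D.r s), sub_self]
            rw [h4, add_zero]
            exact h3
          obtain ⟨z, hz1, hz2⟩ := AlgMain_theta E.ord hzγ hzγ0 hP0 hx hσ hxge hoM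
          rw [← hΘ] at hz1
          have h3 : z = M * zγ + θ := by
            rw [E.ord.map_mul, AlgMain_pow E.ord hzγ, hθ, ← WithTop.coe_add, WithTop.coe_inj] at hz1
            exact hz1.symm
          obtain ⟨i, hi⟩ := h1 E l
          rw [hv, hG, WithTop.coe_le_coe, hvv i (D.r 0)] at hi
          rw [Finset.sum_const_zero] at hz2
          linarith
      exact_mod_cast h0
    · change 0 ≤ E.ord (Θ * g l / t (D.r 0) * γ ^ M) + ((M : ℕ) : WithTop ℤ)
      rw [hy]
      obtain ⟨i, hi⟩ := h1 E l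
      rw [hv, hG, WithTop.coe_le_coe] at hi
      have h2 : (0 : ℤ) ≤ y + (M : ℕ) := by
        have := hkey i
        linarith
      have h3 : ((M : ℕ) : WithTop ℤ) = (((M : ℕ) : ℤ) : WithTop ℤ) := rfl
      rw [h3, ← WithTop.coe_add]
      exact WithTop.coe_le_coe.2 h2
  · have h1 : (fun l => Θ * g l / t (D.r 0) / (Θ * g 0 / t (D.r 0))) = fun l => g l / g 0 := by
      funext l
      have h2 := ht0 (D.r 0)
      field_simp
    change Algebra.IsAlgebraic (IntermediateField.adjoin ℂ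
      (Set.range fun l => Θ * g l / t (D.r 0) / (Θ * g 0 / t (D.r 0)))) K
    rw [h1]
    exact halg

end Pool.Agent.H17R
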