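import Pool.Agent.H17R.Curve

/-!
# No form of the relation vanishes identically along the curve

PROOF.  `T i` is a singleton sum (`2 ≤ k`, so `{i} ≠ univ`).  `G i` divides `T i` (`factor`).  For `A j`:
`T i = A j ^ e * G i` (`power`) with `e ≥ 1`, since `e = 0` would give `d = δ i` (both are degrees of
the form `T i`, which is `≠ 0` because of `NonVan`), against `LargeDegree`.  If `A j` is not
`NonVan` then by `nonVan_or` it vanishes at all `f s`, so `T i` does, against `NonVan f (T i)` (the
punctured neighbourhoods are not empty; `puncturedDisc` is open and not empty).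
-/

open MvPolynomial Topology Filter MeasureTheory
open Pool.Agent.H92.GGL (ordZ)
open Pool.Agent.H17 (PN VanishesAt HolomorphicInto puncturedDisc vanishesAt_mk_iff)
open Pool.Agent.H62.FC (Homog MeroPunct LocFin cnt mean nevT)

noncomputable section

namespace Pool.Agent.H17R

variable {N : ℕ} {P : Ideal (MvPolynomial (Fin (N + 1)) ℂ)} {b q k : ℕ}
  {H : Fin b → MvPolynomial (Fin (N + 1)) ℂ} {A : Fin q → MvPolynomial (Fin (N + 1)) ℂ}
  {O : Finset (Fin q)} {T G : Fin k → MvPolynomial (Fin (N + 1)) ℂ} {a d : ℕ} {δ : Fin k → ℕ}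
  {M : ℕ} {f : ℂ → PN N} {i₀ : Fin (N + 1)}

theorem nonVan_all (hR : IsRelation P H A O T G a d δ) (hM : LossBound k M)
    (hd : LargeDegree M a d q O δ) (hf : HolomorphicInto f puncturedDisc)
    (hne : ∀ S : Finset (Fin k), S.Nonempty → S ≠ Finset.univ → NonVan f (∑ i ∈ S, T i)) :
    (∀ i, NonVan f (T i)) ∧ (∀ i, NonVan f (G i)) ∧ ∀ j, NonVan f (A j) := by
  have hT : ∀ i, NonVan f (T i) := by
    intro i
    have h1 := hne {i} (Finset.singleton_nonempty i) (by
      intro h
      have h2 := congrArg Finset.card h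
      rw [Finset.card_singleton, Finset.card_univ, Fintype.card_fin] at h2
      have := hR.two_le
      omega)
    rwa [Finset.sum_singleton] at h1
  have hT0 : ∀ i, T i ≠ 0 := by
    intro i h0
    have hmem : (1 / 2 : ℂ) ∈ puncturedDisc := by
      unfold puncturedDisc
      rw [Set.mem_sdiff, mem_ball_zero_iff, Set.mem_singleton_iff]
      constructor
      · norm_num
      · norm_num
    obtain ⟨z, hz⟩ := (hT i _ hmem).exists
    apply hz
    unfold VanishesAt
    rw [h0, map_zero]
  refine ⟨hT, fun i => ?_, fun j => ?_⟩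
  · obtain ⟨e, g, hg⟩ := hR.factor i
    have h1 := hT i
    rw [hg] at h1
    exact h1.of_mul_right
  · obtain ⟨i, e, hi⟩ := hR.power j
    have h1 := hT i
    rcases e with - | e
    · exfalso
      rw [pow_zero, one_mul] at hi
      have h2 : d = δ i := (hR.homT i).inj_right (by rw [hi]; exact hR.homG i) (hT0 i)
      have h3 : δ i ≤ ∑ i, δ i :=
        Finset.single_le_sum (fun _ _ => Nat.zero_le _) (Finset.mem_univ i)
      unfold LargeDegree at hd
      have h4 : 0 ≤ M * (a * (q - O.card) + ∑ i, δ i) := Nat.zero_le _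
      omega
    · rw [hi, pow_succ', mul_assoc] at h1
      exact h1.of_mul_left

end Pool.Agent.H17R
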