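import Pool.Agent.H17R.Height
import Pool.Agent.H17R.NonVanAll

/-!
# The loss

`t i = val f i₀ (T i)`, `h = height f i₀`.

PROOF.  If not all `ordZ (t i) s` are equal then not all `vord (T i) s` are equal
(`ordZ_val`, same degree), so some `vord (A j) s`, `j ∉ O`, or `vord (G i) s` is positive: otherwise, by
`factor` and `vord_mul`, all `vord (T i) s = 0`, because the `H m`, and the `A j`, `j ∈ O` (`unit`), do not
vanish at `f s` (`vord_eq_zero`; for the factor `∏ m, H m ^ f m` use that `T i` is `NonVan`, hence so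
are the factors; homogeneity of the factors: only needed for `vord_eq_zero` of `A j` and `G i`; for
`∏ m, H m ^ f m` argue with the lift directly or prove
that the order of a non-vanishing analytic function is `0`).  So
`lossInd t s ≤ ∑ j ∉ O, vord (A j) s + ∑ i, vord (G i) s`, then `cnt_mono`, `cnt_add` and
`cnt_vord_le`.
-/

open MvPolynomial Topology Filter MeasureTheory
open Pool.Agent.H92.GGL (ordZ)
open Pool.Agent.H17 (PN VanishesAt HolomorphicInto puncturedDisc vanishesAt_mk_iff)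
open Pool.Agent.H62.FC (Homog MeroPunct LocFin cnt mean nevT)

noncomputable section

namespace Pool.Agent.H17R

variable {N : ℕ} {P : Ideal (MvPolynomial (Fin (N + 1)) ℂ)} {b q k : ℕ}
  {H : Fin b → MvPolynomial (Fin (N + 1)) ℂ} {A : Fin q → MvPolynomial (Fin (N + 1)) ℂ}
  {O : Finset (Fin q)} {T G : Fin k → MvPolynomial (Fin (N + 1)) ℂ} {a d : ℕ} {δ : Fin k → ℕ}
  {M : ℕ} {f : ℂ → PN N} {i₀ : Fin (N + 1)}

private theorem loss_mem_pd {z : ℂ} (h0 : 0 < ‖z‖) (h1 : ‖z‖ < 1) : z ∈ puncturedDisc :=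
  ⟨mem_ball_zero_iff.2 h1, fun h => (norm_pos_iff.1 h0) h⟩

private theorem cnt_sum {ι : Type} {R₀ R₁ : ℝ} (h : R₁ < R₀) {w : ι → ℂ → ℝ}
    (hw : ∀ i, LocFin R₀ (w i)) {r : ℝ} (hr : 0 < r) (S : Finset ι) :
    LocFin R₀ (fun s => ∑ i ∈ S, w i s) ∧
      cnt (fun s => ∑ i ∈ S, w i s) R₁ r = ∑ i ∈ S, cnt (w i) R₁ r := by
  classical
  induction S using Finset.induction_on with
  | empty =>
    refine ⟨fun r b _ _ => ?_, ?_⟩
    · refine Set.Finite.subset Set.finite_empty ?_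
      rintro s ⟨_, _, h3⟩
      exact h3 (by simp)
    · unfold cnt
      simp
  | insert i S hi ih =>
    have e : (fun s => ∑ j ∈ insert i S, w j s) = fun s => w i s + ∑ j ∈ S, w j s := by
      funext s
      rw [Finset.sum_insert hi]
    rw [e]
    refine ⟨fun r b hr hb => ?_, ?_⟩
    · refine ((hw i r b hr hb).union (ih.1 r b hr hb)).subset ?_
      rintro s ⟨h1, h2, h3⟩
      by_cases h4 : w i s = 0
      · refine Or.inr ⟨h1, h2, fun h5 => h3 ?_⟩
        show w i s + ∑ j ∈ S, w j s = 0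
        have h6 : ∑ j ∈ S, w j s = 0 := h5
        rw [h4, h6, add_zero]
      · exact Or.inl ⟨h1, h2, h4⟩
    · rw [Pool.Agent.H62.FC.cnt_add h (hw i) ih.1 hr, ih.2, Finset.sum_insert hi]

private theorem loss_point (hR : IsRelation P H A O T G a d δ)
    (hf : HolomorphicInto f puncturedDisc) (hfX : ∀ z ∈ puncturedDisc, f z ∈ openVar P H)
    (hT : ∀ i, NonVan f (T i)) (hG : ∀ i, NonVan f (G i)) (hA : ∀ j, NonVan f (A j))
    (hi₀ : NonVan f (X i₀)) {s : ℂ} (hs : s ∈ puncturedDisc) :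
    lossInd (fun i => val f i₀ (T i)) s ≤
      (∑ j ∈ Oᶜ, (vord f (A j) s : ℝ)) + ∑ i, (vord f (G i) s : ℝ) := by
  classical
  have hA0 : ∀ j, (0 : ℝ) ≤ (vord f (A j) s : ℝ) := fun j => by
    exact_mod_cast vord_nonneg f (A j) s
  have hG0 : ∀ i, (0 : ℝ) ≤ (vord f (G i) s : ℝ) := fun i => by
    exact_mod_cast vord_nonneg f (G i) s
  have hsA : (0 : ℝ) ≤ ∑ j ∈ Oᶜ, (vord f (A j) s : ℝ) := Finset.sum_nonneg fun j _ => hA0 j
  have hsG : (0 : ℝ) ≤ ∑ i, (vord f (G i) s : ℝ) := Finset.sum_nonneg fun i _ => hG0 i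
  unfold lossInd
  split_ifs with hall
  · exact add_nonneg hsA hsG
  · -- some `T i` vanishes at `f s`
    obtain ⟨i, hi⟩ : ∃ i, VanishesAt (T i) (f s) := by
      by_contra hcon
      push Not at hcon
      refine hall fun i i' => ?_
      rw [ordZ_val hf (hR.homT i) (hT i) hi₀ hs, ordZ_val hf (hR.homT i') (hT i') hi₀ hs,
        vord_eq_zero hf (hR.homT i) hs (hcon i), vord_eq_zero hf (hR.homT i') hs (hcon i')]
    obtain ⟨e, g, hfac⟩ := hR.factor i
    have hH := (hfX s hs).2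
    unfold VanishesAt at hi hH
    rw [hfac, map_mul, map_mul, map_prod, map_prod, mul_eq_zero, mul_eq_zero] at hi
    rcases hi with (hi | hi) | hi
    · obtain ⟨j, -, hj⟩ := Finset.prod_eq_zero_iff.1 hi
      rw [map_pow] at hj
      have hj' : eval (f s).rep (A j) = 0 := by
        by_contra h0
        exact pow_ne_zero _ h0 hj
      have hjO : j ∈ Oᶜ := by
        rw [Finset.mem_compl]
        intro hjO
        obtain ⟨m, hm⟩ := hR.unit j hjO
        rw [hm] at hj'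
        exact hH m hj'
      have h1 : (1 : ℝ) ≤ (vord f (A j) s : ℝ) := by
        exact_mod_cast one_le_vord hf (hR.homA j) (hA j) hs hj'
      have h2 := Finset.single_le_sum (f := fun j => (vord f (A j) s : ℝ)) (fun j _ => hA0 j) hjO
      linarith
    · exfalso
      obtain ⟨m, -, hm⟩ := Finset.prod_eq_zero_iff.1 hi
      rw [map_pow] at hm
      exact pow_ne_zero _ (hH m) hm
    · have h1 : (1 : ℝ) ≤ (vord f (G i) s : ℝ) := by
        exact_mod_cast one_le_vord hf (hR.homG i) (hG i) hs hi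
      have h2 := Finset.single_le_sum (f := fun i => (vord f (G i) s : ℝ)) (fun i _ => hG0 i)
        (Finset.mem_univ i)
      linarith

theorem loss_le (hR : IsRelation P H A O T G a d δ)
    (hf : HolomorphicInto f puncturedDisc) (hfX : ∀ z ∈ puncturedDisc, f z ∈ openVar P H)
    (hT : ∀ i, NonVan f (T i)) (hG : ∀ i, NonVan f (G i)) (hA : ∀ j, NonVan f (A j))
    (hi₀ : NonVan f (X i₀)) {R₁ : ℝ} (h1 : 0 < R₁) (h2 : R₁ < 1) :
    ∃ C : ℝ, ∀ x, Real.exp (-x) < R₁ →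
      cnt (lossInd fun i => val f i₀ (T i)) R₁ (Real.exp (-x)) ≤
        (a * (q - O.card : ℕ) + ∑ i, δ i : ℕ) * height f i₀ R₁ x + C * (1 + |x|) := by
  classical
  choose CA hCA using fun j => cnt_vord_le (i := i₀) hf hi₀ (hR.homA j) (hA j) h1 h2
  choose CG hCG using fun i => cnt_vord_le (i := i₀) hf hi₀ (hR.homG i) (hG i) h1 h2
  refine ⟨(∑ j ∈ Oᶜ, CA j) + ∑ i, CG i, fun x hx => ?_⟩
  have hr : 0 < Real.exp (-x) := Real.exp_pos _
  have hlA : ∀ j, LocFin 1 fun s => (vord f (A j) s : ℝ) := fun j =>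
    locFin_vord hf (hR.homA j) (hA j)
  have hlG : ∀ i, LocFin 1 fun s => (vord f (G i) s : ℝ) := fun i =>
    locFin_vord hf (hR.homG i) (hG i)
  obtain ⟨hA1, hA2⟩ := cnt_sum h2 hlA hr Oᶜ
  obtain ⟨hG1, hG2⟩ := cnt_sum h2 hlG hr Finset.univ
  have hloss : LocFin 1 (lossInd fun i => val f i₀ (T i)) :=
    locFin_lossInd fun i => val_meroPunct hf (hR.homT i) (hT i) hi₀
  have hsum : LocFin 1 fun s => (∑ j ∈ Oᶜ, (vord f (A j) s : ℝ)) + ∑ i, (vord f (G i) s : ℝ) := by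
    intro r b hr hb
    refine ((hA1 r b hr hb).union (hG1 r b hr hb)).subset ?_
    rintro s ⟨h1, h2, h3⟩
    by_cases h4 : ∑ j ∈ Oᶜ, (vord f (A j) s : ℝ) = 0
    · refine Or.inr ⟨h1, h2, fun h5 => h3 ?_⟩
      show (∑ j ∈ Oᶜ, (vord f (A j) s : ℝ)) + ∑ i, (vord f (G i) s : ℝ) = 0
      have h6 : ∑ i, (vord f (G i) s : ℝ) = 0 := h5
      rw [h4, h6, add_zero]
    · exact Or.inl ⟨h1, h2, h4⟩
  have h3 : cnt (lossInd fun i => val f i₀ (T i)) R₁ (Real.exp (-x)) ≤
      cnt (fun s => (∑ j ∈ Oᶜ, (vord f (A j) s : ℝ)) + ∑ i, (vord f (G i) s : ℝ)) R₁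
        (Real.exp (-x)) :=
    Pool.Agent.H62.FC.cnt_mono h2 hloss hsum hr fun s hs1 hs2 =>
      loss_point hR hf hfX hT hG hA hi₀ (loss_mem_pd (hr.trans hs1) (hs2.trans h2))
  rw [Pool.Agent.H62.FC.cnt_add h2 hA1 hG1 hr, hA2, hG2] at h3
  have h4 : ∑ j ∈ Oᶜ, cnt (fun s => (vord f (A j) s : ℝ)) R₁ (Real.exp (-x)) ≤
      (a : ℝ) * (q - O.card : ℕ) * height f i₀ R₁ x + (∑ j ∈ Oᶜ, CA j) * (1 + |x|) := by
    calc ∑ j ∈ Oᶜ, cnt (fun s => (vord f (A j) s : ℝ)) R₁ (Real.exp (-x)) ≤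
          ∑ j ∈ Oᶜ, ((a : ℝ) * height f i₀ R₁ x + CA j * (1 + |x|)) :=
        Finset.sum_le_sum fun j _ => hCA j x hx
      _ = _ := by
        rw [Finset.sum_add_distrib, Finset.sum_const, ← Finset.sum_mul, Finset.card_compl,
          Fintype.card_fin, nsmul_eq_mul]
        ring
  have h5 : ∑ i, cnt (fun s => (vord f (G i) s : ℝ)) R₁ (Real.exp (-x)) ≤
      (∑ i, (δ i : ℝ)) * height f i₀ R₁ x + (∑ i, CG i) * (1 + |x|) := by
    calc ∑ i, cnt (fun s => (vord f (G i) s : ℝ)) R₁ (Real.exp (-x)) ≤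
          ∑ i, ((δ i : ℝ) * height f i₀ R₁ x + CG i * (1 + |x|)) :=
        Finset.sum_le_sum fun i _ => hCG i x hx
      _ = _ := by
        rw [Finset.sum_add_distrib, ← Finset.sum_mul, ← Finset.sum_mul]
  push_cast
  linarith

end Pool.Agent.H17R
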