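import Pool.Agent.H17R.Height
import Pool.Agent.H17R.NonVanAll

/-!
# The height of the relation is large

`t i = val f i₀ (T i)`, `h = height f i₀`.

PROOF.  For every `z` in the punctured disc (with `x i₀ ≠ 0`), `v = (f z).rep / (f z).rep i₀`:
some `j` has `‖A j (v)‖ ≥ c ‖v‖ ^ a` (`exists_lower_bound`; `v` is in the cone since `f z ∈ openVar P H`),
and `T i = A j ^ e * G i`, `a e + δ i = d` (`T i ≠ 0` because of `NonVan`), so
`log ‖T i (v)‖ ≥ d log ‖v‖ + (log ‖G i (v)‖ - δ i log ‖v‖) + e log c`, and since all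
`log ‖G i' (v)‖ - δ i' log ‖v‖ ≤ C` (`exists_upper_bound`)
`supLog t z ≥ d lognorm + ∑ i, (log ‖G i (v)‖ - δ i lognorm) - C`, `log ‖v‖ = lognorm f i₀ z`
(`lognorm_eq`).  (This holds at the points where no `G i` and `x i₀` vanishes; use
`mean_le_mean`, `NonVan`.)
At every `s` some `A j` does not vanish at `f s` (`noZero`), so `vord (A j) s = 0` and for
`T i = A j ^ e * G i` `vord (T i) s = vord (G i) s ≤ ∑ i, vord (G i) s` (`vord_mul`, induction on `e`),
so `infOrd t s ≤ - d vord (X i₀) s + ∑ i, vord (G i) s` (`ordZ_val`).  By `cnt_vord_eq` for the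
`G i`:
`relHeight t ≥ d mean lognorm + ∑ i, (mean log ‖val (G i)‖ - δ i mean lognorm) + d cnt (vord (X i₀)) -
∑ i, cnt (vord (G i)) - C = (d - ∑ i, δ i) h - C (1 + |x|)`.
-/

open MvPolynomial Topology Filter MeasureTheory
open Pool.Agent.H92.GGL (ordZ)
open Pool.Agent.H17 (PN VanishesAt HolomorphicInto puncturedDisc vanishesAt_mk_iff)
open Pool.Agent.H62.FC (Homog MeroPunct LocFin cnt mean nevT)

noncomputable section

namespace Pool.Agent.H17R

variable {N : ℕ} {P : Ideal (MvPolynomial (Fin (N + 1)) ℂ)} {b q k : ℕ}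
  {H : Fin b → MvPolynomial (Fin (N + 1)) ℂ} {A : Fin q → MvPolynomial (Fin (N + 1)) ℂ}
  {O : Finset (Fin q)} {T G : Fin k → MvPolynomial (Fin (N + 1)) ℂ} {a d : ℕ} {δ : Fin k → ℕ}
  {M : ℕ} {f : ℂ → PN N} {i₀ : Fin (N + 1)}

private theorem rh_locFin_add {w w' : ℂ → ℝ} {R₀ : ℝ} (hw : LocFin R₀ w) (hw' : LocFin R₀ w') :
    LocFin R₀ fun s => w s + w' s := by
  intro r b hr hb
  refine ((hw r b hr hb).union (hw' r b hr hb)).subset ?_
  rintro s ⟨h1, h2, h3⟩
  by_cases h4 : w s = 0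
  · right
    refine ⟨h1, h2, fun h5 => h3 ?_⟩
    show w s + w' s = 0
    rw [h4, h5, add_zero]
  · exact Or.inl ⟨h1, h2, h4⟩

private theorem rh_locFin_mul {w : ℂ → ℝ} {R₀ : ℝ} (c : ℝ) (hw : LocFin R₀ w) :
    LocFin R₀ fun s => c * w s := by
  intro r b hr hb
  refine (hw r b hr hb).subset ?_
  rintro s ⟨h1, h2, h3⟩
  refine ⟨h1, h2, fun h4 => h3 ?_⟩
  show c * w s = 0
  rw [h4, mul_zero]

private theorem rh_locFin_sum {ι : Type} (S : Finset ι) {w : ι → ℂ → ℝ} {R₀ : ℝ}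
    (hw : ∀ i, LocFin R₀ (w i)) : LocFin R₀ fun s => ∑ i ∈ S, w i s := by
  classical
  induction S using Finset.induction_on with
  | empty =>
    intro r b _ _
    refine Set.finite_empty.subset ?_
    rintro s ⟨_, _, h⟩
    exact h (by simp)
  | insert a S ha ih =>
    have h1 : (fun s => ∑ i ∈ insert a S, w i s) = fun s => w a s + ∑ i ∈ S, w i s := by
      funext s
      rw [Finset.sum_insert ha]
    rw [h1]
    exact rh_locFin_add (hw a) ih

private theorem rh_cnt_sum {ι : Type} (S : Finset ι) {w : ι → ℂ → ℝ} {R₀ R₁ : ℝ}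
    (h : R₁ < R₀) (hw : ∀ i, LocFin R₀ (w i)) {r : ℝ} (hr : 0 < r) :
    cnt (fun s => ∑ i ∈ S, w i s) R₁ r = ∑ i ∈ S, cnt (w i) R₁ r := by
  classical
  induction S using Finset.induction_on with
  | empty =>
    have h1 : (fun s => ∑ i ∈ (∅ : Finset ι), w i s) = fun _ => (0 : ℝ) := by
      funext s
      simp
    rw [h1, Finset.sum_empty]
    unfold cnt
    simp
  | insert a S ha ih =>
    have h1 : (fun s => ∑ i ∈ insert a S, w i s) = fun s => w a s + ∑ i ∈ S, w i s := by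
      funext s
      rw [Finset.sum_insert ha]
    rw [h1, Pool.Agent.H62.FC.cnt_add h (hw a) (rh_locFin_sum S hw) hr, ih,
      Finset.sum_insert ha]

/-- the degrees in a relation -/
private theorem rh_deg (hR : IsRelation P H A O T G a d δ) (hT : ∀ i, NonVan f (T i)) {i : Fin k}
    {j : Fin q} {e : ℕ} (h : T i = A j ^ e * G i) : a * e + δ i = d := by
  have hs : ((1 / 2 : ℝ) : ℂ) ∈ puncturedDisc := by
    refine ⟨?_, ?_⟩
    · rw [mem_ball_zero_iff, Complex.norm_real]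
      norm_num
    · rw [Set.mem_singleton_iff]
      norm_num
  obtain ⟨z, hz⟩ := (hT i _ hs).exists
  have h0 : T i ≠ 0 := by
    intro h1
    apply hz
    unfold VanishesAt
    rw [h1, map_zero]
  have h1 : (T i).IsHomogeneous (a * e + δ i) := by
    rw [h]
    exact ((hR.homA j).pow e).mul (hR.homG i)
  exact h1.inj_right (hR.homT i) h0

private theorem rh_point [Nonempty (Fin k)] (hR : IsRelation P H A O T G a d δ)
    (hT : ∀ i, NonVan f (T i)) {c : ℝ} (hc : 0 < c)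
    (hlow : ∀ v : Fin (N + 1) → ℂ, (∀ Q ∈ P, ∀ n, Q.IsHomogeneous n → eval v Q = 0) →
      v ≠ 0 → ∃ j, c * ‖v‖ ^ a ≤ ‖eval v (A j)‖)
    {D : Fin k → ℝ} (hD1 : ∀ i, 1 ≤ D i)
    (hD : ∀ i, ∀ v : Fin (N + 1) → ℂ, ‖eval v (G i)‖ ≤ D i * ‖v‖ ^ δ i) {z : ℂ}
    (hz : f z ∈ openVar P H) (h0 : (f z).rep i₀ ≠ 0) (hG0 : ∀ i, ¬ VanishesAt (G i) (f z)) :
    ((d : ℝ) - ∑ i, (δ i : ℝ)) * lognorm f i₀ z + ∑ i, Real.log ‖val f i₀ (G i) z‖ -
      (d * |Real.log c| + ∑ i, Real.log (D i)) ≤ supLog (fun i => val f i₀ (T i)) z := by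
  classical
  set v : Fin (N + 1) → ℂ := fun l => (f z).rep l / (f z).rep i₀ with hv
  have hvs : v = fun l => ((f z).rep i₀)⁻¹ * (f z).rep l := by
    funext l
    rw [hv]
    simp only
    rw [div_eq_mul_inv, mul_comm]
  have hvs' : v = ((f z).rep i₀)⁻¹ • (f z).rep := by
    rw [hvs]
    rfl
  have hnorm : ‖v‖ = ‖(f z).rep‖ / ‖(f z).rep i₀‖ := by
    rw [hvs', norm_smul, norm_inv, div_eq_mul_inv, mul_comm]
  have hL : lognorm f i₀ z = Real.log ‖v‖ := by rw [lognorm_eq h0, hnorm]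
  have hvi : v i₀ = 1 := by
    rw [hv]
    exact div_self h0
  have hv1 : 1 ≤ ‖v‖ := by
    have := norm_le_pi_norm v i₀
    rwa [hvi, norm_one] at this
  have hv0 : v ≠ 0 := by
    intro h1
    rw [h1] at hvi
    simp at hvi
  have hev : ∀ {Q : MvPolynomial (Fin (N + 1)) ℂ} {n : ℕ}, Q.IsHomogeneous n →
      eval v Q = ((f z).rep i₀)⁻¹ ^ n * eval (f z).rep Q := by
    intro Q n hQ
    rw [hvs]
    exact Pool.Agent.H17.eval_smul_of_isHomogeneous hQ _ _
  have hcone : ∀ Q ∈ P, ∀ n, Q.IsHomogeneous n → eval v Q = 0 := by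
    intro Q hQ n hn
    have h1 : VanishesAt Q (f z) := hz.1 Q hQ n hn
    unfold VanishesAt at h1
    rw [hev hn, h1, mul_zero]
  have hLn : 0 ≤ Real.log ‖v‖ := Real.log_nonneg hv1
  have hGv : ∀ i, eval v (G i) ≠ 0 := by
    intro i
    rw [hev (hR.homG i)]
    exact mul_ne_zero (pow_ne_zero _ (inv_ne_zero h0)) (hG0 i)
  obtain ⟨j, hj⟩ := hlow v hcone hv0
  obtain ⟨i, e, hTe⟩ := hR.power j
  have hdeg := rh_deg hR hT hTe
  have ha := hR.one_le
  have hvp : 0 < ‖v‖ := by linarith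
  have hAp : 0 < ‖eval v (A j)‖ := lt_of_lt_of_le (by positivity) hj
  have hlogA : Real.log c + a * Real.log ‖v‖ ≤ Real.log ‖eval v (A j)‖ := by
    have h1 := Real.log_le_log (by positivity) hj
    rwa [Real.log_mul hc.ne' (by positivity), Real.log_pow] at h1
  have hTv : Real.log ‖eval v (T i)‖ = e * Real.log ‖eval v (A j)‖ +
      Real.log ‖eval v (G i)‖ := by
    rw [hTe, map_mul, map_pow, norm_mul, norm_pow, Real.log_mul (by positivity)
      (norm_ne_zero_iff.2 (hGv i)), Real.log_pow]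
  have hed : (e : ℝ) ≤ d := by
    have h1 : e ≤ d := by
      have : e ≤ a * e := Nat.le_mul_of_pos_left e ha
      omega
    exact_mod_cast h1
  have h2 : -(d * |Real.log c|) ≤ e * Real.log c := by
    have h3 : e * Real.log c ≥ -(e * |Real.log c|) := by
      have := neg_abs_le (Real.log c)
      have he0 : (0 : ℝ) ≤ e := Nat.cast_nonneg e
      nlinarith
    have h4 : (e : ℝ) * |Real.log c| ≤ d * |Real.log c| :=
      mul_le_mul_of_nonneg_right hed (abs_nonneg _)
    linarith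
  have h5 : e * (Real.log c + a * Real.log ‖v‖) ≤ e * Real.log ‖eval v (A j)‖ :=
    mul_le_mul_of_nonneg_left hlogA (Nat.cast_nonneg e)
  have hdegr : (a : ℝ) * e + δ i = d := by exact_mod_cast hdeg
  -- the other forms
  have h6 : ∀ i', Real.log ‖eval v (G i')‖ ≤ Real.log (D i') + δ i' * Real.log ‖v‖ := by
    intro i'
    have h7 := Real.log_le_log (norm_pos_iff.2 (hGv i')) (hD i' v)
    have h8 : (0 : ℝ) < D i' := by linarith [hD1 i']
    rwa [Real.log_mul h8.ne' (by positivity), Real.log_pow] at h7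
  have h9 : ∑ i', Real.log ‖eval v (G i')‖ ≤ Real.log ‖eval v (G i)‖ +
      ((∑ i', Real.log (D i')) + (∑ i', (δ i' : ℝ)) * Real.log ‖v‖ - δ i * Real.log ‖v‖) := by
    rw [← Finset.add_sum_erase _ _ (Finset.mem_univ i)]
    have h10 : ∑ i' ∈ Finset.univ.erase i, Real.log ‖eval v (G i')‖ ≤
        ∑ i' ∈ Finset.univ.erase i, (Real.log (D i') + δ i' * Real.log ‖v‖) :=
      Finset.sum_le_sum fun i' _ => h6 i'
    have h11 : ∑ i' ∈ Finset.univ.erase i, (Real.log (D i') + δ i' * Real.log ‖v‖) +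
        (Real.log (D i) + δ i * Real.log ‖v‖) =
        (∑ i', Real.log (D i')) + (∑ i', (δ i' : ℝ)) * Real.log ‖v‖ := by
      rw [Finset.sum_erase_add _ _ (Finset.mem_univ i), Finset.sum_add_distrib, Finset.sum_mul]
    have h12 : 0 ≤ Real.log (D i) := Real.log_nonneg (hD1 i)
    linarith
  have h13 : Real.log ‖eval v (T i)‖ ≤ supLog (fun i => val f i₀ (T i)) z := by
    unfold supLog
    exact Finset.le_sup' (fun i => Real.log ‖val f i₀ (T i) z‖) (Finset.mem_univ i)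
  refine le_trans ?_ h13
  have h14 : ∑ i, Real.log ‖val f i₀ (G i) z‖ = ∑ i', Real.log ‖eval v (G i')‖ := rfl
  rw [h14, hL, hTv]
  have h15 : (d : ℝ) * Real.log ‖v‖ = e * (a * Real.log ‖v‖) + δ i * Real.log ‖v‖ := by
    rw [← hdegr]
    ring
  nlinarith

private theorem rh_ord [Nonempty (Fin k)] (hR : IsRelation P H A O T G a d δ)
    (hf : HolomorphicInto f puncturedDisc) (hfX : ∀ z ∈ puncturedDisc, f z ∈ openVar P H)
    (hT : ∀ i, NonVan f (T i)) (hG : ∀ i, NonVan f (G i)) (hA : ∀ j, NonVan f (A j))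
    (hi₀ : NonVan f (X i₀)) {s : ℂ} (hs : s ∈ puncturedDisc) :
    infOrd (fun i => val f i₀ (T i)) s ≤ -(d : ℤ) * vord f (X i₀) s + ∑ i, vord f (G i) s := by
  obtain ⟨j, hj⟩ := hR.noZero (f s) (hfX s hs).1
  obtain ⟨i, e, hTe⟩ := hR.power j
  have hpow : NonVan f (A j ^ e) := by
    intro s' hs'
    filter_upwards [hA j s' hs'] with z hz
    unfold VanishesAt at hz ⊢
    rw [map_pow]
    exact pow_ne_zero _ hz
  have hpow0 : vord f (A j ^ e) s = 0 := by
    refine vord_eq_zero hf ((hR.homA j).pow e) hs ?_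
    unfold VanishesAt at hj ⊢
    rw [map_pow]
    exact pow_ne_zero _ hj
  have h1 : vord f (T i) s = vord f (G i) s := by
    rw [hTe, vord_mul hf hpow (hG i) ((hR.homA j).pow e) (hR.homG i) hs, hpow0, zero_add]
  have h2 := ordZ_val hf (hR.homT i) (hT i) hi₀ hs
  have h3 : infOrd (fun i => val f i₀ (T i)) s ≤ ordZ (val f i₀ (T i)) s := by
    unfold infOrd
    exact Finset.inf'_le (fun i => ordZ (val f i₀ (T i)) s) (Finset.mem_univ i)
  have h4 : vord f (G i) s ≤ ∑ i, vord f (G i) s :=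
    Finset.single_le_sum (f := fun i => vord f (G i) s) (fun i _ => vord_nonneg f (G i) s)
      (Finset.mem_univ i)
  rw [h2, h1] at h3
  linarith

theorem relHeight_ge [Nonempty (Fin k)] (hR : IsRelation P H A O T G a d δ)
    (hf : HolomorphicInto f puncturedDisc) (hfX : ∀ z ∈ puncturedDisc, f z ∈ openVar P H)
    (hT : ∀ i, NonVan f (T i)) (hG : ∀ i, NonVan f (G i)) (hA : ∀ j, NonVan f (A j))
    (hi₀ : NonVan f (X i₀)) {R₁ : ℝ} (h1 : 0 < R₁) (h2 : R₁ < 1) :
    ∃ C : ℝ, ∀ x, Real.exp (-x) < R₁ →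
      ((d : ℝ) - ∑ i, (δ i : ℝ)) * height f i₀ R₁ x ≤
        relHeight (fun i => val f i₀ (T i)) R₁ x + C * (1 + |x|) := by
  obtain ⟨c, hc, hlow⟩ := exists_lower_bound hR.homA hR.noZero
  choose D hD1 hD using fun i => exists_upper_bound (hR.homG i)
  choose α β hαβ using fun i => cnt_vord_eq hf hi₀ (hR.homG i) (hG i) h1 h2
  set C0 : ℝ := d * |Real.log c| + ∑ i, Real.log (D i) with hC0
  have hC0n : 0 ≤ C0 := by
    have : 0 ≤ ∑ i, Real.log (D i) := Finset.sum_nonneg fun i _ => Real.log_nonneg (hD1 i)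
    positivity
  refine ⟨C0 + ∑ i, (|α i| + |β i|), fun x hx => ?_⟩
  have hr : 0 < Real.exp (-x) := Real.exp_pos _
  have hx1 : Real.exp (-x) < 1 := hx.trans h2
  have mT : ∀ i, MeroPunct 1 (val f i₀ (T i)) := fun i => val_meroPunct hf (hR.homT i) (hT i) hi₀
  have mG : ∀ i, MeroPunct 1 (val f i₀ (G i)) := fun i => val_meroPunct hf (hR.homG i) (hG i) hi₀
  have iL := circleIntegrable_lognorm hf hi₀ hx1
  have iG : ∀ i, CircleIntegrable (fun z => Real.log ‖val f i₀ (G i) z‖) 0 (Real.exp (-x)) :=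
    fun i => (mG i).circleIntegrable_log hx1
  set κ : ℝ := (d : ℝ) - ∑ i, (δ i : ℝ) with hκ
  have i1 : CircleIntegrable (fun z => κ * lognorm f i₀ z) 0 (Real.exp (-x)) :=
    iL.const_fun_smul (a := κ)
  have i2 : CircleIntegrable (fun z => ∑ i, Real.log ‖val f i₀ (G i) z‖) 0 (Real.exp (-x)) :=
    CircleIntegrable.fun_sum _ fun i _ => iG i
  have i3 : CircleIntegrable (fun _ : ℂ => -C0) 0 (Real.exp (-x)) := circleIntegrable_const _ _ _
  have i4 : CircleIntegrable (fun z => κ * lognorm f i₀ z + ∑ i, Real.log ‖val f i₀ (G i) z‖)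
      0 (Real.exp (-x)) := i1.fun_add i2
  -- the mean
  have hmean : κ * mean (lognorm f i₀) x + ∑ i, mean (fun z => Real.log ‖val f i₀ (G i) z‖) x -
      C0 ≤ mean (supLog fun i => val f i₀ (T i)) x := by
    have e1 : mean (fun z => (κ * lognorm f i₀ z + ∑ i, Real.log ‖val f i₀ (G i) z‖) + -C0) x =
        κ * mean (lognorm f i₀) x + ∑ i, mean (fun z => Real.log ‖val f i₀ (G i) z‖) x - C0 := by
      unfold mean
      rw [Real.circleAverage_fun_add i4 i3, Real.circleAverage_fun_add i1 i2,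
        Real.circleAverage_const, Real.circleAverage_fun_sum fun i _ => iG i]
      have e2 : Real.circleAverage (fun z => κ * lognorm f i₀ z) 0 (Real.exp (-x)) =
          κ * Real.circleAverage (lognorm f i₀) 0 (Real.exp (-x)) :=
        Real.circleAverage_fun_smul (a := κ)
      rw [e2]
      ring
    rw [← e1]
    refine mean_le_mean (i4.fun_add i3) (circleIntegrable_supLog mT hx1) fun z hz => ?_
    have hzD : z ∈ puncturedDisc := by
      refine ⟨?_, ?_⟩
      · rw [mem_ball_zero_iff, hz]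
        exact hx1
      · rw [Set.mem_singleton_iff]
        rintro rfl
        rw [norm_zero] at hz
        exact hr.ne hz
    have hopen : IsOpen puncturedDisc := by
      unfold puncturedDisc
      exact Metric.isOpen_ball.sdiff isClosed_singleton
    have ev1 : ∀ᶠ ζ in 𝓝[≠] z, ζ ∈ puncturedDisc :=
      mem_nhdsWithin_of_mem_nhds (hopen.mem_nhds hzD)
    have ev2 : ∀ᶠ ζ in 𝓝[≠] z, ∀ i, ¬ VanishesAt (G i) (f ζ) :=
      Filter.eventually_all.2 fun i => hG i z hzD
    filter_upwards [ev1, ev2, hi₀ z hzD] with ζ hζ1 hζ2 hζ3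
    have h0 : (f ζ).rep i₀ ≠ 0 := by
      unfold VanishesAt at hζ3
      rwa [eval_X] at hζ3
    have h3 := rh_point hR hT hc hlow hD1 hD (hfX ζ hζ1) h0 hζ2
    rw [← hκ, ← hC0] at h3
    linarith
  -- the orders
  have lX : LocFin 1 fun s => (vord f (X i₀) s : ℝ) := locFin_vord hf (isHomogeneous_X ℂ i₀) hi₀
  have lG : ∀ i, LocFin 1 fun s => (vord f (G i) s : ℝ) := fun i =>
    locFin_vord hf (hR.homG i) (hG i)
  have lI := locFin_infOrd mT
  have lW : LocFin 1 fun s => -(d : ℝ) * (vord f (X i₀) s : ℝ) + ∑ i, (vord f (G i) s : ℝ) :=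
    rh_locFin_add (rh_locFin_mul _ lX) (rh_locFin_sum _ lG)
  have hcnt : cnt (fun s => (infOrd (fun i => val f i₀ (T i)) s : ℝ)) R₁ (Real.exp (-x)) ≤
      -(d : ℝ) * cnt (fun s => (vord f (X i₀) s : ℝ)) R₁ (Real.exp (-x)) +
        ∑ i, cnt (fun s => (vord f (G i) s : ℝ)) R₁ (Real.exp (-x)) := by
    have e1 : cnt (fun s => -(d : ℝ) * (vord f (X i₀) s : ℝ) + ∑ i, (vord f (G i) s : ℝ)) R₁
        (Real.exp (-x)) = -(d : ℝ) * cnt (fun s => (vord f (X i₀) s : ℝ)) R₁ (Real.exp (-x)) +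
        ∑ i, cnt (fun s => (vord f (G i) s : ℝ)) R₁ (Real.exp (-x)) := by
      rw [Pool.Agent.H62.FC.cnt_add h2 (rh_locFin_mul _ lX) (rh_locFin_sum _ lG) hr,
        Pool.Agent.H62.FC.cnt_mul _ h2 lX hr, rh_cnt_sum _ h2 lG hr]
    rw [← e1]
    refine Pool.Agent.H62.FC.cnt_mono h2 lI lW hr fun s hs1 hs2 => ?_
    have hsD : s ∈ puncturedDisc := by
      refine ⟨?_, ?_⟩
      · rw [mem_ball_zero_iff]
        exact hs2.trans h2
      · rw [Set.mem_singleton_iff]
        rintro rfl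
        rw [norm_zero] at hs1
        exact absurd hs1 (not_lt.2 hr.le)
    have h3 := rh_ord hR hf hfX hT hG hA hi₀ hsD
    exact_mod_cast h3
  -- conclusion
  have hJ : ∀ i, mean (fun z => Real.log ‖val f i₀ (G i) z‖) x =
      cnt (fun s => (vord f (G i) s : ℝ)) R₁ (Real.exp (-x)) -
        δ i * cnt (fun s => (vord f (X i₀) s : ℝ)) R₁ (Real.exp (-x)) - (α i + β i * x) := by
    intro i
    have := hαβ i x hx
    linarith
  rw [Finset.sum_congr rfl fun i _ => hJ i, Finset.sum_sub_distrib, Finset.sum_sub_distrib,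
    ← Finset.sum_mul] at hmean
  have hlin : ∑ i, (α i + β i * x) ≤ (∑ i, (|α i| + |β i|)) * (1 + |x|) := by
    rw [Finset.sum_mul]
    refine Finset.sum_le_sum fun i _ => ?_
    have h3 := le_abs_self (α i)
    have h4 : β i * x ≤ |β i| * |x| := by
      rw [← abs_mul]
      exact le_abs_self _
    have h5 := abs_nonneg (α i)
    have h6 := abs_nonneg (β i)
    have h7 := abs_nonneg x
    nlinarith [mul_nonneg h5 h7]
  have hC : C0 ≤ C0 * (1 + |x|) := by
    have := abs_nonneg x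
    nlinarith
  unfold height relHeight
  have e5 : (C0 + ∑ i, (|α i| + |β i|)) * (1 + |x|) = C0 * (1 + |x|) +
      (∑ i, (|α i| + |β i|)) * (1 + |x|) := by ring
  rw [e5]
  set cX := cnt (fun s => (vord f (X i₀) s : ℝ)) R₁ (Real.exp (-x))
  have e6 : κ * (mean (lognorm f i₀) x + cX) =
      κ * mean (lognorm f i₀) x + (d * cX - (∑ i, (δ i : ℝ)) * cX) := by
    rw [hκ]
    ring
  rw [e6]
  linarith

end Pool.Agent.H17R
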