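import Pool.Agent.H17R.SMT
import Pool.Agent.H17R.RelHeight
import Pool.Agent.H17R.Loss

/-!
# The height of a curve in a variety with a relation is small

PROOF.  `nonVan_all`, `smt` for `t i = val f i₀ (T i)` (`ι = Fin k`, `R₀ = 1`; `val_meroPunct`,
`val f i₀ (∑ i ∈ S, T i) = ∑ i ∈ S, t i`; `∑ i, T i ∈ P` vanishes at the points of `openVar P H`),
`relHeight_ge`, `loss_le`: with `Δ = ∑ δ`, `B = M (a (q - |O|) + Δ)`, `h = height f i₀ ≥ 0`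
`(1 - ε) ((d - Δ) h - C (1 + |x|)) ≤ B h + C (1 + |x|)`, and `B + 1 ≤ d - Δ`; take `ε = 1 / (2 d)`, then
`(1 - ε) (d - Δ) - B ≥ 1 / 2`.
-/

open MvPolynomial Topology Filter MeasureTheory
open Pool.Agent.H92.GGL (ordZ)
open Pool.Agent.H17 (PN VanishesAt HolomorphicInto puncturedDisc vanishesAt_mk_iff)
open Pool.Agent.H62.FC (Homog MeroPunct LocFin cnt mean nevT)

noncomputable section

namespace Pool.Agent.H17R

variable {N : ℕ} {P : Ideal (MvPolynomial (Fin (N + 1)) ℂ)} {b q k : ℕ}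
  {H : Fin b → MvPolynomial (Fin (N + 1)) ℂ} {A : Fin q → MvPolynomial (Fin (N + 1)) ℂ}
  {O : Finset (Fin q)} {T G : Fin k → MvPolynomial (Fin (N + 1)) ℂ} {a d : ℕ} {δ : Fin k → ℕ}
  {M : ℕ} {f : ℂ → PN N} {i₀ : Fin (N + 1)}

private lemma mem_pd {z : ℂ} (h1 : 0 < ‖z‖) (h2 : ‖z‖ < 1) : z ∈ puncturedDisc := by
  unfold puncturedDisc
  rw [Set.mem_sdiff, mem_ball_zero_iff, Set.mem_singleton_iff]
  exact ⟨h2, norm_pos_iff.1 h1⟩

private lemma eventually_pd {z : ℂ} (hz : z ∈ puncturedDisc) :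
    ∀ᶠ ζ in 𝓝[≠] z, ζ ∈ puncturedDisc := by
  have h : ∀ᶠ ζ in 𝓝 z, ζ ∈ puncturedDisc :=
    (Metric.isOpen_ball.sdiff isClosed_singleton).mem_nhds hz
  exact h.filter_mono nhdsWithin_le_nhds

theorem height_le (hR : IsRelation P H A O T G a d δ) (hM : LossBound k M)
    (hd : LargeDegree M a d q O δ) (hf : HolomorphicInto f puncturedDisc)
    (hfX : ∀ z ∈ puncturedDisc, f z ∈ openVar P H)
    (hne : ∀ S : Finset (Fin k), S.Nonempty → S ≠ Finset.univ → NonVan f (∑ i ∈ S, T i))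
    (hi₀ : NonVan f (X i₀)) {R₁ : ℝ} (h1 : 0 < R₁) (h2 : R₁ < 1) :
    ∃ (C : ℝ) (E : Set ℝ), volume E ≠ ⊤ ∧ ∀ x, Real.exp (-x) < R₁ → x ∉ E →
      height f i₀ R₁ x ≤ C * (1 + |x|) := by
  classical
  obtain ⟨hT, hG, hA⟩ := nonVan_all hR hM hd hf hne
  have hk : 0 < k := by
    have := hR.two_le
    omega
  have : Nonempty (Fin k) := ⟨⟨0, hk⟩⟩
  have hhom : ∀ S : Finset (Fin k), (∑ i ∈ S, T i).IsHomogeneous d := fun S =>
    IsHomogeneous.sum _ _ _ fun i _ => hR.homT i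
  have hval : ∀ (S : Finset (Fin k)) (z : ℂ),
      ∑ i ∈ S, val f i₀ (T i) z = val f i₀ (∑ i ∈ S, T i) z := by
    intro S z
    unfold val
    rw [map_sum]
  have hrep : ∀ z ∈ puncturedDisc, ∀ᶠ ζ in 𝓝[≠] z, (f ζ).rep i₀ ≠ 0 := by
    intro z hz
    filter_upwards [hi₀ z hz] with ζ hζ h0
    apply hζ
    change eval (f ζ).rep (X i₀) = 0
    rw [eval_X, h0]
  obtain ⟨ε, hε⟩ : ∃ ε : ℝ, ε = 1 / (2 * d) := ⟨_, rfl⟩
  have hd0 : 0 < d := by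
    unfold LargeDegree at hd
    omega
  have hdR : (1 : ℝ) ≤ d := by exact_mod_cast hd0
  have hε0 : 0 < ε := by rw [hε]; positivity
  have hε1 : ε * d = 1 / 2 := by
    rw [hε]
    field_simp
  have hε2 : ε ≤ 1 / 2 := by nlinarith
  obtain ⟨C₁, E, hE, hC₁⟩ := smt (ι := Fin k) (R₀ := 1) h1 h2
    (by rw [Fintype.card_fin]; exact hR.two_le) (t := fun i => val f i₀ (T i))
    (fun i => val_meroPunct hf (hR.homT i) (hT i) hi₀)
    (fun z hz1 hz2 => by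
      have hz := mem_pd hz1 hz2
      filter_upwards [eventually_pd hz, hrep z hz] with ζ hζ hζ'
      have h3 := hval Finset.univ ζ
      rw [h3, val_eq (hhom _) hζ']
      have h4 : eval (f ζ).rep (∑ i, T i) = 0 := (hfX ζ hζ).1 _ hR.sum d (hhom _)
      rw [h4, zero_div])
    (fun S hS hSu z hz1 hz2 hcon => by
      have hz := mem_pd hz1 hz2
      obtain ⟨ζ, ⟨h3, h4⟩, h5⟩ := ((hcon.and (hne S hS hSu z hz)).and (hrep z hz)).exists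
      apply h4
      rw [hval, val_eq (hhom _) h5, div_eq_zero_iff] at h3
      exact h3.resolve_right (pow_ne_zero _ h5))
    (M := M) (by rw [Fintype.card_fin]; exact hM.2) hε0
  obtain ⟨C₂, hC₂⟩ := relHeight_ge hR hf hfX hT hG hA hi₀ h1 h2
  obtain ⟨C₃, hC₃⟩ := loss_le hR hf hfX hT hG hA hi₀ h1 h2
  refine ⟨2 * (M * C₃ + C₁ + (1 - ε) * C₂), E, hE, fun x hx hxE => ?_⟩
  have e1 := hC₁ x hx hxE
  have e2 := hC₂ x hx
  have e3 := hC₃ x hx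
  have h0 := height_nonneg (R₁ := R₁) hf hi₀ h2 hx
  obtain ⟨h, hh⟩ : ∃ h, h = height f i₀ R₁ x := ⟨_, rfl⟩
  obtain ⟨y, hy⟩ : ∃ y, y = 1 + |x| := ⟨_, rfl⟩
  obtain ⟨ρ, hρ⟩ : ∃ ρ, ρ = relHeight (fun i => val f i₀ (T i)) R₁ x := ⟨_, rfl⟩
  obtain ⟨l, hl⟩ : ∃ l, l = cnt (lossInd fun i => val f i₀ (T i)) R₁ (Real.exp (-x)) := ⟨_, rfl⟩
  rw [← hρ, ← hl, ← hy] at e1
  rw [← hρ, ← hh, ← hy] at e2
  rw [← hl, ← hh, ← hy] at e3
  rw [← hh] at h0 ⊢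
  rw [← hy]
  obtain ⟨Δ, hΔ⟩ : ∃ Δ : ℝ, Δ = ∑ i, (δ i : ℝ) := ⟨_, rfl⟩
  obtain ⟨B, hB⟩ : ∃ B : ℝ, B = ((a * (q - O.card : ℕ) + ∑ i, δ i : ℕ) : ℝ) := ⟨_, rfl⟩
  rw [← hΔ] at e2
  rw [← hB] at e3
  have hΔ0 : 0 ≤ Δ := by
    rw [hΔ]
    exact Finset.sum_nonneg fun i _ => Nat.cast_nonneg _
  have hdB : (M : ℝ) * B + Δ + 1 ≤ d := by
    unfold LargeDegree at hd
    have h3 : M * (a * (q - O.card) + ∑ i, δ i) + ∑ i, δ i + 1 ≤ d := hd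
    have h4 : ((M * (a * (q - O.card) + ∑ i, δ i) + ∑ i, δ i + 1 : ℕ) : ℝ) ≤ d := by
      exact_mod_cast h3
    rw [Nat.cast_add, Nat.cast_add, Nat.cast_mul, ← hB, Nat.cast_sum, Nat.cast_one, ← hΔ] at h4
    exact h4
  have hM0 : (0 : ℝ) ≤ M := Nat.cast_nonneg M
  have e4 : (1 - ε) * (((d : ℝ) - Δ) * h - C₂ * y) ≤ (1 - ε) * ρ :=
    mul_le_mul_of_nonneg_left (by linarith) (by linarith)
  have e5 : (M : ℝ) * l ≤ M * (B * h + C₃ * y) := mul_le_mul_of_nonneg_left e3 hM0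
  have e6 : (1 / 2 : ℝ) * h ≤ ((1 - ε) * ((d : ℝ) - Δ) - M * B) * h := by
    refine mul_le_mul_of_nonneg_right ?_ h0
    nlinarith [mul_nonneg hε0.le hΔ0]
  nlinarith

end Pool.Agent.H17R
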