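import Pool.Agent.H17R.Defs
import Pool.Agent.H17.BrodyLimit

/-!
# Upper and lower bounds of forms

PROOF of `exists_upper_bound`: every monomial is at most `‖v‖ ^ n` (maximum norm), `c` is the sum of the
`‖coeff‖`, plus `1`.

PROOF of `exists_lower_bound`: on the compact set of the `v` with `‖v‖ = 1` and `Q v = 0` for all forms
`Q ∈ P` the continuous function `max_j ‖A j v‖` (or `∑ j`) is positive (`h0` for the point `mk v`,
`vanishesAt_mk_iff`), hence `≥ c > 0` (if this set is empty every `c` will do, but then `h0`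
is not needed: there is no `v ≠ 0` in the cone; take care of `q = 0`).  Scale by `‖v‖`
(`eval_smul_of_isHomogeneous`).
-/

open MvPolynomial
open Pool.Agent.H17 (PN VanishesAt vanishesAt_mk_iff)

noncomputable section

namespace Pool.Agent.H17R

variable {N : ℕ} {P : Ideal (MvPolynomial (Fin (N + 1)) ℂ)}

private theorem bounds_smul {Q : MvPolynomial (Fin (N + 1)) ℂ} {d : ℕ} (hQ : Q.IsHomogeneous d)
    (c : ℂ) (v : Fin (N + 1) → ℂ) : eval (c • v) Q = c ^ d * eval v Q :=
  Pool.Agent.H17.eval_smul_of_isHomogeneous hQ c v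

/-- The forms `A j` are large somewhere. -/
theorem exists_lower_bound {q a : ℕ} {A : Fin q → MvPolynomial (Fin (N + 1)) ℂ}
    (hA : ∀ j, (A j).IsHomogeneous a)
    (h0 : ∀ x : PN N, (∀ Q ∈ P, ∀ n, Q.IsHomogeneous n → VanishesAt Q x) →
      ∃ j, ¬ VanishesAt (A j) x) :
    ∃ c : ℝ, 0 < c ∧ ∀ v : Fin (N + 1) → ℂ, (∀ Q ∈ P, ∀ n, Q.IsHomogeneous n → eval v Q = 0) →
      v ≠ 0 → ∃ j, c * ‖v‖ ^ a ≤ ‖eval v (A j)‖ := by
  classical
  let C : Set (Fin (N + 1) → ℂ) := {v | ∀ Q ∈ P, ∀ n, Q.IsHomogeneous n → eval v Q = 0}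
  let S : Set (Fin (N + 1) → ℂ) := Metric.sphere 0 1 ∩ C
  have hC : IsClosed C := by
    have e : C = ⋂ Q ∈ P, ⋂ n, ⋂ _ : Q.IsHomogeneous n,
        {v : Fin (N + 1) → ℂ | eval v Q = 0} := by
      ext v
      simp only [C, Set.mem_ofPred_eq, Set.mem_iInter]
    rw [e]
    exact isClosed_iInter fun Q => isClosed_iInter fun _ => isClosed_iInter fun n =>
      isClosed_iInter fun _ => isClosed_eq (MvPolynomial.continuous_eval Q) continuous_const
  have hS : IsCompact S := (isCompact_sphere 0 1).inter_right hC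
  have hscale : ∀ v ∈ C, v ≠ 0 → ((‖v‖⁻¹ : ℝ) : ℂ) • v ∈ S := by
    intro v hv hv0
    have hn : ‖v‖ ≠ 0 := norm_ne_zero_iff.2 hv0
    refine ⟨?_, ?_⟩
    · rw [mem_sphere_zero_iff_norm, norm_smul, Complex.norm_real, norm_inv, norm_norm,
        inv_mul_cancel₀ hn]
    · intro Q hQ n hn'
      rw [bounds_smul hn', hv Q hQ n hn', mul_zero]
  rcases S.eq_empty_or_nonempty with hemp | hne
  · refine ⟨1, one_pos, fun v hv hv0 => ?_⟩
    have := hscale v hv hv0
    rw [hemp] at this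
    exact absurd this (Set.notMem_empty _)
  · obtain ⟨v0, hv0, hmin⟩ := hS.exists_isMinOn hne
      (f := fun v : Fin (N + 1) → ℂ => ∑ j, ‖eval v (A j)‖)
      (by
        refine Continuous.continuousOn ?_
        exact continuous_finsetSum _ fun j _ => (MvPolynomial.continuous_eval (A j)).norm)
    have hv00 : v0 ≠ 0 := by
      intro h
      have h1 := hv0.1
      rw [h] at h1
      simp at h1
    have hpos : 0 < ∑ j, ‖eval v0 (A j)‖ := by
      obtain ⟨j, hj⟩ := h0 (Projectivization.mk ℂ v0 hv00) (fun Q hQ n hn => by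
        rw [vanishesAt_mk_iff hn]
        exact hv0.2 Q hQ n hn)
      rw [vanishesAt_mk_iff (hA j)] at hj
      exact Finset.sum_pos' (fun _ _ => norm_nonneg _) ⟨j, Finset.mem_univ j, norm_pos_iff.2 hj⟩
    set m := ∑ j, ‖eval v0 (A j)‖ with hm
    have hq : 0 < (q : ℝ) := by
      rcases Nat.eq_zero_or_pos q with h | h
      · subst h
        simp [hm] at hpos
      · exact_mod_cast h
    refine ⟨m / q, div_pos hpos hq, fun v hv hvne => ?_⟩
    have hu := hscale v hv hvne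
    have hn : ‖v‖ ≠ 0 := norm_ne_zero_iff.2 hvne
    set u := ((‖v‖⁻¹ : ℝ) : ℂ) • v with hud
    have hvu : v = ((‖v‖ : ℝ) : ℂ) • u := by
      rw [hud, smul_smul, ← Complex.ofReal_mul, mul_inv_cancel₀ hn, Complex.ofReal_one, one_smul]
    have hle : m ≤ ∑ j, ‖eval u (A j)‖ := hmin hu
    obtain ⟨j, hj⟩ : ∃ j, m / q ≤ ‖eval u (A j)‖ := by
      by_contra hcon
      push Not at hcon
      have hqn : (Finset.univ : Finset (Fin q)).Nonempty := by
        rw [Finset.univ_nonempty_iff]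
        exact ⟨⟨0, by exact_mod_cast hq⟩⟩
      have h1 := Finset.sum_lt_sum_of_nonempty hqn fun j _ => hcon j
      rw [Finset.sum_const, Finset.card_univ, Fintype.card_fin, nsmul_eq_mul,
        mul_div_cancel₀ _ hq.ne'] at h1
      linarith
    refine ⟨j, ?_⟩
    have e : eval v (A j) = ((‖v‖ : ℝ) : ℂ) ^ a * eval u (A j) := by
      conv_lhs => rw [hvu]
      rw [bounds_smul (hA j)]
    rw [e, norm_mul, norm_pow, Complex.norm_real, norm_norm, mul_comm]
    exact mul_le_mul_of_nonneg_left hj (pow_nonneg (norm_nonneg _) _)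

theorem exists_upper_bound {n : ℕ} {Q : MvPolynomial (Fin (N + 1)) ℂ} (hQ : Q.IsHomogeneous n) :
    ∃ c : ℝ, 1 ≤ c ∧ ∀ v : Fin (N + 1) → ℂ, ‖eval v Q‖ ≤ c * ‖v‖ ^ n := by
  have hs : 0 ≤ ∑ m ∈ Q.support, ‖coeff m Q‖ := Finset.sum_nonneg fun _ _ => norm_nonneg _
  refine ⟨∑ m ∈ Q.support, ‖coeff m Q‖ + 1, by linarith, fun v => ?_⟩
  rw [eval_eq]
  refine (norm_sum_le _ _).trans ?_
  rw [add_mul, one_mul, Finset.sum_mul]
  have h1 : ∀ m ∈ Q.support, ‖coeff m Q * ∏ i ∈ m.support, v i ^ m i‖ ≤ ‖coeff m Q‖ * ‖v‖ ^ n := by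
    intro m hm
    rw [norm_mul]
    refine mul_le_mul_of_nonneg_left ?_ (norm_nonneg _)
    rw [norm_prod]
    have hdeg : ∑ i ∈ m.support, m i = n := by
      have h2 : m.degree = n := by
        by_contra hne
        exact (mem_support_iff.mp hm) (hQ.coeff_eq_zero hne)
      exact h2
    rw [← hdeg, ← Finset.prod_pow_eq_pow_sum]
    refine Finset.prod_le_prod (fun _ _ => norm_nonneg _) fun i _ => ?_
    rw [norm_pow]
    exact pow_le_pow_left₀ (norm_nonneg _) (norm_le_pi_norm v i) _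
  have h3 := Finset.sum_le_sum h1
  have h4 : 0 ≤ ‖v‖ ^ n := pow_nonneg (norm_nonneg _) _
  linarith

end Pool.Agent.H17R
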