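import Pool.Agent.H17R.SupLog
import Pool.Agent.H17R.Chain
import Pool.Agent.H62.FC.Dichotomy

/-!
# The chain of circuits of a family of meromorphic functions

PROOF.  Let `z₁` be a base point, `V = Germ (𝓝[≠] z₁) ℂ` and `y i` the germ of `t i` (copy
`Dichotomy_germ`, `Dichotomy_identity`, `Dichotomy_sum_eq_zero` from
`Pool.Agent.H62.FC.Dichotomy`: a linear relation between the germs holds near all points of the
punctured disc, and conversely).  `exists_chain` applies.  Divide the relations by `t (r s)`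
(`eventually_ne_zero`); independence: multiply by `t (r s)` and use `indep`, `c_ne`.
-/

open Topology Filter MeasureTheory
open Pool.Agent.H92.GGL (ordZ)
open Pool.Agent.H62.FC (MeroPunct LocFin cnt mean nevT)

noncomputable section

namespace Pool.Agent.H17R

/-- The germ at `z₁` (punctured), as a linear map. -/
private def ChainMero_germ (z₁ : ℂ) : (ℂ → ℂ) →ₗ[ℂ] Germ (𝓝[≠] z₁) ℂ where
  toFun f := (f : Germ (𝓝[≠] z₁) ℂ)
  map_add' _ _ := rfl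
  map_smul' _ _ := rfl

private lemma ChainMero_germ_eq_zero {z₁ : ℂ} {f : ℂ → ℂ} :
    ChainMero_germ z₁ f = 0 ↔ ∀ᶠ ζ in 𝓝[≠] z₁, f ζ = 0 :=
  Germ.coe_eq

/-- Identity principle. -/
private lemma ChainMero_identity {R₀ : ℝ} {f : ℂ → ℂ}
    (hf : ∀ z, 0 < ‖z‖ → ‖z‖ < R₀ → MeromorphicAt f z) {z₁ z : ℂ}
    (h1 : 0 < ‖z₁‖) (h1' : ‖z₁‖ < R₀) (h : ∀ᶠ ζ in 𝓝[≠] z₁, f ζ = 0)
    (h2 : 0 < ‖z‖) (h2' : ‖z‖ < R₀) : ∀ᶠ ζ in 𝓝[≠] z, f ζ = 0 := by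
  by_contra hcon
  rw [← meromorphicOrderAt_eq_top_iff] at hcon h
  have hm : MeromorphicOn f {z : ℂ | 0 < ‖z‖ ∧ ‖z‖ < R₀} := fun w hw => hf w hw.1 hw.2
  exact hm.meromorphicOrderAt_ne_top_of_isPreconnected
    (Pool.Agent.H92.GGL.isPreconnected_punctured R₀) (x := z) (y := z₁) ⟨h2, h2'⟩ ⟨h1, h1'⟩ hcon h

private lemma ChainMero_sum {κ : Type} (S : Finset κ) (z₁ : ℂ) (c : κ → ℂ) (u : κ → ℂ → ℂ) :
    ∑ j ∈ S, c j • ChainMero_germ z₁ (u j) =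
      ChainMero_germ z₁ (fun ζ => ∑ j ∈ S, c j * u j ζ) := by
  have : (fun ζ => ∑ j ∈ S, c j * u j ζ) = ∑ j ∈ S, c j • u j := by
    funext ζ
    simp
  rw [this, map_sum]
  exact Finset.sum_congr rfl fun j _ => (map_smul _ _ _).symm

private lemma ChainMero_sum1 {κ : Type} (S : Finset κ) (z₁ : ℂ) (u : κ → ℂ → ℂ) :
    ∑ j ∈ S, ChainMero_germ z₁ (u j) = ChainMero_germ z₁ (fun ζ => ∑ j ∈ S, u j ζ) := by
  have : (fun ζ => ∑ j ∈ S, u j ζ) = ∑ j ∈ S, u j := by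
    funext ζ
    simp
  rw [this, map_sum]

theorem exists_chain_mero {ι : Type} [Fintype ι] [DecidableEq ι] {R₀ : ℝ} (hR₀ : 0 < R₀)
    (hι : 2 ≤ Fintype.card ι) {t : ι → ℂ → ℂ} (ht : ∀ i, MeroPunct R₀ (t i))
    (hsum : ∀ z, 0 < ‖z‖ → ‖z‖ < R₀ → ∀ᶠ ζ in 𝓝[≠] z, ∑ i, t i ζ = 0)
    (hsub : ∀ S : Finset ι, S.Nonempty → S ≠ Finset.univ → ∀ z, 0 < ‖z‖ → ‖z‖ < R₀ →
      ¬ ∀ᶠ ζ in 𝓝[≠] z, ∑ i ∈ S, t i ζ = 0) {M : ℕ}
    (hM : ∀ c ≤ Fintype.card ι, (Fintype.card ι + 1 - c) * (c - 1) * (c - 2) ≤ 2 * M) :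
    ∃ (V : Type) (_ : AddCommGroup V) (_ : Module ℂ V) (y : ι → V) (D : ChainData y),
      ∑ s, D.n s * (D.n s - 1) ≤ 2 * M ∧
      ∀ s, (∀ z, 0 < ‖z‖ → ‖z‖ < R₀ → ∀ᶠ ζ in 𝓝[≠] z,
          ∑ j, D.c s j * (t (D.e s j) ζ / t (D.r s) ζ) = -1) ∧
        ∀ (c : Fin (D.n s) → ℂ) (z : ℂ), 0 < ‖z‖ → ‖z‖ < R₀ →
          (∀ᶠ ζ in 𝓝[≠] z, ∑ j, c j * (D.c s j * (t (D.e s j) ζ / t (D.r s) ζ)) = 0) →
          c = 0 := by
  obtain ⟨z₁, h1, h1'⟩ : ∃ z₁ : ℂ, 0 < ‖z₁‖ ∧ ‖z₁‖ < R₀ := by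
    refine ⟨((R₀ / 2 : ℝ) : ℂ), ?_, ?_⟩ <;>
      rw [Complex.norm_real, Real.norm_eq_abs, abs_of_pos (by linarith)] <;> linarith
  set y : ι → Germ (𝓝[≠] z₁) ℂ := fun i => ChainMero_germ z₁ (t i) with hy
  have hs : ∑ i, y i = 0 := by
    rw [hy, ChainMero_sum1, ChainMero_germ_eq_zero]
    exact hsum z₁ h1 h1'
  have hs' : ∀ S : Finset ι, S.Nonempty → S ≠ Finset.univ → ∑ i ∈ S, y i ≠ 0 := by
    intro S hS hS' h
    rw [hy, ChainMero_sum1, ChainMero_germ_eq_zero] at h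
    exact hsub S hS hS' z₁ h1 h1' h
  obtain ⟨D, hD⟩ := exists_chain hι hs hs' hM
  refine ⟨Germ (𝓝[≠] z₁) ℂ, inferInstance, inferInstance, y, D, hD, fun s => ⟨?_, ?_⟩⟩
  · intro z h2 h2'
    have h3 : ∀ᶠ ζ in 𝓝[≠] z₁, ∑ j, D.c s j * t (D.e s j) ζ + t (D.r s) ζ = 0 := by
      rw [← ChainMero_germ_eq_zero]
      have h4 := D.rel s
      have h5 : ∑ j, D.c s j • y (D.e s j) =
          ChainMero_germ z₁ (fun ζ => ∑ j, D.c s j * t (D.e s j) ζ) :=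
        ChainMero_sum Finset.univ z₁ (D.c s) fun j => t (D.e s j)
      have h6 : ChainMero_germ z₁ (fun ζ => ∑ j, D.c s j * t (D.e s j) ζ + t (D.r s) ζ) =
          ChainMero_germ z₁ (fun ζ => ∑ j, D.c s j * t (D.e s j) ζ) +
            ChainMero_germ z₁ (t (D.r s)) := rfl
      rw [h6, ← h5, h4]
      exact neg_add_cancel _
    have h4 := ChainMero_identity (R₀ := R₀) (fun w hw hw' => (MeromorphicAt.fun_sum fun j _ =>
      (MeromorphicAt.const (D.c s j) w).fun_mul ((ht (D.e s j)).mero w hw hw')).fun_add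
        ((ht (D.r s)).mero w hw hw')) h1 h1' h3 h2 h2'
    filter_upwards [h4, eventually_ne_zero (ht (D.r s)) h2 h2'] with ζ h5 h6
    have h7 : ∑ j, D.c s j * (t (D.e s j) ζ / t (D.r s) ζ) =
        (∑ j, D.c s j * t (D.e s j) ζ) / t (D.r s) ζ := by
      rw [Finset.sum_div]
      exact Finset.sum_congr rfl fun j _ => (mul_div_assoc _ _ _).symm
    rw [h7, eq_neg_of_add_eq_zero_left h5, neg_div, div_self h6]
  · intro c z h2 h2' h3
    have h4 : ∀ᶠ ζ in 𝓝[≠] z, ∑ j, (c j * D.c s j) * t (D.e s j) ζ = 0 := by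
      filter_upwards [h3, eventually_ne_zero (ht (D.r s)) h2 h2'] with ζ h5 h6
      have h7 : ∑ j, (c j * D.c s j) * t (D.e s j) ζ =
          (∑ j, c j * (D.c s j * (t (D.e s j) ζ / t (D.r s) ζ))) * t (D.r s) ζ := by
        rw [Finset.sum_mul]
        refine Finset.sum_congr rfl fun j _ => ?_
        field_simp
      rw [h7, h5, zero_mul]
    have h5 := ChainMero_identity (R₀ := R₀) (fun w hw hw' => MeromorphicAt.fun_sum fun j _ =>
      (MeromorphicAt.const (c j * D.c s j) w).fun_mul ((ht (D.e s j)).mero w hw hw')) h2 h2' h4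
        h1 h1'
    rw [← ChainMero_germ_eq_zero, ← ChainMero_sum Finset.univ z₁ (fun j => c j * D.c s j)
      fun j => t (D.e s j)] at h5
    have h6 := D.indep s
    rw [Fintype.linearIndependent_iff] at h6
    funext j
    rcases mul_eq_zero.1 (h6 (fun j => c j * D.c s j) h5 j) with h | h
    · exact h
    · exact absurd h (D.c_ne s j)

end Pool.Agent.H17R
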