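import Pool.Agent.H62.FC.Cartan

/-!
# Maxima of logarithms and minima of orders

`circleIntegrable_supLog`, `mean_le_mean`: see the private lemmas `circleIntegrable_sup`, `mean_mono`
and the integrability of `G` in the proof of `cartan_punctMero` in `Pool.Agent.H62.FC.Cartan`
(`MeroPunct.circleIntegrable_log`).  `locFin_*`: the supports are contained in the union of the
supports of the orders (`MeroPunct.locFin`).
-/

open Topology Filter MeasureTheory
open Pool.Agent.H92.GGL (ordZ)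
open Pool.Agent.H62.FC (MeroPunct LocFin cnt mean nevT)

noncomputable section

namespace Pool.Agent.H17R

/-- The maximum of the `log ‖t i z‖`. -/
def supLog {ι : Type} [Fintype ι] [Nonempty ι] (t : ι → ℂ → ℂ) (z : ℂ) : ℝ :=
  Finset.univ.sup' Finset.univ_nonempty fun i => Real.log ‖t i z‖

/-- The minimum of the orders of the `t i` at `s`. -/
def infOrd {ι : Type} [Fintype ι] [Nonempty ι] (t : ι → ℂ → ℂ) (s : ℂ) : ℤ :=
  Finset.univ.inf' Finset.univ_nonempty fun i => ordZ (t i) s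

open Classical in
/-- `0` if the orders of all `t i` at `s` are equal, and `1` otherwise. -/
def lossInd {ι : Type} (t : ι → ℂ → ℂ) (s : ℂ) : ℝ :=
  if ∀ i i', ordZ (t i) s = ordZ (t i') s then 0 else 1

/-- The family `1, u j`. -/
def withOne {n : ℕ} (u : Fin n → ℂ → ℂ) (o : Option (Fin n)) : ℂ → ℂ := o.elim (fun _ => 1) u

/-- The height of the point of projective space with the homogeneous coordinates `t i`. -/
def relHeight {ι : Type} [Fintype ι] [Nonempty ι] (t : ι → ℂ → ℂ) (R₁ x : ℝ) : ℝ :=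
  mean (supLog t) x - cnt (fun s => (infOrd t s : ℝ)) R₁ (Real.exp (-x))

private theorem SupLog_sup {f g : ℂ → ℝ} {c : ℂ} {R : ℝ} (hf : CircleIntegrable f c R)
    (hg : CircleIntegrable g c R) : CircleIntegrable (f ⊔ g) c R := by
  have h : f ⊔ g = (1 / 2 : ℝ) • (f + g + |g - f|) := by
    funext z
    simp only [Pi.sup_apply, Pi.smul_apply, Pi.add_apply, Pi.abs_apply, Pi.sub_apply, smul_eq_mul]
    rw [max_def]
    split_ifs with h1
    · rw [abs_of_nonneg (by linarith)]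
      ring
    · rw [abs_of_nonpos (by linarith)]
      ring
  rw [h]
  exact ((hf.add hg).add (hg.sub hf).abs).const_smul

theorem meroPunct_const (R₀ : ℝ) {c : ℂ} (hc : c ≠ 0) : MeroPunct R₀ fun _ => c := by
  classical
  refine ⟨fun z _ _ => MeromorphicAt.const c z, fun z _ _ => ?_⟩
  rw [meromorphicOrderAt_const, if_neg hc]
  exact WithTop.zero_ne_top

theorem meroPunct_withOne {n : ℕ} {R₀ : ℝ} {u : Fin n → ℂ → ℂ} (hu : ∀ j, MeroPunct R₀ (u j))
    (o : Option (Fin n)) : MeroPunct R₀ (withOne u o) := by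
  cases o with
  | none => exact meroPunct_const R₀ one_ne_zero
  | some j => exact hu j

theorem ordZ_const {c : ℂ} (s : ℂ) : ordZ (fun _ => c) s = 0 := by
  classical
  unfold Pool.Agent.H92.GGL.ordZ
  rw [meromorphicOrderAt_const]
  split_ifs <;> rfl

theorem ordZ_div {R₀ : ℝ} {u v : ℂ → ℂ} (hu : MeroPunct R₀ u) (hv : MeroPunct R₀ v) {c : ℂ}
    (hc : c ≠ 0) {s : ℂ} (h0 : 0 < ‖s‖) (h : ‖s‖ < R₀) :
    ordZ (fun z => c * (u z / v z)) s = ordZ u s - ordZ v s := by
  classical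
  have e1 : meromorphicOrderAt (fun z => c * (u z / v z)) s =
      meromorphicOrderAt (fun _ : ℂ => c) s + meromorphicOrderAt (fun z => u z / v z) s :=
    meromorphicOrderAt_mul (MeromorphicAt.const c s) ((hu.mero s h0 h).fun_div (hv.mero s h0 h))
  have e2 : meromorphicOrderAt (fun z => u z / v z) s =
      meromorphicOrderAt u s + meromorphicOrderAt (fun z => (v z)⁻¹) s := by
    have e : (fun z => u z / v z) = fun z => u z * (v z)⁻¹ := by
      funext z
      rw [div_eq_mul_inv]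
    rw [e]
    exact meromorphicOrderAt_mul (hu.mero s h0 h) (hv.mero s h0 h).inv
  have e3 : meromorphicOrderAt (fun z => (v z)⁻¹) s = -meromorphicOrderAt v s :=
    meromorphicOrderAt_inv
  obtain ⟨k, hk⟩ := WithTop.ne_top_iff_exists.mp (hu.ord s h0 h)
  obtain ⟨l, hl⟩ := WithTop.ne_top_iff_exists.mp (hv.ord s h0 h)
  unfold Pool.Agent.H92.GGL.ordZ
  rw [e1, e2, e3, meromorphicOrderAt_const, if_neg hc, zero_add, ← hk, ← hl]
  have e4 : ((k : ℤ) : WithTop ℤ) + -((l : ℤ) : WithTop ℤ) = ((k - l : ℤ) : WithTop ℤ) := by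
    have e : -((l : ℤ) : WithTop ℤ) = ((-l : ℤ) : WithTop ℤ) := rfl
    rw [e, ← WithTop.coe_add, sub_eq_add_neg]
  rw [e4, WithTop.untop₀_coe, WithTop.untop₀_coe, WithTop.untop₀_coe]

theorem meroPunct_div {R₀ : ℝ} {u v : ℂ → ℂ} (hu : MeroPunct R₀ u) (hv : MeroPunct R₀ v) {c : ℂ}
    (hc : c ≠ 0) : MeroPunct R₀ fun z => c * (u z / v z) := by
  have h1 := MeroPunct.mul (meroPunct_const R₀ hc) (MeroPunct.mul hu (MeroPunct.inv hv))
  simpa only [div_eq_mul_inv] using h1

theorem eventually_ne_zero {R₀ : ℝ} {u : ℂ → ℂ} (hu : MeroPunct R₀ u) {z : ℂ} (h0 : 0 < ‖z‖)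
    (h : ‖z‖ < R₀) : ∀ᶠ ζ in 𝓝[≠] z, u ζ ≠ 0 := by
  exact (meromorphicOrderAt_ne_top_iff_eventually_ne_zero (hu.mero z h0 h)).1 (hu.ord z h0 h)

theorem circleIntegrable_supLog {ι : Type} [Fintype ι] [Nonempty ι] {R₀ : ℝ} {t : ι → ℂ → ℂ}
    (ht : ∀ i, MeroPunct R₀ (t i)) {x : ℝ} (hx : Real.exp (-x) < R₀) :
    CircleIntegrable (supLog t) 0 (Real.exp (-x)) := by
  have h := Finset.sup'_induction (Finset.univ_nonempty (α := ι))
    (fun i => fun z => Real.log ‖t i z‖)
    (p := fun f : ℂ → ℝ => CircleIntegrable f 0 (Real.exp (-x)))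
    (fun f hf g hg => SupLog_sup hf hg)
    (fun i _ => MeroPunct.circleIntegrable_log (ht i) hx)
  have e : supLog t = Finset.univ.sup' (Finset.univ_nonempty (α := ι))
      (fun i => fun z => Real.log ‖t i z‖) := by
    funext z
    unfold supLog
    rw [Finset.sup'_apply]
  rw [e]
  exact h

theorem locFin_infOrd {ι : Type} [Fintype ι] [Nonempty ι] {R₀ : ℝ} {t : ι → ℂ → ℂ}
    (ht : ∀ i, MeroPunct R₀ (t i)) : LocFin R₀ fun s => (infOrd t s : ℝ) := by
  intro r b hr hb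
  have hfin : (⋃ i, {s : ℂ | r ≤ ‖s‖ ∧ ‖s‖ ≤ b ∧ (fun s => (ordZ (t i) s : ℝ)) s ≠ 0}).Finite :=
    Set.finite_iUnion fun i => (MeroPunct.locFin (ht i)) r b hr hb
  refine hfin.subset ?_
  rintro s ⟨h1, h2, h3⟩
  rw [Set.mem_iUnion]
  obtain ⟨i, -, hi⟩ := Finset.exists_mem_eq_inf' (Finset.univ_nonempty (α := ι))
    (fun i => ordZ (t i) s)
  refine ⟨i, h1, h2, fun h => h3 ?_⟩
  change (infOrd t s : ℝ) = 0
  unfold infOrd
  rw [hi]
  exact h

theorem locFin_lossInd {ι : Type} [Fintype ι] {R₀ : ℝ} {t : ι → ℂ → ℂ}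
    (ht : ∀ i, MeroPunct R₀ (t i)) : LocFin R₀ (lossInd t) := by
  intro r b hr hb
  have hfin : (⋃ i, {s : ℂ | r ≤ ‖s‖ ∧ ‖s‖ ≤ b ∧ (fun s => (ordZ (t i) s : ℝ)) s ≠ 0}).Finite :=
    Set.finite_iUnion fun i => (MeroPunct.locFin (ht i)) r b hr hb
  refine hfin.subset ?_
  rintro s ⟨h1, h2, h3⟩
  rw [Set.mem_iUnion]
  by_contra hcon
  refine h3 ?_
  have h4 : ∀ i, ordZ (t i) s = 0 := by
    intro i
    by_contra hi
    refine hcon ⟨i, h1, h2, fun h => hi ?_⟩
    have h' : (ordZ (t i) s : ℝ) = 0 := h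
    exact_mod_cast h'
  unfold lossInd
  rw [if_pos fun i i' => (h4 i).trans (h4 i').symm]

/-- The mean is monotone up to discrete sets. -/
theorem mean_le_mean {f g : ℂ → ℝ} {x : ℝ} (hf : CircleIntegrable f 0 (Real.exp (-x)))
    (hg : CircleIntegrable g 0 (Real.exp (-x)))
    (h : ∀ z, ‖z‖ = Real.exp (-x) → ∀ᶠ ζ in 𝓝[≠] z, f ζ ≤ g ζ) : mean f x ≤ mean g x := by
  have h1 : g =ᶠ[codiscreteWithin (Metric.sphere (0 : ℂ) |Real.exp (-x)|)]
      fun z => max (f z) (g z) := by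
    rw [Filter.EventuallyEq, Filter.Eventually, mem_codiscreteWithin_iff_forall_mem_nhdsNE]
    intro z hz
    rw [mem_sphere_zero_iff_norm, abs_of_pos (Real.exp_pos _)] at hz
    filter_upwards [h z hz] with ζ hζ
    left
    show g ζ = max (f ζ) (g ζ)
    rw [max_eq_right hζ]
  have h2 : mean g x = mean (fun z => max (f z) (g z)) x :=
    Real.circleAverage_congr_codiscreteWithin h1 (Real.exp_ne_zero _)
  rw [h2]
  exact Real.circleAverage_mono hf (CircleIntegrable.congr_codiscreteWithin h1 hg)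
    fun z _ => le_max_left _ _

end Pool.Agent.H17R
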