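import Pool.Agent.H17R.LocalLoss
import Pool.Agent.H17R.SupLog

/-!
# Cartan's inequality at a puncture for one relation

PROOF of `circ_ineq`.  Follow the proof of `cartan_punctMero` in `Pool.Agent.H62.FC.Cartan` (copy its
private lemmas).  There `G = supLog (withOne u)` (`max (0, log) = posLog`), `μ = infOrd (withOne u)`
(the order of the constant function `1` is `0`), and `hmG` says `mean G ≤ ∑ j, mean log ‖u j‖ - mean
log ‖W‖ + L + K * ∑ i j, mean posLog ‖u_j^(i) / u_j‖`.  By Jensen's formula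
(`MeroPunct.jensen`) for the `u j` and `W = wronsk u` the first part is
`cnt (∑ j, ord (u j) - ord W) + O(1 + |x|)`, and
`∑ j, ord (u j) - ord W ≤ μ + n (n - 1) / 2 * χ` at every point, where `χ = lossInd (withOne u)` is
`0` if all `ord (u j)` are `0` and `1` otherwise (`local_loss`, `local_unit`).  (For `n = 1` one has
`W = u 0 = -1`; the proof works.)
The last part is at most `ε * ∑ j, nevT (u j) + C (1 + |x|)` outside a set of finite measure
(`MeroPunct.iteratedDeriv_negl`, applied with `ε / (K * n)` or so).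
-/

open Topology Filter MeasureTheory
open Pool.Agent.H92.GGL (ordZ)
open Pool.Agent.H62.FC (MeroPunct LocFin cnt mean nevT Negl wronsk cnt_eq_sum wronsk_meroPunct)

noncomputable section

namespace Pool.Agent.H17R

/-! ### Determinants -/

private theorem posLog_prod_perm {n : ℕ} (A : Matrix (Fin n) (Fin n) ℂ) (B : Fin n → Fin n → ℝ)
    (hB : ∀ i j, Real.posLog ‖A i j‖ ≤ B i j) (σ : Equiv.Perm (Fin n)) :
    Real.posLog ‖Equiv.Perm.sign σ • ∏ i, A (σ i) i‖ ≤ ∑ i, ∑ j, B i j := by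
  have h1 : ‖Equiv.Perm.sign σ • ∏ i, A (σ i) i‖ = ∏ i, ‖A (σ i) i‖ := by
    rcases Int.units_eq_one_or (Equiv.Perm.sign σ) with h | h
    · rw [h, one_smul, norm_prod]
    · rw [h, Units.neg_smul, one_smul, norm_neg, norm_prod]
  rw [h1, Finset.sum_comm]
  refine (Real.posLog_prod _ _).trans (Finset.sum_le_sum fun i _ => ?_)
  refine (hB (σ i) i).trans (Finset.single_le_sum (f := fun k => B k i) (fun k _ => ?_)
    (Finset.mem_univ (σ i)))
  exact Real.posLog_nonneg.trans (hB k i)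

private theorem posLog_det_le {n : ℕ} (A : Matrix (Fin n) (Fin n) ℂ) (B : Fin n → Fin n → ℝ)
    (hB : ∀ i j, Real.posLog ‖A i j‖ ≤ B i j) :
    Real.posLog ‖A.det‖ ≤ Real.log n.factorial + (n.factorial : ℝ) * ∑ i, ∑ j, B i j := by
  rw [Matrix.det_apply]
  refine (Real.posLog_norm_sum_le _ _).trans ?_
  have hcard : (Finset.univ : Finset (Equiv.Perm (Fin n))).card = n.factorial := by
    rw [Finset.card_univ, Fintype.card_perm, Fintype.card_fin]
  rw [hcard]
  have h2 : ∑ σ : Equiv.Perm (Fin n), Real.posLog ‖Equiv.Perm.sign σ • ∏ i, A (σ i) i‖ ≤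
      ∑ _σ : Equiv.Perm (Fin n), ∑ i, ∑ j, B i j :=
    Finset.sum_le_sum fun σ _ => posLog_prod_perm A B hB σ
  rw [Finset.sum_const, hcard, nsmul_eq_mul] at h2
  linarith

/-- The sum of the logarithmic derivatives. -/
def Circ_Q {n : ℕ} (u : Fin n → ℂ → ℂ) (z : ℂ) : ℝ :=
  ∑ i : Fin n, ∑ j : Fin n, Real.posLog ‖iteratedDeriv i (u j) z / u j z‖

private theorem det_star {n : ℕ} {u : Fin n → ℂ → ℂ} {z : ℂ} (h0 : ∀ j, u j z ≠ 0) :
    wronsk u z = (∏ j, u j z) *
      (Matrix.of fun i j : Fin n => iteratedDeriv i (u j) z / u j z).det := by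
  rw [← Matrix.det_mul_row]
  unfold wronsk
  congr 1
  ext i j
  simp only [Matrix.of_apply]
  rw [mul_div_cancel₀ _ (h0 j)]

private theorem det_col {n : ℕ} {u : Fin n → ℂ → ℂ} {z : ℂ} (h0 : ∀ j, u j z ≠ 0)
    (hs : ∀ i : Fin n, ∑ j, iteratedDeriv i (u j) z = if (i : ℕ) = 0 then -1 else 0)
    (j₀ : Fin n) :
    wronsk u z = (∏ j, if j = j₀ then 1 else u j z) *
      (Matrix.of fun i j : Fin n => if j = j₀ then (if (i : ℕ) = 0 then (-1 : ℂ) else 0) else
        iteratedDeriv i (u j) z / u j z).det := by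
  rw [← Matrix.det_mul_row]
  unfold wronsk
  have h1 := Matrix.det_updateCol_sum
    (Matrix.of fun i j : Fin n => iteratedDeriv i (u j) z) j₀ (fun _ => 1)
  rw [one_smul] at h1
  rw [← h1]
  congr 1
  ext i j
  by_cases hj : j = j₀
  · subst hj
    rw [Matrix.updateCol_self]
    simp only [Matrix.of_apply, one_smul, if_true, one_mul]
    exact hs i
  · rw [Matrix.updateCol_ne hj]
    simp only [Matrix.of_apply, if_neg hj]
    rw [mul_div_cancel₀ _ (h0 j)]

private theorem pointwise {n : ℕ} {u : Fin n → ℂ → ℂ} {z : ℂ} (h0 : ∀ j, u j z ≠ 0)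
    (hW : wronsk u z ≠ 0)
    (hs : ∀ i : Fin n, ∑ j, iteratedDeriv i (u j) z = if (i : ℕ) = 0 then -1 else 0)
    (j₀ : Fin n) :
    Real.posLog ‖u j₀ z‖ ≤ (∑ j, Real.log ‖u j z‖) - Real.log ‖wronsk u z‖ +
      (Real.log n.factorial + (n.factorial : ℝ) * Circ_Q u z) := by
  have hlogu : ∀ j, ‖u j z‖ ≠ 0 := fun j => norm_ne_zero_iff.2 (h0 j)
  rw [Real.posLog_apply]
  refine max_le ?_ ?_
  · have h1 := det_star h0
    have hD : (Matrix.of fun i j : Fin n => iteratedDeriv i (u j) z / u j z).det ≠ 0 := by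
      intro h
      rw [h, mul_zero] at h1
      exact hW h1
    have h2 : Real.log ‖wronsk u z‖ = (∑ j, Real.log ‖u j z‖) +
        Real.log ‖(Matrix.of fun i j : Fin n => iteratedDeriv i (u j) z / u j z).det‖ := by
      rw [h1, norm_mul, norm_prod, Real.log_mul (Finset.prod_ne_zero_iff.2 fun j _ => hlogu j)
        (norm_ne_zero_iff.2 hD), Real.log_prod fun j _ => hlogu j]
    have h3 := posLog_det_le (Matrix.of fun i j : Fin n => iteratedDeriv i (u j) z / u j z)
      (fun i j => Real.posLog ‖iteratedDeriv i (u j) z / u j z‖) (fun i j => le_rfl)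
    have h4 : Real.log ‖(Matrix.of fun i j : Fin n => iteratedDeriv i (u j) z / u j z).det‖ ≤
        Real.posLog ‖(Matrix.of fun i j : Fin n => iteratedDeriv i (u j) z / u j z).det‖ :=
      le_max_right _ _
    unfold Circ_Q
    linarith
  · have h1 := det_col h0 hs j₀
    set N := (Matrix.of fun i j : Fin n => if j = j₀ then (if (i : ℕ) = 0 then (-1 : ℂ) else 0)
      else iteratedDeriv i (u j) z / u j z) with hN
    have hD : N.det ≠ 0 := by
      intro h
      rw [h, mul_zero] at h1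
      exact hW h1
    have hne : ∀ j ∈ (Finset.univ : Finset (Fin n)),
        ‖(if j = j₀ then (1 : ℂ) else u j z)‖ ≠ 0 := by
      intro j _
      split_ifs
      · simp
      · exact hlogu j
    have h5 : ∑ j, Real.log ‖(if j = j₀ then (1 : ℂ) else u j z)‖ =
        (∑ j, Real.log ‖u j z‖) - Real.log ‖u j₀ z‖ := by
      rw [← Finset.add_sum_erase _ _ (Finset.mem_univ j₀),
        ← Finset.add_sum_erase _ (fun j => Real.log ‖u j z‖) (Finset.mem_univ j₀)]
      rw [if_pos rfl, norm_one, Real.log_one, zero_add, add_sub_cancel_left]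
      refine Finset.sum_congr rfl fun j hj => ?_
      rw [if_neg (Finset.ne_of_mem_erase hj)]
    have h2 : Real.log ‖wronsk u z‖ = (∑ j, Real.log ‖u j z‖) - Real.log ‖u j₀ z‖ +
        Real.log ‖N.det‖ := by
      rw [h1, norm_mul, norm_prod, Real.log_mul (Finset.prod_ne_zero_iff.2 hne)
        (norm_ne_zero_iff.2 hD), Real.log_prod hne, h5]
    have h3 := posLog_det_le N
      (fun i j => Real.posLog ‖iteratedDeriv i (u j) z / u j z‖) (by
        intro i j
        rw [hN, Matrix.of_apply]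
        split_ifs
        · rw [norm_neg, norm_one, Real.posLog_one]
          exact Real.posLog_nonneg
        · rw [norm_zero, Real.posLog_zero]
          exact Real.posLog_nonneg
        · exact le_rfl)
    have h4 : Real.log ‖N.det‖ ≤ Real.posLog ‖N.det‖ := le_max_right _ _
    unfold Circ_Q
    linarith

/-! ### Means -/

private theorem circleIntegrable_sup {f g : ℂ → ℝ} {c : ℂ} {R : ℝ} (hf : CircleIntegrable f c R)
    (hg : CircleIntegrable g c R) : CircleIntegrable (f ⊔ g) c R := by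
  have h : f ⊔ g = (1 / 2 : ℝ) • (f + g + |g - f|) := by
    funext z
    simp only [Pi.sup_apply, Pi.smul_apply, Pi.add_apply, Pi.abs_apply, Pi.sub_apply, smul_eq_mul]
    rw [max_def]
    split_ifs with h1
    · rw [abs_of_nonneg (by linarith)]
      ring
    · rw [abs_of_nonpos (by linarith)]
      ring
  rw [h]
  exact ((hf.add hg).add (hg.sub hf).abs).const_smul

private theorem mean_mono {f g : ℂ → ℝ} {x : ℝ} (hf : CircleIntegrable f 0 (Real.exp (-x)))
    (hg : CircleIntegrable g 0 (Real.exp (-x)))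
    (h : ∀ z ∈ Metric.sphere (0 : ℂ) |Real.exp (-x)|, ∀ᶠ ζ in 𝓝[≠] z, f ζ ≤ g ζ) :
    mean f x ≤ mean g x := by
  have h1 : g =ᶠ[codiscreteWithin (Metric.sphere (0 : ℂ) |Real.exp (-x)|)]
      fun z => max (f z) (g z) := by
    rw [Filter.EventuallyEq, Filter.Eventually, mem_codiscreteWithin_iff_forall_mem_nhdsNE]
    intro z hz
    filter_upwards [h z hz] with ζ hζ
    left
    show g ζ = max (f ζ) (g ζ)
    rw [max_eq_right hζ]
  have h2 : mean g x = mean (fun z => max (f z) (g z)) x :=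
    Real.circleAverage_congr_codiscreteWithin h1 (Real.exp_ne_zero _)
  rw [h2]
  exact Real.circleAverage_mono hf (CircleIntegrable.congr_codiscreteWithin h1 hg)
    fun z _ => le_max_left _ _

/-! ### Generic points -/

private theorem generic {n : ℕ} {R₀ : ℝ} {u : Fin n → ℂ → ℂ} (hu : ∀ j, MeroPunct R₀ (u j))
    (hW : MeroPunct R₀ (wronsk u))
    (hrel : ∀ z, 0 < ‖z‖ → ‖z‖ < R₀ → ∀ᶠ ζ in 𝓝[≠] z, ∑ j, u j ζ = -1) {z : ℂ}
    (h0 : 0 < ‖z‖) (hz : ‖z‖ < R₀) (j₀ : Fin n) :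
    ∀ᶠ ζ in 𝓝[≠] z, Real.posLog ‖u j₀ ζ‖ ≤
      (∑ j, Real.log ‖u j ζ‖) - Real.log ‖wronsk u ζ‖ +
        (Real.log n.factorial + (n.factorial : ℝ) * Circ_Q u ζ) := by
  have h1 : ∀ᶠ ζ in 𝓝[≠] z, ∀ j, u j ζ ≠ 0 :=
    Filter.eventually_all.2 fun j =>
      (meromorphicOrderAt_ne_top_iff_eventually_ne_zero ((hu j).mero z h0 hz)).1
        ((hu j).ord z h0 hz)
  have h2 : ∀ᶠ ζ in 𝓝[≠] z, wronsk u ζ ≠ 0 :=
    (meromorphicOrderAt_ne_top_iff_eventually_ne_zero (hW.mero z h0 hz)).1 (hW.ord z h0 hz)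
  have h3 : ∀ᶠ ζ in 𝓝[≠] z, ∀ j, AnalyticAt ℂ (u j) ζ :=
    Filter.eventually_all.2 fun j => ((hu j).mero z h0 hz).eventually_analyticAt
  have h4 : ∀ᶠ ζ in 𝓝[≠] z, ∀ᶠ y in 𝓝 ζ, ∑ j, u j y = -1 := by
    have := eventually_eventually_nhdsWithin.2 (hrel z h0 hz)
    filter_upwards [this, self_mem_nhdsWithin] with ζ hζ hne
    rwa [IsOpen.nhdsWithin_eq isOpen_compl_singleton hne] at hζ
  filter_upwards [h1, h2, h3, h4] with ζ a1 a2 a3 a4
  refine pointwise a1 a2 (fun i => ?_) j₀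
  have e : iteratedDeriv i (fun y => ∑ j, u j y) ζ = ∑ j, iteratedDeriv i (u j) ζ :=
    iteratedDeriv_fun_sum fun j _ => (a3 j).contDiffAt
  rw [← e]
  have h5 : (fun y => ∑ j, u j y) =ᶠ[𝓝 ζ] fun _ => -1 := a4
  rw [(h5.iteratedDeriv i).eq_of_nhds, iteratedDeriv_const]

/-! ### Counting functions -/

private theorem exists_T {ι : Type*} [Finite ι] {R₀ R₁ : ℝ} (h : R₁ < R₀) {w : ι → ℂ → ℝ}
    (hw : ∀ i, LocFin R₀ (w i)) {r : ℝ} (hr : 0 < r) :
    ∃ (T : Finset ℂ) (l : ℂ → ℝ), (∀ s ∈ T, r < ‖s‖ ∧ ‖s‖ < R₁ ∧ 0 ≤ l s) ∧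
      ∀ w' : ℂ → ℝ, (∀ s, (∀ i, w i s = 0) → w' s = 0) →
        cnt w' R₁ r = ∑ s ∈ T, w' s * l s := by
  classical
  have hfin : (⋃ i, {s : ℂ | r ≤ ‖s‖ ∧ ‖s‖ ≤ R₁ ∧ w i s ≠ 0}).Finite :=
    Set.finite_iUnion fun i => hw i r R₁ hr h
  refine ⟨hfin.toFinset.filter fun s => r < ‖s‖ ∧ ‖s‖ < R₁, fun s => Real.log (‖s‖ / r),
    fun s hs => ?_, fun w' hw' => ?_⟩
  · rw [Finset.mem_filter] at hs
    refine ⟨hs.2.1, hs.2.2, Real.log_nonneg ?_⟩
    rw [le_div_iff₀ hr, one_mul]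
    exact hs.2.1.le
  · refine cnt_eq_sum (fun s h1 h2 h3 => ?_) hr
    rw [Set.Finite.mem_toFinset, Set.mem_iUnion]
    by_contra hcon
    refine h3 (hw' s fun i => ?_)
    by_contra hi
    exact hcon ⟨i, h1.le, h2.le, hi⟩

private theorem linear_bound (A B x : ℝ) : |A + B * x| ≤ (|A| + |B|) * (1 + |x|) := by
  have h1 : |A + B * x| ≤ |A| + |B| * |x| := by
    rw [← abs_mul]
    exact abs_add_le A (B * x)
  nlinarith [abs_nonneg A, abs_nonneg B, abs_nonneg x, mul_nonneg (abs_nonneg A) (abs_nonneg x)]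

/-- The logarithms of the family `1, u j`, at a generic point. -/
private theorem generic_opt {n : ℕ} (hn : 1 ≤ n) {R₀ : ℝ} {u : Fin n → ℂ → ℂ}
    (hu : ∀ j, MeroPunct R₀ (u j)) (hW : MeroPunct R₀ (wronsk u))
    (hrel : ∀ z, 0 < ‖z‖ → ‖z‖ < R₀ → ∀ᶠ ζ in 𝓝[≠] z, ∑ j, u j ζ = -1) {z : ℂ}
    (h0 : 0 < ‖z‖) (hz : ‖z‖ < R₀) :
    ∀ᶠ ζ in 𝓝[≠] z, supLog (withOne u) ζ ≤
      (∑ j, Real.log ‖u j ζ‖) - Real.log ‖wronsk u ζ‖ +
        (Real.log n.factorial + (n.factorial : ℝ) * Circ_Q u ζ) := by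
  filter_upwards [Filter.eventually_all.2 fun j => generic hu hW hrel h0 hz j] with ζ hζ
  unfold supLog
  refine Finset.sup'_le _ _ fun o _ => ?_
  cases o with
  | none =>
    have h1 : Real.log ‖withOne u none ζ‖ = 0 := by
      show Real.log ‖(1 : ℂ)‖ = 0
      rw [norm_one, Real.log_one]
    rw [h1]
    exact Real.posLog_nonneg.trans (hζ ⟨0, by omega⟩)
  | some j => exact (le_max_right _ _).trans (hζ j)

/-- The local inequality. -/
private theorem local_ineq {n : ℕ} (hn : 1 ≤ n) {s : ℂ} {u : Fin n → ℂ → ℂ}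
    (hu : ∀ j, MeromorphicAt (u j) s) (huo : ∀ j, meromorphicOrderAt (u j) s ≠ ⊤)
    (hrel : ∀ᶠ z in 𝓝[≠] s, ∑ j, u j z = -1) (hW : meromorphicOrderAt (wronsk u) s ≠ ⊤) :
    (∑ j, (ordZ (u j) s : ℝ)) - ordZ (wronsk u) s ≤
      (infOrd (withOne u) s : ℝ) + (n * (n - 1) / 2 : ℝ) * lossInd (withOne u) s := by
  have h1 : ordZ (withOne u none) s = 0 := ordZ_const (c := 1) s
  have hμ0 : infOrd (withOne u) s ≤ 0 := by
    rw [← h1]
    exact Finset.inf'_le (fun o => ordZ (withOne u o) s) (Finset.mem_univ none)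
  have hμj : ∀ j, infOrd (withOne u) s ≤ ordZ (u j) s := fun j =>
    Finset.inf'_le (fun o => ordZ (withOne u o) s) (Finset.mem_univ (some j))
  have hμ' : infOrd (withOne u) s = 0 ∨ ∃ j, ordZ (u j) s = infOrd (withOne u) s := by
    obtain ⟨o, -, ho⟩ := Finset.exists_mem_eq_inf' Finset.univ_nonempty
      (fun o : Option (Fin n) => ordZ (withOne u o) s)
    cases o with
    | none => exact Or.inl (ho.trans h1)
    | some j => exact Or.inr ⟨j, ho.symm⟩
  unfold lossInd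
  split_ifs with h
  · have h2 : ∀ j, ordZ (u j) s = 0 := fun j => (h (some j) none).trans h1
    have h3 : infOrd (withOne u) s = 0 := by
      rcases hμ' with h3 | ⟨j, h3⟩
      · exact h3
      · rw [← h3, h2]
    have h4 := local_unit hu huo hW h2
    have h5 : (0 : ℝ) ≤ (ordZ (wronsk u) s : ℝ) := by exact_mod_cast h4
    have h6 : (∑ j, (ordZ (u j) s : ℝ)) = 0 := Finset.sum_eq_zero fun j _ => by
      rw [h2 j, Int.cast_zero]
    rw [h6, h3, Int.cast_zero]
    linarith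
  · have h2 := local_loss hn hu huo hrel hW hμ0 hμj hμ'
    have h3 : 2 * ((∑ j, (ordZ (u j) s : ℝ)) - ordZ (wronsk u) s - infOrd (withOne u) s) ≤
        (n : ℝ) * ((n : ℝ) - 1) := by exact_mod_cast h2
    linarith

theorem circ_ineq {n : ℕ} (hn : 1 ≤ n) {R₀ R₁ : ℝ} (h1 : 0 < R₁) (h : R₁ < R₀)
    {u : Fin n → ℂ → ℂ} (hu : ∀ j, MeroPunct R₀ (u j))
    (hrel : ∀ z, 0 < ‖z‖ → ‖z‖ < R₀ → ∀ᶠ ζ in 𝓝[≠] z, ∑ j, u j ζ = -1)
    (hind : ∀ (c : Fin n → ℂ) (z : ℂ), 0 < ‖z‖ → ‖z‖ < R₀ →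
      (∀ᶠ ζ in 𝓝[≠] z, ∑ j, c j * u j ζ = 0) → c = 0) {ε : ℝ} (hε : 0 < ε) :
    ∃ (C : ℝ) (E : Set ℝ), volume E ≠ ⊤ ∧ ∀ x, Real.exp (-x) < R₁ → x ∉ E →
      mean (supLog (withOne u)) x ≤
        cnt (fun s => (infOrd (withOne u) s : ℝ)) R₁ (Real.exp (-x)) +
        (n * (n - 1) / 2 : ℝ) * cnt (lossInd (withOne u)) R₁ (Real.exp (-x)) +
        ε * ∑ j, nevT (u j) R₁ x + C * (1 + |x|) := by
  classical
  have : Nonempty (Fin n) := ⟨⟨0, by omega⟩⟩
  have hW : MeroPunct R₀ (wronsk u) := wronsk_meroPunct hu hind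
  have hn0 : (0 : ℝ) < n := by exact_mod_cast hn
  -- weights
  have hLoc : ∀ o : Option (Fin n), LocFin R₀
      (fun s => (ordZ (o.elim (wronsk u) u) s : ℝ)) := by
    intro o
    cases o with
    | none => exact MeroPunct.locFin hW
    | some j => exact MeroPunct.locFin (hu j)
  -- constants
  choose A B hAB using fun j => MeroPunct.jensen (hu j) h1 h
  obtain ⟨A', B', hAB'⟩ := MeroPunct.jensen hW h1 h
  obtain ⟨K, hK⟩ : ∃ K : ℝ, K = (n.factorial : ℝ) := ⟨_, rfl⟩
  have hK0 : 0 < K := by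
    rw [hK]
    exact_mod_cast Nat.factorial_pos _
  obtain ⟨L, hL⟩ : ∃ L : ℝ, L = Real.log (n.factorial : ℝ) := ⟨_, rfl⟩
  have hL0 : 0 ≤ L := by
    rw [hL]
    exact Real.log_nonneg (by exact_mod_cast Nat.factorial_pos _)
  have hε' : 0 < ε / (K * n) := by positivity
  choose Cq E hE hq using fun i j : Fin n =>
    MeroPunct.iteratedDeriv_negl h1 h (hu j) (i : ℕ) _ hε'
  -- the exceptional set
  have hE' : volume (⋃ p : Fin n × Fin n, E p.1 p.2) ≠ ⊤ := by
    refine ((measure_iUnion_fintype_le volume _).trans_lt ?_).ne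
    exact ENNReal.sum_lt_top.2 fun p _ => lt_top_iff_ne_top.2 (hE p.1 p.2)
  obtain ⟨C₀, hC₀⟩ : ∃ C₀ : ℝ, C₀ = (∑ j, (|A j| + |B j|)) + (|A'| + |B'|) + L +
    K * (∑ i, ∑ j, |Cq i j|) := ⟨_, rfl⟩
  refine ⟨C₀, _, hE', fun x hx hxE => ?_⟩
  have hxR₀ : Real.exp (-x) < R₀ := hx.trans h
  have hr : 0 < Real.exp (-x) := Real.exp_pos _
  have hxE' : ∀ i j, x ∉ E i j := fun i j hcon => hxE (Set.mem_iUnion.2 ⟨(i, j), hcon⟩)
  have hsph : ∀ z ∈ Metric.sphere (0 : ℂ) |Real.exp (-x)|, 0 < ‖z‖ ∧ ‖z‖ < R₀ := by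
    intro z hz
    rw [mem_sphere_zero_iff_norm, abs_of_pos hr] at hz
    rw [hz]
    exact ⟨hr, hxR₀⟩
  -- integrability
  have hIG : CircleIntegrable (supLog (withOne u)) 0 (Real.exp (-x)) :=
    circleIntegrable_supLog (meroPunct_withOne hu) hxR₀
  have hIlog : ∀ j, CircleIntegrable (fun z => Real.log ‖u j z‖) 0 (Real.exp (-x)) :=
    fun j => MeroPunct.circleIntegrable_log (hu j) hxR₀
  have hIW : CircleIntegrable (fun z => Real.log ‖wronsk u z‖) 0 (Real.exp (-x)) :=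
    MeroPunct.circleIntegrable_log hW hxR₀
  have hIq : ∀ i j : Fin n, CircleIntegrable
      (fun z => Real.posLog ‖iteratedDeriv i (u j) z / u j z‖) 0 (Real.exp (-x)) := by
    intro i j
    apply MeromorphicOn.circleIntegrable_posLog_norm
    intro z hz
    obtain ⟨hz1, hz2⟩ := hsph z hz
    have hm := (hu j).mero z hz1 hz2
    rw [iteratedDeriv_eq_iterate]
    exact hm.iterated_deriv.fun_div hm
  have hIQ : CircleIntegrable (Circ_Q u) 0 (Real.exp (-x)) := by
    have e : Circ_Q u = ∑ i : Fin n, ∑ j : Fin n,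
        fun z => Real.posLog ‖iteratedDeriv i (u j) z / u j z‖ := by
      funext z
      unfold Circ_Q
      simp only [Finset.sum_apply]
    rw [e]
    exact CircleIntegrable.sum _ fun i _ => CircleIntegrable.sum _ fun j _ => hIq i j
  have hISum : CircleIntegrable (fun z => ∑ j, Real.log ‖u j z‖) 0 (Real.exp (-x)) := by
    have e : (fun z => ∑ j, Real.log ‖u j z‖) = ∑ j, fun z => Real.log ‖u j z‖ := by
      funext z
      simp only [Finset.sum_apply]
    rw [e]
    exact CircleIntegrable.sum _ fun j _ => hIlog j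
  have hISW : CircleIntegrable (fun z => (∑ j, Real.log ‖u j z‖) - Real.log ‖wronsk u z‖) 0
      (Real.exp (-x)) := hISum.sub hIW
  have hIKQ : CircleIntegrable (fun z => K * Circ_Q u z) 0 (Real.exp (-x)) :=
    hIQ.const_smul (a := K)
  have hILK : CircleIntegrable (fun z => L + K * Circ_Q u z) 0 (Real.exp (-x)) :=
    (circleIntegrable_const L 0 _).add hIKQ
  have hIR : CircleIntegrable (fun z => (∑ j, Real.log ‖u j z‖) - Real.log ‖wronsk u z‖ +
      (L + K * Circ_Q u z)) 0 (Real.exp (-x)) := hISW.add hILK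
  -- the mean of `G`
  have hmG : mean (supLog (withOne u)) x ≤ (∑ j, mean (fun z => Real.log ‖u j z‖) x) -
      mean (fun z => Real.log ‖wronsk u z‖) x +
      (L + K * ∑ i : Fin n, ∑ j : Fin n,
        mean (fun z => Real.posLog ‖iteratedDeriv i (u j) z / u j z‖) x) := by
    have h := mean_mono (x := x) hIG hIR (fun z hz => by
      obtain ⟨hz1, hz2⟩ := hsph z hz
      filter_upwards [generic_opt hn hu hW hrel hz1 hz2] with ζ hζ
      rw [hL, hK]
      exact hζ)
    refine h.trans (le_of_eq ?_)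
    unfold mean
    rw [Real.circleAverage_fun_add hISW hILK,
      Real.circleAverage_fun_sub hISum hIW, Real.circleAverage_fun_sum fun j _ => hIlog j,
      Real.circleAverage_fun_add (circleIntegrable_const L 0 _) hIKQ,
      Real.circleAverage_const]
    congr 2
    have e2 : Real.circleAverage (fun z => K * Circ_Q u z) 0 (Real.exp (-x)) =
        K * Real.circleAverage (Circ_Q u) 0 (Real.exp (-x)) :=
      Real.circleAverage_fun_smul (a := K)
    rw [e2]
    congr 1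
    unfold Circ_Q
    rw [Real.circleAverage_fun_sum (fun i _ => ?_)]
    · refine Finset.sum_congr rfl fun i _ => ?_
      exact Real.circleAverage_fun_sum fun j _ => hIq i j
    · have e : (fun z => ∑ j : Fin n, Real.posLog ‖iteratedDeriv i (u j) z / u j z‖) =
          ∑ j : Fin n, fun z => Real.posLog ‖iteratedDeriv i (u j) z / u j z‖ := by
        funext z
        simp only [Finset.sum_apply]
      rw [e]
      exact CircleIntegrable.sum _ fun j _ => hIq i j
  -- the counting functions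
  obtain ⟨T, l, hT, hcnt⟩ := exists_T h hLoc hr
  have hz0 : ∀ s, (∀ o : Option (Fin n), (ordZ (o.elim (wronsk u) u) s : ℝ) = 0) →
      ∀ o : Option (Fin n), ordZ (withOne u o) s = 0 := by
    intro s hs o
    cases o with
    | none => exact ordZ_const (c := 1) s
    | some j =>
      have h2 : (ordZ (u j) s : ℝ) = 0 := hs (some j)
      have h3 : ordZ (u j) s = 0 := by exact_mod_cast h2
      exact h3
  have c1 : ∀ j, cnt (fun s => (ordZ (u j) s : ℝ)) R₁ (Real.exp (-x)) =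
      ∑ s ∈ T, (ordZ (u j) s : ℝ) * l s := fun j => hcnt _ fun s hs => hs (some j)
  have c2 : cnt (fun s => (ordZ (wronsk u) s : ℝ)) R₁ (Real.exp (-x)) =
      ∑ s ∈ T, (ordZ (wronsk u) s : ℝ) * l s := hcnt _ fun s hs => hs none
  have c3 : cnt (fun s => (infOrd (withOne u) s : ℝ)) R₁ (Real.exp (-x)) =
      ∑ s ∈ T, (infOrd (withOne u) s : ℝ) * l s := hcnt _ fun s hs => by
    have h2 := hz0 s hs
    have h3 : infOrd (withOne u) s = 0 := by
      obtain ⟨o, -, ho⟩ := Finset.exists_mem_eq_inf' Finset.univ_nonempty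
        (fun o : Option (Fin n) => ordZ (withOne u o) s)
      exact ho.trans (h2 o)
    rw [h3, Int.cast_zero]
  have c4 : cnt (lossInd (withOne u)) R₁ (Real.exp (-x)) =
      ∑ s ∈ T, lossInd (withOne u) s * l s := hcnt _ fun s hs => by
    have h2 := hz0 s hs
    unfold lossInd
    exact if_pos fun i i' => by rw [h2 i, h2 i']
  have hloc : (∑ j, cnt (fun s => (ordZ (u j) s : ℝ)) R₁ (Real.exp (-x))) -
      cnt (fun s => (ordZ (wronsk u) s : ℝ)) R₁ (Real.exp (-x)) ≤
      cnt (fun s => (infOrd (withOne u) s : ℝ)) R₁ (Real.exp (-x)) +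
      (n * (n - 1) / 2 : ℝ) * cnt (lossInd (withOne u)) R₁ (Real.exp (-x)) := by
    have e1 : (∑ j, cnt (fun s => (ordZ (u j) s : ℝ)) R₁ (Real.exp (-x))) -
        cnt (fun s => (ordZ (wronsk u) s : ℝ)) R₁ (Real.exp (-x)) =
        ∑ s ∈ T, ((∑ j, (ordZ (u j) s : ℝ)) - ordZ (wronsk u) s) * l s := by
      simp only [c1]
      rw [c2, Finset.sum_comm, ← Finset.sum_sub_distrib]
      refine Finset.sum_congr rfl fun s _ => ?_
      rw [← Finset.sum_mul]
      ring
    have e2 : cnt (fun s => (infOrd (withOne u) s : ℝ)) R₁ (Real.exp (-x)) +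
        (n * (n - 1) / 2 : ℝ) * cnt (lossInd (withOne u)) R₁ (Real.exp (-x)) =
        ∑ s ∈ T, ((infOrd (withOne u) s : ℝ) +
          (n * (n - 1) / 2 : ℝ) * lossInd (withOne u) s) * l s := by
      rw [c3, c4, Finset.mul_sum, ← Finset.sum_add_distrib]
      refine Finset.sum_congr rfl fun s _ => ?_
      ring
    rw [e1, e2]
    refine Finset.sum_le_sum fun s hs => ?_
    obtain ⟨hs1, hs2, hs3⟩ := hT s hs
    have hs4 : 0 < ‖s‖ := hr.trans hs1
    have hs5 : ‖s‖ < R₀ := hs2.trans h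
    exact mul_le_mul_of_nonneg_right (local_ineq hn (fun j => (hu j).mero s hs4 hs5)
      (fun j => (hu j).ord s hs4 hs5) (hrel s hs4 hs5) (hW.ord s hs4 hs5)) hs3
  -- the conclusion
  have hy : 1 ≤ 1 + |x| := by linarith [abs_nonneg x]
  obtain ⟨y, hyd⟩ : ∃ y, y = 1 + |x| := ⟨_, rfl⟩
  rw [← hyd] at hy ⊢
  obtain ⟨a, ha⟩ : ∃ a, a = ∑ j, (|A j| + |B j|) := ⟨_, rfl⟩
  have hlin : ∀ j, |A j + B j * x| ≤ (|A j| + |B j|) * y := fun j => by
    rw [hyd]
    exact linear_bound _ _ _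
  have hlinW : |A' + B' * x| ≤ (|A'| + |B'|) * y := by
    rw [hyd]
    exact linear_bound _ _ _
  have hJ : ∀ j, mean (fun z => Real.log ‖u j z‖) x =
      cnt (fun s => (ordZ (u j) s : ℝ)) R₁ (Real.exp (-x)) + (A j + B j * x) := fun j => by
    have := hAB j x hx
    linarith
  have hJW := hAB' x hx
  have hsum1 : |∑ j, (A j + B j * x)| ≤ a * y := by
    rw [ha, Finset.sum_mul]
    exact (Finset.abs_sum_le_sum_abs _ _).trans (Finset.sum_le_sum fun j _ => hlin j)
  have hSc : (∑ j, mean (fun z => Real.log ‖u j z‖) x) =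
      (∑ j, cnt (fun s => (ordZ (u j) s : ℝ)) R₁ (Real.exp (-x))) + ∑ j, (A j + B j * x) := by
    rw [← Finset.sum_add_distrib]
    exact Finset.sum_congr rfl fun j _ => hJ j
  have hq' : K * (∑ i : Fin n, ∑ j : Fin n,
        mean (fun z => Real.posLog ‖iteratedDeriv i (u j) z / u j z‖) x) ≤
      ε * (∑ j, nevT (u j) R₁ x) + K * (∑ i, ∑ j, |Cq i j|) * y := by
    have h2 : ∀ i j : Fin n,
        mean (fun z => Real.posLog ‖iteratedDeriv i (u j) z / u j z‖) x ≤
        ε / (K * n) * nevT (u j) R₁ x + |Cq i j| * y := by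
      intro i j
      refine (hq i j x hx (hxE' i j)).trans (add_le_add le_rfl ?_)
      rw [← hyd]
      exact mul_le_mul_of_nonneg_right (le_abs_self _) (by linarith)
    have h3 : (∑ i : Fin n, ∑ j : Fin n,
        mean (fun z => Real.posLog ‖iteratedDeriv i (u j) z / u j z‖) x) ≤
        ∑ i : Fin n, ∑ j : Fin n, (ε / (K * n) * nevT (u j) R₁ x + |Cq i j| * y) :=
      Finset.sum_le_sum fun i _ => Finset.sum_le_sum fun j _ => h2 i j
    refine (mul_le_mul_of_nonneg_left h3 hK0.le).trans (le_of_eq ?_)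
    simp only [Finset.sum_add_distrib, Finset.sum_const, Finset.card_univ, Fintype.card_fin,
      nsmul_eq_mul, ← Finset.sum_mul, ← Finset.mul_sum]
    field_simp
  have hLy : L ≤ L * y := by nlinarith
  have e1 := (abs_le.1 hsum1).2
  have e2 := (abs_le.1 hlinW).1
  rw [hC₀, ← ha]
  nlinarith

end Pool.Agent.H17R
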