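import Pool.Agent.H17R.Height
import Pool.Agent.H62.FC.PicardBrody

/-!
# Extension from a height bound

PROOF: every `val f i₀ (X l)` is zero on the punctured disc (`nonVan_or`) or
`MeroPunct 1` with `nevT ≤ height` (`nevT_le_height`), so `PunctMero` by `punctMero_of_nevT`;
`exists_extension`.  See the end of the proof of `picard` in `Pool.Agent.H62.FC.PicardBrody`.
-/

open MvPolynomial Topology Filter MeasureTheory
open Pool.Agent.H92.GGL (ordZ)
open Pool.Agent.H17 (PN VanishesAt ZariskiClosedIn HolomorphicInto puncturedDisc vanishesAt_mk_iff)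
open Pool.Agent.H62.FC (Homog MeroPunct LocFin cnt mean nevT punctMero_of_nevT exists_extension)

noncomputable section

namespace Pool.Agent.H17R

variable {N : ℕ}

private lemma val_X (f : ℂ → PN N) (i l : Fin (N + 1)) :
    val f i (X l) = fun z => (f z).rep l / (f z).rep i := by
  funext z
  exact eval_X l

private lemma eventually_pd_zero : ∀ᶠ z in 𝓝[≠] (0 : ℂ), z ∈ puncturedDisc := by
  have h1 : ∀ᶠ z in 𝓝 (0 : ℂ), z ∈ Metric.ball (0 : ℂ) 1 :=
    Metric.ball_mem_nhds (0 : ℂ) one_pos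
  filter_upwards [h1.filter_mono nhdsWithin_le_nhds, self_mem_nhdsWithin] with z h2 h3
  exact ⟨h2, h3⟩

private lemma eventually_pd {z : ℂ} (hz : z ∈ puncturedDisc) :
    ∀ᶠ ζ in 𝓝[≠] z, ζ ∈ puncturedDisc := by
  have h : ∀ᶠ ζ in 𝓝 z, ζ ∈ puncturedDisc :=
    (Metric.isOpen_ball.sdiff isClosed_singleton).mem_nhds hz
  exact h.filter_mono nhdsWithin_le_nhds

theorem extend_of_height {f : ℂ → PN N} (hf : HolomorphicInto f puncturedDisc) {i₀ : Fin (N + 1)}
    (hi₀ : NonVan f (X i₀)) {R₁ : ℝ} (h1 : 0 < R₁) (h2 : R₁ < 1) {C : ℝ} {E : Set ℝ}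
    (hE : volume E ≠ ⊤)
    (hT : ∀ x, Real.exp (-x) < R₁ → x ∉ E → height f i₀ R₁ x ≤ C * (1 + |x|)) :
    ∃ g : ℂ → PN N, HolomorphicInto g (Metric.ball 0 1) ∧ ∀ z ∈ puncturedDisc, g z = f z := by
  have hvan : ∀ {l : Fin (N + 1)} {z : ℂ}, VanishesAt (X l) (f z) ↔ (f z).rep l = 0 := by
    intro l z
    unfold VanishesAt
    rw [eval_X]
  refine exists_extension hf (i₀ := i₀) ?_ fun l => ?_
  · filter_upwards [eventually_pd_zero] with z hz
    filter_upwards [hi₀ z hz] with ζ hζ h0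
    exact hζ (hvan.2 h0)
  · rcases nonVan_or hf (isHomogeneous_X ℂ l) with hl | hl
    · refine ⟨fun _ => 0, analyticAt_const.meromorphicAt, ?_⟩
      filter_upwards [eventually_pd_zero] with z hz
      filter_upwards [eventually_pd hz] with ζ hζ
      rw [hvan.1 (hl ζ hζ), zero_div]
    · rw [← val_X f i₀ l]
      exact punctMero_of_nevT h1 h2 (val_meroPunct hf (isHomogeneous_X ℂ l) hl hi₀) hE
        fun x hx hxE => (nevT_le_height hf hi₀ hl h1 h2 hx).trans (hT x hx hxE)

end Pool.Agent.H17R
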