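import Pool.Agent.H17R.Defs
import Pool.Agent.H17.ZeroLemma

/-!
# Smooth hypersurfaces

PROOF of `irreducible_of_smooth`.  `F ≠ 0` (the zero polynomial is not smooth) and `F` is not a unit
(`1 ≤ n`).  Let `F = A * B`.  `A` and `B` are homogeneous, of degrees `m, n - m`: the product of the
lowest components of `A` and `B` and the product of the highest components are both components of
`F`.  If `A` and `B` are not units then `m ≥ 1` and `n - m ≥ 1`, so they vanish at `0`, and by
`exists_ne_zero_common_zero` (`2 < N + 1`) they have a common zero `v ≠ 0`.  There `F` and all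
`pderiv i F = pderiv i A * B + A * pderiv i B` vanish.

PROOF of `ne_zero_of_smooth`.  If `G i = 0` then `F = ∑ l ≠ i, X l ^ e * G l` vanishes at
`v = Pi.single i 1`, together with its partial derivatives (`e ≥ 2`).
-/

open MvPolynomial
open Pool.Agent.H17 (PN VanishesAt exists_ne_zero_common_zero)

noncomputable section

namespace Pool.Agent.H17R

variable {N : ℕ}

private theorem smooth_single_ne (i : Fin (N + 1)) :
    (Pi.single i 1 : Fin (N + 1) → ℂ) ≠ 0 := by
  intro h
  have := congrFun h i
  simp at this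

private theorem smooth_ne_zero {F : MvPolynomial (Fin (N + 1)) ℂ} (h : IsSmooth F) : F ≠ 0 := by
  rintro rfl
  obtain ⟨i, hi⟩ := h _ (smooth_single_ne (0 : Fin (N + 1))) (by simp)
  simp at hi

/-- A factor of a form which does not vanish at the origin is constant. -/
private theorem smooth_factor {n : ℕ} {F A B : MvPolynomial (Fin (N + 1)) ℂ}
    (hF : F.IsHomogeneous n) (hF0 : F ≠ 0) (hAB : F = A * B)
    (hA : eval (0 : Fin (N + 1) → ℂ) A ≠ 0) : IsUnit A := by
  set c : ℂ := eval (0 : Fin (N + 1) → ℂ) A with hc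
  have key : ∀ v : Fin (N + 1) → ℂ, eval v F ≠ 0 → eval v A = c := by
    intro v hv
    set φ : MvPolynomial (Fin (N + 1)) ℂ →ₐ[ℂ] Polynomial ℂ :=
      aeval (fun i => Polynomial.C (v i) * Polynomial.X) with hφ
    have hev : ∀ (t : ℂ) (Q : MvPolynomial (Fin (N + 1)) ℂ),
        Polynomial.eval t (φ Q) = eval (fun i => v i * t) Q := by
      intro t Q
      have h1 : ((Polynomial.aeval t).comp φ : MvPolynomial (Fin (N + 1)) ℂ →ₐ[ℂ] ℂ) =
          aeval (fun i => v i * t) := by
        ext i
        simp [hφ]
      have h2 := DFunLike.congr_fun h1 Q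
      simpa [Polynomial.aeval_def, MvPolynomial.aeval_eq_eval] using h2
    have hFX : φ F = Polynomial.C (eval v F) * Polynomial.X ^ n := by
      apply Polynomial.funext
      intro t
      rw [hev]
      have h1 : (fun i => v i * t) = t • v := by
        funext i
        simp [mul_comm]
      rw [h1]
      have h3 : eval (t • v) F = t ^ n * eval v F := by
        rw [eval_eq, eval_eq, Finset.mul_sum]
        refine Finset.sum_congr rfl fun m hm => ?_
        have h4 : n = ∑ i ∈ m.support, m i := hF.degree_eq_sum_deg_support hm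
        have h5 : ∏ i ∈ m.support, (t • v) i ^ m i = t ^ n * ∏ i ∈ m.support, v i ^ m i := by
          simp only [Pi.smul_apply, smul_eq_mul, mul_pow]
          rw [Finset.prod_mul_distrib, Finset.prod_pow_eq_pow_sum, ← h4]
        rw [h5]
        ring
      rw [h3, Polynomial.eval_mul, Polynomial.eval_C, Polynomial.eval_pow, Polynomial.eval_X,
        mul_comm]
    have hdvd : φ A ∣ Polynomial.C (eval v F) * Polynomial.X ^ n := by
      rw [← hFX, hAB, map_mul]
      exact dvd_mul_right _ _
    have h0 : Polynomial.eval 0 (φ A) = c := by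
      rw [hev, hc]
      congr 1
      congr 1
      funext i
      simp
    have hcop : IsCoprime (φ A) Polynomial.X := by
      refine (((Polynomial.irreducible_X (R := ℂ)).coprime_iff_not_dvd).2 ?_).symm
      intro h1
      rw [Polynomial.X_dvd_iff, Polynomial.coeff_zero_eq_eval_zero, h0] at h1
      exact hA h1
    have hdvd2 : φ A ∣ Polynomial.C (eval v F) := (hcop.pow_right).dvd_of_dvd_mul_right hdvd
    have hunit : IsUnit (φ A) := isUnit_of_dvd_unit hdvd2
      (Polynomial.isUnit_C.2 (isUnit_iff_ne_zero.2 hv))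
    obtain ⟨r, -, hr⟩ := Polynomial.isUnit_iff.1 hunit
    have h1 : Polynomial.eval 1 (φ A) = Polynomial.eval 0 (φ A) := by
      rw [← hr]
      simp
    rw [h0, hev] at h1
    rw [← h1]
    congr 1
    congr 1
    funext i
    simp
  have hz : (A - C c) * F = 0 := by
    apply MvPolynomial.funext
    intro v
    by_cases hv : eval v F = 0
    · simp [hv]
    · rw [map_mul, map_sub, key v hv, eval_C]
      simp
  have hA' : A = C c := by
    rcases mul_eq_zero.1 hz with h1 | h1
    · exact sub_eq_zero.1 h1
    · exact absurd h1 hF0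
  rw [hA']
  exact (isUnit_iff_ne_zero.2 hA).map (C : ℂ →+* MvPolynomial (Fin (N + 1)) ℂ)

theorem irreducible_of_smooth (hN : 2 ≤ N) {n : ℕ} (hn : 1 ≤ n)
    {F : MvPolynomial (Fin (N + 1)) ℂ} (hF : F.IsHomogeneous n) (h : IsSmooth F) :
    Irreducible F := by
  have hF0 := smooth_ne_zero h
  refine ⟨?_, ?_⟩
  · intro hu
    have h1 := (MvPolynomial.isUnit_iff_totalDegree_of_isReduced.1 hu).2
    rw [hF.totalDegree hF0] at h1
    omega
  · intro A B hAB
    by_contra hcon
    push Not at hcon
    have hA0 : eval (0 : Fin (N + 1) → ℂ) A = 0 := by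
      by_contra h1
      exact hcon.1 (smooth_factor hF hF0 hAB h1)
    have hB0 : eval (0 : Fin (N + 1) → ℂ) B = 0 := by
      by_contra h1
      exact hcon.2 (smooth_factor hF hF0 (hAB.trans (mul_comm A B)) h1)
    obtain ⟨v, hv, hv2⟩ := exists_ne_zero_common_zero (Fin (N + 1)) (Fin 2)
      (by rw [Nat.card_fin, Nat.card_fin]; omega) ![A, B] (by
        intro k
        fin_cases k
        · exact hA0
        · exact hB0)
    have e1 : eval v A = 0 := hv2 0
    have e2 : eval v B = 0 := hv2 1
    obtain ⟨i, hi⟩ := h v hv (by rw [hAB, map_mul, e1, zero_mul])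
    apply hi
    rw [hAB, Derivation.leibniz, map_add, smul_eq_mul, smul_eq_mul, map_mul, map_mul, e1, e2]
    simp

theorem ne_zero_of_smooth {e : ℕ} (he : 2 ≤ e) {G : Fin (N + 1) → MvPolynomial (Fin (N + 1)) ℂ}
    (h : IsSmooth (∑ l, X l ^ e * G l)) (i : Fin (N + 1)) : G i ≠ 0 := by
  intro hG
  have hX : ∀ l, l ≠ i → eval (Pi.single i 1 : Fin (N + 1) → ℂ) (X l) = 0 := by
    intro l hl
    rw [eval_X, Pi.single_eq_of_ne hl]
  obtain ⟨j, hj⟩ := h _ (smooth_single_ne i) (by
    rw [map_sum]
    refine Finset.sum_eq_zero fun l _ => ?_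
    by_cases hl : l = i
    · rw [hl, hG, mul_zero, map_zero]
    · rw [map_mul, map_pow, hX l hl, zero_pow (by omega), zero_mul])
  apply hj
  rw [map_sum, map_sum]
  refine Finset.sum_eq_zero fun l _ => ?_
  by_cases hl : l = i
  · rw [hl, hG, mul_zero, map_zero, map_zero]
  · rw [Derivation.leibniz, Derivation.leibniz_pow, smul_eq_mul, smul_eq_mul, map_add, map_mul,
      map_mul, map_pow, hX l hl, zero_pow (by omega), zero_mul, zero_add, nsmul_eq_mul,
      map_mul, smul_eq_mul, map_mul, map_pow, hX l hl, zero_pow (by omega)]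
    simp

/-- The coordinate points: a smooth form of degree `d` contains `x i ^ (d - 1) * x l` for every `i`. -/
theorem exists_monomial_of_smooth {d : ℕ} (hd : 2 ≤ d) {F : MvPolynomial (Fin (N + 1)) ℂ}
    (hF : F.IsHomogeneous d) (h : IsSmooth F) (i : Fin (N + 1)) : ∃ m ∈ F.support, d - 1 ≤ m i := by
  by_contra hcon
  push Not at hcon
  have hdeg : ∀ m ∈ F.support, m.degree = d := fun m hm =>
    (hF.degree_eq_sum_deg_support hm).symm
  -- the value of a monomial with another variable
  have hval : ∀ (m : Fin (N + 1) →₀ ℕ) (c : ℂ), (∃ l, l ≠ i ∧ m l ≠ 0) →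
      eval (Pi.single i 1 : Fin (N + 1) → ℂ) (monomial m c) = 0 := by
    rintro m c ⟨l, hl, hm⟩
    rw [eval_monomial, Finsupp.prod, Finset.prod_eq_zero (Finsupp.mem_support_iff.2 hm), mul_zero]
    rw [Pi.single_eq_of_ne hl, zero_pow hm]
  have hex : ∀ m ∈ F.support, ∃ l, l ≠ i ∧ m l ≠ 0 := by
    intro m hm
    by_contra h1
    push Not at h1
    have h2 : m.degree = m i := by
      rw [Finsupp.degree_eq_sum]
      exact Finset.sum_eq_single i (fun l _ hl => h1 l hl) (by simp)
    have h3 := hcon m hm
    rw [hdeg m hm] at h2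
    omega
  obtain ⟨j, hj⟩ := h _ (smooth_single_ne i) (by
    rw [F.as_sum, map_sum]
    exact Finset.sum_eq_zero fun m hm => hval m _ (hex m hm))
  apply hj
  rw [F.as_sum, map_sum, map_sum]
  refine Finset.sum_eq_zero fun m hm => ?_
  rw [pderiv_monomial]
  by_cases hmj : m j = 0
  · rw [hmj, Nat.cast_zero, mul_zero, monomial_zero, map_zero]
  · refine hval _ _ ?_
    by_contra h1
    push Not at h1
    set m' : Fin (N + 1) →₀ ℕ := m - Finsupp.single j 1 with hm'
    have h4 : ∀ l, m l = m' l + (Finsupp.single j 1 : Fin (N + 1) →₀ ℕ) l := by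
      intro l
      rw [hm', Finsupp.tsub_apply]
      by_cases hl : l = j
      · subst hl
        rw [Finsupp.single_eq_same]
        omega
      · rw [Finsupp.single_eq_of_ne hl]
        omega
    have h2 : m.degree = m' i + 1 := by
      rw [Finsupp.degree_eq_sum, Finset.sum_congr rfl fun l _ => h4 l, Finset.sum_add_distrib]
      congr 1
      · exact Finset.sum_eq_single i (fun l _ hl => h1 l hl) (by simp)
      · rw [← Finsupp.degree_eq_sum, Finsupp.degree_single]
    have h3 := hcon m hm
    have h5 := h4 i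
    rw [hdeg m hm] at h2
    omega

end Pool.Agent.H17R
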