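import Pool.Agent.H17R.Hyp
import Pool.Agent.H17R.Smooth

/-!
# The relation of a smooth hypersurface with few monomials

PROOF.  Enumerate `F.support` by `σ : Fin k ≃ F.support`, `k = F.support.card`, and put
`T i = monomial (σ i) (coeff (σ i) F)`.  For every `l : Fin (N + 1)` choose `m l ∈ F.support` with
`d - 1 ≤ m l l` (`exists_monomial_of_smooth`); the `m l` are different for different `l`, since
`2 (d - 1) > d`; so `2 ≤ N + 1 ≤ k`.  If `σ i = m l` then put `δ i = 1` and
`G i = monomial (m l - Finsupp.single l (d - 1)) (coeff (m l) F)`, a form of degree `1` with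
`T i = X l ^ (d - 1) * G i`.  If `σ i` is not one of the `m l` then `δ i = 0`, `G i = C (coeff (σ i) F)`
and `T i = (∏ j, X j ^ σ i j) * G i`.  `∑ i, δ i = N + 1`.
`subsum`: a partial sum over `S` is in `Ideal.span {F}` only if it is `C c * F` (component of degree
`d`, as in `isRelation_hyp`); compare coefficients: `c = 1` on `S`, `c = 0` outside.
The complement as in `isRelation_compl`.
-/

open MvPolynomial
open Pool.Agent.H17 (PN VanishesAt)
open Pool.Agent.H62.FC (Homog)

noncomputable section

namespace Pool.Agent.H17R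

variable {N : ℕ}

/-- The enumeration of the exponents of the monomials of `F`. -/
private def fewE (F : MvPolynomial (Fin (N + 1)) ℂ) : Fin F.support.card ↪ (Fin (N + 1) →₀ ℕ) :=
  F.support.equivFin.symm.toEmbedding.trans (Function.Embedding.subtype _)

private theorem fewE_mem (F : MvPolynomial (Fin (N + 1)) ℂ) (i : Fin F.support.card) :
    fewE F i ∈ F.support := (F.support.equivFin.symm i).2

private theorem fewE_surj {F : MvPolynomial (Fin (N + 1)) ℂ} {m : Fin (N + 1) →₀ ℕ}
    (hm : m ∈ F.support) : ∃ i, fewE F i = m := by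
  refine ⟨F.support.equivFin ⟨m, hm⟩, ?_⟩
  show ((F.support.equivFin.symm (F.support.equivFin ⟨m, hm⟩) : F.support) :
    Fin (N + 1) →₀ ℕ) = m
  rw [Equiv.symm_apply_apply]

/-- The terms. -/
private def fewT (F : MvPolynomial (Fin (N + 1)) ℂ) (i : Fin F.support.card) :
    MvPolynomial (Fin (N + 1)) ℂ := monomial (fewE F i) (coeff (fewE F i) F)

private theorem few_sum (F : MvPolynomial (Fin (N + 1)) ℂ) : ∑ i, fewT F i = F := by
  classical
  have h1 : Finset.univ.map (fewE F) = F.support := by
    ext m
    rw [Finset.mem_map]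
    constructor
    · rintro ⟨i, -, rfl⟩
      exact fewE_mem F i
    · intro hm
      obtain ⟨i, hi⟩ := fewE_surj hm
      exact ⟨i, Finset.mem_univ i, hi⟩
  conv_rhs => rw [F.as_sum, ← h1, Finset.sum_map]
  rfl

/-- The coefficients of a partial sum. -/
private theorem few_coeff (F : MvPolynomial (Fin (N + 1)) ℂ) (S : Finset (Fin F.support.card))
    (i : Fin F.support.card) : coeff (fewE F i) (∑ j ∈ S, fewT F j) =
      if i ∈ S then coeff (fewE F i) F else 0 := by
  classical
  rw [coeff_sum]
  have h1 : ∀ j ∈ S, coeff (fewE F i) (fewT F j) =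
      if i = j then coeff (fewE F i) F else 0 := by
    intro j _
    unfold fewT
    rw [coeff_monomial]
    by_cases hij : i = j
    · subst hij
      rw [if_pos rfl, if_pos rfl]
    · rw [if_neg hij, if_neg (fun h => hij ((fewE F).injective h).symm)]
  rw [Finset.sum_congr rfl h1, Finset.sum_ite_eq]

private theorem few_locus (F : MvPolynomial (Fin (N + 1)) ℂ) (Y : Set (PN N)) :
    subsumLocus Y (fewT F) = monomialLocus Y F := by
  classical
  ext x
  constructor
  · rintro ⟨hx, S, hS, hS', hv⟩
    refine ⟨hx, S.map (fewE F), ?_, hS.map, ?_⟩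
    · rw [Finset.ssubset_iff_of_subset]
      · obtain ⟨i, hi⟩ : ∃ i, i ∉ S := by
          by_contra h
          push Not at h
          exact hS' (Finset.eq_univ_iff_forall.2 h)
        refine ⟨fewE F i, fewE_mem F i, fun h => ?_⟩
        rw [Finset.mem_map] at h
        obtain ⟨j, hj, hji⟩ := h
        rw [(fewE F).injective hji] at hj
        exact hi hj
      · intro m hm
        rw [Finset.mem_map] at hm
        obtain ⟨j, -, rfl⟩ := hm
        exact fewE_mem F j
    · rw [Finset.sum_map]
      exact hv
  · rintro ⟨hx, S, hS, hS', hv⟩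
    refine ⟨hx, Finset.univ.filter fun i => fewE F i ∈ S, ?_, ?_, ?_⟩
    · obtain ⟨m, hm⟩ := hS'
      obtain ⟨i, hi⟩ := fewE_surj (hS.1 hm)
      exact ⟨i, Finset.mem_filter.2 ⟨Finset.mem_univ i, by rw [hi]; exact hm⟩⟩
    · intro h
      apply hS.2
      intro m hm
      obtain ⟨i, hi⟩ := fewE_surj hm
      have h1 : i ∈ Finset.univ.filter fun i => fewE F i ∈ S := by
        rw [h]
        exact Finset.mem_univ i
      rw [Finset.mem_filter, hi] at h1
      exact h1.2
    · have h1 : (Finset.univ.filter fun i => fewE F i ∈ S).map (fewE F) = S := by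
        ext m
        rw [Finset.mem_map]
        constructor
        · rintro ⟨i, hi, rfl⟩
          exact (Finset.mem_filter.1 hi).2
        · intro hm
          obtain ⟨i, hi⟩ := fewE_surj (hS.1 hm)
          exact ⟨i, Finset.mem_filter.2 ⟨Finset.mem_univ i, by rw [hi]; exact hm⟩, hi⟩
      rw [← h1, Finset.sum_map] at hv
      exact hv

private theorem few_noZero (x : PN N) :
    ∃ j, ¬ VanishesAt (X j : MvPolynomial (Fin (N + 1)) ℂ) x := by
  by_contra h
  push Not at h
  apply x.rep_nonzero
  funext j
  have := h j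
  unfold VanishesAt at this
  rwa [eval_X] at this

/-- A multiple of a form of the same degree. -/
private theorem few_dvd {n : ℕ} {F Q : MvPolynomial (Fin (N + 1)) ℂ} (hF : F.IsHomogeneous n)
    (hQ : Q.IsHomogeneous n) (h : Q ∈ Ideal.span {F}) : ∃ c : ℂ, Q = C c * F := by
  rw [Ideal.mem_span_singleton] at h
  obtain ⟨p, hp⟩ := h
  by_cases hQ0 : Q = 0
  · exact ⟨0, by rw [hQ0, C_0, zero_mul]⟩
  · have hF0 : F ≠ 0 := by
      rintro rfl
      exact hQ0 (by rw [hp, zero_mul])
    have hp0 : p ≠ 0 := by
      rintro rfl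
      exact hQ0 (by rw [hp, mul_zero])
    have h1 := totalDegree_mul_of_isDomain hF0 hp0
    rw [← hp, hQ.totalDegree hQ0, hF.totalDegree hF0] at h1
    have h2 : p.totalDegree = 0 := by omega
    rw [totalDegree_eq_zero_iff_eq_C] at h2
    exact ⟨coeff 0 p, by rw [← h2, mul_comm]; exact hp⟩

private theorem few_prod (m : Fin (N + 1) →₀ ℕ) (c : ℂ) :
    (monomial m c : MvPolynomial (Fin (N + 1)) ℂ) = (∏ j, X j ^ m j) * C c := by
  rw [monomial_eq, Finsupp.prod_fintype _ _ (fun _ => pow_zero _), mul_comm]

private theorem few_single (i : Fin (N + 1)) (e : ℕ) :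
    ∏ j, (X j : MvPolynomial (Fin (N + 1)) ℂ) ^ (Pi.single i e : Fin (N + 1) → ℕ) j = X i ^ e := by
  rw [Finset.prod_eq_single i]
  · rw [Pi.single_eq_same]
  · intro j _ hj
    rw [Pi.single_eq_of_ne hj, pow_zero]
  · intro h
    exact absurd (Finset.mem_univ i) h

theorem exists_relation_few (hN : 1 ≤ N) {d : ℕ} (hd : 3 ≤ d)
    {F : MvPolynomial (Fin (N + 1)) ℂ} (hF : F.IsHomogeneous d) (hs : IsSmooth F) :
    ∃ (T G : Fin F.support.card → MvPolynomial (Fin (N + 1)) ℂ) (δ : Fin F.support.card → ℕ),
      ∑ i, T i = F ∧ (∀ Y, subsumLocus Y T = monomialLocus Y F) ∧ ∑ i, δ i ≤ N + 1 ∧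
      IsRelation (Ideal.span {F}) (Fin.elim0 : Fin 0 → _)
        (X : Fin (N + 1) → MvPolynomial (Fin (N + 1)) ℂ) ∅ T G 1 d δ ∧
      IsRelation (⊥ : Ideal (MvPolynomial (Fin (N + 1)) ℂ)) (fun _ : Fin 1 => F)
        (X : Fin (N + 1) → MvPolynomial (Fin (N + 1)) ℂ) ∅
        (Fin.snoc T (-F) : Fin (F.support.card + 1) → MvPolynomial (Fin (N + 1)) ℂ)
        (Fin.snoc G (-1) : Fin (F.support.card + 1) → MvPolynomial (Fin (N + 1)) ℂ) 1 d
        (Fin.snoc δ 0 : Fin (F.support.card + 1) → ℕ) := by
  classical
  have hex := fun l => exists_monomial_of_smooth (by omega : 2 ≤ d) hF hs l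
  choose m hm hml using hex
  have hdeg : ∀ s ∈ F.support, s.degree = d := fun s hs' =>
    (hF.degree_eq_sum_deg_support hs').symm
  have hinj : Function.Injective m := by
    intro l l' hll
    by_contra hne
    have h1 := hml l
    have h2 := hml l'
    rw [← hll] at h2
    have h3 : (m l) l + (m l) l' ≤ (m l).degree := by
      rw [Finsupp.degree_eq_sum, ← Finset.sum_pair hne]
      exact Finset.sum_le_sum_of_subset (Finset.subset_univ _)
    rw [hdeg _ (hm l)] at h3
    omega
  have hc : ∀ i, coeff (fewE F i) F ≠ 0 := fun i => mem_support_iff.1 (fewE_mem F i)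
  -- the index of the monomial of the coordinate `l`
  have hidx : ∀ l, ∃ i, fewE F i = m l := fun l => fewE_surj (hm l)
  choose a ha using hidx
  have hainj : Function.Injective a := by
    intro l l' h
    apply hinj
    rw [← ha l, ← ha l', h]
  set G : Fin F.support.card → MvPolynomial (Fin (N + 1)) ℂ := fun i =>
    if h : ∃ l, a l = i then
      monomial (fewE F i - Finsupp.single h.choose (d - 1)) (coeff (fewE F i) F)
    else C (coeff (fewE F i) F) with hG
  set δ : Fin F.support.card → ℕ := fun i => if ∃ l, a l = i then 1 else 0 with hδ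
  have hGa : ∀ l, fewT F (a l) = X l ^ (d - 1) * G (a l) ∧ (G (a l)).IsHomogeneous 1 := by
    intro l
    have hex : ∃ l', a l' = a l := ⟨l, rfl⟩
    have h1 : hex.choose = l := hainj hex.choose_spec
    have h2 : G (a l) = monomial (fewE F (a l) - Finsupp.single l (d - 1))
        (coeff (fewE F (a l)) F) := by
      rw [hG]
      simp only
      rw [dif_pos hex, h1]
    have h3 : Finsupp.single l (d - 1) ≤ fewE F (a l) := by
      rw [Finsupp.single_le_iff, ha l]
      exact hml l
    refine ⟨?_, ?_⟩
    · rw [h2, X_pow_eq_monomial, monomial_mul, one_mul, add_tsub_cancel_of_le h3]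
      rfl
    · rw [h2]
      refine isHomogeneous_monomial _ ?_
      have h4 : (fewE F (a l)).degree = d := hdeg _ (fewE_mem F _)
      have h5 : (fewE F (a l)).degree =
          (Finsupp.single l (d - 1) + (fewE F (a l) - Finsupp.single l (d - 1))).degree := by
        rw [add_tsub_cancel_of_le h3]
      rw [map_add, Finsupp.degree_single, h4] at h5
      omega
  have hGn : ∀ i, (¬ ∃ l, a l = i) → G i = C (coeff (fewE F i) F) := by
    intro i hi
    rw [hG]
    simp only
    rw [dif_neg hi]
  have hhomG : ∀ i, (G i).IsHomogeneous (δ i) := by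
    intro i
    by_cases hi : ∃ l, a l = i
    · have h1 : δ i = 1 := by
        rw [hδ]
        simp only
        rw [if_pos hi]
      rw [h1]
      obtain ⟨l, rfl⟩ := hi
      exact (hGa l).2
    · have h1 : δ i = 0 := by
        rw [hδ]
        simp only
        rw [if_neg hi]
      rw [h1, hGn i hi]
      exact isHomogeneous_C _ _
  have hhomT : ∀ i, (fewT F i).IsHomogeneous d := fun i =>
    isHomogeneous_monomial _ (hdeg _ (fewE_mem F i))
  have hfac : ∀ i, ∃ e : Fin (N + 1) → ℕ, fewT F i = (∏ j, X j ^ e j) * G i := by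
    intro i
    by_cases hi : ∃ l, a l = i
    · obtain ⟨l, rfl⟩ := hi
      exact ⟨Pi.single l (d - 1), by rw [few_single]; exact (hGa l).1⟩
    · refine ⟨fewE F i, ?_⟩
      rw [hGn i hi]
      exact few_prod _ _
  have hsδ : ∑ i, δ i ≤ N + 1 := by
    rw [hδ]
    simp only
    rw [← Finset.card_filter]
    have h1 : (Finset.univ.filter fun i => ∃ l, a l = i) ⊆ Finset.univ.image a := by
      intro i hi
      rw [Finset.mem_filter] at hi
      obtain ⟨l, hl⟩ := hi.2
      exact Finset.mem_image.2 ⟨l, Finset.mem_univ l, hl⟩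
    refine (Finset.card_le_card h1).trans (Finset.card_image_le.trans ?_)
    simp
  have hk : 2 ≤ F.support.card := by
    have h1 := Fintype.card_le_of_injective a hainj
    rw [Fintype.card_fin, Fintype.card_fin] at h1
    omega
  refine ⟨fewT F, G, δ, few_sum F, few_locus F, hsδ, ?_, ?_⟩
  · refine ⟨hk, le_rfl, fun j => isHomogeneous_X ℂ j, hhomG, hhomT, fun x _ => few_noZero x,
      fun j hj => absurd hj (Finset.notMem_empty j), ?_, ?_, ?_, ?_⟩
    · intro i
      obtain ⟨e, he⟩ := hfac i
      exact ⟨e, Fin.elim0, by rw [he]; simp⟩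
    · intro j
      exact ⟨a j, d - 1, (hGa j).1⟩
    · rw [few_sum]
      exact Ideal.subset_span rfl
    · intro S hS hS' hmem
      obtain ⟨c, hcc⟩ := few_dvd hF (IsHomogeneous.sum _ _ _ fun i _ => hhomT i) hmem
      obtain ⟨i, hi⟩ := hS
      obtain ⟨i', hi'⟩ : ∃ i', i' ∉ S := by
        by_contra h3
        push Not at h3
        exact hS' (Finset.eq_univ_iff_forall.2 h3)
      have h1 := congrArg (coeff (fewE F i)) hcc
      have h2 := congrArg (coeff (fewE F i')) hcc
      rw [few_coeff, if_pos hi, coeff_C_mul] at h1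
      rw [few_coeff, if_neg hi', coeff_C_mul] at h2
      rcases mul_eq_zero.1 h2.symm with h3 | h3
      · rw [h3, zero_mul] at h1
        exact hc i h1
      · exact hc i' h3
  · refine ⟨by omega, le_rfl, fun j => isHomogeneous_X ℂ j, ?_, ?_, fun x _ => few_noZero x,
      fun j hj => absurd hj (Finset.notMem_empty j), ?_, ?_, ?_, ?_⟩
    · intro i
      refine Fin.lastCases ?_ (fun i => ?_) i
      · rw [Fin.snoc_last, Fin.snoc_last]
        exact (isHomogeneous_one _ _).neg
      · rw [Fin.snoc_castSucc, Fin.snoc_castSucc]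
        exact hhomG i
    · intro i
      refine Fin.lastCases ?_ (fun i => ?_) i
      · rw [Fin.snoc_last]
        exact hF.neg
      · rw [Fin.snoc_castSucc]
        exact hhomT i
    · intro i
      refine Fin.lastCases ?_ (fun i => ?_) i
      · refine ⟨fun _ => 0, fun _ => 1, ?_⟩
        rw [Fin.snoc_last, Fin.snoc_last]
        simp
      · obtain ⟨e, he⟩ := hfac i
        refine ⟨e, fun _ => 0, ?_⟩
        rw [Fin.snoc_castSucc, Fin.snoc_castSucc, he]
        simp
    · intro j
      exact ⟨Fin.castSucc (a j), d - 1, by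
        rw [Fin.snoc_castSucc, Fin.snoc_castSucc]
        exact (hGa j).1⟩
    · rw [Fin.sum_univ_castSucc]
      simp only [Fin.snoc_castSucc, Fin.snoc_last]
      rw [few_sum, add_neg_cancel]
      exact Ideal.zero_mem _
    · intro S hS hS' hmem
      rw [Ideal.mem_bot] at hmem
      have h0 : ∑ i ∈ S, (Fin.snoc (fewT F) (-F) :
          Fin (F.support.card + 1) → MvPolynomial (Fin (N + 1)) ℂ) i =
          (∑ l with Fin.castSucc l ∈ S, fewT F l) +
            (if Fin.last F.support.card ∈ S then -F else 0) := by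
        have h1 : ∑ i ∈ S, (Fin.snoc (fewT F) (-F) :
            Fin (F.support.card + 1) → MvPolynomial (Fin (N + 1)) ℂ) i =
            ∑ i, if i ∈ S then (Fin.snoc (fewT F) (-F) :
              Fin (F.support.card + 1) → MvPolynomial (Fin (N + 1)) ℂ) i else 0 := by
          rw [← Finset.sum_filter, Finset.filter_univ_mem]
        rw [h1, Fin.sum_univ_castSucc, Finset.sum_filter]
        simp only [Fin.snoc_castSucc, Fin.snoc_last]
      rw [h0] at hmem
      have h2 : ∀ i, (if Fin.castSucc i ∈ S then coeff (fewE F i) F else 0) +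
          (if Fin.last F.support.card ∈ S then -coeff (fewE F i) F else 0) = 0 := by
        intro i
        have h3 := congrArg (coeff (fewE F i)) hmem
        rw [coeff_add, few_coeff, coeff_zero] at h3
        refine Eq.trans ?_ h3
        congr 1
        · simp only [Finset.mem_filter, Finset.mem_univ, true_and]
        · split_ifs
          · rw [coeff_neg]
          · rw [coeff_zero]
      by_cases hlast : Fin.last F.support.card ∈ S
      · apply hS'
        refine Finset.eq_univ_iff_forall.2 fun i => ?_
        refine Fin.lastCases hlast (fun l => ?_) i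
        by_contra h3
        have h4 := h2 l
        rw [if_neg h3, if_pos hlast, zero_add, neg_eq_zero] at h4
        exact hc l h4
      · obtain ⟨i, hi⟩ := hS
        revert hi
        refine Fin.lastCases (fun h3 => absurd h3 hlast) (fun l h3 => ?_) i
        have h4 := h2 l
        rw [if_pos h3, if_neg hlast, add_zero] at h4
        exact hc l h4

end Pool.Agent.H17R
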