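import Pool.Agent.H17R.AlgMain
import Pool.Agent.H17R.TrBasis

/-!
# Varieties with a relation are of log general type

PROOF.  `w ≥ 1` gives `i₀` with `coordFun P i₀ ≠ 0` (`Proj.exists_coordFun_ne_zero`, `w = w' + 1`).
All `T i ∉ P` (singletons are proper subsets), so `G i ∉ P`, and `A j ∉ P`: `T i = A j ^ e * G i` with
`e ≥ 1` (if `e = 0` then `d = δ i` by `IsHomogeneous.inj_right` since `T i ≠ 0`, against the
hypothesis on the degree).

Let `R = ∏_{j ∉ O} A j`, `S = ∏ i, G i`, `B = R ^ M * S ^ (M + 1)`, a form of degree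
`D = M * (a * (q - |O|)) + (M + 1) * ∑ δ i < d`, and `g l = gen P i₀ (B * X l' * X i₀ ^ (d - D - 1))`,
where `l : Fin (N + 1)`, and `l = 0` is exchanged with `i₀`.

For a prime divisor `E` choose `i₁` by `exists_center`, and let `ν Q = ord (gen P i₁ Q) ≥ 0` for forms
`Q`.  Some `A j` has `ν (A j) = 0`, and for `T i = A j ^ e * G i` `ν (T i) = ν (G i) ≤ ν S`.  If `E` is
not on the boundary and `ν R > 0` or `ν S > 0` then `ν B ≥ M + ν S ≥ M + ν (T i)`.  If `ν R = ν S = 0`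
then all `A j`, all `H m` and all `G i` are units at the centre.
-/

open MvPolynomial
open Pool.Agent.H17 (PN VanishesAt)
open Pool.Agent.H17GT (coordFun)
open Pool.Agent.H17LG.Variety (FunField ratio OnBoundary IsLogGeneralType)
open Pool.Agent.H23.Fano (PrimeDivisorOver)
open Pool.Agent.H23 (exists_int)
open Pool.Agent.H62.FC (Homog)

noncomputable section

namespace Pool.Agent.H17R

variable {N : ℕ} {P : Ideal (MvPolynomial (Fin (N + 1)) ℂ)} {b q k : ℕ}
  {H : Fin b → MvPolynomial (Fin (N + 1)) ℂ} {A : Fin q → MvPolynomial (Fin (N + 1)) ℂ}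
  {O : Finset (Fin q)} {T G : Fin k → MvPolynomial (Fin (N + 1)) ℂ} {a d : ℕ} {δ : Fin k → ℕ}

private lemma gen_mul [P.IsPrime] (i : Fin (N + 1)) (Q Q' : MvPolynomial (Fin (N + 1)) ℂ) :
    gen P i (Q * Q') = gen P i Q * gen P i Q' := map_mul _ _ _

private lemma gen_pow [P.IsPrime] (i : Fin (N + 1)) (Q : MvPolynomial (Fin (N + 1)) ℂ) (n : ℕ) :
    gen P i (Q ^ n) = gen P i Q ^ n := map_pow _ _ _

private lemma gen_prod [P.IsPrime] (i : Fin (N + 1)) {ι : Type*} (s : Finset ι)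
    (Q : ι → MvPolynomial (Fin (N + 1)) ℂ) : gen P i (∏ j ∈ s, Q j) = ∏ j ∈ s, gen P i (Q j) :=
  map_prod _ _ _

private lemma gen_sum [P.IsPrime] (i : Fin (N + 1)) {ι : Type*} (s : Finset ι)
    (Q : ι → MvPolynomial (Fin (N + 1)) ℂ) : gen P i (∑ j ∈ s, Q j) = ∑ j ∈ s, gen P i (Q j) :=
  map_sum _ _ _

private lemma gen_X [P.IsPrime] (i l : Fin (N + 1)) : gen P i (X l) = ratio P l i := aeval_X _ _

private lemma ord_prod {K : Type*} [Field K] {ι : Type*} (v : AddValuation K (WithTop ℤ))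
    (s : Finset ι) (y : ι → K) (z : ι → ℤ) (h : ∀ i ∈ s, v (y i) = (z i : WithTop ℤ)) :
    v (∏ i ∈ s, y i) = ((∑ i ∈ s, z i : ℤ) : WithTop ℤ) := by
  classical
  induction s using Finset.induction_on with
  | empty => simp
  | insert i s hi ih =>
    rw [Finset.prod_insert hi, Finset.sum_insert hi, v.map_mul, h i (Finset.mem_insert_self _ _),
      ih fun j hj => h j (Finset.mem_insert_of_mem hj)]
    push_cast
    rfl

private lemma ord_pow {K : Type*} [Field K] (v : AddValuation K (WithTop ℤ)) {y : K} {z : ℤ}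
    (h : v y = (z : WithTop ℤ)) (e : ℕ) : v (y ^ e) = ((e * z : ℤ) : WithTop ℤ) := by
  induction e with
  | zero => simp
  | succ e ih =>
    rw [pow_succ, v.map_mul, ih, h, ← WithTop.coe_add]
    congr 1
    push_cast
    ring

/-- The terms of the relation are not zero. -/
theorem T_notMem (hR : IsRelation P H A O T G a d δ) (i : Fin k) : T i ∉ P := by
  have h1 := hR.subsum {i} (Finset.singleton_nonempty i) (by
    intro h
    have h2 := congrArg Finset.card h
    rw [Finset.card_singleton, Finset.card_univ, Fintype.card_fin] at h2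
    have := hR.two_le
    omega)
  simpa using h1

theorem G_notMem (hR : IsRelation P H A O T G a d δ) (i : Fin k) : G i ∉ P := by
  intro h
  obtain ⟨e, f, hef⟩ := hR.factor i
  apply T_notMem hR i
  rw [hef]
  exact Ideal.mul_mem_left _ _ h

theorem A_notMem {M : ℕ} (hR : IsRelation P H A O T G a d δ) (hd : LargeDegree M a d q O δ)
    (j : Fin q) : A j ∉ P := by
  intro h
  obtain ⟨i, e, hi⟩ := hR.power j
  have hT := T_notMem hR i
  rcases Nat.eq_zero_or_pos e with rfl | he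
  · rw [pow_zero, one_mul] at hi
    have hT0 : T i ≠ 0 := fun h0 => hT (by rw [h0]; exact zero_mem _)
    have h1 : d = δ i := (hR.homT i).inj_right (by rw [hi]; exact hR.homG i) hT0
    have h2 : δ i ≤ ∑ i, δ i := Finset.single_le_sum (fun _ _ => Nat.zero_le _) (Finset.mem_univ i)
    unfold LargeDegree at hd
    have h3 : 0 ≤ M * (a * (q - O.card) + ∑ i, δ i) := Nat.zero_le _
    omega
  · apply hT
    rw [hi]
    exact Ideal.mul_mem_right _ _ (Ideal.pow_mem_of_mem P h e he)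

theorem exists_A_notMem [P.IsPrime] (hP : Homog P) (hR : IsRelation P H A O T G a d δ)
    {i₀ : Fin (N + 1)} (hi₀ : X i₀ ∉ P) : ∃ j, A j ∉ P := by
  by_contra hcon
  push Not at hcon
  obtain ⟨m₀, -, h⟩ := exists_degree_bound hP hR.homA hR.noZero
  obtain ⟨c, -, hc⟩ := h m₀ le_rfl (X i₀ ^ m₀) (isHomogeneous_X_pow i₀ m₀)
  have h1 : ∑ j, c j * A j ∈ P := Ideal.sum_mem _ fun j _ => Ideal.mul_mem_left _ _ (hcon j)
  have h2 : X i₀ ^ m₀ ∈ P := by
    have := Ideal.add_mem _ hc h1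
    rwa [sub_add_cancel] at this
  have hpr : P.IsPrime := inferInstance
  exact hi₀ (hpr.mem_of_pow_mem _ h2)

/-- The orders of the forms along a prime divisor, normalised at the centre. -/
private lemma main_ord [P.IsPrime] (hP : Homog P) (hR : IsRelation P H A O T G a d δ)
    {M : ℕ} (hd : LargeDegree M a d q O δ) {w : ℕ} (E : PrimeDivisorOver (FunField P) w)
    {i₁ : Fin (N + 1)} (hi₁ : coordFun P i₁ ≠ 0) (hc : ∀ i, 0 ≤ E.ord (ratio P i i₁))
    (Q : MvPolynomial (Fin (N + 1)) ℂ) :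
    (∃ i, E.ord (gen P i₁ (T i)) ≤ E.ord (gen P i₁
      ((∏ j ∈ Oᶜ, A j) ^ M * (∏ i, G i) ^ (M + 1) * Q))) ∧
    (¬ OnBoundary P H E →
      (∀ Q, ∃ i, E.ord (gen P i₁ (T i)) + (M : WithTop ℤ) ≤ E.ord (gen P i₁
        ((∏ j ∈ Oᶜ, A j) ^ M * (∏ i, G i) ^ (M + 1) * Q))) ∨
      ((∀ i, E.ord (gen P i₁ (T i)) = 0) ∧ ∀ j, E.ord (gen P i₁ (A j)) = 0)) := by
  classical
  have hA0 : ∀ j, gen P i₁ (A j) ≠ 0 := fun j h =>
    A_notMem hR hd j ((gen_eq_zero_iff hi₁ (hR.homA j)).1 h)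
  have hG0 : ∀ i, gen P i₁ (G i) ≠ 0 := fun i h =>
    G_notMem hR i ((gen_eq_zero_iff hi₁ (hR.homG i)).1 h)
  choose α hα using fun j => exists_int E.ord (hA0 j)
  choose γ hγ using fun i => exists_int E.ord (hG0 i)
  have hα0 : ∀ j, 0 ≤ α j := fun j => by
    have := ord_gen_nonneg E hc (A j)
    rw [hα] at this
    exact_mod_cast this
  have hγ0 : ∀ i, 0 ≤ γ i := fun i => by
    have := ord_gen_nonneg E hc (G i)
    rw [hγ] at this
    exact_mod_cast this
  have hα1 : 0 ≤ ∑ j ∈ Oᶜ, α j := Finset.sum_nonneg fun j _ => hα0 j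
  have hγ1 : 0 ≤ ∑ i, γ i := Finset.sum_nonneg fun i _ => hγ0 i
  have hB : ∀ Q, (((M : ℤ) * ∑ j ∈ Oᶜ, α j + ((M + 1 : ℕ) : ℤ) * ∑ i, γ i : ℤ) : WithTop ℤ) ≤
      E.ord (gen P i₁ ((∏ j ∈ Oᶜ, A j) ^ M * (∏ i, G i) ^ (M + 1) * Q)) := by
    intro Q
    rw [gen_mul, gen_mul, gen_pow, gen_pow, gen_prod, gen_prod, E.ord.map_mul, E.ord.map_mul,
      ord_pow E.ord (ord_prod E.ord _ _ α fun j _ => hα j),
      ord_pow E.ord (ord_prod E.ord _ _ γ fun i _ => hγ i), ← WithTop.coe_add]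
    exact le_add_of_nonneg_right (ord_gen_nonneg E hc Q)
  obtain ⟨j, hj⟩ := exists_ord_gen_eq_zero hP hR.homA hR.noZero E hi₁ hc
  obtain ⟨i, e, hi⟩ := hR.power j
  have hTi : E.ord (gen P i₁ (T i)) = (γ i : WithTop ℤ) := by
    have hj' : E.ord (gen P i₁ (A j)) = ((0 : ℤ) : WithTop ℤ) := by rw [hj]; rfl
    rw [hi, gen_mul, gen_pow, E.ord.map_mul, hγ, ord_pow E.ord hj', mul_zero]
    change ((0 : ℤ) : WithTop ℤ) + _ = _
    rw [← WithTop.coe_add, zero_add]
  have hγi : γ i ≤ ∑ i, γ i := Finset.single_le_sum (fun i _ => hγ0 i) (Finset.mem_univ i)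
  have hM0 : (0 : ℤ) ≤ M := Int.natCast_nonneg M
  refine ⟨⟨i, ?_⟩, fun hE => ?_⟩
  · rw [hTi]
    refine le_trans ?_ (hB Q)
    rw [WithTop.coe_le_coe]
    push_cast
    nlinarith [mul_nonneg hM0 hα1, mul_nonneg hM0 hγ1]
  · by_cases h0 : ∑ j ∈ Oᶜ, α j = 0 ∧ ∑ i, γ i = 0
    · right
      obtain ⟨h1, h2⟩ := h0
      have hA1 : ∀ j, E.ord (gen P i₁ (A j)) = 0 := by
        intro j
        by_cases hjO : j ∈ O
        · obtain ⟨m, hm⟩ := hR.unit j hjO
          rw [hm]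
          exact ord_gen_H hE hi₁ hc m
        · have h3 := (Finset.sum_eq_zero_iff_of_nonneg fun j _ => hα0 j).1 h1 j
            (Finset.mem_compl.2 hjO)
          rw [hα, h3]
          rfl
      have hG1 : ∀ i, E.ord (gen P i₁ (G i)) = 0 := by
        intro i
        have h3 := (Finset.sum_eq_zero_iff_of_nonneg fun i _ => hγ0 i).1 h2 i (Finset.mem_univ i)
        rw [hγ, h3]
        rfl
      refine ⟨fun i => ?_, hA1⟩
      obtain ⟨e, f, hef⟩ := hR.factor i
      have h4 : ∀ {n : ℕ} (Y : Fin n → FunField P) (e : Fin n → ℕ), (∀ j, E.ord (Y j) = 0) →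
          E.ord (∏ j, Y j ^ e j) = 0 := by
        intro n Y e hY
        have h5 := ord_prod E.ord Finset.univ (fun j => Y j ^ e j) (fun _ => 0) fun j _ => by
          have h6 : E.ord (Y j) = ((0 : ℤ) : WithTop ℤ) := by rw [hY]; rfl
          rw [ord_pow E.ord h6, mul_zero]
        rw [h5, Finset.sum_const_zero]
        rfl
      rw [hef, gen_mul, gen_mul, gen_prod, gen_prod, E.ord.map_mul, E.ord.map_mul, hG1]
      simp only [gen_pow]
      rw [h4 _ _ hA1, h4 _ _ fun m => ord_gen_H hE hi₁ hc m, add_zero, add_zero]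
    · left
      intro Q
      refine ⟨i, ?_⟩
      rw [hTi]
      refine le_trans ?_ (hB Q)
      have h5 : ((γ i : ℤ) : WithTop ℤ) + (M : WithTop ℤ) = ((γ i + (M : ℤ) : ℤ) : WithTop ℤ) := by
        rw [WithTop.coe_add]
        rfl
      rw [h5, WithTop.coe_le_coe]
      push_cast
      have h6 : 1 ≤ ∑ j ∈ Oᶜ, α j ∨ 1 ≤ ∑ i, γ i := by
        by_contra hcon
        push Not at hcon
        exact h0 ⟨by omega, by omega⟩
      rcases h6 with h6 | h6
      · nlinarith [mul_nonneg hM0 hγ1, mul_le_mul_of_nonneg_left h6 hM0]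
      · nlinarith [mul_nonneg hM0 hα1, mul_le_mul_of_nonneg_left h6 hM0]

theorem logGeneralType_of_relation [P.IsPrime] (hP : Homog P) (hR : IsRelation P H A O T G a d δ)
    {M : ℕ} (hM : LossBound k M) (hd : LargeDegree M a d q O δ) {w : ℕ} (hw : 1 ≤ w)
    (hz : ∃ z : Fin w → FunField P, IsTranscendenceBasis ℂ z) :
    IsLogGeneralType (OnBoundary P H (k := w)) := by
  classical
  have hpr : P.IsPrime := inferInstance
  obtain ⟨i₀, hi₀⟩ : ∃ i₀, coordFun P i₀ ≠ 0 := by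
    obtain ⟨w', rfl⟩ : ∃ w', w = w' + 1 := ⟨w - 1, by omega⟩
    obtain ⟨z, hz'⟩ := hz
    exact Pool.Agent.H92.GT.Proj.exists_coordFun_ne_zero P z hz'
  have hX₀ : X i₀ ∉ P := coordFun_ne_zero_iff.1 hi₀
  have hess : Algebra.EssFiniteType ℂ (FunField P) := H17GT.essFiniteType_functionField P
  obtain ⟨j₀, hj₀⟩ := exists_A_notMem hP hR hX₀
  obtain ⟨J, hJ⟩ := exists_basis_ratios hP hR.one_le hR.homA hR.noZero hi₀ hj₀ hz
  -- the multiplier
  obtain ⟨B, hB⟩ : ∃ B, B = (∏ j ∈ Oᶜ, A j) ^ M * (∏ i, G i) ^ (M + 1) := ⟨_, rfl⟩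
  obtain ⟨D, hD⟩ : ∃ D, D = M * (a * (q - O.card)) + (M + 1) * ∑ i, δ i := ⟨_, rfl⟩
  have hBhom : B.IsHomogeneous D := by
    have h1 : (∏ j ∈ Oᶜ, A j).IsHomogeneous (a * (q - O.card)) := by
      have h2 := IsHomogeneous.prod Oᶜ A (fun _ => a) fun j _ => hR.homA j
      rw [Finset.sum_const, Finset.card_compl, Fintype.card_fin, smul_eq_mul, mul_comm] at h2
      exact h2
    have h3 : (∏ i, G i).IsHomogeneous (∑ i, δ i) :=
      IsHomogeneous.prod Finset.univ G δ fun i _ => hR.homG i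
    rw [hB, hD]
    have h4 := (h1.pow M).mul (h3.pow (M + 1))
    have h5 : a * (q - O.card) * M + (∑ i, δ i) * (M + 1) =
        M * (a * (q - O.card)) + (M + 1) * ∑ i, δ i := by ring
    rw [h5] at h4
    exact h4
  have hDd : D + 1 ≤ d := by
    have h1 : D = M * (a * (q - O.card) + ∑ i, δ i) + ∑ i, δ i := by rw [hD]; ring
    unfold LargeDegree at hd
    omega
  have hBP : B ∉ P := by
    rw [hB]
    intro h
    rcases hpr.mem_or_mem h with h | h
    · obtain ⟨j, -, hj⟩ := hpr.prod_mem_iff.1 (hpr.mem_of_pow_mem _ h)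
      exact A_notMem hR hd j hj
    · obtain ⟨i, -, hi⟩ := hpr.prod_mem_iff.1 (hpr.mem_of_pow_mem _ h)
      exact G_notMem hR i hi
  -- the functions
  obtain ⟨gf, hgf⟩ : ∃ gf : Fin (N + 1) → MvPolynomial (Fin (N + 1)) ℂ,
      gf = fun l => B * (X (Equiv.swap 0 i₀ l) * X i₀ ^ (d - D - 1)) := ⟨_, rfl⟩
  have hgfhom : ∀ l, (gf l).IsHomogeneous d := by
    intro l
    rw [hgf]
    have h1 := hBhom.mul ((isHomogeneous_X ℂ (Equiv.swap 0 i₀ l)).mul
      (isHomogeneous_X_pow (R := ℂ) i₀ (d - D - 1)))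
    have h2 : D + (1 + (d - D - 1)) = d := by omega
    rw [h2] at h1
    exact h1
  have hgf0 : gf 0 ∉ P := by
    rw [hgf]
    intro h
    rcases hpr.mem_or_mem h with h | h
    · exact hBP h
    · rcases hpr.mem_or_mem h with h | h
      · rw [Equiv.swap_apply_left] at h
        exact hX₀ h
      · exact hX₀ (hpr.mem_of_pow_mem _ h)
  have hg0 : gen P i₀ (gf 0) ≠ 0 := fun h => hgf0 ((gen_eq_zero_iff hi₀ (hgfhom 0)).1 h)
  have hquot : ∀ l, gen P i₀ (gf l) / gen P i₀ (gf 0) = ratio P (Equiv.swap 0 i₀ l) i₀ := by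
    intro l
    have hB0 : gen P i₀ B ≠ 0 := fun h => hBP ((gen_eq_zero_iff hi₀ hBhom).1 h)
    have hX0 : gen P i₀ (X i₀) = 1 := by rw [gen_X]; exact ratio_self hi₀
    rw [hgf]
    simp only [gen_mul, gen_pow, hX0, one_pow, mul_one, Equiv.swap_apply_left]
    rw [gen_X, mul_div_cancel_left₀ _ hB0]
  have halg : Algebra.IsAlgebraic (IntermediateField.adjoin ℂ
      (Set.range fun l => gen P i₀ (gf l) / gen P i₀ (gf 0))) (FunField P) := by
    have h1 : IntermediateField.adjoin ℂ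
        (Set.range fun l => gen P i₀ (gf l) / gen P i₀ (gf 0)) = ⊤ := by
      rw [← adjoin_ratio hi₀]
      congr 1
      ext y
      constructor
      · rintro ⟨l, rfl⟩
        exact ⟨Equiv.swap 0 i₀ l, (hquot l).symm⟩
      · rintro ⟨l, rfl⟩
        refine ⟨Equiv.swap 0 i₀ l, ?_⟩
        beta_reduce
        rw [hquot, Equiv.swap_apply_self]
    rw [h1]
    exact ⟨fun g => isAlgebraic_algebraMap (⟨g, IntermediateField.mem_top⟩ :
      (⊤ : IntermediateField ℂ (FunField P)))⟩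
  have hsumhom : ∀ S : Finset (Fin k), (∑ i ∈ S, T i).IsHomogeneous d := fun S =>
    IsHomogeneous.sum _ _ _ fun i _ => hR.homT i
  -- change of the coordinate
  have hchange : ∀ (E : PrimeDivisorOver (FunField P) w) {i₁ : Fin (N + 1)},
      coordFun P i₁ ≠ 0 → ∀ Q, Q.IsHomogeneous d →
      E.ord (gen P i₀ Q) = E.ord (ratio P i₁ i₀ ^ d) + E.ord (gen P i₁ Q) := by
    intro E i₁ hi₁ Q hQ
    rw [gen_change (i₀ := i₀) hi₁ hQ, E.ord.map_mul]
  refine isLogGeneralType_of_relation (K := FunField P) hw (ι := Fin k)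
    (t := fun i => gen P i₀ (T i)) (g := fun l => gen P i₀ (gf l)) (M := M)
    (by rw [Fintype.card_fin]; exact hR.two_le) ?_ ?_ hM.1
    (by rw [Fintype.card_fin]; exact hM.2) hJ hg0 halg ?_ ?_
  · rw [← gen_sum]
    exact (gen_eq_zero_iff hi₀ (hsumhom _)).2 hR.sum
  · intro S hS hSu h
    rw [← gen_sum] at h
    exact hR.subsum S hS hSu ((gen_eq_zero_iff hi₀ (hsumhom _)).1 h)
  · intro E l
    obtain ⟨i₁, hi₁, hc⟩ := exists_center E hi₀
    obtain ⟨⟨i, hi⟩, -⟩ := main_ord hP hR hd E hi₁ hc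
      (X (Equiv.swap 0 i₀ l) * X i₀ ^ (d - D - 1))
    refine ⟨i, ?_⟩
    rw [hchange E hi₁ _ (hR.homT i), hchange E hi₁ _ (hgfhom l), hgf, hB]
    exact add_le_add_right hi _
  · intro E hE
    obtain ⟨i₁, hi₁, hc⟩ := exists_center E hi₀
    rcases (main_ord hP hR hd E hi₁ hc 1).2 hE with h | h
    · left
      intro l
      obtain ⟨i, hi⟩ := h (X (Equiv.swap 0 i₀ l) * X i₀ ^ (d - D - 1))
      refine ⟨i, ?_⟩
      rw [hchange E hi₁ _ (hR.homT i), hchange E hi₁ _ (hgfhom l), hgf, hB, add_assoc]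
      exact add_le_add_right hi _
    · right
      obtain ⟨h1, h2⟩ := h
      refine ⟨fun i i' => ?_, fun i => ?_⟩
      · rw [hchange E hi₁ _ (hR.homT i), hchange E hi₁ _ (hR.homT i'), h1, h1]
      · have hr : ratio P i₁ i₀ ≠ 0 := (ratio_ne_zero_iff hi₀).2 hi₁
        rw [gen_change (i₀ := i₀) hi₁ (hR.homA (J i)), gen_change (i₀ := i₀) hi₁ (hR.homA j₀),
          mul_div_mul_left _ _ (pow_ne_zero _ hr)]
        have h3 : E.ord (gen P i₁ (A (J i)) / gen P i₁ (A j₀)) + E.ord (gen P i₁ (A j₀)) =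
            E.ord (gen P i₁ (A (J i))) := by
          rw [← E.ord.map_mul, div_mul_cancel₀]
          intro h0
          have := h2 j₀
          rw [h0, E.ord.map_zero] at this
          exact absurd this (by simp)
        rw [h2, h2, add_zero] at h3
        exact h3

end Pool.Agent.H17R
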