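import Pool.Agent.H17R.Bound
import Pool.Agent.H17R.Extend
import Pool.Agent.H17R.Brody
import Pool.Agent.H17R.LogGT

/-!
# The general theorem

PROOF.  `Ξ = subsumLocus (openVar P H) T` is closed: it is the set of the points of `openVar P H` at which
the product over all `S` (non-empty, `≠ univ`) of the forms `∑ i ∈ S, T i` vanishes (degree: the product
of forms of degree `d`).  It is not everything by `mem_of_vanishes_openVar`, since this product is not
in the prime ideal `P` (`subsum`); some `X i ∉ P` since `T i ∉ P` is a form of degree `d > 0`.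
(i): `logGeneralType_of_relation`.
(iv): for a homogeneous prime `Q ≥ P` with a point of `openVar Q H` not in `Ξ` the same data satisfy
`IsRelation Q H A O T G a d δ` (`sum`: `P ≤ Q`; `subsum`: evaluate at the point; `noZero`: `Q ≥ P`).
Picard: let `f z₁ ∉ Ξ`.  Then `NonVan f (∑ i ∈ S, T i)` for all `S` (`nonVan_or`), `i₀` with
`(f z₁).rep i₀ ≠ 0`, so `NonVan f (X i₀)`; `height_le` with `R₁ = 1 / 2` and `extend_of_height`.
Brody: `brody_of_picard`.
-/

open MvPolynomial Topology Filter MeasureTheory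
open Pool.Agent.H17 (PN VanishesAt ZariskiClosedIn HolomorphicInto puncturedDisc vanishesAt_mk_iff)
open Pool.Agent.H17LG.Variety (FunField OnBoundary IsLogGeneralType)
open Pool.Agent.H62.FC (Homog)

noncomputable section

namespace Pool.Agent.H17R

variable {N : ℕ} {P : Ideal (MvPolynomial (Fin (N + 1)) ℂ)} {b q k : ℕ}
  {H : Fin b → MvPolynomial (Fin (N + 1)) ℂ} {A : Fin q → MvPolynomial (Fin (N + 1)) ℂ}
  {O : Finset (Fin q)} {T G : Fin k → MvPolynomial (Fin (N + 1)) ℂ} {a d : ℕ} {δ : Fin k → ℕ}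

open Classical in
/-- The product of the proper non-empty partial sums. -/
private def subProd (T : Fin k → MvPolynomial (Fin (N + 1)) ℂ) : MvPolynomial (Fin (N + 1)) ℂ :=
  ∏ S ∈ Finset.univ.filter (fun S : Finset (Fin k) => S.Nonempty ∧ S ≠ Finset.univ), ∑ i ∈ S, T i

private lemma vanishesAt_subProd (T : Fin k → MvPolynomial (Fin (N + 1)) ℂ) (x : PN N) :
    VanishesAt (subProd T) x ↔
      ∃ S : Finset (Fin k), S.Nonempty ∧ S ≠ Finset.univ ∧ VanishesAt (∑ i ∈ S, T i) x := by
  classical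
  unfold VanishesAt subProd
  rw [map_prod, Finset.prod_eq_zero_iff]
  constructor
  · rintro ⟨S, hS, h⟩
    obtain ⟨h1, h2⟩ := (Finset.mem_filter.1 hS).2
    exact ⟨S, h1, h2, h⟩
  · rintro ⟨S, h1, h2, h⟩
    exact ⟨S, Finset.mem_filter.2 ⟨Finset.mem_univ _, h1, h2⟩, h⟩

private lemma subProd_homog (hT : ∀ i, (T i).IsHomogeneous d) :
    ∃ n, (subProd T).IsHomogeneous n := by
  classical
  exact ⟨_, IsHomogeneous.prod _ _ (fun _ => d) fun S _ =>
    IsHomogeneous.sum _ _ _ fun i _ => hT i⟩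

theorem zariskiClosedIn_subsumLocus (Y : Set (PN N)) (hT : ∀ i, (T i).IsHomogeneous d) :
    ZariskiClosedIn Y (subsumLocus Y T) := by
  refine ⟨{subProd T}, ?_, ?_⟩
  · rintro _ rfl
    exact subProd_homog hT
  · ext x
    constructor
    · rintro ⟨h1, h2⟩
      refine ⟨h1, ?_⟩
      rintro _ rfl
      exact (vanishesAt_subProd T x).2 h2
    · rintro ⟨h1, h2⟩
      exact ⟨h1, (vanishesAt_subProd T x).1 (h2 _ rfl)⟩

theorem picard_of_relation (hR : IsRelation P H A O T G a d δ) {M : ℕ} (hM : LossBound k M)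
    (hd : LargeDegree M a d q O δ) {f : ℂ → PN N} (hf : HolomorphicInto f puncturedDisc)
    (hfX : ∀ z ∈ puncturedDisc, f z ∈ openVar P H)
    (hne : ∃ z ∈ puncturedDisc, f z ∉ subsumLocus (openVar P H) T) :
    ∃ g : ℂ → PN N, HolomorphicInto g (Metric.ball 0 1) ∧ ∀ z ∈ puncturedDisc, g z = f z := by
  obtain ⟨z₁, hz₁, hz₁'⟩ := hne
  have h1 : ∀ S : Finset (Fin k), S.Nonempty → S ≠ Finset.univ → NonVan f (∑ i ∈ S, T i) := by
    intro S hS hSu
    have hhom : (∑ i ∈ S, T i).IsHomogeneous d := IsHomogeneous.sum _ _ _ fun i _ => hR.homT i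
    rcases nonVan_or hf hhom with h | h
    · exact absurd ⟨hfX z₁ hz₁, S, hS, hSu, h z₁ hz₁⟩ hz₁'
    · exact h
  obtain ⟨i₀, hi₀⟩ : ∃ i, (f z₁).rep i ≠ 0 := by
    by_contra hcon
    push Not at hcon
    exact (f z₁).rep_nonzero (funext hcon)
  have h2 : NonVan f (X i₀) := by
    rcases nonVan_or hf (isHomogeneous_X ℂ i₀) with h | h
    · exfalso
      apply hi₀
      have h3 : eval (f z₁).rep (X i₀) = 0 := h z₁ hz₁
      rwa [eval_X] at h3
    · exact h
  obtain ⟨C, E, hE, hC⟩ := height_le hR hM hd hf hfX h1 h2 (R₁ := 1 / 2) (by norm_num)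
    (by norm_num)
  exact extend_of_height hf h2 (R₁ := 1 / 2) (by norm_num) (by norm_num) hE hC

/-- The relation restricts to the subvarieties which are not contained in the exceptional set. -/
theorem IsRelation.restrict (hR : IsRelation P H A O T G a d δ)
    {Q : Ideal (MvPolynomial (Fin (N + 1)) ℂ)} (hPQ : P ≤ Q)
    (h : ¬ openVar Q H ⊆ subsumLocus (openVar P H) T) : IsRelation Q H A O T G a d δ := by
  obtain ⟨x, hx, hx'⟩ := Set.not_subset.1 h
  refine ⟨hR.two_le, hR.one_le, hR.homA, hR.homG, hR.homT,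
    fun y hy => hR.noZero y fun R hR' => hy R (hPQ hR'), hR.unit, hR.factor, hR.power,
    hPQ hR.sum, ?_⟩
  intro S hS hSu hmem
  apply hx'
  refine ⟨⟨fun R hR' => hx.1 R (hPQ hR'), hx.2⟩, S, hS, hSu, ?_⟩
  exact hx.1 _ hmem d (IsHomogeneous.sum _ _ _ fun i _ => hR.homT i)

theorem subsumLocus_ne [P.IsPrime] (hP : Homog P) (hH : ∀ m, ∃ n, (H m).IsHomogeneous n)
    (hHP : ∀ m, H m ∉ P) (hR : IsRelation P H A O T G a d δ) {M : ℕ}
    (hd : LargeDegree M a d q O δ) : subsumLocus (openVar P H) T ≠ openVar P H := by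
  classical
  have hpr : P.IsPrime := inferInstance
  intro heq
  have hne : ∃ i, X i ∉ P := by
    by_contra hcon
    push Not at hcon
    have hd0 : 0 < d := by
      unfold LargeDegree at hd
      omega
    have hk : 0 < k := by
      have := hR.two_le
      omega
    apply T_notMem hR ⟨0, hk⟩
    obtain ⟨R, hRdef⟩ : ∃ R, R = T ⟨0, hk⟩ := ⟨_, rfl⟩
    rw [← hRdef]
    have hRhom : R.IsHomogeneous d := by rw [hRdef]; exact hR.homT _
    rw [← R.support_sum_monomial_coeff]
    refine Ideal.sum_mem _ fun m hm => ?_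
    have hm0 : m ≠ 0 := by
      rintro rfl
      have h1 := hRhom (mem_support_iff.1 hm)
      rw [map_zero] at h1
      omega
    obtain ⟨i, hi⟩ := Finsupp.ne_iff.1 hm0
    have hi' : m i ≠ 0 := by simpa using hi
    have h2 : monomial m (coeff m R) = monomial (m - Finsupp.single i 1) (coeff m R) * X i := by
      rw [X, monomial_mul, mul_one]
      rw [tsub_add_cancel_of_le (Finsupp.single_le_iff.2 (Nat.one_le_iff_ne_zero.2 hi'))]
    rw [h2]
    exact Ideal.mul_mem_left _ _ (hcon i)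
  obtain ⟨n, hn⟩ := subProd_homog hR.homT
  have h1 : subProd T ∈ P := by
    refine mem_of_vanishes_openVar hP hH hHP hne hn fun x hx => ?_
    rw [← heq] at hx
    exact (vanishesAt_subProd T x).2 hx.2
  unfold subProd at h1
  obtain ⟨S, hS, h2⟩ := hpr.prod_mem_iff.1 h1
  obtain ⟨h3, h4⟩ := (Finset.mem_filter.1 hS).2
  exact hR.subsum S h3 h4 h2

theorem gglWith_of_relation [P.IsPrime] (hP : Homog P) (hH : ∀ m, ∃ n, (H m).IsHomogeneous n)
    (hHP : ∀ m, H m ∉ P) (hR : IsRelation P H A O T G a d δ) {M : ℕ} (hM : LossBound k M)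
    (hd : LargeDegree M a d q O δ) : GGLWith P H (subsumLocus (openVar P H) T) where
  closed := zariskiClosedIn_subsumLocus _ hR.homT
  ne := subsumLocus_ne hP hH hHP hR hd
  logGeneralType := fun _ hw hz => logGeneralType_of_relation hP hR hM hd hw hz
  picard := fun _ hf hfX hne => picard_of_relation hR hM hd hf hfX hne
  brody := fun _ hf hfX hne z => brody_of_picard (zariskiClosedIn_subsumLocus _ hR.homT)
    (fun _ hf hfX hne => picard_of_relation hR hM hd hf hfX hne) hf hfX hne z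
  strongly := fun _ _ hQ hPQ _ hsub _ hw hz =>
    logGeneralType_of_relation hQ (hR.restrict hPQ hsub) hM hd hw hz

end Pool.Agent.H17R
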