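import Pool.Agent.H17R.Curve
import Pool.Agent.H17R.Bounds
import Pool.Agent.H17R.SupLog
import Pool.Agent.H62.FC.Nev0

/-!
# The height of a holomorphic map at a puncture

`lognorm f i z` is `log (‖x‖ / ‖x i‖)` at `f z` (maximum norm) if `x i ≠ 0`, since the ratio for `l = i`
is `1`.  The height is `T = mean (lognorm f i) + cnt (vord f (X i))`.

PROOFS.  `lognorm_eq`: the maximum of the `posLog ‖x l / x i‖` is the `posLog` of the maximum, and the
maximum is `≥ 1`.  Integrability: as for `G` in `cartan_punctMero` in `Pool.Agent.H62.FC.Cartan`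
(`circleIntegrable_sup`), each `val f i (X l)` is either `MeroPunct 1` or zero on the whole punctured
disc (`nonVan_or`).
`nevT_le_height`: `posLog ‖x l / x i‖ ≤ lognorm f i`, and `- ordZ (val f i (X l)) s =
vord f (X i) s - vord f (X l) s ≤ vord f (X i) s`.
`cnt_vord_eq` is `MeroPunct.jensen` for `val f i Q` with `ordZ_val`, `cnt_add`, `cnt_mul`.
`cnt_vord_le`: in addition `log ‖val f i Q z‖ ≤ n * lognorm f i z + log c` by `exists_upper_bound`
(`mean_le_mean`; the inequality holds at all points with `x i ≠ 0`).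
-/

open MvPolynomial Topology Filter
open Pool.Agent.H92.GGL (ordZ)
open Pool.Agent.H17 (PN VanishesAt HolomorphicInto puncturedDisc vanishesAt_mk_iff)
open Pool.Agent.H62.FC (MeroPunct LocFin cnt mean nevT)

noncomputable section

namespace Pool.Agent.H17R

variable {N : ℕ}

/-- The logarithm of the norm in the affine coordinates `x l / x i`, along `f`. -/
def lognorm (f : ℂ → PN N) (i : Fin (N + 1)) (z : ℂ) : ℝ :=
  Finset.univ.sup' Finset.univ_nonempty fun l => Real.posLog ‖(f z).rep l / (f z).rep i‖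

/-- The height of `f` at the puncture. -/
def height (f : ℂ → PN N) (i : Fin (N + 1)) (R₁ x : ℝ) : ℝ :=
  mean (lognorm f i) x + cnt (fun s => (vord f (X i) s : ℝ)) R₁ (Real.exp (-x))

variable {f : ℂ → PN N} {Q Q' : MvPolynomial (Fin (N + 1)) ℂ} {n n' : ℕ} {i : Fin (N + 1)}

private theorem vanishesAt_X {z : ℂ} {l : Fin (N + 1)} :
    VanishesAt (X l) (f z) ↔ (f z).rep l = 0 := by
  unfold VanishesAt
  rw [eval_X]

private theorem val_X {z : ℂ} {l : Fin (N + 1)} :
    val f i (X l) z = (f z).rep l / (f z).rep i := by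
  unfold val
  rw [eval_X]

theorem lognorm_nonneg (z : ℂ) : 0 ≤ lognorm f i z :=
  le_trans Real.posLog_nonneg
    (Finset.le_sup' (fun l => Real.posLog ‖(f z).rep l / (f z).rep i‖) (Finset.mem_univ i))

theorem lognorm_eq {z : ℂ} (h : (f z).rep i ≠ 0) :
    lognorm f i z = Real.log (‖(f z).rep‖ / ‖(f z).rep i‖) := by
  have h0 : 0 < ‖(f z).rep i‖ := norm_pos_iff.2 h
  have h1 : 1 ≤ ‖(f z).rep‖ / ‖(f z).rep i‖ := by
    rw [one_le_div h0]
    exact norm_le_pi_norm _ i
  refine le_antisymm (Finset.sup'_le _ _ fun l _ => ?_) ?_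
  · rw [Real.posLog_apply]
    refine max_le (Real.log_nonneg h1) ?_
    by_cases hl : (f z).rep l = 0
    · rw [hl, zero_div, norm_zero, Real.log_zero]
      exact Real.log_nonneg h1
    · rw [norm_div]
      refine Real.log_le_log (div_pos (norm_pos_iff.2 hl) h0) ?_
      exact div_le_div_of_nonneg_right (norm_le_pi_norm _ l) h0.le
  · obtain ⟨l, -, hl⟩ := Finset.exists_max_image Finset.univ (fun l => ‖(f z).rep l‖)
      Finset.univ_nonempty
    have h2 : ‖(f z).rep‖ = ‖(f z).rep l‖ := by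
      refine le_antisymm ?_ (norm_le_pi_norm _ l)
      exact (pi_norm_le_iff_of_nonneg (norm_nonneg _)).2 fun j => hl j (Finset.mem_univ j)
    refine le_trans ?_
      (Finset.le_sup' (fun l => Real.posLog ‖(f z).rep l / (f z).rep i‖) (Finset.mem_univ l))
    rw [h2, ← norm_div]
    exact le_max_right _ _

private theorem circleIntegrable_sup {f g : ℂ → ℝ} {c : ℂ} {R : ℝ} (hf : CircleIntegrable f c R)
    (hg : CircleIntegrable g c R) : CircleIntegrable (f ⊔ g) c R := by
  have h : f ⊔ g = (1 / 2 : ℝ) • (f + g + |g - f|) := by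
    funext z
    simp only [Pi.sup_apply, Pi.smul_apply, Pi.add_apply, Pi.abs_apply, Pi.sub_apply, smul_eq_mul]
    rw [max_def]
    split_ifs with h1
    · rw [abs_of_nonneg (by linarith)]
      ring
    · rw [abs_of_nonpos (by linarith)]
      ring
  rw [h]
  exact ((hf.add hg).add (hg.sub hf).abs).const_smul

private theorem mem_pd {z : ℂ} (h0 : 0 < ‖z‖) (h1 : ‖z‖ < 1) : z ∈ puncturedDisc :=
  ⟨mem_ball_zero_iff.2 h1, fun h => (norm_pos_iff.1 h0) h⟩

private theorem sphere_mem {x : ℝ} (hx : Real.exp (-x) < 1) {z : ℂ}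
    (hz : z ∈ Metric.sphere (0 : ℂ) |Real.exp (-x)|) : z ∈ puncturedDisc := by
  rw [mem_sphere_zero_iff_norm, abs_of_pos (Real.exp_pos _)] at hz
  exact mem_pd (by rw [hz]; exact Real.exp_pos _) (by rw [hz]; exact hx)

private theorem circleIntegrable_posLog_val (hf : HolomorphicInto f puncturedDisc)
    (hi : NonVan f (X i)) {x : ℝ} (hx : Real.exp (-x) < 1) (l : Fin (N + 1)) :
    CircleIntegrable (fun z => Real.posLog ‖(f z).rep l / (f z).rep i‖) 0 (Real.exp (-x)) := by
  rcases nonVan_or hf (isHomogeneous_X ℂ l) with h | h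
  · have h0 : CircleIntegrable (fun _ => (0 : ℝ)) (0 : ℂ) (Real.exp (-x)) :=
      circleIntegrable_const (0 : ℝ) 0 _
    refine IntervalIntegrable.congr (fun θ _ => ?_) h0
    have h2 := vanishesAt_X.1 (h (circleMap 0 (Real.exp (-x)) θ)
      (sphere_mem hx (circleMap_mem_sphere' 0 _ θ)))
    show 0 = Real.posLog ‖(f (circleMap 0 (Real.exp (-x)) θ)).rep l /
      (f (circleMap 0 (Real.exp (-x)) θ)).rep i‖
    rw [h2, zero_div, norm_zero, Real.posLog_zero]
  · have h1 := (val_meroPunct hf (isHomogeneous_X ℂ l) h hi).circleIntegrable_posLog hx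
    have h2 : (fun z => Real.posLog ‖val f i (X l) z‖) =
        fun z => Real.posLog ‖(f z).rep l / (f z).rep i‖ := by
      funext z
      rw [val_X]
    rwa [h2] at h1

theorem circleIntegrable_lognorm (hf : HolomorphicInto f puncturedDisc) (hi : NonVan f (X i))
    {x : ℝ} (hx : Real.exp (-x) < 1) : CircleIntegrable (lognorm f i) 0 (Real.exp (-x)) := by
  have h := Finset.sup'_induction (Finset.univ_nonempty (α := Fin (N + 1)))
    (fun l => fun z => Real.posLog ‖(f z).rep l / (f z).rep i‖)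
    (p := fun f : ℂ → ℝ => CircleIntegrable f 0 (Real.exp (-x)))
    (fun f hf g hg => circleIntegrable_sup hf hg)
    (fun l _ => circleIntegrable_posLog_val hf hi hx l)
  have e : lognorm f i = Finset.univ.sup' (Finset.univ_nonempty (α := Fin (N + 1)))
      (fun l => fun z => Real.posLog ‖(f z).rep l / (f z).rep i‖) := by
    funext z
    unfold lognorm
    rw [Finset.sup'_apply]
  rw [e]
  exact h

theorem height_nonneg (hf : HolomorphicInto f puncturedDisc) (hi : NonVan f (X i)) {R₁ x : ℝ}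
    (h : R₁ < 1) (hx : Real.exp (-x) < R₁) : 0 ≤ height f i R₁ x := by
  unfold height mean
  refine add_nonneg (Real.circleAverage_nonneg_of_nonneg fun z _ => lognorm_nonneg z)
    (Pool.Agent.H62.FC.cnt_nonneg (Real.exp_pos _) fun s => ?_)
  exact_mod_cast vord_nonneg f (X i) s

private theorem locFin_comp {R₀ : ℝ} {w : ℂ → ℝ} (hw : LocFin R₀ w) {g : ℝ → ℝ} (hg : g 0 = 0) :
    LocFin R₀ (fun s => g (w s)) := by
  intro r b hr hb
  refine (hw r b hr hb).subset ?_
  rintro s ⟨h1, h2, h3⟩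
  refine ⟨h1, h2, fun h => h3 ?_⟩
  change g (w s) = 0
  rw [h, hg]

private theorem cnt_congr {R₁ : ℝ} {w w' : ℂ → ℝ} {r : ℝ}
    (hle : ∀ s, r < ‖s‖ → ‖s‖ < R₁ → w s = w' s) : cnt w R₁ r = cnt w' R₁ r := by
  unfold cnt
  refine finsum_congr fun s => finsum_congr fun hs => ?_
  rw [hle s hs.1 hs.2]

theorem nevT_le_height (hf : HolomorphicInto f puncturedDisc) (hi : NonVan f (X i))
    {l : Fin (N + 1)} (hl : NonVan f (X l)) {R₁ : ℝ} (h1 : 0 < R₁) (h : R₁ < 1) {x : ℝ}
    (hx : Real.exp (-x) < R₁) : nevT (val f i (X l)) R₁ x ≤ height f i R₁ x := by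
  have hx1 : Real.exp (-x) < 1 := hx.trans h
  have hm := val_meroPunct hf (isHomogeneous_X ℂ l) hl hi
  unfold nevT height
  refine add_le_add ?_ ?_
  · unfold mean
    refine Real.circleAverage_mono (hm.circleIntegrable_posLog hx1)
      (circleIntegrable_lognorm hf hi hx1) fun z _ => ?_
    show Real.posLog ‖val f i (X l) z‖ ≤ lognorm f i z
    rw [val_X]
    exact Finset.le_sup' (fun l => Real.posLog ‖(f z).rep l / (f z).rep i‖) (Finset.mem_univ l)
  · refine Pool.Agent.H62.FC.cnt_mono h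
      (locFin_comp (g := fun t => max (-t) 0) hm.locFin (by simp))
      (locFin_vord hf (isHomogeneous_X ℂ i) hi) (Real.exp_pos _) fun s hs1 hs2 => ?_
    have hs : s ∈ puncturedDisc := mem_pd ((Real.exp_pos _).trans hs1) (hs2.trans h)
    have h3 := ordZ_val hf (isHomogeneous_X ℂ l) hl hi hs
    have h4 := vord_nonneg f (X i) s
    have h5 := vord_nonneg f (X l) s
    have h6 : -(ordZ (val f i (X l)) s) ≤ vord f (X i) s := by
      rw [h3]
      push_cast
      linarith
    refine max_le ?_ (by exact_mod_cast h4)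
    exact_mod_cast h6

/-- Jensen's formula. -/
theorem cnt_vord_eq (hf : HolomorphicInto f puncturedDisc) (hi : NonVan f (X i))
    (hQ : Q.IsHomogeneous n) (h : NonVan f Q) {R₁ : ℝ} (h1 : 0 < R₁) (h2 : R₁ < 1) :
    ∃ A B : ℝ, ∀ x, Real.exp (-x) < R₁ →
      cnt (fun s => (vord f Q s : ℝ)) R₁ (Real.exp (-x)) =
        mean (fun z => Real.log ‖val f i Q z‖) x +
          n * cnt (fun s => (vord f (X i) s : ℝ)) R₁ (Real.exp (-x)) + (A + B * x) := by
  have hm := val_meroPunct hf hQ h hi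
  obtain ⟨A, B, hAB⟩ := hm.jensen h1 h2
  refine ⟨-A, -B, fun x hx => ?_⟩
  have hr : 0 < Real.exp (-x) := Real.exp_pos _
  have hlX := locFin_vord hf (isHomogeneous_X ℂ i) hi
  have h3 : cnt (fun s => (vord f Q s : ℝ)) R₁ (Real.exp (-x)) =
      cnt (fun s => (ordZ (val f i Q) s : ℝ) + (n : ℝ) * (vord f (X i) s : ℝ)) R₁
        (Real.exp (-x)) := by
    refine cnt_congr fun s hs1 hs2 => ?_
    have hs : s ∈ puncturedDisc := mem_pd (hr.trans hs1) (hs2.trans h2)
    rw [ordZ_val hf hQ h hi hs]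
    push_cast
    ring
  rw [h3, Pool.Agent.H62.FC.cnt_add h2 hm.locFin
    (locFin_comp (g := fun t => (n : ℝ) * t) hlX (mul_zero _)) hr,
    Pool.Agent.H62.FC.cnt_mul _ h2 hlX hr, hAB x hx]
  ring

/-- The first main theorem. -/
theorem cnt_vord_le (hf : HolomorphicInto f puncturedDisc) (hi : NonVan f (X i))
    (hQ : Q.IsHomogeneous n) (h : NonVan f Q) {R₁ : ℝ} (h1 : 0 < R₁) (h2 : R₁ < 1) :
    ∃ C : ℝ, ∀ x, Real.exp (-x) < R₁ →
      cnt (fun s => (vord f Q s : ℝ)) R₁ (Real.exp (-x)) ≤ n * height f i R₁ x + C * (1 + |x|) := by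
  obtain ⟨A, B, hAB⟩ := cnt_vord_eq (i := i) hf hi hQ h h1 h2
  obtain ⟨c, hc1, hc⟩ := exists_upper_bound hQ
  refine ⟨|A| + |B| + Real.log c, fun x hx => ?_⟩
  have hx1 : Real.exp (-x) < 1 := hx.trans h2
  have hm := val_meroPunct hf hQ h hi
  have hI := circleIntegrable_lognorm hf hi hx1
  have hIn : CircleIntegrable (fun z => (n : ℝ) * lognorm f i z) 0 (Real.exp (-x)) :=
    hI.const_smul (a := (n : ℝ))
  have hlc : 0 ≤ Real.log c := Real.log_nonneg hc1
  have h3 : mean (fun z => Real.log ‖val f i Q z‖) x ≤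
      mean (fun z => (n : ℝ) * lognorm f i z + Real.log c) x := by
    refine mean_le_mean (hm.circleIntegrable_log hx1)
      (hIn.add (circleIntegrable_const (Real.log c) 0 _)) fun z hz => ?_
    have hzd : z ∈ puncturedDisc :=
      mem_pd (by rw [hz]; exact Real.exp_pos _) (by rw [hz]; exact hx1)
    filter_upwards [hi z hzd] with ζ hζ
    rw [vanishesAt_X] at hζ
    have h4 : 0 < ‖(f ζ).rep i‖ := norm_pos_iff.2 hζ
    have h5 : 0 ≤ lognorm f i ζ := lognorm_nonneg ζ
    by_cases h6 : val f i Q ζ = 0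
    · rw [h6, norm_zero, Real.log_zero]
      positivity
    · have h7 : ‖val f i Q ζ‖ ≤ c * (‖(f ζ).rep‖ / ‖(f ζ).rep i‖) ^ n := by
        rw [val_eq hQ hζ, norm_div, norm_pow, div_pow, ← mul_div_assoc]
        exact div_le_div_of_nonneg_right (hc _) (by positivity)
      have h8 : 0 < ‖(f ζ).rep‖ := lt_of_lt_of_le h4 (norm_le_pi_norm _ i)
      have h9 : 0 < ‖(f ζ).rep‖ / ‖(f ζ).rep i‖ := div_pos h8 h4
      have h10 := Real.log_le_log (norm_pos_iff.2 h6) h7
      rw [Real.log_mul (by linarith) (pow_ne_zero _ h9.ne'), Real.log_pow, ← lognorm_eq hζ] at h10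
      linarith
  have h4 : mean (fun z => (n : ℝ) * lognorm f i z + Real.log c) x =
      n * mean (lognorm f i) x + Real.log c := by
    unfold mean
    rw [Real.circleAverage_fun_add hIn (circleIntegrable_const (Real.log c) 0 _),
      Real.circleAverage_const]
    congr 1
    exact Real.circleAverage_smul (a := (n : ℝ)) (f := lognorm f i)
  rw [hAB x hx]
  unfold height
  have h5 : A + B * x ≤ |A| + |B| * |x| := by
    have h6 := le_abs_self A
    have h7 := le_abs_self (B * x)
    rw [abs_mul] at h7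
    linarith
  have h6 := abs_nonneg A
  have h7 := abs_nonneg B
  have h8 := abs_nonneg x
  have h9 : 0 ≤ |A| * |x| := mul_nonneg h6 h8
  have h10 : 0 ≤ Real.log c * |x| := mul_nonneg hlc h8
  rw [h4] at h3
  nlinarith

end Pool.Agent.H17R
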