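import Pool.Agent.H17R.Defs

/-!
# The relation of a hypersurface `∑ X l ^ e * G l = 0` and of its complement

PROOF of `eq_zero_of_sum`.  Compare the coefficients at an exponent `m` with `|m| = e + δ`,
`m l ≥ e`: if `l' ≠ l` then `X l' ^ e * G l'` has no such monomial, since `m l' ≥ e` would give
`|m| ≥ 2 e > e + δ`.  (`coeff_X_pow_mul'` or `coeff_monomial_mul'`.)

PROOF of `isRelation_hyp`.  `F = ∑ l, X l ^ e * G l ≠ 0` by `eq_zero_of_sum`.  If
`∑ l ∈ S, X l ^ e * G l = F * p` then the component of degree `e + δ` gives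
`∑ l ∈ S, X l ^ e * G l = F * C c`, `c` the constant coefficient of `p`, so
`∑ l, X l ^ e * (ε l • G l) = 0` with `ε l = 1 - c` for `l ∈ S`, `- c` otherwise, and
`eq_zero_of_sum` gives `1 - c = 0` and `- c = 0`.  The coordinates `A = X` have no common zero
(`x.rep_nonzero`); `T i = X i ^ e * G i` (`factor` with `Pi.single i e`).

PROOF of `isRelation_compl`.  `P = ⊥`, `T = Fin.snoc (X l ^ e * G l) (-F)`, and the last term is
`H 0 * (-1)`.  A proper subsum: if the last index is not in `S` it is `∑ l ∈ S', X l ^ e * G l ≠ 0`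
(`eq_zero_of_sum`); otherwise it is minus the complementary sum, which is not empty.
-/

open MvPolynomial
open Pool.Agent.H17 (PN VanishesAt)
open Pool.Agent.H62.FC (Homog)

noncomputable section

namespace Pool.Agent.H17R

variable {N : ℕ}

theorem eq_zero_of_sum {δ e : ℕ} (hδ : δ < e) {G : Fin (N + 1) → MvPolynomial (Fin (N + 1)) ℂ}
    (hG : ∀ l, (G l).IsHomogeneous δ) (h : ∑ l, X l ^ e * G l = 0) (l : Fin (N + 1)) :
    G l = 0 := by
  classical
  ext m
  rw [coeff_zero]
  by_cases hm : m.degree = δ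
  · have h1 := congrArg (coeff (Finsupp.single l e + m)) h
    rw [coeff_sum, coeff_zero, Finset.sum_eq_single l] at h1
    · rw [X_pow_eq_monomial, coeff_monomial_mul, one_mul] at h1
      exact h1
    · intro l' _ hl'
      rw [X_pow_eq_monomial, coeff_monomial_mul', if_neg]
      rw [Finsupp.single_le_iff, Finsupp.add_apply, Finsupp.single_eq_of_ne hl', zero_add]
      have h2 : m l' ≤ m.degree := by
        rw [Finsupp.degree_eq_sum]
        exact Finset.single_le_sum (fun _ _ => Nat.zero_le _) (Finset.mem_univ l')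
      omega
    · intro h2
      exact absurd (Finset.mem_univ l) h2
  · exact (hG l).coeff_eq_zero hm

/-- A multiple of a form of the same degree. -/
private theorem hyp_dvd {n : ℕ} {F Q : MvPolynomial (Fin (N + 1)) ℂ} (hF : F.IsHomogeneous n)
    (hQ : Q.IsHomogeneous n) (h : Q ∈ Ideal.span {F}) : ∃ c : ℂ, Q = C c * F := by
  rw [Ideal.mem_span_singleton] at h
  obtain ⟨p, hp⟩ := h
  by_cases hQ0 : Q = 0
  · exact ⟨0, by rw [hQ0, C_0, zero_mul]⟩
  · have hF0 : F ≠ 0 := by
      rintro rfl
      exact hQ0 (by rw [hp, zero_mul])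
    have hp0 : p ≠ 0 := by
      rintro rfl
      exact hQ0 (by rw [hp, mul_zero])
    have h1 := totalDegree_mul_of_isDomain hF0 hp0
    rw [← hp, hQ.totalDegree hQ0, hF.totalDegree hF0] at h1
    have h2 : p.totalDegree = 0 := by omega
    rw [totalDegree_eq_zero_iff_eq_C] at h2
    exact ⟨coeff 0 p, by rw [← h2, mul_comm]; exact hp⟩

/-- The sum of some of the terms. -/
private theorem hyp_part {e : ℕ} (G : Fin (N + 1) → MvPolynomial (Fin (N + 1)) ℂ)
    (S : Finset (Fin (N + 1))) :
    ∑ l ∈ S, X l ^ e * G l = ∑ l, X l ^ e * (if l ∈ S then G l else 0) := by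
  have h1 : ∀ l, (X l ^ e * (if l ∈ S then G l else 0) : MvPolynomial (Fin (N + 1)) ℂ) =
      if l ∈ S then X l ^ e * G l else 0 := by
    intro l
    split_ifs
    · rfl
    · rw [mul_zero]
  rw [Finset.sum_congr rfl fun l _ => h1 l, ← Finset.sum_filter, Finset.filter_univ_mem]

private theorem hyp_snoc {k : ℕ} (T : Fin k → MvPolynomial (Fin (N + 1)) ℂ)
    (t : MvPolynomial (Fin (N + 1)) ℂ) (S : Finset (Fin (k + 1))) :
    ∑ i ∈ S, (Fin.snoc T t : Fin (k + 1) → MvPolynomial (Fin (N + 1)) ℂ) i =
      (∑ l, if Fin.castSucc l ∈ S then T l else 0) + (if Fin.last k ∈ S then t else 0) := by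
  have h1 : ∑ i ∈ S, (Fin.snoc T t : Fin (k + 1) → MvPolynomial (Fin (N + 1)) ℂ) i =
      ∑ i, if i ∈ S then (Fin.snoc T t : Fin (k + 1) → MvPolynomial (Fin (N + 1)) ℂ) i else 0 := by
    rw [← Finset.sum_filter, Finset.filter_univ_mem]
  rw [h1, Fin.sum_univ_castSucc]
  simp only [Fin.snoc_castSucc, Fin.snoc_last]

private theorem hyp_homF {δ e : ℕ} {G : Fin (N + 1) → MvPolynomial (Fin (N + 1)) ℂ}
    (hG : ∀ l, (G l).IsHomogeneous δ) (S : Finset (Fin (N + 1))) :
    (∑ l ∈ S, X l ^ e * G l).IsHomogeneous (e + δ) := by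
  refine IsHomogeneous.sum _ _ _ fun l _ => ?_
  exact (isHomogeneous_X_pow l e).mul (hG l)

private theorem hyp_noZero (x : PN N) : ∃ j, ¬ VanishesAt (X j : MvPolynomial (Fin (N + 1)) ℂ) x := by
  by_contra h
  push Not at h
  apply x.rep_nonzero
  funext j
  have := h j
  unfold VanishesAt at this
  rwa [eval_X] at this

private theorem hyp_single (i : Fin (N + 1)) (e : ℕ) :
    ∏ j, (X j : MvPolynomial (Fin (N + 1)) ℂ) ^ (Pi.single i e : Fin (N + 1) → ℕ) j = X i ^ e := by
  rw [Finset.prod_eq_single i]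
  · rw [Pi.single_eq_same]
  · intro j _ hj
    rw [Pi.single_eq_of_ne hj, pow_zero]
  · intro h
    exact absurd (Finset.mem_univ i) h

theorem isRelation_hyp (hN : 1 ≤ N) {δ e : ℕ} (hδ : δ < e)
    {G : Fin (N + 1) → MvPolynomial (Fin (N + 1)) ℂ} (hG : ∀ l, (G l).IsHomogeneous δ)
    (hG0 : ∀ l, G l ≠ 0) :
    IsRelation (Ideal.span {∑ l, X l ^ e * G l}) (Fin.elim0 : Fin 0 → _)
      (X : Fin (N + 1) → MvPolynomial (Fin (N + 1)) ℂ) ∅ (fun l => X l ^ e * G l) G 1 (e + δ)
      (fun _ => δ) where
  two_le := by omega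
  one_le := le_rfl
  homA := fun j => isHomogeneous_X ℂ j
  homG := hG
  homT := fun i => (isHomogeneous_X_pow i e).mul (hG i)
  noZero := fun x _ => hyp_noZero x
  unit := fun j hj => absurd hj (Finset.notMem_empty j)
  factor := fun i => ⟨Pi.single i e, Fin.elim0, by
    rw [hyp_single]
    simp⟩
  power := fun j => ⟨j, e, rfl⟩
  sum := Ideal.subset_span rfl
  subsum := by
    classical
    intro S hS hS' hmem
    obtain ⟨c, hc⟩ := hyp_dvd (hyp_homF hG Finset.univ) (hyp_homF hG S) hmem
    have h1 : ∑ l, X l ^ e * ((if l ∈ S then G l else 0) - C c * G l) = 0 := by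
      simp only [mul_sub]
      rw [Finset.sum_sub_distrib, ← hyp_part, hc, Finset.mul_sum, sub_eq_zero]
      exact Finset.sum_congr rfl fun l _ => by ring
    have h2 := eq_zero_of_sum hδ (G := fun l => (if l ∈ S then G l else 0) - C c * G l)
      (fun l => by
        refine IsHomogeneous.sub ?_ ((hG l).C_mul c)
        split_ifs
        · exact hG l
        · exact isHomogeneous_zero _ _ _) h1
    obtain ⟨l, hl⟩ := hS
    obtain ⟨l', hl'⟩ : ∃ l', l' ∉ S := by
      by_contra h3
      push Not at h3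
      exact hS' (Finset.eq_univ_iff_forall.2 h3)
    have h3 : (if l ∈ S then G l else 0) - C c * G l = 0 := h2 l
    have h4 : (if l' ∈ S then G l' else 0) - C c * G l' = 0 := h2 l'
    rw [if_pos hl] at h3
    rw [if_neg hl', zero_sub, neg_eq_zero] at h4
    have hc0 : c = 0 := by
      rcases mul_eq_zero.1 h4 with h5 | h5
      · exact C_eq_zero.1 h5
      · exact absurd h5 (hG0 l')
    rw [hc0, C_0, zero_mul, sub_zero] at h3
    exact hG0 l h3

theorem isRelation_compl (hN : 1 ≤ N) {δ e : ℕ} (hδ : δ < e)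
    {G : Fin (N + 1) → MvPolynomial (Fin (N + 1)) ℂ} (hG : ∀ l, (G l).IsHomogeneous δ)
    (hG0 : ∀ l, G l ≠ 0) :
    IsRelation (⊥ : Ideal (MvPolynomial (Fin (N + 1)) ℂ)) (fun _ : Fin 1 => ∑ l, X l ^ e * G l)
      (X : Fin (N + 1) → MvPolynomial (Fin (N + 1)) ℂ) ∅
      (Fin.snoc (fun l => X l ^ e * G l) (-∑ l, X l ^ e * G l) :
        Fin (N + 1 + 1) → MvPolynomial (Fin (N + 1)) ℂ)
      (Fin.snoc G (-1) : Fin (N + 1 + 1) → MvPolynomial (Fin (N + 1)) ℂ) 1 (e + δ)
      (Fin.snoc (fun _ => δ) 0 : Fin (N + 1 + 1) → ℕ) where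
  two_le := by omega
  one_le := le_rfl
  homA := fun j => isHomogeneous_X ℂ j
  homG := fun i => by
    refine Fin.lastCases ?_ (fun i => ?_) i
    · rw [Fin.snoc_last, Fin.snoc_last]
      exact (isHomogeneous_one _ _).neg
    · rw [Fin.snoc_castSucc, Fin.snoc_castSucc]
      exact hG i
  homT := fun i => by
    refine Fin.lastCases ?_ (fun i => ?_) i
    · rw [Fin.snoc_last]
      exact (hyp_homF hG Finset.univ).neg
    · rw [Fin.snoc_castSucc]
      exact (isHomogeneous_X_pow i e).mul (hG i)
  noZero := fun x _ => hyp_noZero x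
  unit := fun j hj => absurd hj (Finset.notMem_empty j)
  factor := fun i => by
    refine Fin.lastCases ?_ (fun i => ?_) i
    · refine ⟨fun _ => 0, fun _ => 1, ?_⟩
      rw [Fin.snoc_last, Fin.snoc_last]
      simp
    · refine ⟨Pi.single i e, fun _ => 0, ?_⟩
      rw [Fin.snoc_castSucc, Fin.snoc_castSucc, hyp_single]
      simp
  power := fun j => ⟨Fin.castSucc j, e, by rw [Fin.snoc_castSucc, Fin.snoc_castSucc]⟩
  sum := by
    rw [Fin.sum_univ_castSucc]
    simp only [Fin.snoc_castSucc, Fin.snoc_last]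
    rw [add_neg_cancel]
    exact Ideal.zero_mem _
  subsum := by
    classical
    intro S hS hS' hmem
    rw [Ideal.mem_bot] at hmem
    have h0 : ∑ i ∈ S, (Fin.snoc (fun l => X l ^ e * G l) (-∑ l, X l ^ e * G l) :
        Fin (N + 1 + 1) → MvPolynomial (Fin (N + 1)) ℂ) i =
        ∑ l, X l ^ e * ((if Fin.castSucc l ∈ S then G l else 0) -
          (if Fin.last (N + 1) ∈ S then G l else 0)) := by
      rw [hyp_snoc]
      simp only [mul_sub]
      rw [Finset.sum_sub_distrib, sub_eq_add_neg]
      congr 1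
      · refine Finset.sum_congr rfl fun l _ => ?_
        split_ifs
        · rfl
        · rw [mul_zero]
      · split_ifs
        · rfl
        · simp
    rw [h0] at hmem
    have h2 := eq_zero_of_sum hδ (G := fun l => (if Fin.castSucc l ∈ S then G l else 0) -
          (if Fin.last (N + 1) ∈ S then G l else 0))
      (fun l => by
        refine IsHomogeneous.sub ?_ ?_
        · split_ifs
          · exact hG l
          · exact isHomogeneous_zero _ _ _
        · split_ifs
          · exact hG l
          · exact isHomogeneous_zero _ _ _) hmem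
    by_cases hlast : Fin.last (N + 1) ∈ S
    · apply hS'
      refine Finset.eq_univ_iff_forall.2 fun i => ?_
      refine Fin.lastCases hlast (fun l => ?_) i
      by_contra h3
      have h4 : (if Fin.castSucc l ∈ S then G l else 0) -
          (if Fin.last (N + 1) ∈ S then G l else 0) = 0 := h2 l
      rw [if_neg h3, if_pos hlast, zero_sub, neg_eq_zero] at h4
      exact hG0 l h4
    · obtain ⟨i, hi⟩ := hS
      revert hi
      refine Fin.lastCases (fun h3 => absurd h3 hlast) (fun l h3 => ?_) i
      have h4 : (if Fin.castSucc l ∈ S then G l else 0) -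
          (if Fin.last (N + 1) ∈ S then G l else 0) = 0 := h2 l
      rw [if_pos h3, if_neg hlast, sub_zero] at h4
      exact hG0 l h4

/-- The exceptional set of the complement. -/
theorem subsumLocus_compl {Y : Set (PN N)} {k : ℕ} (T : Fin k → MvPolynomial (Fin (N + 1)) ℂ)
    (hY : ∀ x ∈ Y, ¬ VanishesAt (∑ i, T i) x) :
    subsumLocus Y (Fin.snoc T (-∑ i, T i) : Fin (k + 1) → MvPolynomial (Fin (N + 1)) ℂ) =
      {x | x ∈ Y ∧ ∃ S : Finset (Fin k), S.Nonempty ∧ S ≠ Finset.univ ∧
        VanishesAt (∑ i ∈ S, T i) x} := by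
  classical
  have h0 : ∀ S : Finset (Fin (k + 1)),
      ∑ i ∈ S, (Fin.snoc T (-∑ i, T i) : Fin (k + 1) → MvPolynomial (Fin (N + 1)) ℂ) i =
        (∑ l with Fin.castSucc l ∈ S, T l) + (if Fin.last k ∈ S then -∑ i, T i else 0) := by
    intro S
    rw [hyp_snoc, Finset.sum_filter]
  ext x
  constructor
  · rintro ⟨hx, S, hS, hS', hv⟩
    refine ⟨hx, ?_⟩
    rw [h0 S] at hv
    by_cases hlast : Fin.last k ∈ S
    · rw [if_pos hlast] at hv
      refine ⟨Finset.univ.filter fun l => ¬ Fin.castSucc l ∈ S, ?_, ?_, ?_⟩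
      · by_contra h1
        rw [Finset.not_nonempty_iff_eq_empty, Finset.filter_eq_empty_iff] at h1
        apply hS'
        refine Finset.eq_univ_iff_forall.2 fun i => ?_
        refine Fin.lastCases hlast (fun l => ?_) i
        by_contra h3
        exact h1 (Finset.mem_univ l) h3
      · intro h1
        have h2 : Finset.univ.filter (fun l : Fin k => Fin.castSucc l ∈ S) = ∅ := by
          rw [Finset.filter_eq_empty_iff]
          intro l _ h3
          have h4 : l ∈ Finset.univ.filter fun l : Fin k => ¬ Fin.castSucc l ∈ S := by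
            rw [h1]
            exact Finset.mem_univ l
          rw [Finset.mem_filter] at h4
          exact h4.2 h3
        rw [h2, Finset.sum_empty, zero_add] at hv
        apply hY x hx
        unfold VanishesAt at hv ⊢
        rwa [map_neg, neg_eq_zero] at hv
      · have h1 := Finset.sum_filter_add_sum_filter_not Finset.univ
          (fun l : Fin k => Fin.castSucc l ∈ S) T
        unfold VanishesAt at hv ⊢
        rw [← h1] at hv
        rw [map_add, map_neg, map_add] at hv
        linear_combination -hv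
    · rw [if_neg hlast, add_zero] at hv
      refine ⟨Finset.univ.filter fun l => Fin.castSucc l ∈ S, ?_, ?_, hv⟩
      · obtain ⟨i, hi⟩ := hS
        revert hi
        refine Fin.lastCases (fun h3 => absurd h3 hlast) (fun l h3 => ?_) i
        exact ⟨l, Finset.mem_filter.2 ⟨Finset.mem_univ l, h3⟩⟩
      · intro h1
        rw [h1] at hv
        exact hY x hx hv
  · rintro ⟨hx, S, hS, hS', hv⟩
    refine ⟨hx, S.map Fin.castSuccEmb, ?_, ?_, ?_⟩
    · exact hS.map
    · intro h1
      have h2 : Fin.last k ∈ S.map Fin.castSuccEmb := by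
        rw [h1]
        exact Finset.mem_univ _
      rw [Finset.mem_map] at h2
      obtain ⟨l, -, hl⟩ := h2
      exact absurd hl (Fin.castSucc_lt_last l).ne
    · rw [Finset.sum_map]
      simp only [Fin.coe_castSuccEmb, Fin.snoc_castSucc]
      exact hv

/-- The ideal of an irreducible form. -/
theorem homog_span {n : ℕ} {F : MvPolynomial (Fin (N + 1)) ℂ} (hF : F.IsHomogeneous n) :
    Homog (Ideal.span {F}) := by
  let _ := MvPolynomial.gradedAlgebra (σ := Fin (N + 1)) (R := ℂ)
  have h1 : (Ideal.span {F}).IsHomogeneous (homogeneousSubmodule (Fin (N + 1)) ℂ) := by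
    refine Ideal.homogeneous_span _ _ ?_
    intro x hx
    rw [Set.mem_singleton_iff] at hx
    rw [hx]
    exact ⟨n, hF⟩
  intro p hp m
  exact homogeneousComponent_mem_of_mem h1 hp m

theorem isPrime_span {F : MvPolynomial (Fin (N + 1)) ℂ} (hF : Irreducible F) :
    (Ideal.span {F}).IsPrime :=
  (Ideal.span_singleton_prime hF.ne_zero).2 hF.prime

end Pool.Agent.H17R
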