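import Pool.Agent.H62.FC.LocalEst

/-!
# The local order of the Wronskian: a bound by the size of the determinant

PROOF of `local_loss`.  As `local_estimate` in `Pool.Agent.H62.FC.LocalEst` (its helper lemmas
`LocalEst_*` are public).  With `m = -μ` the functions `f j = (z - s) ^ m * u j` vanish to the orders
`b j = ord (u j) - μ ≥ 0` (`LocalEst_V`), `wronsk f = (z - s) ^ (m n) wronsk u` (`LocalEst_scale`), and
if `μ = ord (u j₀)` then the column `j₀` may be replaced by `- (z - s) ^ m` (`LocalEst_exchange`), which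
changes `b j₀ = 0` to `m`.  In both cases there are `c j : ℕ` with `∑ j, c j = ∑ j, (ord (u j) - μ) - μ`
and `wronsk f` is a determinant of functions with `LocalEst_V s (A i j) (c j - i)`.  For every
permutation `∑ i, (c i - σ i) ≥ ∑ i, c i - n (n - 1) / 2` (in `ℕ`, truncated), so
`LocalEst_V s (wronsk f) (∑ j, c j - n * (n - 1) / 2)` (a variant of `LocalEst_det`, using
`LocalEst_sum`, `LocalEst_prod`, `LocalEst_mono`).  Hence
`ord (wronsk u) ≥ ∑ j, c j - n (n - 1) / 2 - m n = ∑ j, ord (u j) - μ - n (n - 1) / 2`.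

`local_unit`: all entries of the matrix are, up to the value at `s`, analytic.
-/

open Filter Topology
open Pool.Agent.H92.GGL (ordZ)
open Pool.Agent.H62.FC (wronsk LocalEst_V LocalEst_mono LocalEst_sum LocalEst_prod LocalEst_mul
  LocalEst_const LocalEst_congr LocalEst_iteratedDeriv LocalEst_scale LocalEst_exchange
  LocalEst_anal_sub LocalEst_wronsk)

noncomputable section

namespace Pool.Agent.H17R

/-- The order of a determinant whose entries have the orders `c j - i`. -/
private theorem LocalLoss_det {n : ℕ} {s : ℂ} {A : Fin n → Fin n → ℂ → ℂ} {c : Fin n → ℕ}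
    (h : ∀ i j : Fin n, LocalEst_V s (A i j) (c j - i)) :
    LocalEst_V s (fun z => (Matrix.of fun i j : Fin n => A i j z).det)
      ((∑ j, c j) - n * (n - 1) / 2) := by
  have h1 : LocalEst_V s (fun z => ∑ σ : Equiv.Perm (Fin n),
      ((Equiv.Perm.sign σ : ℤ) : ℂ) * ∏ i, A (σ i) i z) ((∑ j, c j) - n * (n - 1) / 2) := by
    refine LocalEst_sum _ ?_
    intro σ _
    have h2 := LocalEst_mul (LocalEst_const s ((Equiv.Perm.sign σ : ℤ) : ℂ))
      (LocalEst_prod Finset.univ (f := fun i => A (σ i) i)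
        (b := fun i => c i - ((σ i : Fin n) : ℕ)) fun i _ => h (σ i) i)
    rw [zero_add] at h2
    refine LocalEst_mono h2 ?_
    have h3 : ∑ i, ((σ i : Fin n) : ℕ) = n * (n - 1) / 2 := by
      rw [Equiv.sum_comp σ (fun i : Fin n => (i : ℕ)), Fin.sum_univ_eq_sum_range (fun k => k) n,
        Finset.sum_range_id]
    have h4 : ∑ j, c j ≤ ∑ j, ((c j - ((σ j : Fin n) : ℕ)) + ((σ j : Fin n) : ℕ)) :=
      Finset.sum_le_sum fun j _ => by omega
    rw [Finset.sum_add_distrib, h3] at h4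
    omega
  refine LocalEst_congr h1 ?_
  filter_upwards with z
  rw [Matrix.det_apply']
  rfl

/-- The order of the Wronskian. -/
private theorem LocalLoss_wronsk {n : ℕ} {s : ℂ} {φ : Fin n → ℂ → ℂ} {c : Fin n → ℕ}
    (h : ∀ j, LocalEst_V s (φ j) (c j)) :
    LocalEst_V s (wronsk φ) ((∑ j, c j) - n * (n - 1) / 2) :=
  LocalLoss_det (A := fun i j => iteratedDeriv i (φ j)) fun i j =>
    LocalEst_iteratedDeriv (h j) i

theorem local_loss {n : ℕ} (hn : 1 ≤ n) {s : ℂ} {u : Fin n → ℂ → ℂ}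
    (hu : ∀ j, MeromorphicAt (u j) s) (huo : ∀ j, meromorphicOrderAt (u j) s ≠ ⊤)
    (hrel : ∀ᶠ z in 𝓝[≠] s, ∑ j, u j z = -1) (hW : meromorphicOrderAt (wronsk u) s ≠ ⊤)
    {μ : ℤ} (hμ0 : μ ≤ 0) (hμ : ∀ j, μ ≤ ordZ (u j) s)
    (hμ' : μ = 0 ∨ ∃ j, ordZ (u j) s = μ) :
    2 * ((∑ j, ordZ (u j) s) - ordZ (wronsk u) s - μ) ≤ (n : ℤ) * ((n : ℤ) - 1) := by
  obtain ⟨m, hm⟩ : ∃ m : ℕ, (m : ℤ) = -μ := ⟨(-μ).toNat, Int.toNat_of_nonneg (by linarith)⟩
  -- the orders of the scaled functions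
  have hb : ∀ j, ∃ b : ℕ, (b : ℤ) = ordZ (u j) s - μ := fun j =>
    ⟨(ordZ (u j) s - μ).toNat, Int.toNat_of_nonneg (by linarith [hμ j])⟩
  choose b hb using hb
  set f : Fin n → ℂ → ℂ := fun j w => (w - s) ^ m * u j w with hf
  have hVf : ∀ j, LocalEst_V s (f j) (b j) := by
    intro j
    have h1 : meromorphicOrderAt (u j) s = ((ordZ (u j) s : ℤ) : WithTop ℤ) := by
      unfold Pool.Agent.H92.GGL.ordZ
      rw [WithTop.coe_untop₀_of_ne_top (huo j)]
    obtain ⟨g, hg, _, hug⟩ := (meromorphicOrderAt_eq_int_iff (hu j)).1 h1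
    refine ⟨g, hg, ?_⟩
    filter_upwards [hug, eventually_mem_nhdsWithin] with z hz hzs
    have hzs' : z - s ≠ 0 := sub_ne_zero.mpr hzs
    show (z - s) ^ m * u j z = _
    rw [hz, smul_eq_mul, ← mul_assoc, ← zpow_natCast, ← zpow_add₀ hzs', ← zpow_natCast]
    congr 2
    rw [hb j, hm]
    ring
  -- the punctured neighbourhood where everything is analytic
  have han : ∀ᶠ z in 𝓝[≠] s, ∀ j, AnalyticAt ℂ (u j) z := by
    rw [Filter.eventually_all]
    exact fun j => (hu j).eventually_analyticAt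
  have hscale : wronsk f =ᶠ[𝓝[≠] s] fun z => ((z - s) ^ m) ^ n * wronsk u z := by
    filter_upwards [han] with z hz
    refine LocalEst_scale (h := fun w => (w - s) ^ m) ?_ ?_
    · intro k
      exact ((contDiffAt_id.sub contDiffAt_const).pow m)
    · intro j k
      exact (hz j).contDiffAt
  -- it is enough to bound the order of the scaled Wronskian
  have main : ∀ c : Fin n → ℕ,
      (∑ j, (c j : ℤ)) = (∑ j, (ordZ (u j) s - μ)) + (0 - μ) →
      LocalEst_V s (wronsk f) ((∑ j, c j) - n * (n - 1) / 2) →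
      2 * ((∑ j, ordZ (u j) s) - ordZ (wronsk u) s - μ) ≤ (n : ℤ) * ((n : ℤ) - 1) := by
    intro c hcs hV
    obtain ⟨g, hg, hWg⟩ := hV
    set C : ℕ := (∑ j, c j) - n * (n - 1) / 2 with hC
    have h1 : wronsk u =ᶠ[𝓝[≠] s] fun z => (z - s) ^ ((C : ℤ) - m * n) * g z := by
      filter_upwards [hscale, hWg, eventually_mem_nhdsWithin] with z h1 h2 h3
      have hzs' : z - s ≠ 0 := sub_ne_zero.mpr h3
      rw [h1] at h2
      have h4 : ((z - s) ^ m) ^ n ≠ 0 := pow_ne_zero _ (pow_ne_zero _ hzs')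
      have h5 : wronsk u z = (((z - s) ^ m) ^ n)⁻¹ * ((z - s) ^ C * g z) := by
        rw [← h2, ← mul_assoc, inv_mul_cancel₀ h4, one_mul]
      rw [h5, zpow_sub₀ hzs', zpow_natCast, ← pow_mul]
      have h6 : (z - s) ^ ((m : ℤ) * (n : ℤ)) = (z - s) ^ (m * n) := by
        rw [← Nat.cast_mul, zpow_natCast]
      rw [h6]
      field_simp
    have h2 : MeromorphicAt (fun z => (z - s) ^ ((C : ℤ) - m * n)) s :=
      ((LocalEst_anal_sub s).meromorphicAt).zpow _
    have h3 : meromorphicOrderAt (fun z => (z - s) ^ ((C : ℤ) - m * n)) s =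
        (((C : ℤ) - m * n : ℤ) : WithTop ℤ) := by
      rw [meromorphicOrderAt_eq_int_iff h2]
      exact ⟨fun _ => 1, analyticAt_const, one_ne_zero, by
        filter_upwards with z
        rw [smul_eq_mul, mul_one]⟩
    have h4 : (((C : ℤ) - m * n : ℤ) : WithTop ℤ) ≤ meromorphicOrderAt (wronsk u) s := by
      rw [meromorphicOrderAt_congr h1]
      have h5 := meromorphicOrderAt_mul h2 hg.meromorphicAt
      have h6 : meromorphicOrderAt (fun z => (z - s) ^ ((C : ℤ) - m * n) * g z) s =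
          meromorphicOrderAt (fun z => (z - s) ^ ((C : ℤ) - m * n)) s +
            meromorphicOrderAt g s := h5
      rw [h6, h3]
      exact le_add_of_nonneg_right hg.meromorphicOrderAt_nonneg
    have h5 : ((C : ℤ) - m * n : ℤ) ≤ ordZ (wronsk u) s := by
      unfold Pool.Agent.H92.GGL.ordZ
      rw [← WithTop.coe_untop₀_of_ne_top hW] at h4
      exact_mod_cast h4
    have h6 : 2 * ∑ j, c j ≤ 2 * C + n * (n - 1) := by omega
    have h7 : 2 * (∑ j, (c j : ℤ)) ≤ 2 * (C : ℤ) + (n : ℤ) * ((n : ℤ) - 1) := by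
      have h8 : ((2 * ∑ j, c j : ℕ) : ℤ) ≤ ((2 * C + n * (n - 1) : ℕ) : ℤ) := by exact_mod_cast h6
      push_cast [Nat.cast_sub hn] at h8
      exact h8
    have h8 : (∑ j, (ordZ (u j) s - μ)) = (∑ j, ordZ (u j) s) - n * μ := by
      rw [Finset.sum_sub_distrib, Finset.sum_const, Finset.card_univ, Fintype.card_fin,
        nsmul_eq_mul]
    rw [hcs, h8] at h7
    rw [hm] at h5
    linarith
  rcases hμ' with h0 | ⟨j₀, hj₀⟩
  · refine main b ?_ (LocalLoss_wronsk hVf)
    rw [h0, sub_zero, add_zero]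
    refine Finset.sum_congr rfl ?_
    intro j _
    rw [hb j, h0]
  · have hq : wronsk f =ᶠ[𝓝[≠] s]
        wronsk (Function.update f j₀ (fun w => -(w - s) ^ m)) := by
      have hrel' := eventually_nhdsNE_eventually_nhds_iff.2 hrel
      filter_upwards [han, hrel'] with z hz hr
      symm
      refine LocalEst_exchange j₀ ?_ ?_
      · intro j k
        have h1 : ContDiffAt ℂ k (u j) z := (hz j).contDiffAt
        have h2 : ContDiffAt ℂ k (fun w : ℂ => (w - s) ^ m) z :=
          (contDiffAt_id.sub contDiffAt_const).pow m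
        exact h2.mul h1
      · filter_upwards [hr] with w hw
        show -(w - s) ^ m = ∑ j, (w - s) ^ m * u j w
        rw [← Finset.mul_sum, hw]
        ring
    have hV : ∀ j, LocalEst_V s (Function.update f j₀ (fun w => -(w - s) ^ m) j)
        (Function.update b j₀ m j) := by
      intro j
      by_cases hj : j = j₀
      · subst hj
        rw [Function.update_self, Function.update_self]
        refine ⟨fun _ => -1, analyticAt_const, ?_⟩
        filter_upwards with z
        ring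
      · rw [Function.update_of_ne hj, Function.update_of_ne hj]
        exact hVf j
    have hb0 : (b j₀ : ℤ) = 0 := by
      rw [hb j₀, hj₀, sub_self]
    refine main (Function.update b j₀ m) ?_ (LocalEst_congr (LocalLoss_wronsk hV) hq)
    have h1 : (∑ j, (ordZ (u j) s - μ)) = ∑ j, (b j : ℤ) :=
      Finset.sum_congr rfl fun j _ => (hb j).symm
    rw [h1, ← Finset.add_sum_erase Finset.univ _ (Finset.mem_univ j₀),
      ← Finset.add_sum_erase Finset.univ (fun j => (b j : ℤ)) (Finset.mem_univ j₀), hb0,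
      Function.update_self, hm]
    have h2 : ∑ j ∈ Finset.univ.erase j₀, ((Function.update b j₀ m j : ℕ) : ℤ) =
        ∑ j ∈ Finset.univ.erase j₀, (b j : ℤ) := by
      refine Finset.sum_congr rfl ?_
      intro j hj
      rw [Function.update_of_ne (Finset.ne_of_mem_erase hj)]
    rw [h2]
    ring

theorem local_unit {n : ℕ} {s : ℂ} {u : Fin n → ℂ → ℂ}
    (hu : ∀ j, MeromorphicAt (u j) s) (huo : ∀ j, meromorphicOrderAt (u j) s ≠ ⊤)
    (hW : meromorphicOrderAt (wronsk u) s ≠ ⊤) (h0 : ∀ j, ordZ (u j) s = 0) :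
    0 ≤ ordZ (wronsk u) s := by
  have hV : ∀ j, LocalEst_V s (u j) 0 := by
    intro j
    have h1 : meromorphicOrderAt (u j) s = ((ordZ (u j) s : ℤ) : WithTop ℤ) := by
      unfold Pool.Agent.H92.GGL.ordZ
      rw [WithTop.coe_untop₀_of_ne_top (huo j)]
    obtain ⟨g, hg, _, hug⟩ := (meromorphicOrderAt_eq_int_iff (hu j)).1 h1
    refine ⟨g, hg, ?_⟩
    filter_upwards [hug] with z hz
    rw [hz, h0 j, zpow_zero, one_smul, pow_zero, one_mul]
  obtain ⟨g, hg, hWg⟩ := LocalEst_mono (LocalEst_wronsk hV) (Nat.zero_le _)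
  have h1 : wronsk u =ᶠ[𝓝[≠] s] g := by
    filter_upwards [hWg] with z hz
    rw [hz, pow_zero, one_mul]
  have h2 : (0 : WithTop ℤ) ≤ meromorphicOrderAt (wronsk u) s := by
    rw [meromorphicOrderAt_congr h1]
    exact hg.meromorphicOrderAt_nonneg
  unfold Pool.Agent.H92.GGL.ordZ
  rw [← WithTop.coe_untop₀_of_ne_top hW] at h2
  exact_mod_cast h2

end Pool.Agent.H17R
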