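import Pool.Agent.H17R.SupLog
import Pool.Agent.H62.FC.Nev0

/-!
# The characteristic of a quotient

PROOF of `nevT_quot_le`.  `posLog ‖c t i / t i'‖ ≤ |log ‖c‖| + supLog t - log ‖t i'‖` (off a discrete
set, `eventually_ne_zero`, `mean_le_mean`) and `max (- ord (c t i / t i'), 0) ≤ ord (t i') - infOrd t`
(`ordZ_div`), and Jensen's formula for `t i'`: `mean log ‖t i'‖ = cnt (ord (t i')) + A + B x`.

PROOF of `relHeight_ge_neg`: `nevT_quot_le` for `i = i'` and `nevT_nonneg`.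
-/

open Topology Filter MeasureTheory
open Pool.Agent.H92.GGL (ordZ)
open Pool.Agent.H62.FC (MeroPunct LocFin cnt mean nevT cnt_add cnt_mono)

noncomputable section

namespace Pool.Agent.H17R

private theorem NevQuot_locFin_sub {R₀ : ℝ} {w w' : ℂ → ℝ} (hw : LocFin R₀ w)
    (hw' : LocFin R₀ w') : LocFin R₀ fun s => w s - w' s := by
  intro r b hr hb
  refine ((hw r b hr hb).union (hw' r b hr hb)).subset ?_
  rintro s ⟨h1, h2, h3⟩
  by_cases h4 : w s = 0
  · refine Or.inr ⟨h1, h2, fun h5 => h3 ?_⟩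
    change w s - w' s = 0
    rw [h4, h5, sub_zero]
  · exact Or.inl ⟨h1, h2, h4⟩

private theorem NevQuot_locFin_max {R₀ : ℝ} {w : ℂ → ℝ} (hw : LocFin R₀ w) :
    LocFin R₀ fun s => max (-(w s)) 0 := by
  intro r b hr hb
  refine (hw r b hr hb).subset ?_
  rintro s ⟨h1, h2, h3⟩
  refine ⟨h1, h2, fun h4 => h3 ?_⟩
  change max (-(w s)) 0 = 0
  rw [h4, neg_zero, max_self]

private theorem NevQuot_supLog_ge {ι : Type} [Fintype ι] [Nonempty ι] (t : ι → ℂ → ℂ) (i : ι)
    (z : ℂ) : Real.log ‖t i z‖ ≤ supLog t z :=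
  Finset.le_sup' (fun i => Real.log ‖t i z‖) (Finset.mem_univ i)

private theorem NevQuot_infOrd_le {ι : Type} [Fintype ι] [Nonempty ι] (t : ι → ℂ → ℂ) (i : ι)
    (z : ℂ) : infOrd t z ≤ ordZ (t i) z :=
  Finset.inf'_le (fun i => ordZ (t i) z) (Finset.mem_univ i)

theorem nevT_quot_le {ι : Type} [Fintype ι] [Nonempty ι] {R₀ R₁ : ℝ} (h1 : 0 < R₁) (h : R₁ < R₀)
    {t : ι → ℂ → ℂ} (ht : ∀ i, MeroPunct R₀ (t i)) (i i' : ι) {c : ℂ} (hc : c ≠ 0) :
    ∃ C : ℝ, ∀ x, Real.exp (-x) < R₁ →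
      nevT (fun z => c * (t i z / t i' z)) R₁ x ≤ relHeight t R₁ x + C * (1 + |x|) := by
  obtain ⟨A, B, hAB⟩ := (ht i').jensen h1 h
  refine ⟨|Real.log ‖c‖| + |A| + |B|, fun x hx => ?_⟩
  have hr : 0 < Real.exp (-x) := Real.exp_pos _
  have hx0 : Real.exp (-x) < R₀ := hx.trans h
  have hu : MeroPunct R₀ fun z => c * (t i z / t i' z) := meroPunct_div (ht i) (ht i') hc
  have iS := circleIntegrable_supLog ht hx0
  have iL := (ht i').circleIntegrable_log hx0
  have iC : CircleIntegrable (fun _ : ℂ => |Real.log ‖c‖|) 0 (Real.exp (-x)) :=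
    circleIntegrable_const _ _ _
  have iSL : CircleIntegrable (fun z => supLog t z - Real.log ‖t i' z‖) 0 (Real.exp (-x)) :=
    iS.sub iL
  -- the mean
  have e1 : mean (fun z => Real.posLog ‖c * (t i z / t i' z)‖) x ≤
      |Real.log ‖c‖| + (mean (supLog t) x - mean (fun z => Real.log ‖t i' z‖) x) := by
    have e2 : mean (fun z => |Real.log ‖c‖| + (supLog t z - Real.log ‖t i' z‖)) x =
        |Real.log ‖c‖| + (mean (supLog t) x - mean (fun z => Real.log ‖t i' z‖) x) := by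
      unfold mean
      rw [Real.circleAverage_fun_add iC iSL, Real.circleAverage_fun_sub iS iL,
        Real.circleAverage_const]
    rw [← e2]
    refine mean_le_mean (hu.circleIntegrable_posLog hx0) (iC.add iSL) fun z hz => ?_
    have hz0 : 0 < ‖z‖ := by rw [hz]; exact hr
    have hz1 : ‖z‖ < R₀ := by rw [hz]; exact hx0
    filter_upwards [eventually_ne_zero (ht i) hz0 hz1, eventually_ne_zero (ht i') hz0 hz1]
      with ζ h2 h3
    have h4 := NevQuot_supLog_ge t i ζ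
    have h5 := NevQuot_supLog_ge t i' ζ
    have h6 := abs_nonneg (Real.log ‖c‖)
    have h7 := le_abs_self (Real.log ‖c‖)
    unfold Real.posLog
    refine max_le (by linarith) ?_
    rw [norm_mul, norm_div, Real.log_mul (norm_ne_zero_iff.2 hc)
      (div_ne_zero (norm_ne_zero_iff.2 h2) (norm_ne_zero_iff.2 h3)),
      Real.log_div (norm_ne_zero_iff.2 h2) (norm_ne_zero_iff.2 h3)]
    linarith
  -- the counting function
  have lI := locFin_infOrd ht
  have lS := NevQuot_locFin_sub (ht i').locFin lI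
  have e3 : cnt (fun s => max (-(ordZ (fun z => c * (t i z / t i' z)) s : ℝ)) 0) R₁
      (Real.exp (-x)) ≤ cnt (fun s => (ordZ (t i') s : ℝ) - (infOrd t s : ℝ)) R₁
      (Real.exp (-x)) := by
    refine cnt_mono h (NevQuot_locFin_max hu.locFin) lS hr fun s hs1 hs2 => ?_
    have h2 := ordZ_div (ht i) (ht i') hc (hr.trans hs1) (hs2.trans h)
    have h3 : (infOrd t s : ℝ) ≤ (ordZ (t i) s : ℝ) := by
      exact_mod_cast NevQuot_infOrd_le t i s
    have h4 : (infOrd t s : ℝ) ≤ (ordZ (t i') s : ℝ) := by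
      exact_mod_cast NevQuot_infOrd_le t i' s
    rw [h2]
    push_cast
    exact max_le (by linarith) (by linarith)
  have e4 : cnt (fun s => (ordZ (t i') s : ℝ) - (infOrd t s : ℝ)) R₁ (Real.exp (-x)) +
      cnt (fun s => (infOrd t s : ℝ)) R₁ (Real.exp (-x)) =
      cnt (fun s => (ordZ (t i') s : ℝ)) R₁ (Real.exp (-x)) := by
    rw [← cnt_add h lS lI hr]
    congr 1
    funext s
    ring
  have e5 := hAB x hx
  have h6 : nevT (fun z => c * (t i z / t i' z)) R₁ x ≤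
      |Real.log ‖c‖| + relHeight t R₁ x - (A + B * x) := by
    unfold nevT relHeight
    linarith
  refine h6.trans ?_
  have h7 : -(A + B * x) ≤ |A| + |B| * |x| := by
    have h8 := neg_abs_le A
    have h9 := neg_abs_le (B * x)
    rw [abs_mul] at h9
    linarith
  nlinarith [abs_nonneg A, abs_nonneg B, abs_nonneg x, abs_nonneg (Real.log ‖c‖),
    mul_nonneg (abs_nonneg A) (abs_nonneg x), mul_nonneg (abs_nonneg (Real.log ‖c‖)) (abs_nonneg x)]

theorem relHeight_ge_neg {ι : Type} [Fintype ι] [Nonempty ι] {R₀ R₁ : ℝ} (h1 : 0 < R₁)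
    (h : R₁ < R₀) {t : ι → ℂ → ℂ} (ht : ∀ i, MeroPunct R₀ (t i)) :
    ∃ C : ℝ, ∀ x, Real.exp (-x) < R₁ → 0 ≤ relHeight t R₁ x + C * (1 + |x|) := by
  obtain ⟨i⟩ := ‹Nonempty ι›
  have : Nonempty ι := ⟨i⟩
  obtain ⟨C, hC⟩ := nevT_quot_le h1 h ht i i (one_ne_zero : (1 : ℂ) ≠ 0)
  exact ⟨C, fun x hx => (Pool.Agent.H62.FC.nevT_nonneg _ _ _).trans (hC x hx)⟩

end Pool.Agent.H17R
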