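import Pool.Agent.H17R.Defs
import Pool.Agent.H62.FC.Dense

/-!
# The projective Nullstellensatz

PROOF of `exists_degree_bound`.  Let `I = Ideal.span (Set.range A) ⊔ P`.  A common zero `v ≠ 0` of `I`
in affine space gives a point `mk v` of the variety (`vanishesAt_mk_iff`) at which all `A j` vanish,
against `h0`.  So the zero locus of `I` is contained in `{0}` and all `X i` are in the radical of `I`
(`MvPolynomial.vanishingIdeal_zeroLocus_eq_radical`): `X i ^ m ∈ I` for all `i`, for some `m`.  Every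
monomial of degree `≥ (N + 1) * m` is divisible by some `X i ^ m`, so every form `F` of degree
`n ≥ (N + 1) * m` is in `I`: `F = ∑ j, c j * A j + p`, `p ∈ P` (`Submodule.mem_sup`,
`Ideal.mem_span_range_iff_exists_fun`).  Take the homogeneous component of degree `n` (with
`m₀ = a + (N + 1) * m`, so `a ≤ n`): the component of `c j * A j` is `homogeneousComponent (n - a) (c j)
* A j` and the component of `p` is in `P` since `Homog P`.

PROOF of `mem_of_vanishes_openVar`: as `Pool.Agent.H62.FC.mem_of_vanishes` in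
`Pool.Agent.H62.FC.Dense`, with `∏ m, H m` instead of `∏ i ∈ S, X i`.
-/

open MvPolynomial
open Pool.Agent.H17 (PN VanishesAt vanishesAt_mk_iff)
open Pool.Agent.H62.FC (Homog)

noncomputable section

namespace Pool.Agent.H17R

variable {N : ℕ} {P : Ideal (MvPolynomial (Fin (N + 1)) ℂ)}

private theorem hc_mul {c A : MvPolynomial (Fin (N + 1)) ℂ} {a n : ℕ} (hA : A.IsHomogeneous a)
    (h : a ≤ n) : homogeneousComponent n (c * A) = homogeneousComponent (n - a) c * A := by
  classical
  have h1 : c * A = ∑ i ∈ Finset.range (c.totalDegree + 1), homogeneousComponent i c * A := by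
    rw [← Finset.sum_mul, sum_homogeneousComponent]
  have h2 : ∀ i, homogeneousComponent n (homogeneousComponent i c * A) =
      if i = n - a then homogeneousComponent i c * A else 0 := by
    intro i
    have h3 : homogeneousComponent i c * A ∈ homogeneousSubmodule (Fin (N + 1)) ℂ (i + a) :=
      (homogeneousComponent_isHomogeneous i c).mul hA
    rw [homogeneousComponent_of_mem h3]
    by_cases h4 : i = n - a
    · rw [if_pos h4, if_pos (by omega)]
    · rw [if_neg h4, if_neg (by omega)]
  rw [h1, map_sum, Finset.sum_congr rfl fun i _ => h2 i, Finset.sum_ite_eq']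
  split_ifs with h5
  · rfl
  · rw [Finset.mem_range, not_lt] at h5
    rw [homogeneousComponent_eq_zero _ _ (by omega), zero_mul]

theorem exists_degree_bound (hP : Homog P) {q a : ℕ} {A : Fin q → MvPolynomial (Fin (N + 1)) ℂ}
    (hA : ∀ j, (A j).IsHomogeneous a)
    (h0 : ∀ x : PN N, (∀ Q ∈ P, ∀ n, Q.IsHomogeneous n → VanishesAt Q x) →
      ∃ j, ¬ VanishesAt (A j) x) :
    ∃ m₀, a ≤ m₀ ∧ ∀ n, m₀ ≤ n → ∀ F : MvPolynomial (Fin (N + 1)) ℂ, F.IsHomogeneous n →
      ∃ c : Fin q → MvPolynomial (Fin (N + 1)) ℂ, (∀ j, (c j).IsHomogeneous (n - a)) ∧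
        F - ∑ j, c j * A j ∈ P := by
  classical
  set I : Ideal (MvPolynomial (Fin (N + 1)) ℂ) := Ideal.span (Set.range A) ⊔ P with hI
  -- powers of the variables
  have h1 : ∀ i : Fin (N + 1), (X i : MvPolynomial (Fin (N + 1)) ℂ) ∈ I.radical := by
    intro i
    rw [← MvPolynomial.vanishingIdeal_zeroLocus_eq_radical (K := ℂ) I,
      MvPolynomial.mem_vanishingIdeal_iff]
    intro v hv
    rw [MvPolynomial.aeval_eq_eval]
    change eval v (X i) = 0
    rw [eval_X]
    by_contra hvi
    have hv0 : v ≠ 0 := fun h => hvi (by rw [h]; rfl)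
    have hv' : ∀ Q ∈ I, eval v Q = 0 := fun Q hQ => by
      have h1 := hv Q hQ
      rwa [MvPolynomial.aeval_eq_eval] at h1
    obtain ⟨j, hj⟩ := h0 (Projectivization.mk ℂ v hv0) fun Q hQ n hn =>
      (vanishesAt_mk_iff hn v hv0).2 (hv' Q (Ideal.mem_sup_right hQ))
    exact hj ((vanishesAt_mk_iff (hA j) v hv0).2
      (hv' _ (Ideal.mem_sup_left (Ideal.subset_span ⟨j, rfl⟩))))
  choose k hk using h1
  set m := Finset.univ.sup k + 1 with hm
  have h2 : ∀ i : Fin (N + 1), (X i : MvPolynomial (Fin (N + 1)) ℂ) ^ m ∈ I := by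
    intro i
    have h3 : k i ≤ m := (Finset.le_sup (f := k) (Finset.mem_univ i)).trans (Nat.le_succ _)
    rw [← Nat.sub_add_cancel h3, pow_add]
    exact I.mul_mem_left _ (hk i)
  -- forms of large degree are in `I`
  have h3 : ∀ n, (N + 1) * m ≤ n → ∀ F : MvPolynomial (Fin (N + 1)) ℂ, F.IsHomogeneous n →
      F ∈ I := by
    intro n hn F hF
    rw [F.as_sum]
    refine Ideal.sum_mem _ fun s hs => ?_
    have h4 : Finsupp.degree s = n := by
      by_contra h5
      exact (mem_support_iff.1 hs) (hF.coeff_eq_zero h5)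
    obtain ⟨i, hi⟩ : ∃ i, m ≤ s i := by
      by_contra h5
      push Not at h5
      have h6 : Finsupp.degree s = ∑ i, s i := by
        rw [Finsupp.degree_eq_sum]
      have h7 : ∑ i, s i < ∑ _i : Fin (N + 1), m :=
        Finset.sum_lt_sum_of_nonempty Finset.univ_nonempty fun i _ => h5 i
      rw [Finset.sum_const, Finset.card_univ, Fintype.card_fin, smul_eq_mul] at h7
      omega
    have h5 : monomial s (coeff s F) = monomial (s - Finsupp.single i m) (coeff s F) *
        (X i : MvPolynomial (Fin (N + 1)) ℂ) ^ m := by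
      rw [X_pow_eq_monomial, monomial_mul, mul_one, tsub_add_cancel_of_le]
      rw [Finsupp.single_le_iff]
      exact hi
    rw [h5]
    exact I.mul_mem_left _ (h2 i)
  refine ⟨a + (N + 1) * m, Nat.le_add_right _ _, fun n hn F hF => ?_⟩
  have h4 := h3 n (by omega) F hF
  obtain ⟨y, hy, p, hp, hyp⟩ := Submodule.mem_sup.1 h4
  obtain ⟨c, hc⟩ := Ideal.mem_span_range_iff_exists_fun.1 hy
  refine ⟨fun j => homogeneousComponent (n - a) (c j), fun j =>
    homogeneousComponent_isHomogeneous _ _, ?_⟩
  have h5 : homogeneousComponent n F = F := by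
    rw [homogeneousComponent_of_mem (show F ∈ homogeneousSubmodule (Fin (N + 1)) ℂ n from hF),
      if_pos rfl]
  have h6 : F - ∑ j, homogeneousComponent (n - a) (c j) * A j = homogeneousComponent n p := by
    rw [← h5, ← hyp, ← hc, map_add, map_sum]
    rw [Finset.sum_congr rfl fun j _ => hc_mul (hA j) (by omega : a ≤ n)]
    rw [add_sub_cancel_left]
  rw [h6]
  exact hP p hp n

theorem mem_of_vanishes_openVar [P.IsPrime] (hP : Homog P) {b : ℕ}
    {H : Fin b → MvPolynomial (Fin (N + 1)) ℂ} (hH : ∀ m, ∃ n, (H m).IsHomogeneous n)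
    (hHP : ∀ m, H m ∉ P) (hne : ∃ i, X i ∉ P) {n : ℕ} {F : MvPolynomial (Fin (N + 1)) ℂ}
    (hF : F.IsHomogeneous n) (h : ∀ x ∈ openVar P H, VanishesAt F x) : F ∈ P := by
  obtain ⟨i1, hi1⟩ := hne
  have hG : F * (∏ m, H m) * X i1 ∈ P := by
    rw [← MvPolynomial.IsPrime.vanishingIdeal_zeroLocus (K := ℂ) P,
      MvPolynomial.mem_vanishingIdeal_iff]
    intro v hv
    rw [MvPolynomial.aeval_eq_eval]
    have hv' : ∀ Q ∈ P, eval v Q = 0 := fun Q hQ => by
      have h1 := hv Q hQ
      rwa [MvPolynomial.aeval_eq_eval] at h1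
    change eval v (F * (∏ m, H m) * X i1) = 0
    rw [map_mul, map_mul, map_prod]
    by_cases hv0 : v = 0
    · rw [hv0]
      simp
    · by_cases hz : ∃ m, eval v (H m) = 0
      · obtain ⟨m, hm⟩ := hz
        rw [Finset.prod_eq_zero (Finset.mem_univ m) hm]
        simp
      · push Not at hz
        have h1 : Projectivization.mk ℂ v hv0 ∈ openVar P H := by
          refine ⟨fun Q hQ k hk => (vanishesAt_mk_iff hk v hv0).2 (hv' Q hQ), fun m hm => ?_⟩
          obtain ⟨k, hk⟩ := hH m
          exact hz m ((vanishesAt_mk_iff hk v hv0).1 hm)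
        have h2 := h _ h1
        rw [vanishesAt_mk_iff hF v hv0] at h2
        rw [h2]
        simp
  have hpr : P.IsPrime := inferInstance
  rcases hpr.mem_or_mem hG with h1 | h1
  · rcases hpr.mem_or_mem h1 with h2 | h2
    · exact h2
    · exfalso
      obtain ⟨m, _, h3⟩ := (hpr.prod_mem_iff).1 h2
      exact hHP m h3
  · exact absurd h1 hi1

end Pool.Agent.H17R
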