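import Pool.Agent.H17R.General
import Pool.Agent.H17R.Hyp
import Pool.Agent.H17R.Smooth
import Pool.Agent.H17.LinePoly

/-!
# The exceptional set without the terms of the relation

If the forms `A j`, `j ≠ l`, have no common zero on `T l = 0` for all `l`, then the partial sums with one or all
but one terms are not needed in the exceptional set: if `T l` vanishes on a subvariety (or along a curve), then the
other terms are a relation there.
-/

open MvPolynomial Topology Filter
open Pool.Agent.H17 (PN VanishesAt ZariskiClosedIn HolomorphicInto puncturedDisc)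
open Pool.Agent.H17LG.Variety (FunField OnBoundary IsLogGeneralType)
open Pool.Agent.H62.FC (Homog)

noncomputable section

namespace Pool.Agent.H17R

variable {N : ℕ}

/-- The points of `X` at which a partial sum of the forms `T i`, with at least two and at most all but two terms,
vanishes. -/
def middleLocus (X : Set (PN N)) {k : ℕ} (T : Fin k → MvPolynomial (Fin (N + 1)) ℂ) : Set (PN N) :=
  {x | x ∈ X ∧ ∃ S : Finset (Fin k), 2 ≤ S.card ∧ S.card + 2 ≤ k ∧ VanishesAt (∑ i ∈ S, T i) x}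

theorem middleLocus_subset (X : Set (PN N)) {k : ℕ} (T : Fin k → MvPolynomial (Fin (N + 1)) ℂ) :
    middleLocus X T ⊆ subsumLocus X T := by
  rintro x ⟨hx, S, h1, h2, h3⟩
  refine ⟨hx, S, Finset.card_pos.1 (by omega), ?_, h3⟩
  rintro rfl
  rw [Finset.card_univ, Fintype.card_fin] at h2
  omega

theorem zariskiClosedIn_middleLocus {d k : ℕ} {T : Fin k → MvPolynomial (Fin (N + 1)) ℂ} (Y : Set (PN N))
    (hT : ∀ i, (T i).IsHomogeneous d) : ZariskiClosedIn Y (middleLocus Y T) := by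
  classical
  refine ⟨{∏ S ∈ Finset.univ.filter (fun S : Finset (Fin k) => 2 ≤ S.card ∧ S.card + 2 ≤ k), ∑ i ∈ S, T i}, ?_, ?_⟩
  · rintro _ rfl
    exact ⟨_, IsHomogeneous.prod _ _ (fun _ => d) fun S _ => IsHomogeneous.sum _ _ _ fun i _ => hT i⟩
  · ext x
    constructor
    · rintro ⟨h1, S, h2, h3, h4⟩
      refine ⟨h1, ?_⟩
      rintro _ rfl
      unfold VanishesAt at h4 ⊢
      rw [map_prod, Finset.prod_eq_zero_iff]
      exact ⟨S, Finset.mem_filter.2 ⟨Finset.mem_univ _, h2, h3⟩, h4⟩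
    · rintro ⟨h1, h2⟩
      have h3 := h2 _ rfl
      unfold VanishesAt at h3
      rw [map_prod, Finset.prod_eq_zero_iff] at h3
      obtain ⟨S, hS, h4⟩ := h3
      exact ⟨h1, S, (Finset.mem_filter.1 hS).2.1, (Finset.mem_filter.1 hS).2.2, h4⟩

/-- A relation `∑ A i ^ e i * G i = 0` in which the forms `A j`, `j ≠ l`, have no common zero on
`A l ^ e l * G l = 0`. -/
structure IsPowerRelation (P : Ideal (MvPolynomial (Fin (N + 1)) ℂ)) {k : ℕ}
    (A T G : Fin k → MvPolynomial (Fin (N + 1)) ℂ) (a d : ℕ) (e δ : Fin k → ℕ) : Prop where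
  one_le : 1 ≤ a
  homA : ∀ j, (A j).IsHomogeneous a
  homG : ∀ i, (G i).IsHomogeneous (δ i)
  eq : ∀ i, T i = A i ^ e i * G i
  deg : ∀ i, a * e i + δ i = d
  noZero : ∀ l, ∀ x : PN N, (∀ Q ∈ P, ∀ n, Q.IsHomogeneous n → VanishesAt Q x) → VanishesAt (T l) x →
    ∃ j, j ≠ l ∧ ¬ VanishesAt (A j) x
  sum : ∑ i, T i ∈ P
  subsum : ∀ S : Finset (Fin k), S.Nonempty → S ≠ Finset.univ → ∑ i ∈ S, T i ∉ P

variable {P : Ideal (MvPolynomial (Fin (N + 1)) ℂ)} {b κ : ℕ}
  {H : Fin b → MvPolynomial (Fin (N + 1)) ℂ} {A T G : Fin (κ + 1) → MvPolynomial (Fin (N + 1)) ℂ}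
  {a d : ℕ} {e δ : Fin (κ + 1) → ℕ}

theorem IsPowerRelation.homT (h : IsPowerRelation P A T G a d e δ) (i : Fin (κ + 1)) :
    (T i).IsHomogeneous d := by
  rw [h.eq i]
  have h1 := ((h.homA i).pow (e i)).mul (h.homG i)
  rwa [h.deg i] at h1

theorem IsPowerRelation.isRelation (h : IsPowerRelation P A T G a d e δ) (hκ : 1 ≤ κ)
    (H : Fin b → MvPolynomial (Fin (N + 1)) ℂ) {M : ℕ} (hd : LargeDegree M a d (κ + 1) ∅ δ) :
    IsRelation P H A ∅ T G a d δ where
  two_le := by omega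
  one_le := h.one_le
  homA := h.homA
  homG := h.homG
  homT := h.homT
  noZero := by
    intro x hx
    by_cases h0 : VanishesAt (T 0) x
    · obtain ⟨j, -, hj⟩ := h.noZero 0 x hx h0
      exact ⟨j, hj⟩
    · refine ⟨0, fun h1 => h0 ?_⟩
      have he : e 0 ≠ 0 := by
        intro he
        have h2 := h.deg 0
        rw [he, mul_zero, zero_add] at h2
        unfold LargeDegree at hd
        have h3 : δ 0 ≤ ∑ i, δ i := Finset.single_le_sum (fun _ _ => Nat.zero_le _) (Finset.mem_univ _)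
        omega
      rw [h.eq 0]
      unfold VanishesAt at h1 ⊢
      rw [map_mul, map_pow, h1, zero_pow he, zero_mul]
  unit := fun j hj => absurd hj (Finset.notMem_empty j)
  factor := by
    intro i
    refine ⟨Pi.single i (e i), fun _ => 0, ?_⟩
    rw [h.eq i, Finset.prod_eq_single i]
    · simp
    · intro j _ hj
      rw [Pi.single_eq_of_ne hj, pow_zero]
    · intro hi
      exact absurd (Finset.mem_univ i) hi
  power := fun j => ⟨j, e j, h.eq j⟩
  sum := h.sum
  subsum := h.subsum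

theorem eval_eq_zero_of_mem (hP : Homog P) {x : PN N}
    (hx : ∀ Q ∈ P, ∀ n, Q.IsHomogeneous n → VanishesAt Q x) {p : MvPolynomial (Fin (N + 1)) ℂ} (hp : p ∈ P) :
    eval x.rep p = 0 := by
  rw [← sum_homogeneousComponent p, map_sum]
  refine Finset.sum_eq_zero fun n _ => ?_
  exact hx _ (hP p hp n) n (homogeneousComponent_isHomogeneous n p)

/-- The relation of the other terms. -/
theorem IsPowerRelation.restrict (h : IsPowerRelation P A T G a d e δ) (hκ : 3 ≤ κ)
    {Q : Ideal (MvPolynomial (Fin (N + 1)) ℂ)} (hPQ : P ≤ Q) {l : Fin (κ + 1)} (hl : T l ∈ Q)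
    {x₀ : PN N} (hx₀ : x₀ ∈ openVar Q H) (hx₀' : x₀ ∉ middleLocus (openVar P H) T) :
    IsRelation Q H (fun i : Fin κ => A (l.succAbove i)) ∅ (fun i : Fin κ => T (l.succAbove i))
      (fun i : Fin κ => G (l.succAbove i)) a d (fun i : Fin κ => δ (l.succAbove i)) ∧
    x₀ ∉ subsumLocus (openVar Q H) (fun i : Fin κ => T (l.succAbove i)) := by
  classical
  have hl0 : VanishesAt (T l) x₀ := hx₀.1 _ hl d (h.homT l)
  have hx₀P : x₀ ∈ openVar P H := ⟨fun R hR => hx₀.1 R (hPQ hR), hx₀.2⟩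
  have hsub : ∀ S : Finset (Fin κ), S.Nonempty → S ≠ Finset.univ →
      ¬ VanishesAt (∑ i ∈ S, T (l.succAbove i)) x₀ := by
    intro S hS hSu hv
    have h1 : ∑ i ∈ S, T (l.succAbove i) = ∑ i ∈ S.map (Fin.succAboveEmb l), T i := by
      rw [Finset.sum_map]
      rfl
    have hcard : S.card < κ := by
      have h2 := Finset.card_lt_card (Finset.ssubset_univ_iff.2 hSu)
      rwa [Finset.card_univ, Fintype.card_fin] at h2
    have hcard1 : 1 ≤ S.card := Finset.card_pos.2 hS
    rcases Nat.lt_or_ge S.card 2 with h2 | h2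
    · have hlS : l ∉ S.map (Fin.succAboveEmb l) := by
        rw [Finset.mem_map]
        rintro ⟨i, -, hi⟩
        exact Fin.succAbove_ne l i hi
      refine hx₀' ⟨hx₀P, insert l (S.map (Fin.succAboveEmb l)), ?_, ?_, ?_⟩
      · rw [Finset.card_insert_of_notMem hlS, Finset.card_map]; omega
      · rw [Finset.card_insert_of_notMem hlS, Finset.card_map]; omega
      · rw [Finset.sum_insert hlS, ← h1]
        unfold VanishesAt at hv hl0 ⊢
        rw [map_add, hv, hl0, add_zero]
    · refine hx₀' ⟨hx₀P, S.map (Fin.succAboveEmb l), ?_, ?_, ?_⟩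
      · rw [Finset.card_map]; omega
      · rw [Finset.card_map]; omega
      · rwa [← h1]
  refine ⟨⟨by omega, h.one_le, fun j => h.homA _, fun i => h.homG _, fun i => h.homT _, ?_, ?_, ?_, ?_, ?_, ?_⟩, ?_⟩
  · intro x hx
    obtain ⟨j, hj, hj'⟩ := h.noZero l x (fun R hR => hx R (hPQ hR)) (hx _ hl d (h.homT l))
    obtain ⟨i, rfl⟩ := Fin.exists_succAbove_eq hj
    exact ⟨i, hj'⟩
  · exact fun j hj => absurd hj (Finset.notMem_empty j)
  · intro i
    refine ⟨Pi.single i (e (l.succAbove i)), fun _ => 0, ?_⟩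
    rw [h.eq, Finset.prod_eq_single i]
    · simp
    · intro j _ hj
      rw [Pi.single_eq_of_ne hj, pow_zero]
    · intro hi
      exact absurd (Finset.mem_univ i) hi
  · exact fun j => ⟨j, e _, h.eq _⟩
  · have h1 := hPQ h.sum
    rw [Fin.sum_univ_succAbove _ l] at h1
    have h2 := Q.sub_mem h1 hl
    rwa [add_sub_cancel_left] at h2
  · intro S hS hSu hmem
    exact hsub S hS hSu (hx₀.1 _ hmem d (IsHomogeneous.sum _ _ _ fun i _ => h.homT _))
  · rintro ⟨-, S, hS, hSu, hv⟩
    exact hsub S hS hSu hv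

theorem LossBound.pred {k M : ℕ} (h : LossBound (k + 1) M) : LossBound k M := by
  refine ⟨h.1, fun c hc => le_trans ?_ (h.2 c (by omega))⟩
  gcongr
  omega

theorem LargeDegree.succAbove {M : ℕ} (hd : LargeDegree M a d (κ + 1) ∅ δ) (l : Fin (κ + 1)) :
    LargeDegree M a d κ ∅ (fun i : Fin κ => δ (l.succAbove i)) := by
  unfold LargeDegree at hd ⊢
  refine lt_of_le_of_lt ?_ hd
  simp only [Finset.card_empty, tsub_zero]
  have h1 : ∑ i : Fin κ, δ (l.succAbove i) ≤ ∑ i, δ i := by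
    rw [Fin.sum_univ_succAbove _ l]
    omega
  gcongr
  omega

/-- If a proper partial sum with index set `S` vanishes at `x`, then `x` is in `middleLocus` or some term vanishes
at `x`. -/
private lemma term_of_subsum {T : Fin (κ + 1) → MvPolynomial (Fin (N + 1)) ℂ}
    {S : Finset (Fin (κ + 1))} (hS : S.Nonempty) (hSu : S ≠ Finset.univ) :
    (2 ≤ S.card ∧ S.card + 2 ≤ κ + 1) ∨ ∃ l, ∀ Q : Ideal (MvPolynomial (Fin (N + 1)) ℂ),
      ∑ i, T i ∈ Q → ∑ i ∈ S, T i ∈ Q → T l ∈ Q := by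
  classical
  have hcard1 : 1 ≤ S.card := Finset.card_pos.2 hS
  have hcard : Sᶜ.Nonempty := by
    rw [Finset.nonempty_iff_ne_empty]
    intro h
    exact hSu (by rwa [Finset.compl_eq_empty_iff] at h)
  have hcard2 : 1 ≤ Sᶜ.card := Finset.card_pos.2 hcard
  have hsum : S.card + Sᶜ.card = κ + 1 := by
    rw [Finset.card_add_card_compl, Fintype.card_fin]
  by_cases h1 : S.card = 1
  · obtain ⟨l, rfl⟩ := Finset.card_eq_one.1 h1
    exact Or.inr ⟨l, fun Q _ h => by rwa [Finset.sum_singleton] at h⟩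
  by_cases h2 : Sᶜ.card = 1
  · obtain ⟨l, hl⟩ := Finset.card_eq_one.1 h2
    refine Or.inr ⟨l, fun Q h h' => ?_⟩
    have h3 : ∑ i ∈ S, T i + ∑ i ∈ Sᶜ, T i = ∑ i, T i := Finset.sum_add_sum_compl S T
    rw [hl, Finset.sum_singleton] at h3
    have h4 : T l = ∑ i, T i - ∑ i ∈ S, T i := by rw [← h3]; ring
    rw [h4]
    exact Q.sub_mem h h'
  · left
    omega

theorem picard_refined (hP : Homog P) (h : IsPowerRelation P A T G a d e δ) (hκ : 3 ≤ κ) {M : ℕ}
    (hM : LossBound (κ + 1) M) (hd : LargeDegree M a d (κ + 1) ∅ δ) {f : ℂ → PN N}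
    (hf : HolomorphicInto f puncturedDisc) (hfX : ∀ z ∈ puncturedDisc, f z ∈ openVar P H)
    (hne : ∃ z ∈ puncturedDisc, f z ∉ middleLocus (openVar P H) T) :
    ∃ g : ℂ → PN N, HolomorphicInto g (Metric.ball 0 1) ∧ ∀ z ∈ puncturedDisc, g z = f z := by
  classical
  have hR := h.isRelation (by omega) H hd
  by_cases hcase : ∃ z ∈ puncturedDisc, f z ∉ subsumLocus (openVar P H) T
  · exact picard_of_relation hR hM hd hf hfX hcase
  push Not at hcase
  obtain ⟨z₀, hz₀, hz₀'⟩ := hne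
  obtain ⟨S, hS, hSu, hv⟩ : ∃ S : Finset (Fin (κ + 1)), S.Nonempty ∧ S ≠ Finset.univ ∧
      ∀ s ∈ puncturedDisc, VanishesAt (∑ i ∈ S, T i) (f s) := by
    by_contra hcon
    push Not at hcon
    have h1 : ∀ S : Finset (Fin (κ + 1)), S.Nonempty → S ≠ Finset.univ → NonVan f (∑ i ∈ S, T i) := by
      intro S hS hSu
      rcases nonVan_or hf (IsHomogeneous.sum S _ _ fun i _ => h.homT i) with h2 | h2
      · obtain ⟨s, hs, hs'⟩ := hcon S hS hSu
        exact absurd (h2 s hs) hs'
      · exact h2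
    have h2 : ∀ᶠ z in 𝓝[≠] z₀, ∀ S : Finset (Fin (κ + 1)), S.Nonempty → S ≠ Finset.univ →
        ¬ VanishesAt (∑ i ∈ S, T i) (f z) := by
      rw [Filter.eventually_all]
      intro S
      by_cases hS : S.Nonempty ∧ S ≠ Finset.univ
      · filter_upwards [h1 S hS.1 hS.2 z₀ hz₀] with z hz _ _
        exact hz
      · exact Filter.Eventually.of_forall fun z h3 h4 => absurd ⟨h3, h4⟩ hS
    have hopen : IsOpen puncturedDisc := by
      have : puncturedDisc = Metric.ball (0 : ℂ) 1 \ {0} := rfl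
      rw [this]
      exact Metric.isOpen_ball.sdiff isClosed_singleton
    have h3 : ∀ᶠ z in 𝓝[≠] z₀, z ∈ puncturedDisc :=
      nhdsWithin_le_nhds (hopen.mem_nhds hz₀)
    obtain ⟨z, hz1, hz2⟩ := (h2.and h3).exists
    obtain ⟨-, S, hS, hSu, hv⟩ := hcase z hz2
    exact hz1 S hS hSu hv
  rcases term_of_subsum (T := T) hS hSu with h1 | ⟨l, hl⟩
  · exact absurd ⟨hfX z₀ hz₀, S, h1.1, h1.2, hv z₀ hz₀⟩ hz₀'
  · set Q : Ideal (MvPolynomial (Fin (N + 1)) ℂ) := P ⊔ Ideal.span {∑ i ∈ S, T i} with hQ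
    have hPQ : P ≤ Q := le_sup_left
    have hSQ : ∑ i ∈ S, T i ∈ Q := Ideal.mem_sup_right (Ideal.mem_span_singleton_self _)
    have hlQ : T l ∈ Q := hl Q (hPQ h.sum) hSQ
    have hfQ : ∀ z ∈ puncturedDisc, f z ∈ openVar Q H := by
      intro z hz
      refine ⟨fun R hRQ n hn => ?_, (hfX z hz).2⟩
      rw [hQ, Submodule.mem_sup] at hRQ
      obtain ⟨p, hp, r, hr, rfl⟩ := hRQ
      obtain ⟨c, rfl⟩ := Ideal.mem_span_singleton'.1 hr
      unfold VanishesAt
      have h2 := hv z hz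
      unfold VanishesAt at h2
      rw [map_add, map_mul, h2, mul_zero, add_zero]
      exact eval_eq_zero_of_mem hP (hfX z hz).1 hp
    obtain ⟨hR', hx'⟩ := h.restrict hκ hPQ hlQ (hfQ z₀ hz₀) hz₀'
    exact picard_of_relation hR' hM.pred (hd.succAbove l) hf hfQ ⟨z₀, hz₀, hx'⟩

/-- The four properties with the smaller exceptional set. -/
theorem gglWith_refined [P.IsPrime] (hP : Homog P) (hH : ∀ m, ∃ n, (H m).IsHomogeneous n)
    (hHP : ∀ m, H m ∉ P) (h : IsPowerRelation P A T G a d e δ) (hκ : 3 ≤ κ) {M : ℕ}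
    (hM : LossBound (κ + 1) M) (hd : LargeDegree M a d (κ + 1) ∅ δ) :
    GGLWith P H (middleLocus (openVar P H) T) where
  closed := zariskiClosedIn_middleLocus _ h.homT
  ne := by
    intro heq
    have h1 := subsumLocus_ne hP hH hHP (h.isRelation (by omega) H hd) hd
    exact h1 (Set.Subset.antisymm (fun x hx => hx.1)
      (by rw [← heq]; intro x hx; rw [heq] at hx ⊢; exact middleLocus_subset _ _ (by rw [heq]; exact hx)))
  logGeneralType := fun _ hw hz => logGeneralType_of_relation hP (h.isRelation (by omega) H hd) hM hd hw hz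
  picard := fun _ hf hfX hne => picard_refined hP h hκ hM hd hf hfX hne
  brody := fun _ hf hfX hne z => brody_of_picard (zariskiClosedIn_middleLocus _ h.homT)
    (fun _ hf hfX hne => picard_refined hP h hκ hM hd hf hfX hne) hf hfX hne z
  strongly := by
    classical
    intro Q hQp hQ hPQ hHQ hsub w hw hz
    obtain ⟨x₀, hx₀, hx₀'⟩ := Set.not_subset.1 hsub
    have hR := h.isRelation (by omega) H hd
    by_cases hcase : openVar Q H ⊆ subsumLocus (openVar P H) T
    · have hne : ∃ i, X i ∉ Q := by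
        by_contra hcon
        push Not at hcon
        apply x₀.rep_nonzero
        funext i
        have h1 := hx₀.1 _ (hcon i) 1 (isHomogeneous_X ℂ i)
        unfold VanishesAt at h1
        rwa [eval_X] at h1
      obtain ⟨S, hS, hSu, hSQ⟩ : ∃ S : Finset (Fin (κ + 1)), S.Nonempty ∧ S ≠ Finset.univ ∧
          ∑ i ∈ S, T i ∈ Q := by
        have h1 : ∏ S ∈ Finset.univ.filter (fun S : Finset (Fin (κ + 1)) => S.Nonempty ∧ S ≠ Finset.univ),
            ∑ i ∈ S, T i ∈ Q := by
          refine mem_of_vanishes_openVar hQ hH hHQ hne (IsHomogeneous.prod _ _ (fun _ => d) fun S _ =>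
            IsHomogeneous.sum _ _ _ fun i _ => h.homT i) fun x hx => ?_
          obtain ⟨-, S, hS, hSu, hv⟩ := hcase hx
          unfold VanishesAt at hv ⊢
          rw [map_prod, Finset.prod_eq_zero_iff]
          exact ⟨S, Finset.mem_filter.2 ⟨Finset.mem_univ _, hS, hSu⟩, hv⟩
        obtain ⟨S, hS, h2⟩ := hQp.prod_mem_iff.1 h1
        exact ⟨S, (Finset.mem_filter.1 hS).2.1, (Finset.mem_filter.1 hS).2.2, h2⟩
      rcases term_of_subsum (T := T) hS hSu with h1 | ⟨l, hl⟩
      · exact absurd ⟨⟨fun R hR => hx₀.1 R (hPQ hR), hx₀.2⟩, S, h1.1, h1.2,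
          hx₀.1 _ hSQ d (IsHomogeneous.sum _ _ _ fun i _ => h.homT i)⟩ hx₀'
      · have hlQ := hl Q (hPQ h.sum) hSQ
        exact logGeneralType_of_relation hQ (h.restrict hκ hPQ hlQ hx₀ hx₀').1 hM.pred (hd.succAbove l) hw hz
    · exact logGeneralType_of_relation hQ (hR.restrict hPQ hcase) hM hd hw hz

private lemma pow_eq_zero_iff_aux {x : ℂ} {n : ℕ} (h : x ^ n = 0) : x = 0 := by
  by_contra hx
  exact pow_ne_zero n hx h

/-- Hypersurfaces `∑ X l ^ e * G l = 0` which contain no coordinate point. -/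
theorem isPowerRelation_hyp (hN : 1 ≤ N) {δ e : ℕ} (hδ : δ < e)
    {G : Fin (N + 1) → MvPolynomial (Fin (N + 1)) ℂ} (hG : ∀ l, (G l).IsHomogeneous δ)
    (hG0 : ∀ l, eval (Pi.single l 1) (G l) ≠ 0) :
    IsPowerRelation (Ideal.span {∑ l, X l ^ e * G l})
      (X : Fin (N + 1) → MvPolynomial (Fin (N + 1)) ℂ) (fun l => X l ^ e * G l) G 1 (e + δ)
      (fun _ => e) (fun _ => δ) := by
  have hG1 : ∀ l, G l ≠ 0 := by
    intro l h
    apply hG0 l
    rw [h, map_zero]
  have hR := isRelation_hyp hN hδ hG hG1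
  refine ⟨le_rfl, fun j => isHomogeneous_X ℂ j, hG, fun i => rfl, fun i => by ring, ?_, hR.sum, hR.subsum⟩
  intro l x _ hv
  by_contra hcon
  push Not at hcon
  have h1 : x.rep = (x.rep l) • (Pi.single l 1 : Fin (N + 1) → ℂ) := by
    funext j
    by_cases hj : j = l
    · subst hj
      simp
    · have h2 := hcon j hj
      unfold VanishesAt at h2
      rw [eval_X] at h2
      rw [h2, Pi.smul_apply, Pi.single_eq_of_ne hj, smul_zero]
  have hl : x.rep l ≠ 0 := by
    intro h0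
    apply x.rep_nonzero
    rw [h1, h0, zero_smul]
  unfold VanishesAt at hv
  rw [map_mul, map_pow, eval_X, mul_eq_zero] at hv
  rcases hv with hv | hv
  · exact hl (pow_eq_zero_iff_aux hv)
  · apply hG0 l
    rw [h1] at hv
    have h2 : (x.rep l • (Pi.single l 1 : Fin (N + 1) → ℂ)) =
        fun i => x.rep l * (Pi.single l 1 : Fin (N + 1) → ℂ) i := rfl
    rw [h2, Pool.Agent.H17.eval_smul_of_isHomogeneous (hG l), mul_eq_zero] at hv
    rcases hv with hv | hv
    · exact absurd (pow_eq_zero_iff_aux hv) hl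
    · exact hv

end Pool.Agent.H17R
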