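import Pool.Agent.H17R.Circ
import Pool.Agent.H17R.NevQuot
import Pool.Agent.H17R.ChainMero

/-!
# The second main theorem for a relation, with chains of circuits

PROOF.  Let `D` be the chain of `exists_chain_mero`, `u s j = c s j * (t (e s j) / t (r s))`
(`meroPunct_div`).  Apply `circ_ineq` to all `u s` with `ε' = ε / (1 + ∑ s, n s)` and use
`nevT_quot_le`.  Put `v i = ord (t i)` at a point.
Then `infOrd (withOne (u s)) = min (0, min_j (v (e s j) - v (r s))) =: m s` (`ordZ_div`), and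
`∑ s, m s ≤ infOrd t - v (r 0)` by `ChainData.sum_le`.  Likewise
`log ‖u s j‖ = log ‖c s j‖ + L (e s j) - L (r s)`, `L i = log ‖t i z‖`, so with
`C₀ = max |log ‖c s j‖|` `ChainData.sum_le` (for `v = -L`, `m s = -(supLog (withOne (u s)) + C₀) ≤ 0`)
gives `supLog t z - log ‖t (r 0) z‖ ≤ ∑ s, (supLog (withOne (u s)) z + C₀)` at all `z` where no `t i`
is `0`.
If all `v i` are equal then all `ord (u s j) = 0`, so `lossInd (withOne (u s)) ≤ lossInd t`, and the
loss terms add up to at most `(∑ s, n s (n s - 1) / 2) cnt (lossInd t) ≤ M cnt (lossInd t)`.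
Altogether
`mean (supLog t) - mean log ‖t (r 0)‖ ≤ cnt (infOrd t) - cnt (ord (t (r 0))) + M cnt (lossInd t) +
ε' ∑ s, n s (relHeight t + C (1 + |x|)) + C (1 + |x|)`, and Jensen's formula for `t (r 0)` gives the
claim, since `relHeight t ≥ - C (1 + |x|)` (`relHeight_ge_neg`; it allows to replace
`ε' ∑ s, n s` by `ε`).
-/

open Topology Filter MeasureTheory
open Pool.Agent.H92.GGL (ordZ)
open Pool.Agent.H62.FC (MeroPunct LocFin cnt mean nevT)

noncomputable section

namespace Pool.Agent.H17R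

private theorem SMT_T {ι : Type} [Finite ι] {R₀ R₁ : ℝ} (h : R₁ < R₀) {w : ι → ℂ → ℝ}
    (hw : ∀ i, LocFin R₀ (w i)) {r : ℝ} (hr : 0 < r) :
    ∃ (T : Finset ℂ) (l : ℂ → ℝ), (∀ s ∈ T, r < ‖s‖ ∧ ‖s‖ < R₁ ∧ 0 ≤ l s) ∧
      ∀ w' : ℂ → ℝ, (∀ s, r < ‖s‖ → ‖s‖ < R₁ → (∀ i, w i s = 0) → w' s = 0) →
        cnt w' R₁ r = ∑ s ∈ T, w' s * l s := by
  classical
  have hfin : (⋃ i, {s : ℂ | r ≤ ‖s‖ ∧ ‖s‖ ≤ R₁ ∧ w i s ≠ 0}).Finite :=
    Set.finite_iUnion fun i => hw i r R₁ hr h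
  refine ⟨hfin.toFinset.filter fun s => r < ‖s‖ ∧ ‖s‖ < R₁, fun s => Real.log (‖s‖ / r),
    fun s hs => ?_, fun w' hw' => ?_⟩
  · rw [Finset.mem_filter] at hs
    refine ⟨hs.2.1, hs.2.2, Real.log_nonneg ?_⟩
    rw [le_div_iff₀ hr, one_mul]
    exact hs.2.1.le
  · refine Pool.Agent.H62.FC.cnt_eq_sum (fun s h1 h2 h3 => ?_) hr
    rw [Set.Finite.mem_toFinset, Set.mem_iUnion]
    by_contra hcon
    refine h3 (hw' s h1 h2 fun i => ?_)
    by_contra hi
    exact hcon ⟨i, h1.le, h2.le, hi⟩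

private theorem SMT_withOne_le {n : ℕ} {u : Fin n → ℂ → ℂ} {z : ℂ} (j : Fin n) :
    Real.log ‖u j z‖ ≤ supLog (withOne u) z :=
  Finset.le_sup' (f := fun o => Real.log ‖withOne u o z‖) (Finset.mem_univ (some j))

private theorem SMT_withOne_nonneg {n : ℕ} {u : Fin n → ℂ → ℂ} {z : ℂ} :
    0 ≤ supLog (withOne u) z := by
  have h := Finset.le_sup' (f := fun o => Real.log ‖withOne u o z‖) (Finset.mem_univ none)
  refine le_trans (le_of_eq ?_) h
  simp [withOne]

private theorem SMT_infOrd_le {n : ℕ} {u : Fin n → ℂ → ℂ} {s : ℂ} (j : Fin n) :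
    infOrd (withOne u) s ≤ ordZ (u j) s :=
  Finset.inf'_le (f := fun o => ordZ (withOne u o) s) (Finset.mem_univ (some j))

private theorem SMT_infOrd_nonpos {n : ℕ} {u : Fin n → ℂ → ℂ} {s : ℂ} :
    infOrd (withOne u) s ≤ 0 := by
  have h := Finset.inf'_le (f := fun o => ordZ (withOne u o) s) (Finset.mem_univ none)
  refine le_trans h (le_of_eq ?_)
  exact ordZ_const s

theorem smt {ι : Type} [Fintype ι] [DecidableEq ι] [Nonempty ι] {R₀ R₁ : ℝ} (h1 : 0 < R₁)
    (h : R₁ < R₀) (hι : 2 ≤ Fintype.card ι) {t : ι → ℂ → ℂ} (ht : ∀ i, MeroPunct R₀ (t i))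
    (hsum : ∀ z, 0 < ‖z‖ → ‖z‖ < R₀ → ∀ᶠ ζ in 𝓝[≠] z, ∑ i, t i ζ = 0)
    (hsub : ∀ S : Finset ι, S.Nonempty → S ≠ Finset.univ → ∀ z, 0 < ‖z‖ → ‖z‖ < R₀ →
      ¬ ∀ᶠ ζ in 𝓝[≠] z, ∑ i ∈ S, t i ζ = 0) {M : ℕ}
    (hM : ∀ c ≤ Fintype.card ι, (Fintype.card ι + 1 - c) * (c - 1) * (c - 2) ≤ 2 * M) {ε : ℝ}
    (hε : 0 < ε) :
    ∃ (C : ℝ) (E : Set ℝ), volume E ≠ ⊤ ∧ ∀ x, Real.exp (-x) < R₁ → x ∉ E →
      (1 - ε) * relHeight t R₁ x ≤
        M * cnt (lossInd t) R₁ (Real.exp (-x)) + C * (1 + |x|) := by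
  classical
  have hR₀ : 0 < R₀ := h1.trans h
  obtain ⟨V, _, _, y, D, hD, hDt⟩ := exists_chain_mero hR₀ hι ht hsum hsub hM
  set u : (s : Fin (D.p + 1)) → Fin (D.n s) → ℂ → ℂ := fun s j z =>
    D.c s j * (t (D.e s j) z / t (D.r s) z) with hudef
  have hu : ∀ s j, MeroPunct R₀ (u s j) := fun s j => meroPunct_div (ht _) (ht _) (D.c_ne s j)
  set ν : ℝ := ∑ s, (D.n s : ℝ) with hν
  have hν0 : 0 ≤ ν := Finset.sum_nonneg fun s _ => Nat.cast_nonneg _
  set ε' : ℝ := ε / (1 + ν) with hε'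
  have hε'0 : 0 < ε' := div_pos hε (by linarith)
  have hε'ν : ε' * ν ≤ ε := by
    rw [hε', div_mul_eq_mul_div, div_le_iff₀ (by linarith)]
    nlinarith
  have hcirc : ∀ s, ∃ (C : ℝ) (E : Set ℝ), volume E ≠ ⊤ ∧ ∀ x, Real.exp (-x) < R₁ → x ∉ E →
      mean (supLog (withOne (u s))) x ≤
        cnt (fun z => (infOrd (withOne (u s)) z : ℝ)) R₁ (Real.exp (-x)) +
        ((D.n s : ℝ) * ((D.n s : ℝ) - 1) / 2 : ℝ) *
          cnt (lossInd (withOne (u s))) R₁ (Real.exp (-x)) +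
        ε' * ∑ j, nevT (u s j) R₁ x + C * (1 + |x|) := fun s =>
    circ_ineq (D.pos s) h1 h (hu s) (hDt s).1 (hDt s).2 hε'0
  choose Cs Es hEs hCs using hcirc
  have hquot : ∀ s j, ∃ C : ℝ, ∀ x, Real.exp (-x) < R₁ →
      nevT (u s j) R₁ x ≤ relHeight t R₁ x + C * (1 + |x|) := fun s j =>
    nevT_quot_le h1 h ht (D.e s j) (D.r s) (D.c_ne s j)
  choose Cq hCq using hquot
  obtain ⟨A, B, hAB⟩ := (ht (D.r 0)).jensen h1 h
  obtain ⟨Cr, hCr⟩ := relHeight_ge_neg h1 h ht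
  set C₀ : ℝ := ∑ s, ∑ j, |Real.log ‖D.c s j‖| with hC₀
  have hC₀0 : 0 ≤ C₀ := Finset.sum_nonneg fun s _ => Finset.sum_nonneg fun j _ => abs_nonneg _
  have hC₀le : ∀ s j, |Real.log ‖D.c s j‖| ≤ C₀ := by
    intro s j
    have e1 : |Real.log ‖D.c s j‖| ≤ ∑ j, |Real.log ‖D.c s j‖| :=
      Finset.single_le_sum (f := fun j => |Real.log ‖D.c s j‖|) (fun j _ => abs_nonneg _)
        (Finset.mem_univ j)
    have e2 : ∑ j, |Real.log ‖D.c s j‖| ≤ C₀ :=
      Finset.single_le_sum (f := fun s => ∑ j, |Real.log ‖D.c s j‖|)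
        (fun s _ => Finset.sum_nonneg fun j _ => abs_nonneg _) (Finset.mem_univ s)
    exact e1.trans e2
  refine ⟨|A| + |B| + (D.p + 1) * C₀ + ∑ s, Cs s + ε' * ∑ s, ∑ j, Cq s j + (ε - ε' * ν) * Cr,
    ⋃ s, Es s, ?_, fun x hx hxE => ?_⟩
  · refine ne_top_of_le_ne_top ?_ (measure_iUnion_le _)
    rw [tsum_fintype]
    exact ENNReal.sum_ne_top.2 fun s _ => hEs s
  have hr : 0 < Real.exp (-x) := Real.exp_pos _
  have hxR₀ : Real.exp (-x) < R₀ := hx.trans h
  have hxE' : ∀ s, x ∉ Es s := fun s hs => hxE (Set.mem_iUnion.2 ⟨s, hs⟩)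
  have hI : ∀ s, CircleIntegrable (supLog (withOne (u s))) 0 (Real.exp (-x)) := fun s =>
    circleIntegrable_supLog (meroPunct_withOne (hu s)) hxR₀
  have hIr : CircleIntegrable (fun z => Real.log ‖t (D.r 0) z‖) 0 (Real.exp (-x)) :=
    (ht (D.r 0)).circleIntegrable_log hxR₀
  have hI1 : ∀ s, CircleIntegrable (fun z => supLog (withOne (u s)) z + C₀) 0 (Real.exp (-x)) :=
    fun s => (hI s).add (circleIntegrable_const C₀ 0 _)
  have hI2 : CircleIntegrable (fun z => ∑ s, (supLog (withOne (u s)) z + C₀)) 0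
      (Real.exp (-x)) := by
    have e : (fun z => ∑ s, (supLog (withOne (u s)) z + C₀)) =
        ∑ s, fun z => supLog (withOne (u s)) z + C₀ := by
      funext z
      simp only [Finset.sum_apply]
    rw [e]
    exact CircleIntegrable.sum _ fun s _ => hI1 s
  -- (A) the means
  have hA : mean (supLog t) x ≤ mean (fun z => Real.log ‖t (D.r 0) z‖) x +
      (∑ s, mean (supLog (withOne (u s))) x + (D.p + 1) * C₀) := by
    have e1 : mean (supLog t) x ≤
        mean (fun z => Real.log ‖t (D.r 0) z‖ + ∑ s, (supLog (withOne (u s)) z + C₀)) x := by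
      refine mean_le_mean (circleIntegrable_supLog ht hxR₀) (hIr.add hI2) fun z hz => ?_
      have hz0 : 0 < ‖z‖ := hz ▸ hr
      have hz1 : ‖z‖ < R₀ := hz ▸ hxR₀
      filter_upwards [Filter.eventually_all.2 fun i => eventually_ne_zero (ht i) hz0 hz1] with ζ hζ
      have hsl := D.sum_le (v := fun i => - Real.log ‖t i ζ‖)
        (m := fun s => -(supLog (withOne (u s)) ζ + C₀))
        (fun s => by
          have := SMT_withOne_nonneg (u := u s) (z := ζ)
          show -(supLog (withOne (u s)) ζ + C₀) ≤ 0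
          linarith)
        (fun s j => by
          have e2 := SMT_withOne_le (u := u s) (z := ζ) j
          have e3 : Real.log ‖u s j ζ‖ = Real.log ‖D.c s j‖ + (Real.log ‖t (D.e s j) ζ‖ -
              Real.log ‖t (D.r s) ζ‖) := by
            show Real.log ‖D.c s j * (t (D.e s j) ζ / t (D.r s) ζ)‖ = _
            rw [norm_mul, norm_div, Real.log_mul (norm_ne_zero_iff.2 (D.c_ne s j))
              (div_ne_zero (norm_ne_zero_iff.2 (hζ _)) (norm_ne_zero_iff.2 (hζ _))),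
              Real.log_div (norm_ne_zero_iff.2 (hζ _)) (norm_ne_zero_iff.2 (hζ _))]
          have e4 := neg_abs_le (Real.log ‖D.c s j‖)
          have e5 := hC₀le s j
          show -(supLog (withOne (u s)) ζ + C₀) ≤ - Real.log ‖t (D.e s j) ζ‖ -
            - Real.log ‖t (D.r s) ζ‖
          linarith)
      refine Finset.sup'_le _ _ fun i _ => ?_
      have e6 := hsl i
      rw [Finset.sum_neg_distrib] at e6
      linarith
    refine e1.trans (le_of_eq ?_)
    unfold mean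
    rw [Real.circleAverage_fun_add hIr hI2, Real.circleAverage_fun_sum fun s _ => hI1 s]
    congr 1
    rw [Finset.sum_congr rfl fun s _ =>
      Real.circleAverage_fun_add (hI s) (circleIntegrable_const C₀ 0 (Real.exp (-x)))]
    rw [Finset.sum_add_distrib, Real.circleAverage_const, Finset.sum_const, Finset.card_univ,
      Fintype.card_fin, nsmul_eq_mul]
    push_cast
    ring
  -- (B), (C) the counting functions
  obtain ⟨T, l, hT, hcnt⟩ := SMT_T (w := fun i z => (ordZ (t i) z : ℝ)) h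
    (fun i => (ht i).locFin) hr
  have hord : ∀ s j z, Real.exp (-x) < ‖z‖ → ‖z‖ < R₁ →
      ordZ (u s j) z = ordZ (t (D.e s j)) z - ordZ (t (D.r s)) z := fun s j z hz1 hz2 =>
    ordZ_div (ht _) (ht _) (D.c_ne s j) (hr.trans hz1) (hz2.trans h)
  have hz1 : ∀ z, Real.exp (-x) < ‖z‖ → ‖z‖ < R₁ → (∀ i, (ordZ (t i) z : ℝ) = 0) →
      (infOrd t z : ℝ) = 0 := by
    intro z _ _ hz
    have e1 : infOrd t z = 0 := by
      unfold infOrd
      refine le_antisymm ?_ ?_
      · obtain ⟨i⟩ := ‹Nonempty ι›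
        refine (Finset.inf'_le (f := fun i => ordZ (t i) z) (Finset.mem_univ i)).trans ?_
        exact (Int.cast_eq_zero.1 (hz i)).le
      · exact Finset.le_inf' _ _ fun i _ => (Int.cast_eq_zero.1 (hz i)).ge
    rw [e1, Int.cast_zero]
  have hz2 : ∀ s z, Real.exp (-x) < ‖z‖ → ‖z‖ < R₁ → (∀ i, (ordZ (t i) z : ℝ) = 0) →
      (infOrd (withOne (u s)) z : ℝ) = 0 := by
    intro s z hz1 hz2 hz
    have hz' : ∀ i, ordZ (t i) z = 0 := fun i => Int.cast_eq_zero.1 (hz i)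
    have e1 : infOrd (withOne (u s)) z = 0 := by
      refine le_antisymm SMT_infOrd_nonpos ?_
      refine Finset.le_inf' _ _ fun o _ => ?_
      cases o with
      | none => exact (ordZ_const z).ge
      | some j =>
        show 0 ≤ ordZ (u s j) z
        rw [hord s j z hz1 hz2, hz', hz', sub_zero]
    rw [e1, Int.cast_zero]
  have hloss : ∀ s z, Real.exp (-x) < ‖z‖ → ‖z‖ < R₁ →
      lossInd (withOne (u s)) z ≤ lossInd t z := by
    intro s z hz1 hz2
    unfold lossInd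
    by_cases hall : ∀ i i', ordZ (t i) z = ordZ (t i') z
    · rw [if_pos hall]
      have : ∀ o, ordZ (withOne (u s) o) z = 0 := by
        intro o
        cases o with
        | none => exact ordZ_const z
        | some j =>
          show ordZ (u s j) z = 0
          rw [hord s j z hz1 hz2, hall (D.e s j) (D.r s), sub_self]
      rw [if_pos fun o o' => by rw [this o, this o']]
    · rw [if_neg hall]
      split_ifs <;> norm_num
  have hlt0 : ∀ z, 0 ≤ lossInd t z := fun z => by unfold lossInd; split_ifs <;> norm_num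
  have hlu0 : ∀ s z, 0 ≤ lossInd (withOne (u s)) z := fun s z => by
    unfold lossInd; split_ifs <;> norm_num
  have hz3 : ∀ z, Real.exp (-x) < ‖z‖ → ‖z‖ < R₁ → (∀ i, (ordZ (t i) z : ℝ) = 0) →
      lossInd t z = 0 := by
    intro z _ _ hz
    unfold lossInd
    rw [if_pos fun i i' => by
      rw [Int.cast_eq_zero.1 (hz i), Int.cast_eq_zero.1 (hz i')]]
  have hz4 : ∀ s z, Real.exp (-x) < ‖z‖ → ‖z‖ < R₁ → (∀ i, (ordZ (t i) z : ℝ) = 0) →
      lossInd (withOne (u s)) z = 0 := fun s z hz1 hz2 hz =>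
    le_antisymm ((hloss s z hz1 hz2).trans (hz3 z hz1 hz2 hz).le) (hlu0 s z)
  have hcA := hcnt (fun z => (infOrd t z : ℝ)) hz1
  have hcB := fun s => hcnt (fun z => (infOrd (withOne (u s)) z : ℝ)) (hz2 s)
  have hcC := hcnt (lossInd t) hz3
  have hcD := fun s => hcnt (lossInd (withOne (u s))) (hz4 s)
  have hcE := hcnt (fun z => (ordZ (t (D.r 0)) z : ℝ)) fun z _ _ hz => hz (D.r 0)
  have hB : (∑ s, cnt (fun z => (infOrd (withOne (u s)) z : ℝ)) R₁ (Real.exp (-x))) +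
      cnt (fun z => (ordZ (t (D.r 0)) z : ℝ)) R₁ (Real.exp (-x)) ≤
      cnt (fun z => (infOrd t z : ℝ)) R₁ (Real.exp (-x)) := by
    rw [hcA, hcE, Finset.sum_congr rfl fun s _ => hcB s, Finset.sum_comm,
      ← Finset.sum_add_distrib]
    refine Finset.sum_le_sum fun z hz => ?_
    obtain ⟨hz1, hz2, hl⟩ := hT z hz
    rw [← Finset.sum_mul, ← add_mul]
    refine mul_le_mul_of_nonneg_right ?_ hl
    have hsl := D.sum_le (v := fun i => ordZ (t i) z) (m := fun s => infOrd (withOne (u s)) z)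
      (fun s => SMT_infOrd_nonpos)
      (fun s j => by
        have := SMT_infOrd_le (u := u s) (s := z) j
        rw [hord s j z hz1 hz2] at this
        exact this)
    have e1 : ∑ s, infOrd (withOne (u s)) z + ordZ (t (D.r 0)) z ≤ infOrd t z := by
      refine Finset.le_inf' _ _ fun i _ => ?_
      have := hsl i
      linarith
    exact_mod_cast e1
  have hC : ∀ s, cnt (lossInd (withOne (u s))) R₁ (Real.exp (-x)) ≤
      cnt (lossInd t) R₁ (Real.exp (-x)) := by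
    intro s
    rw [hcC, hcD s]
    refine Finset.sum_le_sum fun z hz => ?_
    obtain ⟨hz1, hz2, hl⟩ := hT z hz
    exact mul_le_mul_of_nonneg_right (hloss s z hz1 hz2) hl
  have hL0 : 0 ≤ cnt (lossInd t) R₁ (Real.exp (-x)) :=
    Pool.Agent.H62.FC.cnt_nonneg hr hlt0
  set L := cnt (lossInd t) R₁ (Real.exp (-x)) with hL
  have hn1 : ∀ s, (0 : ℝ) ≤ (D.n s : ℝ) * ((D.n s : ℝ) - 1) / 2 := by
    intro s
    have := D.pos s
    have : (1 : ℝ) ≤ D.n s := by exact_mod_cast this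
    have : 0 ≤ (D.n s : ℝ) - 1 := by linarith
    positivity
  have hMs : ∑ s, (D.n s : ℝ) * ((D.n s : ℝ) - 1) / 2 ≤ M := by
    have e1 : ((∑ s, D.n s * (D.n s - 1) : ℕ) : ℝ) ≤ ((2 * M : ℕ) : ℝ) := by exact_mod_cast hD
    have e2 : ((∑ s, D.n s * (D.n s - 1) : ℕ) : ℝ) = ∑ s, (D.n s : ℝ) * ((D.n s : ℝ) - 1) := by
      rw [Nat.cast_sum]
      refine Finset.sum_congr rfl fun s _ => ?_
      rw [Nat.cast_mul, Nat.cast_sub (D.pos s), Nat.cast_one]
    rw [e2] at e1
    rw [← Finset.sum_div]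
    push_cast at e1
    linarith
  -- assembly
  set R := relHeight t R₁ x with hR
  have hsumq : ∀ s, ∑ j, nevT (u s j) R₁ x ≤ (D.n s : ℝ) * R + (∑ j, Cq s j) * (1 + |x|) := by
    intro s
    calc ∑ j, nevT (u s j) R₁ x ≤ ∑ j, (R + Cq s j * (1 + |x|)) :=
          Finset.sum_le_sum fun j _ => hCq s j x hx
      _ = (D.n s : ℝ) * R + (∑ j, Cq s j) * (1 + |x|) := by
          rw [Finset.sum_add_distrib, Finset.sum_const, Finset.card_univ, Fintype.card_fin,
            nsmul_eq_mul, Finset.sum_mul]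
  have hmain : ∑ s, mean (supLog (withOne (u s))) x ≤
      ∑ s, cnt (fun z => (infOrd (withOne (u s)) z : ℝ)) R₁ (Real.exp (-x)) + M * L +
      ε' * (ν * R + (∑ s, ∑ j, Cq s j) * (1 + |x|)) + (∑ s, Cs s) * (1 + |x|) := by
    calc ∑ s, mean (supLog (withOne (u s))) x ≤
        ∑ s, (cnt (fun z => (infOrd (withOne (u s)) z : ℝ)) R₁ (Real.exp (-x)) +
          ((D.n s : ℝ) * ((D.n s : ℝ) - 1) / 2) * L +
          ε' * ((D.n s : ℝ) * R + (∑ j, Cq s j) * (1 + |x|)) + Cs s * (1 + |x|)) := by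
          refine Finset.sum_le_sum fun s _ => (hCs s x hx (hxE' s)).trans ?_
          have e1 := mul_le_mul_of_nonneg_left (hC s) (hn1 s)
          have e2 := mul_le_mul_of_nonneg_left (hsumq s) hε'0.le
          linarith
      _ = ∑ s, cnt (fun z => (infOrd (withOne (u s)) z : ℝ)) R₁ (Real.exp (-x)) +
          (∑ s, (D.n s : ℝ) * ((D.n s : ℝ) - 1) / 2) * L +
          ε' * (ν * R + (∑ s, ∑ j, Cq s j) * (1 + |x|)) + (∑ s, Cs s) * (1 + |x|) := by
          rw [Finset.sum_add_distrib, Finset.sum_add_distrib, Finset.sum_add_distrib,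
            ← Finset.sum_mul, ← Finset.sum_mul, ← Finset.mul_sum, Finset.sum_add_distrib,
            ← Finset.sum_mul, ← Finset.sum_mul]
      _ ≤ _ := by
          have := mul_le_mul_of_nonneg_right hMs hL0
          linarith
  have hJ := hAB x hx
  have hRdef : R = mean (supLog t) x - cnt (fun s => (infOrd t s : ℝ)) R₁ (Real.exp (-x)) := rfl
  have hRneg := hCr x hx
  have hx0 : 0 ≤ |x| := abs_nonneg x
  have e1 : A + B * x ≤ (|A| + |B|) * (1 + |x|) := by
    have a1 := le_abs_self A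
    have a2 : B * x ≤ |B| * |x| := by rw [← abs_mul]; exact le_abs_self _
    nlinarith [abs_nonneg A, abs_nonneg B]
  have e2 : (D.p + 1) * C₀ ≤ (D.p + 1) * C₀ * (1 + |x|) := by
    have : 0 ≤ (D.p + 1) * C₀ := by positivity
    nlinarith
  have e3 : 0 ≤ (ε - ε' * ν) * (R + Cr * (1 + |x|)) := mul_nonneg (by linarith) hRneg
  nlinarith

end Pool.Agent.H17R
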